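import Pool.Agent.W_bb4b37_h24.LapHol

/-! # The Schwarz-Ahlfors lemma -/

set_option autoImplicit false

namespace Pool.Agent.BB4B37

open Complex Filter Topology Set MeasureTheory

/-- Proof. Let `0 < ρ < R`, `g z = e^{χ (f z)} ‖f' z‖ (ρ² - ‖z‖²) / (2 ρ)` on the closed ball of
radius `ρ`; it is continuous and has a maximum at some `z₁`. Claim: `g z₁ ≤ 1` (then at `0`:
`e^{χ (f 0)} ‖f' 0‖ ≤ 2 / ρ`, let `ρ → R`). If `g z₁ > 0` then `‖z₁‖ < ρ`, `f' z₁ ≠ 0`, and near `z₁`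
`log g = χ ∘ f + log ‖f'‖ + log (ρ² - ‖z‖²) - log (2 ρ)` has a local maximum, so its Laplacian is `≤ 0`:
`‖f' z₁‖² e^{2 χ (f z₁)} - 4 ρ² / (ρ² - ‖z₁‖²)² ≤ 0` (`lap_comp_holo`, `lap_log_norm` for `deriv f`,
`lap_log_disk`, `lap_add`), that is `(g z₁)² ≤ 1`. -/
theorem schwarz_ahlfors {Ω : Set ℂ} (hΩ : IsOpen Ω) {χ : ℂ → ℝ} (hχ : ContDiffOn ℝ 2 χ Ω)
    (hlap : ∀ z ∈ Ω, Real.exp (2 * χ z) ≤ lap χ z) {f : ℂ → ℂ} {R : ℝ} (hR : 0 < R)
    (hf : DifferentiableOn ℂ f (Metric.ball 0 R)) (hmaps : MapsTo f (Metric.ball 0 R) Ω) :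
    Real.exp (χ (f 0)) * ‖deriv f 0‖ ≤ 2 / R := by
  have hfa : ∀ z ∈ Metric.ball (0 : ℂ) R, AnalyticAt ℂ f z := fun z hz =>
    hf.analyticAt (Metric.isOpen_ball.mem_nhds hz)
  have key : ∀ ρ, 0 < ρ → ρ < R → Real.exp (χ (f 0)) * ‖deriv f 0‖ ≤ 2 / ρ := by
    intro ρ hρ hρR
    set G : ℂ → ℝ := fun z => Real.exp (χ (f z)) * ‖deriv f z‖ * (ρ ^ 2 - ‖z‖ ^ 2) with hG
    have hsub : Metric.closedBall (0 : ℂ) ρ ⊆ Metric.ball 0 R := Metric.closedBall_subset_ball hρR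
    have hcont : ContinuousOn G (Metric.closedBall 0 ρ) := by
      have h1 : ContinuousOn (fun z => χ (f z)) (Metric.closedBall 0 ρ) :=
        (hχ.continuousOn.comp hf.continuousOn hmaps).mono hsub
      have h2 : ContinuousOn (deriv f) (Metric.closedBall 0 ρ) := fun z hz =>
        (hfa z (hsub hz)).deriv.continuousAt.continuousWithinAt
      exact (h1.rexp.mul h2.norm).mul (by fun_prop)
    obtain ⟨z₁, hz₁, hmax⟩ := (isCompact_closedBall (0 : ℂ) ρ).exists_isMaxOn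
      ⟨0, by simp [hρ.le]⟩ hcont
    have hG1 : G z₁ ≤ 2 * ρ := by
      by_contra hlt
      push Not at hlt
      have hpos : 0 < G z₁ := lt_trans (by positivity) hlt
      have hd : 0 < ρ ^ 2 - ‖z₁‖ ^ 2 := by
        by_contra hc
        push Not at hc
        have : G z₁ ≤ 0 := mul_nonpos_of_nonneg_of_nonpos (by positivity) hc
        linarith
      have hzρ : ‖z₁‖ < ρ := lt_of_pow_lt_pow_left₀ 2 hρ.le (by linarith)
      have h0 : deriv f z₁ ≠ 0 := by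
        intro h0
        rw [hG] at hpos
        simp [h0] at hpos
      have hzR : z₁ ∈ Metric.ball (0 : ℂ) R := hsub hz₁
      have hA := lap_comp_holo (hχ.contDiffAt (hΩ.mem_nhds (hmaps hzR))) (hfa z₁ hzR)
      have hB := lap_log_norm (hfa z₁ hzR).deriv h0
      have hC := lap_log_disk hzρ
      have hmaxL : IsLocalMax (fun w => (χ (f w) + Real.log ‖deriv f w‖) +
          Real.log (ρ ^ 2 - ‖w‖ ^ 2)) z₁ := by
        have e1 : ∀ᶠ w in 𝓝 z₁, w ∈ Metric.ball (0 : ℂ) ρ :=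
          Metric.isOpen_ball.mem_nhds (by simpa using hzρ)
        have e2 : ∀ᶠ w in 𝓝 z₁, deriv f w ≠ 0 :=
          (hfa z₁ hzR).deriv.continuousAt.eventually_ne h0
        have hlog : ∀ w, ‖w‖ < ρ → deriv f w ≠ 0 →
            (χ (f w) + Real.log ‖deriv f w‖) + Real.log (ρ ^ 2 - ‖w‖ ^ 2) = Real.log (G w) := by
          intro w hw hw0
          have h1 : (0 : ℝ) < ‖deriv f w‖ := norm_pos_iff.2 hw0
          have h2 : 0 < ρ ^ 2 - ‖w‖ ^ 2 := by nlinarith [norm_nonneg w]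
          rw [hG]
          simp only
          rw [Real.log_mul (by positivity) h2.ne', Real.log_mul (by positivity) h1.ne',
            Real.log_exp]
        filter_upwards [e1, e2] with w hw1 hw2
        have hwρ : ‖w‖ < ρ := by simpa using hw1
        rw [hlog w hwρ hw2, hlog z₁ hzρ h0]
        have h1 : (0 : ℝ) < ‖deriv f w‖ := norm_pos_iff.2 hw2
        have h2 : 0 < ρ ^ 2 - ‖w‖ ^ 2 := by nlinarith [norm_nonneg w]
        apply Real.log_le_log
        · rw [hG]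
          positivity
        · exact hmax (Metric.ball_subset_closedBall hw1)
      have hlapL := lap_nonpos_of_isLocalMax ((hA.1.add hB.1).add hC.1) hmaxL
      rw [lap_add (hA.1.add hB.1) hC.1, lap_add hA.1 hB.1, hA.2, hB.2, hC.2] at hlapL
      have hexp := hlap (f z₁) (hmaps hzR)
      have h1 : ‖deriv f z₁‖ ^ 2 * Real.exp (2 * χ (f z₁)) ≤
          4 * ρ ^ 2 / (ρ ^ 2 - ‖z₁‖ ^ 2) ^ 2 := by
        have h2 := mul_le_mul_of_nonneg_left hexp (sq_nonneg ‖deriv f z₁‖)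
        rw [neg_div] at hlapL
        linarith
      rw [le_div_iff₀ (by positivity)] at h1
      have h3 : G z₁ ^ 2 ≤ (2 * ρ) ^ 2 := by
        have h4 : G z₁ ^ 2 = ‖deriv f z₁‖ ^ 2 * Real.exp (2 * χ (f z₁)) *
            (ρ ^ 2 - ‖z₁‖ ^ 2) ^ 2 := by
          rw [hG]
          simp only
          rw [two_mul (χ (f z₁)), Real.exp_add]
          ring
        rw [h4]
        linarith
      have h5 := abs_le_of_sq_le_sq' h3 (by positivity)
      linarith
    have hG0 : G 0 ≤ G z₁ := hmax (by simp [hρ.le])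
    have h6 : Real.exp (χ (f 0)) * ‖deriv f 0‖ * ρ ^ 2 ≤ 2 * ρ := by
      have : G 0 = Real.exp (χ (f 0)) * ‖deriv f 0‖ * ρ ^ 2 := by
        rw [hG]
        simp
      linarith
    rw [le_div_iff₀ hρ]
    have h7 : Real.exp (χ (f 0)) * ‖deriv f 0‖ * ρ * ρ ≤ 2 * ρ := by
      calc _ = Real.exp (χ (f 0)) * ‖deriv f 0‖ * ρ ^ 2 := by ring
        _ ≤ _ := h6
    exact le_of_mul_le_mul_right h7 hρ
  rw [le_div_iff₀ hR]
  by_contra hlt
  push Not at hlt
  set c := Real.exp (χ (f 0)) * ‖deriv f 0‖ with hc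
  have hcpos : 0 < c := by
    have hc0 : 0 ≤ c := by positivity
    rcases hc0.eq_or_lt with h | h
    · rw [← h] at hlt
      norm_num at hlt
    · exact h
  obtain ⟨ρ, h1, h2⟩ := exists_between ((div_lt_iff₀' hcpos).2 hlt)
  have hρ : 0 < ρ := lt_trans (by positivity) h1
  have h3 := key ρ hρ h2
  rw [le_div_iff₀ hρ] at h3
  rw [div_lt_iff₀' hcpos] at h1
  linarith

/-- the case `f z = x + z` -/
theorem ahlfors_upper {Ω : Set ℂ} (hΩ : IsOpen Ω) {χ : ℂ → ℝ} (hχ : ContDiffOn ℝ 2 χ Ω)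
    (hlap : ∀ z ∈ Ω, Real.exp (2 * χ z) ≤ lap χ z) {x : ℂ} {R : ℝ} (hR : 0 < R)
    (hx : Metric.ball x R ⊆ Ω) : Real.exp (χ x) ≤ 2 / R := by
  have h := schwarz_ahlfors hΩ hχ hlap (f := fun z => x + z) hR (by fun_prop) (by
    intro z hz
    apply hx
    simpa [Metric.mem_ball, dist_eq_norm] using hz)
  have hd : deriv (fun z : ℂ => x + z) 0 = 1 := by
    rw [deriv_const_add]
    exact deriv_id _
  rw [hd] at h
  simpa using h

end Pool.Agent.BB4B37
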