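import Pool.Agent.W_bb4b37_h5.Statement

/-! # Wirtinger calculus for `px, py, dz, dzb` -/

set_option autoImplicit false

namespace Pool.Agent.BB4B37

open Complex Filter Topology Set MeasureTheory

/-- the derivative in terms of the Wirtinger derivatives -/
theorem fderiv_eq_dz (f : ℂ → ℂ) (z v : ℂ) : fderiv ℝ f z v = dz f z * v + dzb f z * (starRingEnd ℂ) v := by
  have h1 : v = v.re • (1 : ℂ) + v.im • I := by
    rw [real_smul, real_smul, mul_one]; exact (re_add_im v).symm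
  have h2 : (starRingEnd ℂ) v = (v.re : ℂ) - v.im * I := by
    apply Complex.ext <;> simp
  have h3 : fderiv ℝ f z v = (v.re : ℂ) * px f z + (v.im : ℂ) * py f z := by
    conv_lhs => rw [h1]
    rw [map_add, map_smul, map_smul, real_smul, real_smul]; rfl
  have h4 : v = (v.re : ℂ) + v.im * I := (re_add_im v).symm
  rw [h3, dz, dzb, h2]
  conv_rhs => rw [h4]
  simp only [add_re, ofReal_re, mul_re, ofReal_im, I_re, I_im, add_im, mul_im]
  have : (I : ℂ) * I = -1 := I_mul_I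
  ring_nf
  rw [I_sq]
  ring

/-- recognise the Wirtinger derivatives from the derivative -/
theorem dz_of_hasFDerivAt {f : ℂ → ℂ} {z a b : ℂ} {L : ℂ →L[ℝ] ℂ} (h : HasFDerivAt f L z)
    (hL : ∀ v, L v = a * v + b * (starRingEnd ℂ) v) : dz f z = a ∧ dzb f z = b := by
  have h1 : px f z = a + b := by
    rw [px, h.fderiv, hL]; simp
  have h2 : py f z = a * I - b * I := by
    rw [py, h.fderiv, hL, conj_I]; ring
  rw [dz, dzb, h1, h2]
  constructor
  · ring_nf; rw [I_sq]; ring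
  · ring_nf; rw [I_sq]; ring

theorem dz_of_fderiv {f : ℂ → ℂ} {z a b : ℂ} (h : ∀ v, fderiv ℝ f z v = a * v + b * (starRingEnd ℂ) v) :
    dz f z = a ∧ dzb f z = b := by
  have h1 : px f z = a + b := by rw [px, h]; simp
  have h2 : py f z = a * I - b * I := by rw [py, h, conj_I]; ring
  rw [dz, dzb, h1, h2]
  constructor
  · ring_nf; rw [I_sq]; ring
  · ring_nf; rw [I_sq]; ring

/-- chain rule -/
theorem dz_comp {f g : ℂ → ℂ} {z : ℂ} (hf : DifferentiableAt ℝ f z)
    (hg : DifferentiableAt ℝ g (f z)) :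
    dz (fun w => g (f w)) z = dz g (f z) * dz f z + dzb g (f z) * (starRingEnd ℂ) (dzb f z) ∧
    dzb (fun w => g (f w)) z = dz g (f z) * dzb f z + dzb g (f z) * (starRingEnd ℂ) (dz f z) := by
  apply dz_of_hasFDerivAt (hg.hasFDerivAt.comp z hf.hasFDerivAt)
  intro v
  rw [ContinuousLinearMap.comp_apply, fderiv_eq_dz, fderiv_eq_dz]
  simp only [map_add, map_mul, conj_conj]
  ring

theorem dz_add {f g : ℂ → ℂ} {z : ℂ} (hf : DifferentiableAt ℝ f z) (hg : DifferentiableAt ℝ g z) :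
    dz (fun w => f w + g w) z = dz f z + dz g z ∧
    dzb (fun w => f w + g w) z = dzb f z + dzb g z := by
  apply dz_of_hasFDerivAt (hf.hasFDerivAt.add hg.hasFDerivAt)
  intro v
  rw [add_apply, fderiv_eq_dz, fderiv_eq_dz]
  ring

theorem dz_sub {f g : ℂ → ℂ} {z : ℂ} (hf : DifferentiableAt ℝ f z) (hg : DifferentiableAt ℝ g z) :
    dz (fun w => f w - g w) z = dz f z - dz g z ∧
    dzb (fun w => f w - g w) z = dzb f z - dzb g z := by
  apply dz_of_hasFDerivAt (hf.hasFDerivAt.sub hg.hasFDerivAt)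
  intro v
  rw [sub_apply, fderiv_eq_dz, fderiv_eq_dz]
  ring

theorem dz_mul {f g : ℂ → ℂ} {z : ℂ} (hf : DifferentiableAt ℝ f z) (hg : DifferentiableAt ℝ g z) :
    dz (fun w => f w * g w) z = dz f z * g z + f z * dz g z ∧
    dzb (fun w => f w * g w) z = dzb f z * g z + f z * dzb g z := by
  apply dz_of_hasFDerivAt (hf.hasFDerivAt.mul hg.hasFDerivAt)
  intro v
  simp only [add_apply, smul_apply, fderiv_eq_dz, smul_eq_mul]
  ring

theorem dz_const (c z : ℂ) : dz (fun _ => c) z = 0 ∧ dzb (fun _ => c) z = 0 := by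
  apply dz_of_hasFDerivAt (hasFDerivAt_const c z)
  intro v; simp

theorem dz_id (z : ℂ) : dz (fun w => w) z = 1 ∧ dzb (fun w => w) z = 0 := by
  apply dz_of_hasFDerivAt (hasFDerivAt_id z)
  intro v; simp

/-- conjugate of a function -/
theorem dz_conj {f : ℂ → ℂ} {z : ℂ} (hf : DifferentiableAt ℝ f z) :
    dz (fun w => (starRingEnd ℂ) (f w)) z = (starRingEnd ℂ) (dzb f z) ∧ dzb (fun w => (starRingEnd ℂ) (f w)) z = (starRingEnd ℂ) (dz f z) := by
  apply dz_of_hasFDerivAt (conjCLE.toContinuousLinearMap.hasFDerivAt.comp z hf.hasFDerivAt)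
  intro v
  show (starRingEnd ℂ) (fderiv ℝ f z v) = _
  rw [fderiv_eq_dz]
  simp only [map_add, map_mul, conj_conj]
  ring

/-- holomorphic functions -/
theorem dz_of_hasDerivAt {f : ℂ → ℂ} {z f' : ℂ} (h : HasDerivAt f f' z) :
    dz f z = f' ∧ dzb f z = 0 := by
  apply dz_of_hasFDerivAt (h.hasFDerivAt.restrictScalars ℝ)
  intro v
  simp [mul_comm]

/-- real functions -/
theorem dzb_cx {φ : ℂ → ℝ} {z : ℂ} (hφ : DifferentiableAt ℝ φ z) :
    dzb (cx φ) z = (starRingEnd ℂ) (dz (cx φ) z) := by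
  have h : DifferentiableAt ℝ (cx φ) z := ofRealCLM.differentiableAt.comp z hφ
  have h1 := (dz_conj h).2
  have h2 : (fun w => (starRingEnd ℂ) (cx φ w)) = cx φ := by
    funext w; exact conj_ofReal _
  rwa [h2] at h1

/-- the derivative of a real function in terms of `dz` -/
theorem fderiv_real_eq {φ : ℂ → ℝ} {z : ℂ} (hφ : DifferentiableAt ℝ φ z) (v : ℂ) :
    fderiv ℝ φ z v = 2 * (dz (cx φ) z * v).re := by
  have h : HasFDerivAt (cx φ) (ofRealCLM.comp (fderiv ℝ φ z)) z :=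
    ofRealCLM.hasFDerivAt.comp z hφ.hasFDerivAt
  have h1 : ((fderiv ℝ φ z v : ℝ) : ℂ) = fderiv ℝ (cx φ) z v := by rw [h.fderiv]; rfl
  rw [fderiv_eq_dz, dzb_cx hφ] at h1
  have h2 := congrArg Complex.re h1
  simp only [ofReal_re, add_re, mul_re, conj_re, conj_im] at h2
  rw [h2, mul_re]; ring

end Pool.Agent.BB4B37
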