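import Pool.Agent.W_bb4b37_h5.Defs
import Pool.Agent.W_bb4b37_h24.Wirt

/-! # The area bound for quasiconformal diffeomorphisms -/

set_option autoImplicit false

namespace Pool.Agent.BB4B37

open Complex Filter Topology Set MeasureTheory

/-- the Jacobian in terms of the Wirtinger derivatives -/
theorem det_fderiv_eq (f : ℂ → ℂ) (z : ℂ) :
    (fderiv ℝ f z).det = ‖dz f z‖ ^ 2 - ‖dzb f z‖ ^ 2 := by
  have h0 : (fderiv ℝ f z).det =
      ((px f z).re * (py f z).im - (py f z).re * (px f z).im) := by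
    rw [ContinuousLinearMap.det, ← LinearMap.det_toMatrix basisOneI, Matrix.det_fin_two]
    simp [LinearMap.toMatrix_apply, px, py]
  have h1 : px f z = dz f z + dzb f z := by rw [dz, dzb]; ring
  have h2 : py f z = I * (dz f z - dzb f z) := by
    rw [dz, dzb]
    ring_nf
    rw [I_sq]; ring
  rw [h0, h1, h2, ← normSq_eq_norm_sq, ← normSq_eq_norm_sq, normSq_apply, normSq_apply]
  simp only [add_re, add_im, mul_re, mul_im, sub_re, sub_im, I_re, I_im]
  ring

/-- Proof. Change of variables (`MeasureTheory.lintegral_abs_det_fderiv_eq_addHaar_image` or the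
integral version): `vol (f '' K) = ∫_K |det Df| = ∫_K (‖f_z‖² - ‖f_z̄‖²) ≥ (3/4) ∫_K ‖f_z‖²`. -/
theorem area_bound {k : ℝ} (hk : k ≤ 1 / 2) {f : ℂ → ℂ} (hf : IsDf k f) {K : Set ℂ}
    (hK : IsCompact K) : ∫ z in K, ‖dz f z‖ ^ 2 ≤ 2 * (volume (f '' K)).toReal := by
  have hc : ContDiff ℝ 1 f := hf.smooth 1
  have hd : Differentiable ℝ f := hc.differentiable one_ne_zero
  have hcf : Continuous (fderiv ℝ f) := hc.continuous_fderiv one_ne_zero
  have hpx : Continuous (px f) := hcf.clm_apply continuous_const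
  have hpy : Continuous (py f) := hcf.clm_apply continuous_const
  have hdz : Continuous (dz f) := by
    unfold dz
    fun_prop
  have hdzb : Continuous (dzb f) := by
    unfold dzb
    fun_prop
  have h1 : (volume (f '' K)).toReal = ∫ z in K, |(fderiv ℝ f z).det| := by
    have h := integral_image_eq_integral_abs_det_fderiv_smul volume hK.measurableSet
      (fun x _ => (hd x).hasFDerivAt.hasFDerivWithinAt) (hf.bij.1.injOn) (fun _ => (1 : ℝ))
    simp only [smul_eq_mul, mul_one] at h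
    rw [← h, setIntegral_const, smul_eq_mul, mul_one, measureReal_def]
  rw [h1, ← integral_const_mul]
  have hc1 : Continuous (fun z => ‖dz f z‖ ^ 2) := hdz.norm.pow 2
  have hc2 : Continuous (fun z => 2 * |(fderiv ℝ f z).det|) := by
    have : (fun z => 2 * |(fderiv ℝ f z).det|) = fun z => 2 * |‖dz f z‖ ^ 2 - ‖dzb f z‖ ^ 2| := by
      funext z; rw [det_fderiv_eq]
    rw [this]
    fun_prop
  refine setIntegral_mono_on (hc1.continuousOn.integrableOn_compact hK)
    (hc2.continuousOn.integrableOn_compact hK) hK.measurableSet fun z _ => ?_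
  rw [det_fderiv_eq]
  have h2 : ‖dzb f z‖ ≤ 1 / 2 * ‖dz f z‖ :=
    (hf.bel z).trans (mul_le_mul_of_nonneg_right hk (norm_nonneg _))
  have h3 : ‖dzb f z‖ ^ 2 ≤ (1 / 2 * ‖dz f z‖) ^ 2 := pow_le_pow_left₀ (norm_nonneg _) h2 2
  have h4 : ‖dz f z‖ ^ 2 - ‖dzb f z‖ ^ 2 ≤ |‖dz f z‖ ^ 2 - ‖dzb f z‖ ^ 2| := le_abs_self _
  nlinarith [sq_nonneg ‖dz f z‖]

end Pool.Agent.BB4B37
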