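import Pool.Agent.W_bb4b37_h24.ClsDef

/-! # Scale invariant classes: sums, products, derivatives -/

set_option autoImplicit false

namespace Pool.Agent.BB4B37

open Complex Filter Topology Set MeasureTheory

theorem cls_contDiffAt {F : Type*} [NormedAddCommGroup F] [NormedSpace ℝ F] {n j : ℕ} {a : ℤ}
    {C : ℝ} {E : Set ℂ} (hE : IsClosed E) {g : ℂ → F} (h : Cls n a C E g) {z : ℂ} (hz : z ∉ E)
    (hj : j ≤ n) : ContDiffAt ℝ j g z :=
  (h.smooth.contDiffAt (hE.isOpen_compl.mem_nhds hz)).of_le (by exact_mod_cast hj)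

theorem cls_pow_nonneg (z : ℂ) (E : Set ℂ) (b : ℤ) : 0 ≤ Metric.infDist z E ^ b :=
  zpow_nonneg Metric.infDist_nonneg _

theorem cls_congr {F : Type*} [NormedAddCommGroup F] [NormedSpace ℝ F] {n : ℕ} {a : ℤ} {C : ℝ}
    {E : Set ℂ} (hE : IsClosed E) {f g : ℂ → F} (h : Cls n a C E f) (hfg : ∀ z ∉ E, g z = f z) :
    Cls n a C E g := by
  refine ⟨h.smooth.congr hfg, fun z hz j hj => ?_⟩
  have h1 : g =ᶠ[𝓝 z] f := by
    filter_upwards [hE.isOpen_compl.mem_nhds hz] with w hw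
    exact hfg w hw
  rw [(h1.iteratedFDeriv ℝ j).eq_of_nhds]
  exact h.bound z hz j hj

theorem cls_comp_left {F G : Type*} [NormedAddCommGroup F] [NormedSpace ℝ F]
    [NormedAddCommGroup G] [NormedSpace ℝ G] {n : ℕ} {a : ℤ} {C K : ℝ}
    {E : Set ℂ} (hE : IsClosed E) {g : ℂ → F} (h : Cls n a C E g) (L : F →L[ℝ] G) (hL : ‖L‖ ≤ K) :
    Cls n a (K * C) E (fun z => L (g z)) := by
  refine ⟨L.contDiff.comp_contDiffOn h.smooth, fun z hz j hj => ?_⟩
  have h1 := L.norm_iteratedFDeriv_comp_left (cls_contDiffAt hE h hz hj) le_rfl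
  have h2 := h.bound z hz j hj
  calc ‖iteratedFDeriv ℝ j (fun z => L (g z)) z‖ ≤ ‖L‖ * ‖iteratedFDeriv ℝ j g z‖ := h1
    _ ≤ K * (C * Metric.infDist z E ^ (a - (j : ℤ))) :=
        mul_le_mul hL h2 (norm_nonneg _) ((norm_nonneg _).trans hL)
    _ = K * C * Metric.infDist z E ^ (a - (j : ℤ)) := by ring

theorem cls_fderiv {F : Type*} [NormedAddCommGroup F] [NormedSpace ℝ F] {n : ℕ} {a : ℤ} {C : ℝ}
    {E : Set ℂ} (hE : IsClosed E) {g : ℂ → F} (h : Cls (n + 1) a C E g) :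
    Cls n (a - 1) C E (fderiv ℝ g) := by
  refine ⟨h.smooth.fderiv_of_isOpen hE.isOpen_compl (by norm_cast), fun z hz j hj => ?_⟩
  rw [norm_iteratedFDeriv_fderiv]
  have h1 := h.bound z hz (j + 1) (by omega)
  have h2 : a - 1 - (j : ℤ) = a - ((j + 1 : ℕ) : ℤ) := by
    push_cast
    ring
  rw [h2]
  exact h1

theorem Cls.mono {F : Type*} [NormedAddCommGroup F] [NormedSpace ℝ F] {n m : ℕ} {a : ℤ} {C D : ℝ}
    {E : Set ℂ} {g : ℂ → F} (h : Cls n a C E g) (hm : m ≤ n) (hCD : C ≤ D) : Cls m a D E g :=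
  ⟨h.smooth.of_le (by exact_mod_cast hm), fun z hz j hj =>
    (h.bound z hz j (hj.trans hm)).trans
      (mul_le_mul_of_nonneg_right hCD (cls_pow_nonneg _ _ _))⟩

theorem Cls.add {F : Type*} [NormedAddCommGroup F] [NormedSpace ℝ F] {n : ℕ} {a : ℤ} {C D : ℝ}
    {E : Set ℂ} (hE : IsClosed E) {f g : ℂ → F} (hf : Cls n a C E f) (hg : Cls n a D E g) :
    Cls n a (C + D) E (fun z => f z + g z) := by
  refine ⟨hf.smooth.add hg.smooth, fun z hz j hj => ?_⟩
  have h1 : iteratedFDeriv ℝ j (fun z => f z + g z) z =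
      iteratedFDeriv ℝ j f z + iteratedFDeriv ℝ j g z :=
    iteratedFDeriv_add_apply (cls_contDiffAt hE hf hz hj) (cls_contDiffAt hE hg hz hj)
  rw [h1, add_mul]
  exact (norm_add_le _ _).trans (add_le_add (hf.bound z hz j hj) (hg.bound z hz j hj))

theorem Cls.sub {F : Type*} [NormedAddCommGroup F] [NormedSpace ℝ F] {n : ℕ} {a : ℤ} {C D : ℝ}
    {E : Set ℂ} (hE : IsClosed E) {f g : ℂ → F} (hf : Cls n a C E f) (hg : Cls n a D E g) :
    Cls n a (C + D) E (fun z => f z - g z) := by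
  refine ⟨hf.smooth.sub hg.smooth, fun z hz j hj => ?_⟩
  have h1 : iteratedFDeriv ℝ j (fun z => f z - g z) z =
      iteratedFDeriv ℝ j f z - iteratedFDeriv ℝ j g z :=
    iteratedFDeriv_sub_apply (cls_contDiffAt hE hf hz hj) (cls_contDiffAt hE hg hz hj)
  rw [h1, add_mul]
  exact (norm_sub_le _ _).trans (add_le_add (hf.bound z hz j hj) (hg.bound z hz j hj))

theorem cls_const_nonneg {F : Type*} [NormedAddCommGroup F] [NormedSpace ℝ F] {n : ℕ} {a : ℤ}
    {C : ℝ} {E : Set ℂ} (hE : IsClosed E) (hne : E.Nonempty) {g : ℂ → F} (h : Cls n a C E g)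
    {z : ℂ} (hz : z ∉ E) : 0 ≤ C := by
  have hd : 0 < Metric.infDist z E := (hE.notMem_iff_infDist_pos hne).1 hz
  have h1 := (norm_nonneg _).trans (h.bound z hz 0 (Nat.zero_le _))
  exact nonneg_of_mul_nonneg_left h1 (zpow_pos hd _)

/-- `norm_iteratedFDerivWithin_mul_le` on the open set `Eᶜ` (`iteratedFDerivWithin_of_isOpen`);
`d^{a-i} d^{b-(j-i)} = d^{a+b-j}`, sum of the binomial coefficients `= 2^j ≤ 2^n`. -/
theorem Cls.mul {n : ℕ} {a b : ℤ} {C D : ℝ} {E : Set ℂ} (hE : IsClosed E) (hne : E.Nonempty)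
    {f g : ℂ → ℂ} (hf : Cls n a C E f) (hg : Cls n b D E g) :
    Cls n (a + b) (2 ^ n * C * D) E (fun z => f z * g z) := by
  refine ⟨hf.smooth.mul hg.smooth, fun z hz j hj => ?_⟩
  have hd : 0 < Metric.infDist z E := (hE.notMem_iff_infDist_pos hne).1 hz
  have hC := cls_const_nonneg hE hne hf hz
  have hD := cls_const_nonneg hE hne hg hz
  have ho := hE.isOpen_compl
  have h1 := norm_iteratedFDerivWithin_mul_le hf.smooth hg.smooth ho.uniqueDiffOn
    (show z ∈ Eᶜ from hz) (n := j) (by exact_mod_cast hj)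
  rw [iteratedFDerivWithin_of_isOpen j ho hz] at h1
  refine h1.trans ?_
  have h2 : ∀ i ∈ Finset.range (j + 1), (j.choose i : ℝ) * ‖iteratedFDerivWithin ℝ i f Eᶜ z‖ *
      ‖iteratedFDerivWithin ℝ (j - i) g Eᶜ z‖ ≤
      (j.choose i : ℝ) * (C * D * Metric.infDist z E ^ (a + b - (j : ℤ))) := by
    intro i hi
    have hij : i ≤ j := Nat.lt_succ_iff.1 (Finset.mem_range.1 hi)
    rw [iteratedFDerivWithin_of_isOpen i ho hz, iteratedFDerivWithin_of_isOpen (j - i) ho hz,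
      mul_assoc]
    apply mul_le_mul_of_nonneg_left _ (by positivity)
    have h3 := hf.bound z hz i (hij.trans hj)
    have h4 := hg.bound z hz (j - i) ((Nat.sub_le _ _).trans hj)
    calc ‖iteratedFDeriv ℝ i f z‖ * ‖iteratedFDeriv ℝ (j - i) g z‖
        ≤ (C * Metric.infDist z E ^ (a - (i : ℤ))) *
          (D * Metric.infDist z E ^ (b - ((j - i : ℕ) : ℤ))) :=
          mul_le_mul h3 h4 (norm_nonneg _) (mul_nonneg hC (cls_pow_nonneg _ _ _))
      _ = C * D * (Metric.infDist z E ^ (a - (i : ℤ)) *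
          Metric.infDist z E ^ (b - ((j - i : ℕ) : ℤ))) := by ring
      _ = C * D * Metric.infDist z E ^ (a + b - (j : ℤ)) := by
          rw [← zpow_add₀ hd.ne']
          congr 2
          push_cast [Nat.cast_sub hij]
          ring
  refine (Finset.sum_le_sum h2).trans ?_
  rw [← Finset.sum_mul]
  have h5 : ∑ i ∈ Finset.range (j + 1), (j.choose i : ℝ) = 2 ^ j := by
    exact_mod_cast Nat.sum_range_choose j
  rw [h5]
  have h6 : (2 : ℝ) ^ j ≤ 2 ^ n := pow_le_pow_right₀ (by norm_num) hj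
  have h7 : 0 ≤ C * D * Metric.infDist z E ^ (a + b - (j : ℤ)) :=
    mul_nonneg (mul_nonneg hC hD) (cls_pow_nonneg _ _ _)
  calc (2 : ℝ) ^ j * (C * D * Metric.infDist z E ^ (a + b - (j : ℤ)))
      ≤ 2 ^ n * (C * D * Metric.infDist z E ^ (a + b - (j : ℤ))) :=
        mul_le_mul_of_nonneg_right h6 h7
    _ = _ := by ring

theorem Cls.const_mul {n : ℕ} {a : ℤ} {C : ℝ} {E : Set ℂ} (hE : IsClosed E) {g : ℂ → ℂ} (c : ℂ)
    (hg : Cls n a C E g) : Cls n a (‖c‖ * C) E (fun z => c * g z) := by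
  have h := cls_comp_left hE hg (ContinuousLinearMap.mul ℝ ℂ c) (K := ‖c‖)
    (ContinuousLinearMap.opNorm_mul_apply_le ℝ ℂ c)
  exact h

/-- composition with the isometry `conj` -/
theorem Cls.conj' {n : ℕ} {a : ℤ} {C : ℝ} {E : Set ℂ} (hE : IsClosed E) {g : ℂ → ℂ}
    (hg : Cls n a C E g) : Cls n a C E (fun z => (starRingEnd ℂ) (g z)) := by
  have h := cls_comp_left hE hg (conjCLE : ℂ →L[ℝ] ℂ) (K := 1) (by
    rw [Complex.conjCLE_norm])
  rw [one_mul] at h
  exact h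

/-- `T ↦ (T 1 - I T I) / 2` -/
noncomputable def clsDz : (ℂ →L[ℝ] ℂ) →L[ℝ] ℂ :=
  LinearMap.mkContinuous
    { toFun := fun T => (T 1 - I * T I) / 2
      map_add' := fun T S => by
        simp only [add_apply]
        ring
      map_smul' := fun r T => by
        simp only [smul_apply, RingHom.id_apply, real_smul]
        ring } 1 (fun T => by
    show ‖(T 1 - I * T I) / 2‖ ≤ 1 * ‖T‖
    have h1 : ‖T 1‖ ≤ ‖T‖ := by simpa using T.le_opNorm 1
    have h2 : ‖T I‖ ≤ ‖T‖ := by simpa using T.le_opNorm I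
    have h3 : ‖T 1 - I * T I‖ ≤ ‖T 1‖ + ‖I * T I‖ := norm_sub_le _ _
    rw [norm_mul, norm_I, one_mul] at h3
    rw [norm_div, Complex.norm_ofNat]
    linarith)

/-- `T ↦ (T 1 + I T I) / 2` -/
noncomputable def clsDzb : (ℂ →L[ℝ] ℂ) →L[ℝ] ℂ :=
  LinearMap.mkContinuous
    { toFun := fun T => (T 1 + I * T I) / 2
      map_add' := fun T S => by
        simp only [add_apply]
        ring
      map_smul' := fun r T => by
        simp only [smul_apply, RingHom.id_apply, real_smul]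
        ring } 1 (fun T => by
    show ‖(T 1 + I * T I) / 2‖ ≤ 1 * ‖T‖
    have h1 : ‖T 1‖ ≤ ‖T‖ := by simpa using T.le_opNorm 1
    have h2 : ‖T I‖ ≤ ‖T‖ := by simpa using T.le_opNorm I
    have h3 : ‖T 1 + I * T I‖ ≤ ‖T 1‖ + ‖I * T I‖ := norm_add_le _ _
    rw [norm_mul, norm_I, one_mul] at h3
    rw [norm_div, Complex.norm_ofNat]
    linarith)

theorem cls_dz_of_fderiv {n : ℕ} {a : ℤ} {C : ℝ} {E : Set ℂ} (hE : IsClosed E) {g : ℂ → ℂ}
    (hg : Cls n a C E (fderiv ℝ g)) : Cls n a C E (dz g) ∧ Cls n a C E (dzb g) := by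
  have h1 := cls_comp_left hE hg clsDz (K := 1) (LinearMap.mkContinuous_norm_le _ zero_le_one _)
  have h2 := cls_comp_left hE hg clsDzb (K := 1) (LinearMap.mkContinuous_norm_le _ zero_le_one _)
  rw [one_mul] at h1 h2
  exact ⟨h1, h2⟩

/-- `‖D^j (fderiv g v)‖ ≤ ‖D^{j+1} g‖ ‖v‖` (`norm_iteratedFDeriv_fderiv` and composition with the
evaluation at `v`), hence `‖D^j (dz g)‖ ≤ ‖D^{j+1} g‖`; the same for `dzb`. -/
theorem Cls.dz' {n : ℕ} {a : ℤ} {C : ℝ} {E : Set ℂ} (hE : IsClosed E) {g : ℂ → ℂ}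
    (hg : Cls (n + 1) a C E g) : Cls n (a - 1) C E (dz g) ∧ Cls n (a - 1) C E (dzb g) :=
  cls_dz_of_fderiv hE (cls_fderiv hE hg)

/-- the derivative of a solution: only the bounds of order `≥ 1` of `φ` are used -/
theorem Sol.cls_dz {n : ℕ} {s M : ℝ} {E : Set ℂ} (hE : IsClosed E) (hne : E.Nonempty) {φ : ℂ → ℝ}
    (h : Sol (n + 1) s M E φ) : Cls n (-1) M E (dz (cx φ)) ∧ Cls n (-1) M E (dzb (cx φ)) := by
  have ho := hE.isOpen_compl
  -- the derivative of `φ`
  have h1 : Cls n (-1) M E (fderiv ℝ φ) := by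
    refine ⟨h.smooth.fderiv_of_isOpen ho (by norm_cast), fun z hz j hj => ?_⟩
    have hd : 0 < Metric.infDist z E := (hE.notMem_iff_infDist_pos hne).1 hz
    rw [norm_iteratedFDeriv_fderiv]
    have h2 := h.bound z hz (j + 1) (by omega) (by omega)
    have h3 : (-1 : ℤ) - (j : ℤ) = -((j + 1 : ℕ) : ℤ) := by
      push_cast
      ring
    rw [h3, zpow_neg, zpow_natCast, ← div_eq_mul_inv, le_div_iff₀ (by positivity)]
    exact h2
  -- composition with the inclusion of the reals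
  have h2 : Cls n (-1) M E (fderiv ℝ (cx φ)) := by
    have h3 := cls_comp_left hE h1 (ContinuousLinearMap.compL ℝ ℂ ℝ ℂ ofRealCLM) (K := 1) (by
      apply ContinuousLinearMap.opNorm_le_bound _ zero_le_one
      intro T
      rw [ContinuousLinearMap.compL_apply, one_mul]
      refine (ContinuousLinearMap.opNorm_comp_le _ _).trans ?_
      rw [Complex.ofRealCLM_norm, one_mul])
    rw [one_mul] at h3
    apply cls_congr hE h3
    intro z hz
    have h4 : DifferentiableAt ℝ φ z :=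
      (h.smooth.contDiffAt (ho.mem_nhds hz)).differentiableAt (by norm_cast)
    have h5 : HasFDerivAt (cx φ) (ofRealCLM.comp (fderiv ℝ φ z)) z :=
      ofRealCLM.hasFDerivAt.comp z h4.hasFDerivAt
    rw [h5.fderiv]
    rfl
  exact cls_dz_of_fderiv hE h2

end Pool.Agent.BB4B37
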