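import Pool.Agent.W_bb4b37_h24.ClsDef

/-! # Scale invariant classes: exponentials and quotients -/

set_option autoImplicit false

namespace Pool.Agent.BB4B37

open Complex Filter Topology Set MeasureTheory

theorem clsB_pos {E : Set ℂ} (hE : IsClosed E) (hne : E.Nonempty) {z : ℂ} (hz : z ∉ E) :
    0 < Metric.infDist z E := (hE.notMem_iff_infDist_pos hne).1 hz

theorem clsB_within {F : Type*} [NormedAddCommGroup F] [NormedSpace ℝ F] {E : Set ℂ}
    (hE : IsClosed E) {z : ℂ} (hz : z ∉ E) (j : ℕ) (f : ℂ → F) :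
    iteratedFDerivWithin ℝ j f Eᶜ z = iteratedFDeriv ℝ j f z :=
  iteratedFDerivWithin_of_isOpen j hE.isOpen_compl hz

/-- Proof. `norm_iteratedFDerivWithin_comp_le` (or `norm_iteratedFDeriv_comp_le` on a neighbourhood) for
`exp ∘ (-2 φ)`: all derivatives of `x ↦ exp x` at `-2 φ z` have norm `e^{-2 φ z} ≤ e^{2M} d²`
(`Sol.size`), and `‖D^i (-2 φ)‖ ≤ 2 M d^{-i} ≤ (D₀ / d)^i` with `D₀ = max 1 (2 |M|)`. So
`‖D^j‖ ≤ j! e^{2M} d² (D₀/d)^j`. (Use the real exponential and then compose with `ofRealCLM`, or the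
complex one composed with `-2 φ` as complex function.) -/
theorem Sol.cls_exp (n : ℕ) (M : ℝ) : ∃ C : ℝ, 0 < C ∧ ∀ (s : ℝ) (E : Set ℂ), IsClosed E →
    E.Nonempty → ∀ φ : ℂ → ℝ, Sol n s M E φ →
      Cls n 2 C E (fun z => (Real.exp (-2 * φ z) : ℂ)) := by
  set D0 : ℝ := max 1 (2 * M) with hD0
  have hD01 : 1 ≤ D0 := le_max_left _ _
  refine ⟨(n.factorial : ℝ) * Real.exp (2 * M) * D0 ^ n, by positivity, ?_⟩
  intro s E hE hne φ hφ
  have hψ : ContDiffOn ℝ n (fun z => -2 * φ z) Eᶜ := contDiffOn_const.mul hφ.smooth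
  have hexp : ContDiffOn ℝ n (fun z => Real.exp (-2 * φ z)) Eᶜ := hψ.exp
  refine ⟨Complex.ofRealCLM.contDiff.comp_contDiffOn hexp, ?_⟩
  intro z hz j hj
  have hd : 0 < Metric.infDist z E := clsB_pos hE hne hz
  set d := Metric.infDist z E with hdd
  have hU : UniqueDiffOn ℝ Eᶜ := hE.isOpen_compl.uniqueDiffOn
  have h1 : ‖iteratedFDeriv ℝ j (fun z => (Real.exp (-2 * φ z) : ℂ)) z‖ =
      ‖iteratedFDerivWithin ℝ j (fun z => Real.exp (-2 * φ z)) Eᶜ z‖ := by
    rw [← clsB_within hE hz]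
    exact Complex.ofRealLI.norm_iteratedFDerivWithin_comp_left (hexp z hz) hU hz
      (by exact_mod_cast hj)
  rw [h1]
  have hexpb : Real.exp (-2 * φ z) ≤ Real.exp (2 * M) * d ^ 2 := by
    have h2 := hφ.size z hz
    have h3 : -2 * φ z ≤ 2 * M + 2 * Real.log d := by
      have := (abs_le.1 h2).1
      linarith
    calc Real.exp (-2 * φ z) ≤ Real.exp (2 * M + 2 * Real.log d) := Real.exp_le_exp.2 h3
      _ = Real.exp (2 * M) * d ^ 2 := by
        rw [Real.exp_add]
        congr 1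
        rw [two_mul, Real.exp_add, Real.exp_log hd, sq]
  have h4 := norm_iteratedFDerivWithin_comp_le (𝕜 := ℝ) (g := Real.exp)
    (f := fun z => -2 * φ z) (n := j) (s := Eᶜ) (t := univ) (x := z) (N := n)
    (Real.contDiff_exp.contDiffOn) hψ (by exact_mod_cast hj) uniqueDiffOn_univ hU
    (fun _ _ => mem_univ _) hz (C := Real.exp (2 * M) * d ^ 2) (D := D0 / d) ?_ ?_
  · refine h4.trans ?_
    have h5 : (j.factorial : ℝ) ≤ n.factorial := by exact_mod_cast Nat.factorial_le hj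
    have h6 : D0 ^ j ≤ D0 ^ n := pow_le_pow_right₀ hD01 hj
    have h7 : d ^ ((2 : ℤ) - (j : ℤ)) = d ^ 2 / d ^ j := by
      rw [zpow_sub₀ hd.ne', zpow_natCast]
      norm_cast
    rw [h7, div_pow]
    calc (j.factorial : ℝ) * (Real.exp (2 * M) * d ^ 2) * (D0 ^ j / d ^ j)
        = (j.factorial : ℝ) * D0 ^ j * (Real.exp (2 * M) * (d ^ 2 / d ^ j)) := by ring
      _ ≤ (n.factorial : ℝ) * D0 ^ n * (Real.exp (2 * M) * (d ^ 2 / d ^ j)) := by
        gcongr
      _ = (n.factorial : ℝ) * Real.exp (2 * M) * D0 ^ n * (d ^ 2 / d ^ j) := by ring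
  · intro i _
    rw [iteratedFDerivWithin_univ, norm_iteratedFDeriv_eq_norm_iteratedDeriv,
      iteratedDeriv_eq_iterate, Real.iter_deriv_exp, Real.norm_eq_abs, Real.abs_exp]
    exact hexpb
  · intro i hi1 hij
    have h8 : iteratedFDerivWithin ℝ i (fun z => -2 * φ z) Eᶜ z =
        (-2 : ℝ) • iteratedFDerivWithin ℝ i φ Eᶜ z :=
      iteratedFDerivWithin_const_smul_apply (a := (-2 : ℝ))
        ((hφ.smooth z hz).of_le (by exact_mod_cast hij.trans hj)) hU hz
    rw [h8, norm_smul, clsB_within hE hz]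
    have h9 := hφ.bound z hz i hi1 (hij.trans hj)
    have h10 : ‖iteratedFDeriv ℝ i φ z‖ ≤ M / d ^ i := by
      rw [le_div_iff₀ (by positivity)]
      exact h9
    rw [div_pow]
    have h11 : 2 * M ≤ D0 ^ i := by
      calc 2 * M ≤ D0 := le_max_right _ _
        _ = D0 ^ 1 := (pow_one _).symm
        _ ≤ D0 ^ i := pow_le_pow_right₀ hD01 hi1
    calc ‖(-2 : ℝ)‖ * ‖iteratedFDeriv ℝ i φ z‖ ≤ 2 * (M / d ^ i) := by
          rw [norm_neg, Real.norm_ofNat]
          gcongr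
      _ = 2 * M / d ^ i := by ring
      _ ≤ D0 ^ i / d ^ i := by gcongr

/-- Proof. `x ↦ 1 / (1 - x)` on the disk `‖x‖ ≤ 1/2`: its derivatives are bounded by constants
depending on the order only; `norm_iteratedFDerivWithin_comp_le` with the inner function `f`, whose
derivatives of order `i ≥ 1` are `≤ C d^{-i} ≤ (C'/d)^i`, `C' = max 1 C = 1`. -/
theorem Cls.inv_one_sub (n : ℕ) : ∃ C : ℝ, 0 < C ∧ ∀ (E : Set ℂ), IsClosed E →
    E.Nonempty → ∀ f : ℂ → ℂ, Cls n 0 (1 / 2) E f → Cls n 0 C E (fun z => 1 / (1 - f z)) := by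
  -- the outer function
  let g : ℂ → ℂ := fun x => (1 - x)⁻¹
  let t : Set ℂ := Metric.ball 0 1
  have hgt : ContDiffOn ℝ n g t := by
    have h1 : ContDiffOn ℝ n (fun x : ℂ => 1 - x) t := contDiffOn_const.sub contDiffOn_id
    refine h1.inv ?_
    intro x hx h0
    have hx1 : ‖x‖ < 1 := mem_ball_zero_iff.1 hx
    have h2 : x = 1 := (sub_eq_zero.1 h0).symm
    rw [h2, norm_one] at hx1
    exact lt_irrefl _ hx1
  have htU : UniqueDiffOn ℝ t := Metric.isOpen_ball.uniqueDiffOn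
  have hsub : Metric.closedBall (0 : ℂ) (1 / 2) ⊆ t :=
    Metric.closedBall_subset_ball (by norm_num)
  have hK : ∀ i : ℕ, i ≤ n → ∃ K : ℝ, ∀ x ∈ Metric.closedBall (0 : ℂ) (1 / 2),
      ‖iteratedFDerivWithin ℝ i g t x‖ ≤ K := by
    intro i hi
    have hc : ContinuousOn (iteratedFDerivWithin ℝ i g t) t :=
      hgt.continuousOn_iteratedFDerivWithin (by exact_mod_cast hi) htU
    exact (isCompact_closedBall (0 : ℂ) (1 / 2)).exists_bound_of_continuousOn (hc.mono hsub)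
  choose! K hK using hK
  set KK : ℝ := ∑ i ∈ Finset.range (n + 1), |K i| + 1 with hKK
  have hKK0 : 0 < KK := by positivity
  have hKle : ∀ i ≤ n, ∀ x ∈ Metric.closedBall (0 : ℂ) (1 / 2),
      ‖iteratedFDerivWithin ℝ i g t x‖ ≤ KK := by
    intro i hi x hx
    have h1 : |K i| ≤ ∑ i ∈ Finset.range (n + 1), |K i| :=
      Finset.single_le_sum (f := fun i => |K i|) (fun i _ => abs_nonneg _)
        (Finset.mem_range.2 (Nat.lt_succ_of_le hi))
    calc ‖iteratedFDerivWithin ℝ i g t x‖ ≤ K i := hK i hi x hx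
      _ ≤ |K i| := le_abs_self _
      _ ≤ KK := by rw [hKK]; linarith
  refine ⟨(n.factorial : ℝ) * KK, by positivity, ?_⟩
  intro E hE hne f hf
  have hfb : ∀ z ∉ E, f z ∈ Metric.closedBall (0 : ℂ) (1 / 2) := by
    intro z hz
    have h1 := hf.bound z hz 0 (Nat.zero_le _)
    rw [norm_iteratedFDeriv_zero] at h1
    rw [mem_closedBall_zero_iff]
    simpa using h1
  have hmaps : MapsTo f Eᶜ t := fun z hz => hsub (hfb z hz)
  have heq : (fun z => 1 / (1 - f z)) = g ∘ f := by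
    funext z
    simp [g]
  rw [heq]
  refine ⟨hgt.comp hf.smooth hmaps, ?_⟩
  intro z hz j hj
  have hd : 0 < Metric.infDist z E := clsB_pos hE hne hz
  set d := Metric.infDist z E with hdd
  have hU : UniqueDiffOn ℝ Eᶜ := hE.isOpen_compl.uniqueDiffOn
  rw [← clsB_within hE hz]
  have h4 := norm_iteratedFDerivWithin_comp_le (𝕜 := ℝ) (g := g) (f := f) (n := j) (s := Eᶜ)
    (t := t) (x := z) (N := n) hgt hf.smooth (by exact_mod_cast hj) htU hU hmaps hz
    (C := KK) (D := 1 / d) ?_ ?_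
  · refine h4.trans ?_
    have h5 : (j.factorial : ℝ) ≤ n.factorial := by exact_mod_cast Nat.factorial_le hj
    have h7 : d ^ ((0 : ℤ) - (j : ℤ)) = 1 / d ^ j := by
      rw [zero_sub, zpow_neg, zpow_natCast, one_div]
    rw [h7, div_pow, one_pow]
    gcongr
  · intro i hi
    exact hKle i (hi.trans hj) _ (hfb z hz)
  · intro i _ hij
    rw [clsB_within hE hz]
    refine (hf.bound z hz i (hij.trans hj)).trans ?_
    rw [zero_sub, zpow_neg, zpow_natCast, div_pow, one_pow, one_div (d ^ i)]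
    have : 0 < (d ^ i)⁻¹ := by positivity
    linarith

end Pool.Agent.BB4B37
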