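import Pool.Agent.W_bb4b37_h24.Wirt

/-! # Basic facts on the Laplacian `lap` -/

set_option autoImplicit false

namespace Pool.Agent.BB4B37

open Complex Filter Topology Set MeasureTheory

section aux

variable {F : Type*} [NormedAddCommGroup F] [NormedSpace ℝ F]

theorem lapx_diff {f : ℂ → F} {z : ℂ} (hf : ContDiffAt ℝ 2 f z) (u : ℂ) :
    DifferentiableAt ℝ (fun w => fderiv ℝ f w u) z :=
  ((hf.fderiv_right (m := 1) (by norm_num)).differentiableAt (by norm_num)).clm_apply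
    (differentiableAt_const _)

theorem lapx_ev {f : ℂ → F} {z : ℂ} (hf : ContDiffAt ℝ 2 f z) :
    ∀ᶠ w in 𝓝 z, DifferentiableAt ℝ f w :=
  (hf.eventually (by simp)).mono fun w hw => hw.differentiableAt (by norm_num)

theorem lapx_second {f : ℂ → F} {z : ℂ} (hf : ContDiffAt ℝ 2 f z) (u v : ℂ) :
    fderiv ℝ (fun w => fderiv ℝ f w u) z v = fderiv ℝ (fderiv ℝ f) z v u := by
  have hfd : DifferentiableAt ℝ (fderiv ℝ f) z :=
    (hf.fderiv_right (m := 1) (by norm_num)).differentiableAt (by norm_num)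
  have := (hfd.hasFDerivAt.clm_apply (hasFDerivAt_const (u : ℂ) z)).fderiv
  rw [this]
  simp

theorem lapx_symm {f : ℂ → F} {z : ℂ} (hf : ContDiffAt ℝ 2 f z) :
    px (py f) z = py (px f) z := by
  change fderiv ℝ (fun w => fderiv ℝ f w I) z 1 = fderiv ℝ (fun w => fderiv ℝ f w 1) z I
  rw [lapx_second hf, lapx_second hf]
  exact (hf.isSymmSndFDerivAt (by simp)).eq 1 I

end aux

/-- both mixed Wirtinger derivatives are a quarter of the Laplacian -/
theorem lapx_wirt {f : ℂ → ℂ} {z : ℂ} (hf : ContDiffAt ℝ 2 f z) :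
    dz (dzb f) z = (px (px f) z + py (py f) z) / 4 ∧
    dzb (dz f) z = (px (px f) z + py (py f) z) / 4 := by
  have h1 : DifferentiableAt ℝ (px f) z := lapx_diff hf 1
  have h2 : DifferentiableAt ℝ (py f) z := lapx_diff hf I
  have hs := lapx_symm hf
  have a1 : HasFDerivAt (px f) (fderiv ℝ (px f) z) z := h1.hasFDerivAt
  have a2 : HasFDerivAt (py f) (fderiv ℝ (py f) z) z := h2.hasFDerivAt
  have b1 : HasFDerivAt (fun w => (2 : ℂ)⁻¹ * (px f w + I * py f w))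
      ((2 : ℂ)⁻¹ • (fderiv ℝ (px f) z + I • fderiv ℝ (py f) z)) z :=
    (a1.add (a2.const_mul I)).const_mul _
  have b2 : HasFDerivAt (fun w => (2 : ℂ)⁻¹ * (px f w - I * py f w))
      ((2 : ℂ)⁻¹ • (fderiv ℝ (px f) z - I • fderiv ℝ (py f) z)) z :=
    (a1.sub (a2.const_mul I)).const_mul _
  have e1 : dzb f = fun w => (2 : ℂ)⁻¹ * (px f w + I * py f w) := by
    funext w; simp only [dzb, div_eq_inv_mul]
  have e2 : dz f = fun w => (2 : ℂ)⁻¹ * (px f w - I * py f w) := by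
    funext w; simp only [dz, div_eq_inv_mul]
  have c1 : ∀ u, fderiv ℝ (dzb f) z u =
      (2 : ℂ)⁻¹ * (fderiv ℝ (px f) z u + I * fderiv ℝ (py f) z u) := by
    intro u
    rw [e1, b1.fderiv]
    rfl
  have c2 : ∀ u, fderiv ℝ (dz f) z u =
      (2 : ℂ)⁻¹ * (fderiv ℝ (px f) z u - I * fderiv ℝ (py f) z u) := by
    intro u
    rw [e2, b2.fderiv]
    rfl
  have hs' : fderiv ℝ (py f) z 1 = fderiv ℝ (px f) z I := hs
  rw [show dz (dzb f) z = (fderiv ℝ (dzb f) z 1 - I * fderiv ℝ (dzb f) z I) / 2 from rfl,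
    show dzb (dz f) z = (fderiv ℝ (dz f) z 1 + I * fderiv ℝ (dz f) z I) / 2 from rfl,
    show px (px f) z = fderiv ℝ (px f) z 1 from rfl,
    show py (py f) z = fderiv ℝ (py f) z I from rfl, c1, c1, c2, c2, hs']
  have hI := Complex.I_sq
  constructor
  · linear_combination (-(fderiv ℝ (py f) z I) / 4) * hI
  · linear_combination (-(fderiv ℝ (py f) z I) / 4) * hI

/-- second derivative test in one direction -/
theorem lapx_dir {f : ℂ → ℝ} {z : ℂ} (hf : ContDiffAt ℝ 2 f z) (hmax : IsLocalMax f z) (u : ℂ) :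
    fderiv ℝ (fun w => fderiv ℝ f w u) z u ≤ 0 := by
  by_contra hcon
  rw [not_le] at hcon
  have hline : ∀ t : ℝ, HasDerivAt (fun t : ℝ => z + t • u) u t := by
    intro t
    have h := ((hasDerivAt_id t).smul_const u).const_add z
    simpa using h
  have hcont : Tendsto (fun t : ℝ => z + t • u) (𝓝 0) (𝓝 z) := by
    have h := (hline 0).continuousAt.tendsto
    simpa using h
  obtain ⟨g, hg⟩ : ∃ g : ℝ → ℝ, g = fun t : ℝ => f (z + t • u) := ⟨_, rfl⟩
  have hd : ∀ᶠ t in 𝓝 (0 : ℝ), deriv g t = fderiv ℝ f (z + t • u) u := by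
    filter_upwards [hcont.eventually (lapx_ev hf)] with t ht
    rw [hg]
    exact (ht.hasFDerivAt.comp_hasDerivAt t (hline t)).deriv
  have hz0 : z + (0 : ℝ) • u = z := by simp
  have hdd : deriv (deriv g) 0 = fderiv ℝ (fun w => fderiv ℝ f w u) z u := by
    have h1 : deriv g =ᶠ[𝓝 0] fun t : ℝ => fderiv ℝ f (z + t • u) u := hd
    rw [h1.deriv_eq]
    have h2 : HasFDerivAt (fun w => fderiv ℝ f w u) (fderiv ℝ (fun w => fderiv ℝ f w u) z)
        (z + (0 : ℝ) • u) := by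
      rw [hz0]
      exact (lapx_diff hf u).hasFDerivAt
    exact (h2.comp_hasDerivAt 0 (hline 0)).deriv
  have hgmax : IsLocalMax g 0 := by
    have h1 : ∀ᶠ t in 𝓝 (0 : ℝ), f (z + t • u) ≤ f z := hcont.eventually hmax
    filter_upwards [h1] with t ht
    rw [hg]
    simpa using ht
  have hgc : ContinuousAt g 0 := by
    rw [hg]
    have h1 : ContinuousAt f (z + (0 : ℝ) • u) := by
      rw [hz0]
      exact hf.continuousAt
    exact ContinuousAt.comp (f := fun t : ℝ => z + t • u) h1 (hline 0).continuousAt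
  have hgmin : IsLocalMin g 0 :=
    isLocalMin_of_deriv_deriv_pos (by rw [hdd]; exact hcon) hgmax.deriv_eq_zero hgc
  have hconst : g =ᶠ[𝓝 0] fun _ => g 0 := by
    filter_upwards [hgmax, hgmin] with t h1 h2
    exact le_antisymm h1 h2
  have h3 : deriv g =ᶠ[𝓝 0] fun _ => 0 := by
    have h4 := hconst.deriv
    filter_upwards [h4] with t ht
    rw [ht]
    exact deriv_const t (g 0)
  have h5 : deriv (deriv g) 0 = 0 := by
    rw [h3.deriv_eq]
    exact deriv_const 0 (0 : ℝ)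
  rw [hdd] at h5
  linarith

theorem lap_congr {f g : ℂ → ℝ} {z : ℂ} (h : f =ᶠ[𝓝 z] g) : lap f z = lap g z := by
  have h1 : px f =ᶠ[𝓝 z] px g := h.fderiv.mono fun w hw => by
    change fderiv ℝ f w 1 = fderiv ℝ g w 1
    rw [hw]
  have h2 : py f =ᶠ[𝓝 z] py g := h.fderiv.mono fun w hw => by
    change fderiv ℝ f w I = fderiv ℝ g w I
    rw [hw]
  change fderiv ℝ (px f) z 1 + fderiv ℝ (py f) z I = fderiv ℝ (px g) z 1 + fderiv ℝ (py g) z I
  rw [h1.fderiv_eq, h2.fderiv_eq]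

theorem lap_add {f g : ℂ → ℝ} {z : ℂ} (hf : ContDiffAt ℝ 2 f z) (hg : ContDiffAt ℝ 2 g z) :
    lap (fun w => f w + g w) z = lap f z + lap g z := by
  have key : ∀ u : ℂ, (fun w => fderiv ℝ (fun w => f w + g w) w u) =ᶠ[𝓝 z]
      fun w => fderiv ℝ f w u + fderiv ℝ g w u := by
    intro u
    filter_upwards [lapx_ev hf, lapx_ev hg] with w h1 h2
    have h3 : fderiv ℝ (fun w => f w + g w) w = fderiv ℝ f w + fderiv ℝ g w :=
      (h1.hasFDerivAt.add h2.hasFDerivAt).fderiv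
    rw [h3]
    rfl
  have key2 : ∀ u : ℂ, fderiv ℝ (fun w => fderiv ℝ (fun w => f w + g w) w u) z u =
      fderiv ℝ (fun w => fderiv ℝ f w u) z u + fderiv ℝ (fun w => fderiv ℝ g w u) z u := by
    intro u
    rw [(key u).fderiv_eq]
    have h3 : fderiv ℝ (fun w => fderiv ℝ f w u + fderiv ℝ g w u) z =
        fderiv ℝ (fun w => fderiv ℝ f w u) z + fderiv ℝ (fun w => fderiv ℝ g w u) z :=
      ((lapx_diff hf u).hasFDerivAt.add (lapx_diff hg u).hasFDerivAt).fderiv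
    rw [h3]
    rfl
  have h1 := key2 1
  have h2 := key2 I
  change fderiv ℝ (fun w => fderiv ℝ (fun w => f w + g w) w 1) z 1 +
    fderiv ℝ (fun w => fderiv ℝ (fun w => f w + g w) w I) z I =
    (fderiv ℝ (fun w => fderiv ℝ f w 1) z 1 + fderiv ℝ (fun w => fderiv ℝ f w I) z I) +
    (fderiv ℝ (fun w => fderiv ℝ g w 1) z 1 + fderiv ℝ (fun w => fderiv ℝ g w I) z I)
  rw [h1, h2]
  ring

theorem lap_sub {f g : ℂ → ℝ} {z : ℂ} (hf : ContDiffAt ℝ 2 f z) (hg : ContDiffAt ℝ 2 g z) :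
    lap (fun w => f w - g w) z = lap f z - lap g z := by
  have key : ∀ u : ℂ, (fun w => fderiv ℝ (fun w => f w - g w) w u) =ᶠ[𝓝 z]
      fun w => fderiv ℝ f w u - fderiv ℝ g w u := by
    intro u
    filter_upwards [lapx_ev hf, lapx_ev hg] with w h1 h2
    have h3 : fderiv ℝ (fun w => f w - g w) w = fderiv ℝ f w - fderiv ℝ g w :=
      (h1.hasFDerivAt.sub h2.hasFDerivAt).fderiv
    rw [h3]
    rfl
  have key2 : ∀ u : ℂ, fderiv ℝ (fun w => fderiv ℝ (fun w => f w - g w) w u) z u =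
      fderiv ℝ (fun w => fderiv ℝ f w u) z u - fderiv ℝ (fun w => fderiv ℝ g w u) z u := by
    intro u
    rw [(key u).fderiv_eq]
    have h3 : fderiv ℝ (fun w => fderiv ℝ f w u - fderiv ℝ g w u) z =
        fderiv ℝ (fun w => fderiv ℝ f w u) z - fderiv ℝ (fun w => fderiv ℝ g w u) z :=
      ((lapx_diff hf u).hasFDerivAt.sub (lapx_diff hg u).hasFDerivAt).fderiv
    rw [h3]
    rfl
  have h1 := key2 1
  have h2 := key2 I
  change fderiv ℝ (fun w => fderiv ℝ (fun w => f w - g w) w 1) z 1 +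
    fderiv ℝ (fun w => fderiv ℝ (fun w => f w - g w) w I) z I =
    (fderiv ℝ (fun w => fderiv ℝ f w 1) z 1 + fderiv ℝ (fun w => fderiv ℝ f w I) z I) -
    (fderiv ℝ (fun w => fderiv ℝ g w 1) z 1 + fderiv ℝ (fun w => fderiv ℝ g w I) z I)
  rw [h1, h2]
  ring

theorem lap_const_mul {f : ℂ → ℝ} {z : ℂ} (c : ℝ) (hf : ContDiffAt ℝ 2 f z) :
    lap (fun w => c * f w) z = c * lap f z := by
  have key : ∀ u : ℂ, (fun w => fderiv ℝ (fun w => c * f w) w u) =ᶠ[𝓝 z]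
      fun w => c * fderiv ℝ f w u := by
    intro u
    filter_upwards [lapx_ev hf] with w h1
    have h3 : fderiv ℝ (fun w => c * f w) w = c • fderiv ℝ f w :=
      (h1.hasFDerivAt.const_mul c).fderiv
    rw [h3]
    rfl
  have key2 : ∀ u : ℂ, fderiv ℝ (fun w => fderiv ℝ (fun w => c * f w) w u) z u =
      c * fderiv ℝ (fun w => fderiv ℝ f w u) z u := by
    intro u
    rw [(key u).fderiv_eq]
    have h3 : fderiv ℝ (fun w => c * fderiv ℝ f w u) z =
        c • fderiv ℝ (fun w => fderiv ℝ f w u) z :=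
      ((lapx_diff hf u).hasFDerivAt.const_mul c).fderiv
    rw [h3]
    rfl
  have h1 := key2 1
  have h2 := key2 I
  change fderiv ℝ (fun w => fderiv ℝ (fun w => c * f w) w 1) z 1 +
    fderiv ℝ (fun w => fderiv ℝ (fun w => c * f w) w I) z I =
    c * (fderiv ℝ (fun w => fderiv ℝ f w 1) z 1 + fderiv ℝ (fun w => fderiv ℝ f w I) z I)
  rw [h1, h2]
  ring

theorem lap_add_const {f : ℂ → ℝ} {z : ℂ} (c : ℝ) (hf : ContDiffAt ℝ 2 f z) :
    lap (fun w => f w + c) z = lap f z := by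
  rw [lap_add hf contDiffAt_const]
  have h : lap (fun _ : ℂ => c) z = 0 := by
    have h0 : ∀ u : ℂ, (fun w : ℂ => fderiv ℝ (fun _ : ℂ => c) w u) = fun _ => (0 : ℝ) := by
      intro u
      funext w
      rw [(hasFDerivAt_const c w).fderiv]
      rfl
    change fderiv ℝ (fun w => fderiv ℝ (fun _ : ℂ => c) w 1) z 1 +
      fderiv ℝ (fun w => fderiv ℝ (fun _ : ℂ => c) w I) z I = 0
    rw [h0, h0, (hasFDerivAt_const (0 : ℝ) z).fderiv]
    simp
  rw [h, add_zero]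

/-- `Δ = 4 ∂_z̄ ∂_z` (equality of mixed second derivatives: `ContDiffAt.isSymmSndFDerivAt`). -/
theorem lap_eq {φ : ℂ → ℝ} {z : ℂ} (hφ : ContDiffAt ℝ 2 φ z) :
    ((lap φ z : ℝ) : ℂ) = 4 * dzb (dz (cx φ)) z ∧ ((lap φ z : ℝ) : ℂ) = 4 * dz (dzb (cx φ)) z := by
  have hF : ContDiffAt ℝ 2 (cx φ) z := ofRealCLM.contDiff.contDiffAt.comp z hφ
  have key : ∀ u : ℂ, fderiv ℝ (fun w => fderiv ℝ (cx φ) w u) z u =
      ((fderiv ℝ (fun w => fderiv ℝ φ w u) z u : ℝ) : ℂ) := by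
    intro u
    have h1 : (fun w => fderiv ℝ (cx φ) w u) =ᶠ[𝓝 z] fun w => ((fderiv ℝ φ w u : ℝ) : ℂ) := by
      filter_upwards [lapx_ev hφ] with w hw
      have h2 : fderiv ℝ (cx φ) w = ofRealCLM.comp (fderiv ℝ φ w) :=
        (ofRealCLM.hasFDerivAt.comp w hw.hasFDerivAt).fderiv
      rw [h2]
      rfl
    rw [h1.fderiv_eq]
    have h2 : fderiv ℝ (fun w => ((fderiv ℝ φ w u : ℝ) : ℂ)) z =
        ofRealCLM.comp (fderiv ℝ (fun w => fderiv ℝ φ w u) z) :=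
      (ofRealCLM.hasFDerivAt.comp z (lapx_diff hφ u).hasFDerivAt).fderiv
    rw [h2]
    rfl
  have h1 : px (px (cx φ)) z + py (py (cx φ)) z = ((lap φ z : ℝ) : ℂ) := by
    change fderiv ℝ (fun w => fderiv ℝ (cx φ) w 1) z 1 +
      fderiv ℝ (fun w => fderiv ℝ (cx φ) w I) z I = _
    rw [key, key, ← Complex.ofReal_add]
    rfl
  obtain ⟨h2, h3⟩ := lapx_wirt hF
  rw [h2, h3, h1]
  constructor <;> ring

/-- mixed Wirtinger derivatives commute -/
theorem dz_dzb_comm {f : ℂ → ℂ} {z : ℂ} (hf : ContDiffAt ℝ 2 f z) :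
    dz (dzb f) z = dzb (dz f) z := by
  obtain ⟨h2, h3⟩ := lapx_wirt hf
  rw [h2, h3]

/-- at a local maximum the Laplacian is `≤ 0` (second derivative test on the two coordinate lines:
if `g'' (0) > 0` and `g' (0) = 0` then `0` is a strict local minimum; for instance
`isLocalMin_of_deriv_deriv_pos`, or the Taylor expansion). -/
theorem lap_nonpos_of_isLocalMax {f : ℂ → ℝ} {z : ℂ} (hf : ContDiffAt ℝ 2 f z)
    (hmax : IsLocalMax f z) : lap f z ≤ 0 := by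
  have h1 := lapx_dir hf hmax 1
  have h2 := lapx_dir hf hmax I
  change fderiv ℝ (fun w => fderiv ℝ f w 1) z 1 + fderiv ℝ (fun w => fderiv ℝ f w I) z I ≤ 0
  linarith

/-- the Laplacian of `log (2 + ‖z‖²)` is `8 / (2 + ‖z‖²)² ≤ 2` -/
theorem lap_log_two_add (z : ℂ) : ContDiffAt ℝ 2 (fun w : ℂ => Real.log (2 + ‖w‖ ^ 2)) z ∧
    lap (fun w => Real.log (2 + ‖w‖ ^ 2)) z ≤ 2 := by
  have hpos : ∀ w : ℂ, 0 < 2 + ‖w‖ ^ 2 := fun w => by positivity
  refine ⟨?_, ?_⟩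
  · refine ContDiffAt.log ?_ (hpos z).ne'
    exact contDiffAt_const.add (contDiff_norm_sq ℝ).contDiffAt
  · have hN : ∀ w : ℂ, HasFDerivAt (fun w : ℂ => 2 + ‖w‖ ^ 2)
        (2 • (w.re • reCLM + w.im • imCLM)) w := by
      intro w
      have e : (fun w : ℂ => 2 + ‖w‖ ^ 2) = fun w : ℂ => 2 + (w.re * w.re + w.im * w.im) := by
        funext w
        rw [Complex.sq_norm, Complex.normSq_apply]
      rw [e]
      have h1 : HasFDerivAt (fun w : ℂ => w.re) reCLM w := reCLM.hasFDerivAt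
      have h2 : HasFDerivAt (fun w : ℂ => w.im) imCLM w := imCLM.hasFDerivAt
      have h3 := ((h1.mul h1).add (h2.mul h2)).const_add 2
      refine h3.congr_fderiv ?_
      ext v
      simp
      ring
    have hf1 : ∀ w : ℂ, HasFDerivAt (fun w : ℂ => Real.log (2 + ‖w‖ ^ 2))
        ((2 + ‖w‖ ^ 2)⁻¹ • (2 • (w.re • reCLM + w.im • imCLM))) w := fun w =>
      (hN w).log (hpos w).ne'
    have hinv : ∀ w : ℂ, HasFDerivAt (fun w : ℂ => (2 + ‖w‖ ^ 2)⁻¹)
        (-((2 + ‖w‖ ^ 2) ^ 2)⁻¹ • (2 • (w.re • reCLM + w.im • imCLM))) w := fun w =>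
      (hasDerivAt_inv (hpos w).ne').comp_hasFDerivAt w (hN w)
    have hpx : (fun w => fderiv ℝ (fun w : ℂ => Real.log (2 + ‖w‖ ^ 2)) w 1) =
        fun w => 2 * (w.re * (2 + ‖w‖ ^ 2)⁻¹) := by
      funext w
      rw [(hf1 w).fderiv]
      simp
      ring
    have hpy : (fun w => fderiv ℝ (fun w : ℂ => Real.log (2 + ‖w‖ ^ 2)) w I) =
        fun w => 2 * (w.im * (2 + ‖w‖ ^ 2)⁻¹) := by
      funext w
      rw [(hf1 w).fderiv]
      simp
      ring
    have hre : HasFDerivAt (fun w : ℂ => w.re) reCLM z := reCLM.hasFDerivAt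
    have him : HasFDerivAt (fun w : ℂ => w.im) imCLM z := imCLM.hasFDerivAt
    have hd1 := ((hre.mul (hinv z)).const_mul 2).fderiv
    have hd2 := ((him.mul (hinv z)).const_mul 2).fderiv
    have hx1 : fderiv ℝ (fun w : ℂ => 2 * (w.re * (2 + ‖w‖ ^ 2)⁻¹)) z 1 =
        2 * ((2 + ‖z‖ ^ 2)⁻¹ - 2 * z.re ^ 2 * ((2 + ‖z‖ ^ 2) ^ 2)⁻¹) := by
      refine (congrArg (fun L : ℂ →L[ℝ] ℝ => L 1) hd1).trans ?_
      simp
      ring
    have hx2 : fderiv ℝ (fun w : ℂ => 2 * (w.im * (2 + ‖w‖ ^ 2)⁻¹)) z I =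
        2 * ((2 + ‖z‖ ^ 2)⁻¹ - 2 * z.im ^ 2 * ((2 + ‖z‖ ^ 2) ^ 2)⁻¹) := by
      refine (congrArg (fun L : ℂ →L[ℝ] ℝ => L I) hd2).trans ?_
      simp
      ring
    change fderiv ℝ (fun w => fderiv ℝ (fun w : ℂ => Real.log (2 + ‖w‖ ^ 2)) w 1) z 1 +
      fderiv ℝ (fun w => fderiv ℝ (fun w : ℂ => Real.log (2 + ‖w‖ ^ 2)) w I) z I ≤ 2
    rw [hpx, hpy, hx1, hx2]
    have hn : ‖z‖ ^ 2 = z.re ^ 2 + z.im ^ 2 := by
      rw [Complex.sq_norm, Complex.normSq_apply]; ring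
    have h4 : 2 * ((2 + ‖z‖ ^ 2)⁻¹ - 2 * z.re ^ 2 * ((2 + ‖z‖ ^ 2) ^ 2)⁻¹) +
        2 * ((2 + ‖z‖ ^ 2)⁻¹ - 2 * z.im ^ 2 * ((2 + ‖z‖ ^ 2) ^ 2)⁻¹) =
        8 / (2 + ‖z‖ ^ 2) ^ 2 := by
      have h5 : z.re ^ 2 = ‖z‖ ^ 2 - z.im ^ 2 := by linarith
      have h6 := (hpos z).ne'
      rw [h5]
      field_simp
      ring
    rw [h4, div_le_iff₀ (by positivity)]
    nlinarith [sq_nonneg ‖z‖, sq_nonneg (‖z‖ ^ 2)]

end Pool.Agent.BB4B37
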