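import Pool.Agent.W_bb4b37_h24.ClsA
import Pool.Agent.W_bb4b37_h24.ClsB
import Pool.Agent.W_bb4b37_h24.Lap

/-! # The Beltrami coefficient of a K-surface is small in the scale invariant `C^n` norm -/

set_option autoImplicit false

namespace Pool.Agent.BB4B37

open Complex Filter Topology Set MeasureTheory

/-- only the values on the open set `Eᶜ` matter -/
theorem Cls.congr_compl {F : Type*} [NormedAddCommGroup F] [NormedSpace ℝ F] {n : ℕ} {a : ℤ}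
    {C : ℝ} {E : Set ℂ} (hE : IsClosed E) {f g : ℂ → F} (hf : Cls n a C E f)
    (h : ∀ z ∉ E, f z = g z) : Cls n a C E g := by
  refine ⟨hf.smooth.congr fun z hz => (h z hz).symm, fun z hz j hj => ?_⟩
  have h1 : g =ᶠ[𝓝 z] f := by
    filter_upwards [hE.isOpen_compl.mem_nhds hz] with w hw using (h w hw).symm
  rw [(h1.iteratedFDeriv ℝ j).eq_of_nhds]
  exact hf.bound z hz j hj

theorem Sol.mono_order {n m : ℕ} (hmn : m ≤ n) {s M : ℝ} {E : Set ℂ} {φ : ℂ → ℝ}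
    (h : Sol n s M E φ) : Sol m s M E φ :=
  ⟨h.smooth.of_le (by exact_mod_cast hmn), h.size,
    fun z hz j h1 h2 => h.bound z hz j h1 (h2.trans hmn), h.eq⟩

/-- `Q = 4 e^{-2φ} (dz (dz φ) - (dz φ)²)`: `Sol.cls_dz`, `Cls.dz'`, `Cls.mul`, `Sol.cls_exp`. -/
theorem Sol.cls_Qc (n : ℕ) (M : ℝ) : ∃ C : ℝ, 0 < C ∧ ∀ (s : ℝ) (E : Set ℂ), IsClosed E →
    E.Nonempty → ∀ φ : ℂ → ℝ, Sol (n + 2) s M E φ → Cls n 0 C E (Qc φ) := by
  obtain ⟨Ce, hCe, hexp⟩ := Sol.cls_exp n M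
  refine ⟨|‖(4 : ℂ)‖ * (2 ^ n * Ce * (M + 2 ^ n * M * M))| + 1, by positivity,
    fun s E hE hne φ h => ?_⟩
  have h1 : Cls (n + 1) (-1) M E (dz (cx φ)) := (Sol.cls_dz hE hne (n := n + 1) h).1
  have h2 : Cls n (-1 - 1) M E (dz (dz (cx φ))) := (h1.dz' hE).1
  have h3 : Cls n (-1) M E (dz (cx φ)) := h1.mono (Nat.le_succ n) le_rfl
  have h4 : Cls n (-1 + -1) (2 ^ n * M * M) E (fun z => dz (cx φ) z * dz (cx φ) z) :=
    h3.mul hE hne h3
  have h5 : Cls n (-2) (M + 2 ^ n * M * M) E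
      (fun z => dz (dz (cx φ)) z - dz (cx φ) z * dz (cx φ) z) := by
    have e1 : (-1 - 1 : ℤ) = -2 := by norm_num
    have e2 : (-1 + -1 : ℤ) = -2 := by norm_num
    rw [e1] at h2
    rw [e2] at h4
    exact h2.sub hE h4
  have h6 := hexp s E hE hne φ (h.mono_order (Nat.le_add_right n 2))
  have h7 := (h6.mul hE hne h5).const_mul hE (4 : ℂ)
  have e3 : (2 + -2 : ℤ) = 0 := by norm_num
  rw [e3] at h7
  have h8 : (fun z => (4 : ℂ) * ((Real.exp (-2 * φ z) : ℂ) *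
      (dz (dz (cx φ)) z - dz (cx φ) z * dz (cx φ) z))) = Qc φ := by
    funext z
    unfold Qc
    ring
  rw [h8] at h7
  exact h7.mono le_rfl ((le_abs_self _).trans (by linarith))

/-- `L = e^{-2φ} · 4 dzb (dz φ)` (`lap_eq`; the two functions agree on the open set `Eᶜ`). -/
theorem Sol.cls_Lc (n : ℕ) (M : ℝ) : ∃ C : ℝ, 0 < C ∧ ∀ (s : ℝ) (E : Set ℂ), IsClosed E →
    E.Nonempty → ∀ φ : ℂ → ℝ, Sol (n + 2) s M E φ → Cls n 0 C E (fun z => (Lc φ z : ℂ)) := by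
  obtain ⟨Ce, hCe, hexp⟩ := Sol.cls_exp n M
  refine ⟨|‖(4 : ℂ)‖ * (2 ^ n * Ce * M)| + 1, by positivity, fun s E hE hne φ h => ?_⟩
  have h1 : Cls (n + 1) (-1) M E (dz (cx φ)) := (Sol.cls_dz hE hne (n := n + 1) h).1
  have h2 : Cls n (-1 - 1) M E (dzb (dz (cx φ))) := (h1.dz' hE).2
  have h6 := hexp s E hE hne φ (h.mono_order (Nat.le_add_right n 2))
  have h7 := (h6.mul hE hne h2).const_mul hE (4 : ℂ)
  have e3 : (2 + (-1 - 1) : ℤ) = 0 := by norm_num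
  rw [e3] at h7
  have h8 : Cls n 0 (‖(4 : ℂ)‖ * (2 ^ n * Ce * M)) E (fun z => (Lc φ z : ℂ)) := by
    refine h7.congr_compl hE fun z hz => ?_
    have h9 : ContDiffAt ℝ 2 φ z :=
      (h.smooth.contDiffAt (hE.isOpen_compl.mem_nhds hz)).of_le (by norm_cast; omega)
    unfold Lc
    push_cast
    rw [(lap_eq h9).1]
    ring
  exact h8.mono le_rfl ((le_abs_self _).trans (by linarith))

/-- `bet s φ = - s conj Q / (1 - s L)`: choose `s₀` with `s₀ C_L ≤ 1/2`, then `Cls.inv_one_sub`. -/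
theorem Sol.cls_bet (n : ℕ) (M : ℝ) : ∃ C s₀ : ℝ, 0 < C ∧ 0 < s₀ ∧ ∀ (s : ℝ) (E : Set ℂ),
    IsClosed E → E.Nonempty → 0 ≤ s → s ≤ s₀ → ∀ φ : ℂ → ℝ, Sol (n + 2) s M E φ →
      Cls n 0 (C * s) E (bet s φ) ∧ ∀ z ∉ E, |s * Lc φ z| ≤ 1 / 2 := by
  obtain ⟨CQ, hCQ, hQ⟩ := Sol.cls_Qc n M
  obtain ⟨CL, hCL, hL⟩ := Sol.cls_Lc n M
  obtain ⟨Ci, hCi, hinv⟩ := Cls.inv_one_sub n
  refine ⟨2 ^ n * CQ * Ci, 1 / (2 * CL), by positivity, by positivity,
    fun s E hE hne hs0 hs φ h => ?_⟩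
  have hQ' := hQ s E hE hne φ h
  have hL' := hL s E hE hne φ h
  have hsCL : s * CL ≤ 1 / 2 := by
    calc s * CL ≤ 1 / (2 * CL) * CL := mul_le_mul_of_nonneg_right hs hCL.le
      _ = 1 / 2 := by field_simp
  have hns : ‖(s : ℂ)‖ = s := by rw [Complex.norm_real, Real.norm_eq_abs, abs_of_nonneg hs0]
  have h1 : Cls n 0 (1 / 2) E (fun z => (s : ℂ) * (Lc φ z : ℂ)) :=
    (hL'.const_mul hE (s : ℂ)).mono le_rfl (by rw [hns]; exact hsCL)
  have h2 := hinv E hE hne _ h1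
  have h3 := (hQ'.conj' hE).const_mul hE (-(s : ℂ))
  have h4 := h3.mul hE hne h2
  constructor
  · have e1 : (0 + 0 : ℤ) = 0 := by norm_num
    rw [e1, norm_neg, hns] at h4
    have h5 : (fun z => -(s : ℂ) * (starRingEnd ℂ) (Qc φ z) * (1 / (1 - (s : ℂ) * (Lc φ z : ℂ)))) =
        bet s φ := by
      funext z
      unfold bet
      ring
    rw [h5] at h4
    exact h4.mono le_rfl (le_of_eq (by ring))
  · intro z hz
    have h5 := hL'.bound z hz 0 (Nat.zero_le n)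
    rw [norm_iteratedFDeriv_zero] at h5
    simp only [Nat.cast_zero, sub_zero, zpow_zero, mul_one, Complex.norm_real,
      Real.norm_eq_abs] at h5
    rw [abs_mul, abs_of_nonneg hs0]
    exact (mul_le_mul_of_nonneg_left h5 hs0).trans hsCL

end Pool.Agent.BB4B37
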