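import Pool.Agent.W_bb4b37_h5.Defs
import Pool.Agent.W_bb4b37_h24.Wirt

/-! # Scale invariant classes of functions on the complement of a closed set -/

set_option autoImplicit false

namespace Pool.Agent.BB4B37

open Complex Filter Topology Set MeasureTheory

/-- `g` is `C^n` on `Eᶜ` and `‖D^j g‖ ≤ C d^{a - j}` for `j ≤ n`, `d` = distance to `E`. -/
structure Cls {F : Type*} [NormedAddCommGroup F] [NormedSpace ℝ F] (n : ℕ) (a : ℤ) (C : ℝ)
    (E : Set ℂ) (g : ℂ → F) : Prop where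
  smooth : ContDiffOn ℝ n g Eᶜ
  bound : ∀ z ∉ E, ∀ j : ℕ, j ≤ n →
    ‖iteratedFDeriv ℝ j g z‖ ≤ C * Metric.infDist z E ^ (a - (j : ℤ))

end Pool.Agent.BB4B37
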