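import Pool.Agent.W_bb4b37_h5.Defs
import Pool.Agent.W_bb4b37_h24.Lap

/-! # The Codazzi identity -/

set_option autoImplicit false

namespace Pool.Agent.BB4B37

open Complex Filter Topology Set MeasureTheory

theorem cod_dz_congr {f g : ℂ → ℂ} {z : ℂ} (h : f =ᶠ[𝓝 z] g) : dz f z = dz g z ∧ dzb f z = dzb g z := by
  rw [dz, dz, dzb, dzb, px, px, py, py, h.fderiv_eq]
  exact ⟨rfl, rfl⟩

theorem cod_px_contDiffAt {f : ℂ → ℂ} {z : ℂ} {m n : ℕ} (hf : ContDiffAt ℝ n f z) (h : m + 1 ≤ n) (v : ℂ) :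
    ContDiffAt ℝ m (fun w => fderiv ℝ f w v) z :=
  (hf.fderiv_right (by exact_mod_cast h)).clm_apply contDiffAt_const

theorem cod_dz_contDiffAt {f : ℂ → ℂ} {z : ℂ} {m n : ℕ} (hf : ContDiffAt ℝ n f z) (h : m + 1 ≤ n) :
    ContDiffAt ℝ m (dz f) z ∧ ContDiffAt ℝ m (dzb f) z := by
  have h1 := cod_px_contDiffAt hf h 1
  have h2 := cod_px_contDiffAt hf h I
  exact ⟨(h1.sub (contDiffAt_const.mul h2)).div_const 2, (h1.add (contDiffAt_const.mul h2)).div_const 2⟩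

theorem cod_cx {φ : ℂ → ℝ} {z : ℂ} {n : ℕ} (hφ : ContDiffAt ℝ n φ z) : ContDiffAt ℝ n (cx φ) z :=
  ofRealCLM.contDiff.contDiffAt.comp z hφ

theorem cod_conj_dz {φ : ℂ → ℝ} {z : ℂ} (hφ : ContDiffAt ℝ 1 φ z) :
    (fun w => (starRingEnd ℂ) (dz (cx φ) w)) =ᶠ[𝓝 z] dzb (cx φ) := by
  filter_upwards [hφ.eventually (by simp)] with w hw
  exact (dzb_cx (hw.differentiableAt one_ne_zero)).symm

theorem cod_conj_dzdz {φ : ℂ → ℝ} {z : ℂ} (hφ : ContDiffAt ℝ 2 φ z) :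
    (starRingEnd ℂ) (dz (dz (cx φ)) z) = dzb (dzb (cx φ)) z := by
  have h1 := (cod_dz_contDiffAt (m := 1) (n := 2) (cod_cx hφ) le_rfl).1
  have h2 := (dz_conj (h1.differentiableAt one_ne_zero)).2
  rw [← h2]
  exact (cod_dz_congr (cod_conj_dz (hφ.of_le (by norm_num)))).2

/-- derivatives of `e^{sφ}` -/
theorem cod_exp {φ : ℂ → ℝ} {z : ℂ} (hφ : DifferentiableAt ℝ φ z) (s : ℝ) :
    DifferentiableAt ℝ (fun w => (Real.exp (s * φ w) : ℂ)) z ∧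
    dz (fun w => (Real.exp (s * φ w) : ℂ)) z = s * Real.exp (s * φ z) * dz (cx φ) z ∧
    dzb (fun w => (Real.exp (s * φ w) : ℂ)) z = s * Real.exp (s * φ z) * dzb (cx φ) z := by
  have h := ofRealCLM.hasFDerivAt.comp z (hφ.hasFDerivAt.const_mul s).exp
  refine ⟨h.differentiableAt, dz_of_hasFDerivAt h fun v => ?_⟩
  have h1 : HasFDerivAt (cx φ) (ofRealCLM.comp (fderiv ℝ φ z)) z :=
    ofRealCLM.hasFDerivAt.comp z hφ.hasFDerivAt
  have h2 : ((fderiv ℝ φ z v : ℝ) : ℂ) = fderiv ℝ (cx φ) z v := by rw [h1.fderiv]; rfl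
  rw [fderiv_eq_dz] at h2
  rw [ContinuousLinearMap.comp_apply, smul_apply, smul_apply, ofRealCLM_apply, smul_eq_mul,
    smul_eq_mul, ofReal_mul, ofReal_mul, h2]
  ring

/-- First structure equation for `a = e^φ (1 + σ L)`, `b = e^φ σ conj Q`, `p = i φ_z`:
`b_z - a_z̄ = - (φ_z b + φ_z̄ a)`. With `e^φ conj Q = 4 e^{-φ} (φ_z̄z̄ - φ_z̄²)`,
`e^φ L = 4 e^{-φ} φ_zz̄`: `(e^φ conj Q)_z - (e^φ L)_z̄ = 4 e^{-φ} (-φ_z (φ_z̄z̄ - φ_z̄²) - φ_z̄ φ_zz̄)`. -/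
theorem codazzi {φ : ℂ → ℝ} {z : ℂ} (hφ : ContDiffAt ℝ 3 φ z) (σ : ℝ) :
    dz (fun w => (Real.exp (φ w) : ℂ) * ((σ : ℂ) * (starRingEnd ℂ) (Qc φ w))) z -
      dzb (fun w => (Real.exp (φ w) : ℂ) * (1 + (σ : ℂ) * (Lc φ w : ℂ))) z =
    I * ((I * dz (cx φ) z) * ((Real.exp (φ z) : ℂ) * ((σ : ℂ) * (starRingEnd ℂ) (Qc φ z))) -
      (starRingEnd ℂ) (I * dz (cx φ) z) * ((Real.exp (φ z) : ℂ) * (1 + (σ : ℂ) * (Lc φ z : ℂ)))) := by
  have hev : ∀ᶠ w in 𝓝 z, ContDiffAt ℝ 2 φ w := by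
    filter_upwards [hφ.eventually (by simp)] with w hw
    exact hw.of_le (by norm_num)
  have hφ1 : DifferentiableAt ℝ φ z := hφ.differentiableAt (by norm_num)
  have hu := cod_cx (n := 3) hφ
  have hv := (cod_dz_contDiffAt (m := 2) hu le_rfl).2
  have hvz := (cod_dz_contDiffAt (m := 1) hv le_rfl).1
  have hvv := (cod_dz_contDiffAt (m := 1) hv le_rfl).2
  have dv : DifferentiableAt ℝ (dzb (cx φ)) z := hv.differentiableAt (by norm_num)
  have dvz : DifferentiableAt ℝ (dz (dzb (cx φ))) z := hvz.differentiableAt (by norm_num)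
  have dvv : DifferentiableAt ℝ (dzb (dzb (cx φ))) z := hvv.differentiableAt (by norm_num)
  -- the two coefficients near `z`
  have hb : (fun w => (Real.exp (φ w) : ℂ) * ((σ : ℂ) * (starRingEnd ℂ) (Qc φ w))) =ᶠ[𝓝 z]
      fun w => (Real.exp (-1 * φ w) : ℂ) *
        ((4 * σ) * (dzb (dzb (cx φ)) w - dzb (cx φ) w * dzb (cx φ) w)) := by
    filter_upwards [hev] with w hw
    have h1 := cod_conj_dzdz hw
    have h2 := dzb_cx (hw.differentiableAt (by norm_num))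
    have h3 : Real.exp (-1 * φ w) = Real.exp (φ w) * Real.exp (-2 * φ w) := by
      rw [← Real.exp_add]
      congr 1
      ring
    rw [Qc, map_mul, map_mul, map_sub, map_pow, h1, ← h2, conj_ofReal, h3, ofReal_mul]
    have h4 : (starRingEnd ℂ) 4 = 4 := map_ofNat _ 4
    rw [h4]
    ring
  have ha : (fun w => (Real.exp (φ w) : ℂ) * (1 + (σ : ℂ) * (Lc φ w : ℂ))) =ᶠ[𝓝 z]
      fun w => (Real.exp (1 * φ w) : ℂ) +
        (Real.exp (-1 * φ w) : ℂ) * ((4 * σ) * dz (dzb (cx φ)) w) := by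
    filter_upwards [hev] with w hw
    have h1 := (lap_eq hw).2
    have h3 : Real.exp (-1 * φ w) = Real.exp (φ w) * Real.exp (-2 * φ w) := by
      rw [← Real.exp_add]
      congr 1
      ring
    rw [Lc, ofReal_mul, h1, h3, ofReal_mul, one_mul]
    ring
  have ez := (cod_dz_congr hb).1
  have ezb := (cod_dz_congr ha).2
  have hbz := hb.eq_of_nhds
  have haz := ha.eq_of_nhds
  obtain ⟨dm, dmz, dmzb⟩ := cod_exp hφ1 (-1)
  obtain ⟨dp, dpz, dpzb⟩ := cod_exp hφ1 1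
  have dsq : DifferentiableAt ℝ (fun w => dzb (cx φ) w * dzb (cx φ) w) z := dv.mul dv
  have dsub : DifferentiableAt ℝ (fun w => dzb (dzb (cx φ)) w - dzb (cx φ) w * dzb (cx φ) w) z :=
    dvv.sub dsq
  have dc : ∀ c : ℂ, DifferentiableAt ℝ (fun _ : ℂ => c) z := fun c => differentiableAt_const c
  have hcomm : dz (dzb (dzb (cx φ))) z = dzb (dz (dzb (cx φ))) z := dz_dzb_comm hv
  have hz : dzb (cx φ) z = (starRingEnd ℂ) (dz (cx φ) z) := dzb_cx hφ1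
  rw [ez, ezb]
  have dB : DifferentiableAt ℝ
      (fun w => (4 * (σ : ℂ)) * (dzb (dzb (cx φ)) w - dzb (cx φ) w * dzb (cx φ) w)) z :=
    (dc (4 * (σ : ℂ))).mul dsub
  have dA : DifferentiableAt ℝ (fun w => (4 * (σ : ℂ)) * dz (dzb (cx φ)) w) z :=
    (dc (4 * (σ : ℂ))).mul dvz
  have dA' : DifferentiableAt ℝ (fun w => (Real.exp (-1 * φ w) : ℂ) *
      ((4 * (σ : ℂ)) * dz (dzb (cx φ)) w)) z := dm.mul dA
  rw [hbz, haz, (dz_mul dm dB).1, (dz_mul (dc (4 * (σ : ℂ))) dsub).1, (dz_const _ z).1,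
    (dz_sub dvv dsq).1, (dz_mul dv dv).1, (dz_add dp dA').2,
    (dz_mul dm dA).2, (dz_mul (dc (4 * (σ : ℂ))) dvz).2, (dz_const _ z).2,
    dmz, dmzb, dpzb, hcomm, map_mul, conj_I, ← hz]
  simp only [ofReal_neg, ofReal_one]
  linear_combination (-(dz (cx φ) z * ((Real.exp (-1 * φ z) : ℂ) * (4 * σ * (dzb (dzb (cx φ)) z - dzb (cx φ) z * dzb (cx φ) z)))) - dzb (cx φ) z * ((Real.exp (1 * φ z) : ℂ) + (Real.exp (-1 * φ z) : ℂ) * (4 * σ * dz (dzb (cx φ)) z))) * (I_sq)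

/-- second structure equation: `(conj p)_z - p_z̄ = - (i/2) Δφ` for `p = i φ_z` -/
theorem connection_curv {φ : ℂ → ℝ} {z : ℂ} (hφ : ContDiffAt ℝ 2 φ z) :
    dz (fun w => (starRingEnd ℂ) (I * dz (cx φ) w)) z - dzb (fun w => I * dz (cx φ) w) z =
      -(I / 2) * ((lap φ z : ℝ) : ℂ) := by
  have h1 : (fun w => (starRingEnd ℂ) (I * dz (cx φ) w)) =ᶠ[𝓝 z] fun w => (-I) * dzb (cx φ) w := by
    filter_upwards [cod_conj_dz (hφ.of_le (by norm_num))] with w hw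
    rw [map_mul, conj_I, hw]
  have hu := cod_cx (n := 2) hφ
  have hd := cod_dz_contDiffAt (m := 1) hu le_rfl
  have d1 : DifferentiableAt ℝ (dz (cx φ)) z := hd.1.differentiableAt one_ne_zero
  have d2 : DifferentiableAt ℝ (dzb (cx φ)) z := hd.2.differentiableAt one_ne_zero
  have dc : ∀ c : ℂ, DifferentiableAt ℝ (fun _ : ℂ => c) z := fun c => differentiableAt_const c
  have h2 := (lap_eq hφ).1
  have h3 := (lap_eq hφ).2
  rw [(cod_dz_congr h1).1, (dz_mul (dc (-I)) d2).1, (dz_mul (dc I) d1).2, (dz_const _ z).1,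
    (dz_const _ z).2]
  linear_combination (I / 4) * h2 + (I / 4) * h3

end Pool.Agent.BB4B37
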