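import Pool.Agent.W_bb4b37_h24.Wirt

/-! # The coordinate is a global diffeomorphism -/

set_option autoImplicit false

namespace Pool.Agent.BB4B37

open Complex Filter Topology Set MeasureTheory

/-- Proof. `fderiv ℝ g z v - v = (dz g z - 1) v + dzb g z conj v` has norm `≤ (1/5) ‖v‖`; mean value
inequality for `g - id`. So `g` approximates the identity on the whole plane with constant `1/5`
(`ApproximatesLinearOn`, `ApproximatesLinearOn.toHomeomorph`): a homeomorphism, whose inverse is `C³`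
(`ContDiffAt` of the inverse: `OpenPartialHomeomorph.contDiffAt_symm`, or
`Homeomorph.contDiff_symm`). -/
theorem coord_inv {g : ℂ → ℂ} (hg : ContDiff ℝ 3 g)
    (h : ∀ z, ‖dz g z - 1‖ ≤ 1 / 10 ∧ ‖dzb g z‖ ≤ 1 / 10) :
    (∀ x y, ‖g x - g y - (x - y)‖ ≤ 1 / 5 * ‖x - y‖) ∧
    ∃ G : ℂ → ℂ, ContDiff ℝ 3 G ∧ (∀ z, G (g z) = z) ∧ ∀ z, g (G z) = z := by
  have hgd : Differentiable ℝ g := hg.differentiable (by norm_num)
  have hb : ∀ z v, ‖fderiv ℝ g z v - v‖ ≤ 1 / 5 * ‖v‖ := by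
    intro z v
    have h1 : fderiv ℝ g z v - v = (dz g z - 1) * v + dzb g z * (starRingEnd ℂ) v := by
      rw [fderiv_eq_dz]; ring
    rw [h1]
    calc ‖(dz g z - 1) * v + dzb g z * (starRingEnd ℂ) v‖
        ≤ ‖(dz g z - 1) * v‖ + ‖dzb g z * (starRingEnd ℂ) v‖ := norm_add_le _ _
      _ = ‖dz g z - 1‖ * ‖v‖ + ‖dzb g z‖ * ‖v‖ := by
          rw [norm_mul, norm_mul, Complex.norm_conj]
      _ ≤ 1 / 10 * ‖v‖ + 1 / 10 * ‖v‖ := by
          have h2 := norm_nonneg v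
          exact add_le_add (mul_le_mul_of_nonneg_right (h z).1 h2)
            (mul_le_mul_of_nonneg_right (h z).2 h2)
      _ = 1 / 5 * ‖v‖ := by ring
  have hlip : ∀ x y, ‖g x - g y - (x - y)‖ ≤ 1 / 5 * ‖x - y‖ := by
    intro x y
    have h1 : ∀ z ∈ (univ : Set ℂ), HasFDerivWithinAt (fun w => g w - w)
        (fderiv ℝ g z - ContinuousLinearMap.id ℝ ℂ) univ z := fun z _ =>
      ((hgd z).hasFDerivAt.sub (hasFDerivAt_id z)).hasFDerivWithinAt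
    have h2 : ∀ z ∈ (univ : Set ℂ), ‖fderiv ℝ g z - ContinuousLinearMap.id ℝ ℂ‖ ≤ 1 / 5 := by
      intro z _
      refine ContinuousLinearMap.opNorm_le_bound _ (by norm_num) fun v => ?_
      exact hb z v
    have h3 := convex_univ.norm_image_sub_le_of_norm_hasFDerivWithin_le h1 h2 (mem_univ y)
      (mem_univ x)
    have h4 : g x - g y - (x - y) = g x - x - (g y - y) := by ring
    rw [h4]
    exact h3
  refine ⟨hlip, ?_⟩
  have happ : ApproximatesLinearOn g ((ContinuousLinearEquiv.refl ℝ ℂ : ℂ ≃L[ℝ] ℂ) : ℂ →L[ℝ] ℂ)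
      univ (1 / 5 : NNReal) := by
    intro x _ y _
    have h1 := hlip x y
    simpa using h1
  have hc : Subsingleton ℂ ∨ (1 / 5 : NNReal) <
      ‖((ContinuousLinearEquiv.refl ℝ ℂ : ℂ ≃L[ℝ] ℂ).symm : ℂ →L[ℝ] ℂ)‖₊⁻¹ := by
    right
    have h1 : ‖((ContinuousLinearEquiv.refl ℝ ℂ : ℂ ≃L[ℝ] ℂ).symm : ℂ →L[ℝ] ℂ)‖₊ = 1 := by
      have h2 : ((ContinuousLinearEquiv.refl ℝ ℂ : ℂ ≃L[ℝ] ℂ).symm : ℂ →L[ℝ] ℂ) =
          ContinuousLinearMap.id ℝ ℂ := rfl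
      rw [h2]
      exact NNReal.coe_injective (by simp)
    rw [h1, inv_one]
    exact_mod_cast (by norm_num : (1 / 5 : ℝ) < 1)
  let Φ : ℂ ≃ₜ ℂ := happ.toHomeomorph g hc
  have hΦ : ∀ z, Φ z = g z := fun z => rfl
  have hinj : ∀ z, Function.Injective ((fderiv ℝ g z : ℂ →L[ℝ] ℂ) : ℂ →ₗ[ℝ] ℂ) := by
    intro z
    rw [← LinearMap.ker_eq_bot, LinearMap.ker_eq_bot']
    intro v hv
    have h1 := hb z v
    have h2 : fderiv ℝ g z v = 0 := hv
    rw [h2, zero_sub, norm_neg] at h1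
    have h3 := norm_nonneg v
    exact norm_le_zero_iff.1 (by linarith)
  let f' : ℂ → (ℂ ≃L[ℝ] ℂ) := fun z =>
    (LinearEquiv.ofInjectiveEndo ((fderiv ℝ g z : ℂ →L[ℝ] ℂ) : ℂ →ₗ[ℝ] ℂ)
      (hinj z)).toContinuousLinearEquiv
  have hf' : ∀ z, ((f' z : ℂ ≃L[ℝ] ℂ) : ℂ →L[ℝ] ℂ) = fderiv ℝ g z := by
    intro z
    ext v
    all_goals rfl
  have hsymm : ContDiff ℝ 3 Φ.symm := by
    refine Φ.contDiff_symm (f₀' := f') (fun z => ?_) hg
    rw [hf' z]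
    exact (hgd z).hasFDerivAt
  exact ⟨Φ.symm, hsymm, fun z => Φ.symm_apply_apply z, fun z => Φ.apply_symm_apply z⟩

end Pool.Agent.BB4B37
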