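import Pool.Agent.W_bb4b37_h24.WienA

/-! # Smooth periodic functions are in the Wiener algebra -/

set_option autoImplicit false

namespace Pool.Agent.BB4B37

open Complex Filter Topology Set MeasureTheory

/-- the iterated directional derivative -/
theorem fc_iter (e : ℂ) {B : ℂ → ℂ} (hB : ContDiff ℝ 6 B) : ∀ k : ℕ, k ≤ 6 →
    (fun (f : ℂ → ℂ) z => fderiv ℝ f z e)^[k] B = fun z => iteratedFDeriv ℝ k B z (fun _ => e) := by
  intro k
  induction k with
  | zero =>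
    intro _
    funext z
    simp
  | succ k ih =>
    intro hk
    rw [Function.iterate_succ_apply', ih (by omega)]
    funext z
    have hd : DifferentiableAt ℝ (iteratedFDeriv ℝ k B) z := by
      refine (hB.differentiable_iteratedFDeriv ?_) z
      exact_mod_cast (show k < 6 by omega)
    have h1 : HasFDerivAt (fun z => iteratedFDeriv ℝ k B z (fun _ => e))
        ((ContinuousMultilinearMap.apply ℝ (fun _ : Fin k => ℂ) ℂ (fun _ => e)).comp
          (fderiv ℝ (iteratedFDeriv ℝ k B) z)) z :=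
      (ContinuousMultilinearMap.apply ℝ (fun _ : Fin k => ℂ) ℂ (fun _ => e)).hasFDerivAt.comp z
        hd.hasFDerivAt
    rw [h1.fderiv, iteratedFDeriv_succ_apply_left]
    rfl

theorem fc_contDiff (e : ℂ) {B : ℂ → ℂ} (hB : ContDiff ℝ 6 B) (k : ℕ) (hk : k ≤ 5) :
    ContDiff ℝ 1 ((fun (f : ℂ → ℂ) z => fderiv ℝ f z e)^[k] B) := by
  rw [fc_iter e hB k (by omega)]
  have h1 : ContDiff ℝ 1 (iteratedFDeriv ℝ k B) := by
    refine hB.iteratedFDeriv_right ?_
    exact_mod_cast (show 1 + k ≤ 6 by omega)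
  exact (ContinuousMultilinearMap.apply ℝ (fun _ : Fin k => ℂ) ℂ (fun _ => e)).contDiff.comp h1

theorem fc_periodic (e : ℂ) {B : ℂ → ℂ} (hper : ∀ z, B (z + 1) = B z ∧ B (z + I) = B z) (k : ℕ) :
    ∀ z, (fun (f : ℂ → ℂ) z => fderiv ℝ f z e)^[k] B (z + 1) =
        (fun (f : ℂ → ℂ) z => fderiv ℝ f z e)^[k] B z ∧
      (fun (f : ℂ → ℂ) z => fderiv ℝ f z e)^[k] B (z + I) =
        (fun (f : ℂ → ℂ) z => fderiv ℝ f z e)^[k] B z := by
  induction k with
  | zero => exact hper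
  | succ k ih =>
    intro z
    rw [Function.iterate_succ_apply']
    set g := (fun (f : ℂ → ℂ) z => fderiv ℝ f z e)^[k] B with hg
    have h1 : (fun w => g (w + 1)) = g := funext fun w => (ih w).1
    have h2 : (fun w => g (w + I)) = g := funext fun w => (ih w).2
    constructor
    · show fderiv ℝ g (z + 1) e = fderiv ℝ g z e
      rw [← fderiv_comp_add_right (f := g) (x := z) (1 : ℂ), h1]
    · show fderiv ℝ g (z + I) e = fderiv ℝ g z e
      rw [← fderiv_comp_add_right (f := g) (x := z) I, h2]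

theorem fc_bound (e : ℂ) (he : ‖e‖ = 1) {B : ℂ → ℂ} (hB : ContDiff ℝ 6 B) {K : ℝ}
    (hK : ∀ z, ∀ j : ℕ, j ≤ 6 → ‖iteratedFDeriv ℝ j B z‖ ≤ K) (z : ℂ) :
    ‖(fun (f : ℂ → ℂ) z => fderiv ℝ f z e)^[6] B z‖ ≤ K := by
  rw [fc_iter e hB 6 le_rfl]
  refine ((iteratedFDeriv ℝ 6 B z).le_opNorm _).trans ?_
  rw [Finset.prod_const, he, one_pow, mul_one]
  exact hK z 6 le_rfl

theorem fc_cont6 (e : ℂ) {B : ℂ → ℂ} (hB : ContDiff ℝ 6 B) :
    Continuous ((fun (f : ℂ → ℂ) z => fderiv ℝ f z e)^[6] B) := by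
  rw [fc_iter e hB 6 le_rfl]
  have h1 : Continuous (iteratedFDeriv ℝ 6 B) :=
    hB.continuous_iteratedFDeriv (by exact_mod_cast le_rfl)
  exact (ContinuousMultilinearMap.apply ℝ (fun _ : Fin 6 => ℂ) ℂ (fun _ => e)).continuous.comp h1

theorem fc_px {B : ℂ → ℂ} (hB : ContDiff ℝ 6 B)
    (hper : ∀ z, B (z + 1) = B z ∧ B (z + I) = B z) (m : ℤ × ℤ) (k : ℕ) (hk : k ≤ 6) :
    coef ((fun (f : ℂ → ℂ) z => fderiv ℝ f z 1)^[k] B) m =
      (2 * Real.pi * I * m.1) ^ k * coef B m := by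
  induction k with
  | zero => simp
  | succ k ih =>
    rw [Function.iterate_succ_apply', pow_succ']
    have h1 := coef_px (fc_contDiff 1 hB k (by omega)) (fc_periodic 1 hper k) m
    rw [ih (by omega)] at h1
    refine Eq.trans ?_ (h1.trans (by ring))
    rfl

theorem fc_py {B : ℂ → ℂ} (hB : ContDiff ℝ 6 B)
    (hper : ∀ z, B (z + 1) = B z ∧ B (z + I) = B z) (m : ℤ × ℤ) (k : ℕ) (hk : k ≤ 6) :
    coef ((fun (f : ℂ → ℂ) z => fderiv ℝ f z I)^[k] B) m =
      (2 * Real.pi * I * m.2) ^ k * coef B m := by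
  induction k with
  | zero => simp
  | succ k ih =>
    rw [Function.iterate_succ_apply', pow_succ']
    have h1 := coef_py (fc_contDiff I hB k (by omega)) (fc_periodic I hper k) m
    rw [ih (by omega)] at h1
    refine Eq.trans ?_ (h1.trans (by ring))
    rfl

theorem fc_wt_aux {a b c K x : ℝ} (ha : 0 ≤ a) (hb : 0 ≤ b) (hc : 0 ≤ c) (h0 : c ≤ K)
    (h1 : (2 * Real.pi * a) ^ 6 * c ≤ K) (h2 : (2 * Real.pi * b) ^ 6 * c ≤ K)
    (hx : x = 1 + a + b) : x ^ 6 * c ≤ 3 ^ 6 * K := by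
  have hpi : (1 : ℝ) ≤ 2 * Real.pi := by
    have := Real.pi_gt_three
    linarith
  have key : ∀ M : ℝ, 0 ≤ M → x ≤ 3 * M → M ^ 6 * c ≤ K → x ^ 6 * c ≤ 3 ^ 6 * K := by
    intro M hM hxM hMK
    have hx0 : 0 ≤ x := by rw [hx]; positivity
    calc x ^ 6 * c ≤ (3 * M) ^ 6 * c :=
          mul_le_mul_of_nonneg_right (pow_le_pow_left₀ hx0 hxM 6) hc
      _ = 3 ^ 6 * (M ^ 6 * c) := by ring
      _ ≤ 3 ^ 6 * K := mul_le_mul_of_nonneg_left hMK (by positivity)
  have hmul : ∀ t : ℝ, 0 ≤ t → t ^ 6 ≤ (2 * Real.pi * t) ^ 6 := fun t ht =>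
    pow_le_pow_left₀ ht (le_mul_of_one_le_left ht hpi) 6
  rcases le_total a b with hab | hab
  · rcases le_total b 1 with hb1 | hb1
    · exact key 1 zero_le_one (by rw [hx]; linarith) (by rw [one_pow, one_mul]; exact h0)
    · exact key b hb (by rw [hx]; linarith)
        ((mul_le_mul_of_nonneg_right (hmul b hb) hc).trans h2)
  · rcases le_total a 1 with ha1 | ha1
    · exact key 1 zero_le_one (by rw [hx]; linarith) (by rw [one_pow, one_mul]; exact h0)
    · exact key a ha (by rw [hx]; linarith)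
        ((mul_le_mul_of_nonneg_right (hmul a ha) hc).trans h1)

theorem fc_summable_int : Summable fun n : ℤ => 1 / (1 + |(n : ℝ)|) ^ 2 := by
  have h1 : Summable fun n : ℕ => 1 / (1 + (n : ℝ)) ^ 2 := by
    have h2 := (summable_nat_add_iff 1).2 (Real.summable_one_div_nat_pow (p := 2).2 one_lt_two)
    refine h2.congr fun n => ?_
    push_cast
    rw [add_comm]
  refine Summable.of_nat_of_neg ?_ ?_
  · refine h1.congr fun n => ?_
    simp
  · refine h1.congr fun n => ?_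
    simp

theorem fc_summable : Summable fun m : ℤ × ℤ => 1 / wt m ^ 4 := by
  have h1 : Summable fun m : ℤ × ℤ => (1 / (1 + |(m.1 : ℝ)|) ^ 2) * (1 / (1 + |(m.2 : ℝ)|) ^ 2) :=
    Summable.mul_of_nonneg fc_summable_int fc_summable_int (fun n => by positivity)
      (fun n => by positivity)
  refine Summable.of_nonneg_of_le (fun m => ?_) (fun m => ?_) h1
  · have := one_le_wt m
    positivity
  · rw [div_mul_div_comm, one_mul]
    refine one_div_le_one_div_of_le (by positivity) ?_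
    have ha : 1 + |(m.1 : ℝ)| ≤ wt m := by
      unfold wt
      linarith [abs_nonneg (m.2 : ℝ)]
    have hb : 1 + |(m.2 : ℝ)| ≤ wt m := by
      unfold wt
      linarith [abs_nonneg (m.1 : ℝ)]
    calc (1 + |(m.1 : ℝ)|) ^ 2 * (1 + |(m.2 : ℝ)|) ^ 2 ≤ wt m ^ 2 * wt m ^ 2 := by
          refine mul_le_mul (pow_le_pow_left₀ (by positivity) ha 2)
            (pow_le_pow_left₀ (by positivity) hb 2) (by positivity) (by positivity)
      _ = wt m ^ 4 := by ring

/-- Proof. Apply `coef_px` (`coef_py`) six times: `(2 π |m₁|)^6 ‖coef B m‖ = ‖coef (px^[6] B) m‖ ≤ K`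
(`‖px^[6] B z‖ ≤ ‖iteratedFDeriv ℝ 6 B z‖`), and the same for `m₂`, and `‖coef B m‖ ≤ K`. So
`wt m ^ 6 ‖coef B m‖ ≤ 3^6 K` (`wt m ≤ 3 max (1, |m₁|, |m₂|)`), `wt m ^ 2 ‖coef B m‖ ≤ 3^6 K wt m ^ {-4}`
and `∑ wt m ^ {-4} < ∞` because `wt m ^ 4 ≥ (1 + |m₁|)² (1 + |m₂|)²`. Then `coef_inversion`. -/
theorem fourier_smooth : ∃ C : ℝ, 0 < C ∧ ∀ (B : ℂ → ℂ) (K : ℝ), ContDiff ℝ 6 B →
    (∀ z, B (z + 1) = B z ∧ B (z + I) = B z) →
    (∀ z, ∀ j : ℕ, j ≤ 6 → ‖iteratedFDeriv ℝ j B z‖ ≤ K) →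
    ∃ a : ℤ × ℤ → ℂ, InW 2 a ∧ nrm 2 a ≤ C * K ∧ ∀ z, syn a z = B z := by
  refine ⟨3 ^ 6 * (∑' m : ℤ × ℤ, 1 / wt m ^ 4) + 1, ?_, ?_⟩
  · have : 0 ≤ ∑' m : ℤ × ℤ, 1 / wt m ^ 4 := tsum_nonneg fun m => by
      have := one_le_wt m
      positivity
    positivity
  intro B K hB hper hK
  have hK0 : 0 ≤ K := (norm_nonneg _).trans (hK 0 0 (by norm_num))
  have hB0 : ∀ z, ‖B z‖ ≤ K := fun z => by
    have := hK z 0 (by norm_num)
    rwa [norm_iteratedFDeriv_zero] at this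
  have hc : ∀ m, wt m ^ 6 * ‖coef B m‖ ≤ 3 ^ 6 * K := by
    intro m
    have h0 := norm_coef_le hB.continuous hB0 m
    have h1 := norm_coef_le (fc_cont6 1 hB) (fc_bound 1 (by simp) hB hK) m
    have h2 := norm_coef_le (fc_cont6 I hB) (fc_bound I (by simp) hB hK) m
    rw [fc_px hB hper m 6 le_rfl, norm_mul, norm_pow] at h1
    rw [fc_py hB hper m 6 le_rfl, norm_mul, norm_pow] at h2
    have e1 : ‖(2 * Real.pi * I * m.1 : ℂ)‖ = 2 * Real.pi * |(m.1 : ℝ)| := by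
      rw [norm_mul, norm_mul, norm_mul, Complex.norm_I, mul_one, Complex.norm_real,
        Complex.norm_two, Real.norm_eq_abs, abs_of_pos Real.pi_pos]
      congr 1
      rw [Complex.norm_intCast]
    have e2 : ‖(2 * Real.pi * I * m.2 : ℂ)‖ = 2 * Real.pi * |(m.2 : ℝ)| := by
      rw [norm_mul, norm_mul, norm_mul, Complex.norm_I, mul_one, Complex.norm_real,
        Complex.norm_two, Real.norm_eq_abs, abs_of_pos Real.pi_pos]
      congr 1
      rw [Complex.norm_intCast]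
    rw [e1] at h1
    rw [e2] at h2
    exact fc_wt_aux (abs_nonneg _) (abs_nonneg _) (norm_nonneg _) h0 h1 h2 rfl
  have hle : ∀ m, wt m ^ 2 * ‖coef B m‖ ≤ 3 ^ 6 * K * (1 / wt m ^ 4) := by
    intro m
    have hw : 0 < wt m := lt_of_lt_of_le one_pos (one_le_wt m)
    rw [mul_one_div, le_div_iff₀ (by positivity)]
    refine le_trans (le_of_eq ?_) (hc m)
    ring
  have hs2 : Summable fun m => wt m ^ 2 * ‖coef B m‖ := by
    refine Summable.of_nonneg_of_le (fun m => ?_) hle (fc_summable.mul_left _)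
    have := one_le_wt m
    positivity
  refine ⟨coef B, hs2, ?_, fun z => coef_inversion hB.continuous hper ?_ z⟩
  · have h1 : nrm 2 (coef B) ≤ ∑' m : ℤ × ℤ, 3 ^ 6 * K * (1 / wt m ^ 4) :=
      hs2.tsum_le_tsum hle (fc_summable.mul_left _)
    rw [tsum_mul_left] at h1
    refine h1.trans ?_
    nlinarith
  · refine Summable.of_nonneg_of_le (fun m => norm_nonneg _) (fun m => ?_) hs2
    have h1 : (1 : ℝ) ≤ wt m ^ 2 := one_le_pow₀ (one_le_wt m)
    nlinarith [norm_nonneg (coef B m)]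

end Pool.Agent.BB4B37
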