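import Pool.Agent.W_bb4b37_h24.WienA

/-! # The Beltrami equation in the Wiener algebra: fixed point -/

set_option autoImplicit false

namespace Pool.Agent.BB4B37

open Complex Filter Topology Set MeasureTheory

/-- the multiplier of `Bop` -/
private noncomputable def bmul (m : ℤ × ℤ) : ℂ :=
  if m = 0 then 0 else ((m.1 : ℂ) - m.2 * I) / ((m.1 : ℂ) + m.2 * I)

private theorem Bop_eq (h : ℤ × ℤ → ℂ) (m : ℤ × ℤ) : Bop h m = bmul m * h m := by
  unfold Bop bmul
  split_ifs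
  · rw [zero_mul]
  · rfl

private theorem norm_bmul_le (m : ℤ × ℤ) : ‖bmul m‖ ≤ 1 := by
  unfold bmul
  split_ifs
  · simp
  · have h1 : ((m.1 : ℂ) - m.2 * I) = (starRingEnd ℂ) ((m.1 : ℂ) + m.2 * I) := by
      apply Complex.ext <;> simp
    rw [h1, norm_div, Complex.norm_conj]
    exact div_self_le_one _

private theorem norm_Bop_le (h : ℤ × ℤ → ℂ) (m : ℤ × ℤ) : ‖Bop h m‖ ≤ ‖h m‖ := by
  rw [Bop_eq, norm_mul]
  exact mul_le_of_le_one_left (norm_nonneg _) (norm_bmul_le m)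

private theorem wt_pos (m : ℤ × ℤ) : 0 < wt m := lt_of_lt_of_le one_pos (one_le_wt m)

private theorem term_nonneg (s : ℕ) (a : ℤ × ℤ → ℂ) (m : ℤ × ℤ) : 0 ≤ wt m ^ s * ‖a m‖ :=
  mul_nonneg (pow_nonneg (wt_pos m).le s) (norm_nonneg _)

private theorem nrm_nonneg (s : ℕ) (a : ℤ × ℤ → ℂ) : 0 ≤ nrm s a :=
  tsum_nonneg fun m => term_nonneg s a m

private theorem norm_le_nrm {s : ℕ} {a : ℤ × ℤ → ℂ} (ha : InW s a) (m : ℤ × ℤ) :
    ‖a m‖ ≤ nrm s a := by
  have h1 : ‖a m‖ ≤ wt m ^ s * ‖a m‖ :=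
    le_mul_of_one_le_left (norm_nonneg _) (one_le_pow₀ (one_le_wt m))
  exact h1.trans (ha.le_tsum m fun j _ => term_nonneg s a j)

/-- the multiplier of `Bop` has modulus `1` -/
theorem InW.bop {s : ℕ} {h : ℤ × ℤ → ℂ} (hh : InW s h) : InW s (Bop h) ∧ nrm s (Bop h) ≤ nrm s h := by
  have h1 : ∀ m, wt m ^ s * ‖Bop h m‖ ≤ wt m ^ s * ‖h m‖ := fun m =>
    mul_le_mul_of_nonneg_left (norm_Bop_le h m) (pow_nonneg (wt_pos m).le s)
  have h2 : InW s (Bop h) := Summable.of_nonneg_of_le (fun m => term_nonneg s (Bop h) m) h1 hh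
  exact ⟨h2, Summable.tsum_le_tsum h1 h2 hh⟩

/-- `|m₁ + i m₂| ≥ (|m₁| + |m₂|) / 2 ≥ wt m / 4` for `m ≠ 0`, so `wt m ‖Cop h m‖ ≤ (4 / π) ‖h m‖` -/
theorem InW.cop {s : ℕ} {h : ℤ × ℤ → ℂ} (hh : InW s h) : InW (s + 1) (Cop h) := by
  have hpi : 0 < Real.pi := Real.pi_pos
  refine Summable.of_nonneg_of_le (fun m => term_nonneg (s + 1) (Cop h) m) (fun m => ?_)
    (hh.mul_left (4 / Real.pi))
  by_cases hm : m = 0
  · have h1 : Cop h m = 0 := by
      unfold Cop
      rw [if_pos hm]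
    rw [h1, norm_zero, mul_zero]
    exact mul_nonneg (by positivity) (term_nonneg s h m)
  · have h1 : Cop h m = h m / (Real.pi * I * ((m.1 : ℂ) + m.2 * I)) := by
      unfold Cop
      rw [if_neg hm]
    set q : ℂ := (m.1 : ℂ) + m.2 * I with hq
    have hre : |(m.1 : ℝ)| ≤ ‖q‖ := by
      have h2 := Complex.abs_re_le_norm q
      have h3 : q.re = (m.1 : ℝ) := by
        rw [hq]
        simp
      rwa [h3] at h2
    have him : |(m.2 : ℝ)| ≤ ‖q‖ := by
      have h2 := Complex.abs_im_le_norm q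
      have h3 : q.im = (m.2 : ℝ) := by
        rw [hq]
        simp
      rwa [h3] at h2
    have hone : 1 ≤ |(m.1 : ℝ)| + |(m.2 : ℝ)| := by
      by_cases h2 : m.1 = 0
      · have h3 : m.2 ≠ 0 := by
          intro h4
          exact hm (Prod.ext h2 h4)
        have h5 : (1 : ℤ) ≤ |m.2| := Int.one_le_abs h3
        have h6 : (1 : ℝ) ≤ |(m.2 : ℝ)| := by exact_mod_cast h5
        have h7 : 0 ≤ |(m.1 : ℝ)| := abs_nonneg _
        linarith
      · have h5 : (1 : ℤ) ≤ |m.1| := Int.one_le_abs h2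
        have h6 : (1 : ℝ) ≤ |(m.1 : ℝ)| := by exact_mod_cast h5
        have h7 : 0 ≤ |(m.2 : ℝ)| := abs_nonneg _
        linarith
    have hwt : wt m ≤ 4 * ‖q‖ := by
      unfold wt
      linarith
    have hw0 := wt_pos m
    have hq0 : 0 < ‖q‖ := by linarith
    have hn : ‖Cop h m‖ = ‖h m‖ / (Real.pi * ‖q‖) := by
      rw [h1, norm_div, norm_mul, norm_mul, Complex.norm_I, mul_one, Complex.norm_real,
        Real.norm_eq_abs, abs_of_pos hpi]
    rw [hn]
    have hden : 0 < Real.pi * ‖q‖ := mul_pos hpi hq0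
    calc wt m ^ (s + 1) * (‖h m‖ / (Real.pi * ‖q‖)) =
          (wt m ^ s * ‖h m‖) * (wt m / (Real.pi * ‖q‖)) := by
            rw [pow_succ]
            ring
      _ ≤ (wt m ^ s * ‖h m‖) * (4 / Real.pi) := by
            apply mul_le_mul_of_nonneg_left _ (term_nonneg s h m)
            rw [div_le_div_iff₀ hden hpi]
            nlinarith
      _ = 4 / Real.pi * (wt m ^ s * ‖h m‖) := mul_comm _ _

/-- the terms of the Neumann series -/
private noncomputable def itr (B : ℤ × ℤ → ℂ) : ℕ → ℤ × ℤ → ℂ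
  | 0 => B
  | n + 1 => cnv B (Bop (itr B n))

private theorem itr_bound {s : ℕ} {B : ℤ × ℤ → ℂ} (hB : InW s B) (n : ℕ) :
    InW s (itr B n) ∧ nrm s (itr B n) ≤ nrm s B ^ (n + 1) := by
  induction n with
  | zero =>
    refine ⟨hB, ?_⟩
    rw [zero_add, pow_one]
    exact le_refl _
  | succ n ih =>
    obtain ⟨h1, h2⟩ := ih
    obtain ⟨h3, h4⟩ := InW.bop h1
    obtain ⟨h5, h6⟩ := InW.cnv hB h3
    refine ⟨h5, h6.trans ?_⟩
    rw [pow_succ (nrm s B) (n + 1), mul_comm (nrm s B ^ (n + 1))]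
    exact mul_le_mul_of_nonneg_left (h4.trans h2) (nrm_nonneg s B)

/-- Proof. `T h = B + cnv B (Bop h)` is a contraction with constant `1/4` of the complete space of all
`h` with `InW s h` (norm `nrm s`): for instance the space `lp (fun _ => ℂ) 1` through
`h ↦ wt ^ s • h`, or `ℓ¹` of the measure `∑ wt m ^ s δ_m`, or by hand: `h_{n+1} = T h_n`, `h_0 = 0`,
`nrm s (h_{n+1} - h_n) ≤ 4^{-n} nrm s B`, the pointwise limit `h` satisfies the equation and
`nrm s h ≤ (4/3) nrm s B`. -/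
theorem wien_fixed {s : ℕ} {B : ℤ × ℤ → ℂ} (hB : InW s B) (h4 : nrm s B ≤ 1 / 4) :
    ∃ h : ℤ × ℤ → ℂ, InW s h ∧ nrm s h ≤ 2 * nrm s B ∧ ∀ m, h m = B m + cnv B (Bop h) m := by
  set K : ℝ := nrm s B with hK
  have hK0 : 0 ≤ K := nrm_nonneg s B
  have hK1 : K < 1 := by linarith
  have hgeo : Summable fun n : ℕ => K ^ (n + 1) := by
    simp only [pow_succ]
    exact (summable_geometric_of_lt_one hK0 hK1).mul_right K
  have hgeos : ∑' n : ℕ, K ^ (n + 1) ≤ 2 * K := by
    simp only [pow_succ]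
    rw [tsum_mul_right, tsum_geometric_of_lt_one hK0 hK1]
    have h1 : (1 - K)⁻¹ ≤ 2 := by
      rw [inv_le_comm₀ (by linarith) (by norm_num)]
      linarith
    exact mul_le_mul_of_nonneg_right h1 hK0
  have hit := fun n => itr_bound hB n
  -- the double series
  set F : ℕ × (ℤ × ℤ) → ℝ := fun p => wt p.2 ^ s * ‖itr B p.1 p.2‖ with hF
  have hF0 : 0 ≤ F := fun p => term_nonneg s (itr B p.1) p.2
  have hFs : Summable F := by
    refine (summable_prod_of_nonneg hF0).2 ⟨fun n => (hit n).1, ?_⟩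
    exact Summable.of_nonneg_of_le (fun n => nrm_nonneg s (itr B n)) (fun n => (hit n).2) hgeo
  have hpt : ∀ m, Summable fun n => ‖itr B n m‖ := by
    intro m
    exact Summable.of_nonneg_of_le (fun n => norm_nonneg _)
      (fun n => (norm_le_nrm (hit n).1 m).trans (hit n).2) hgeo
  have hpt' : ∀ m, Summable fun n => itr B n m := fun m => (hpt m).of_norm
  set h : ℤ × ℤ → ℂ := fun m => ∑' n, itr B n m with hh
  have hFsw : Summable fun p : (ℤ × ℤ) × ℕ => wt p.1 ^ s * ‖itr B p.2 p.1‖ :=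
    hFs.prod_symm
  have hrow : Summable fun m => ∑' n, wt m ^ s * ‖itr B n m‖ := hFsw.prod
  have hle : ∀ m, wt m ^ s * ‖h m‖ ≤ ∑' n, wt m ^ s * ‖itr B n m‖ := by
    intro m
    rw [tsum_mul_left]
    exact mul_le_mul_of_nonneg_left (norm_tsum_le_tsum_norm (hpt m)) (pow_nonneg (wt_pos m).le s)
  have hhW : InW s h := Summable.of_nonneg_of_le (fun m => term_nonneg s h m) hle hrow
  refine ⟨h, hhW, ?_, ?_⟩
  · calc nrm s h ≤ ∑' m, ∑' n, wt m ^ s * ‖itr B n m‖ := Summable.tsum_le_tsum hle hhW hrow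
      _ = ∑' n, ∑' m, wt m ^ s * ‖itr B n m‖ := (Summable.tsum_comm (f := fun m n => wt m ^ s * ‖itr B n m‖) hFsw).symm
      _ ≤ ∑' n : ℕ, K ^ (n + 1) := by
          refine Summable.tsum_le_tsum (fun n => (hit n).2) ?_ hgeo
          exact Summable.of_nonneg_of_le (fun n => nrm_nonneg s (itr B n)) (fun n => (hit n).2) hgeo
      _ ≤ 2 * K := hgeos
  · intro m
    have hBs : Summable fun k => ‖B k‖ := (InW.mono (Nat.zero_le s) hB).1.congr fun k => by
      rw [pow_zero, one_mul]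
    have hdbl : Summable fun p : (ℤ × ℤ) × ℕ => B p.1 * Bop (itr B p.2) (m - p.1) := by
      have h1 : Summable fun p : (ℤ × ℤ) × ℕ => ‖B p.1‖ * K ^ (p.2 + 1) :=
        Summable.mul_of_nonneg hBs hgeo (fun k => norm_nonneg _) (fun n => pow_nonneg hK0 _)
      refine Summable.of_norm_bounded h1 fun p => ?_
      rw [norm_mul]
      apply mul_le_mul_of_nonneg_left _ (norm_nonneg _)
      exact (norm_Bop_le _ _).trans ((norm_le_nrm (hit p.2).1 _).trans (hit p.2).2)
    have hB1 : ∀ k, Bop h (m - k) = ∑' n, Bop (itr B n) (m - k) := by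
      intro k
      rw [Bop_eq, hh]
      simp only [Bop_eq]
      rw [tsum_mul_left]
    have hc : cnv B (Bop h) m = ∑' n, itr B (n + 1) m := by
      unfold cnv
      calc ∑' k, B k * Bop h (m - k) = ∑' k, ∑' n, B k * Bop (itr B n) (m - k) := by
            refine tsum_congr fun k => ?_
            rw [hB1, tsum_mul_left]
        _ = ∑' n, ∑' k, B k * Bop (itr B n) (m - k) :=
            (Summable.tsum_comm (f := fun k n => B k * Bop (itr B n) (m - k)) hdbl).symm
        _ = ∑' n, itr B (n + 1) m := rfl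
    rw [hc]
    exact (hpt' m).tsum_eq_zero_add

end Pool.Agent.BB4B37
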