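import Pool.Agent.W_bb4b37_h24.WienB
import Pool.Agent.W_bb4b37_h24.WienC

/-! # The Beltrami equation in the Wiener algebra: the coordinate -/

set_option autoImplicit false

namespace Pool.Agent.BB4B37

open Complex Filter Topology Set MeasureTheory

theorem WienD_ee_zero (z : ℂ) : ee 0 z = 1 := by
  simp [ee]

theorem WienD_ne {m : ℤ × ℤ} (hm : m ≠ 0) : ((m.1 : ℂ) + m.2 * I) ≠ 0 := by
  intro h
  apply hm
  have h1 := congrArg Complex.re h
  have h2 := congrArg Complex.im h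
  simp at h1 h2
  exact Prod.ext h1 h2

theorem WienD_dz (h : ℤ × ℤ → ℂ) :
    (fun m : ℤ × ℤ => Real.pi * I * ((m.1 : ℂ) - m.2 * I) * Cop h m) = Bop h := by
  funext m
  have hpi : (Real.pi : ℂ) * I ≠ 0 :=
    mul_ne_zero (Complex.ofReal_ne_zero.2 Real.pi_ne_zero) Complex.I_ne_zero
  unfold Cop Bop
  by_cases hm : m = 0
  · rw [if_pos hm, if_pos hm, mul_zero]
  · rw [if_neg hm, if_neg hm]
    have h1 := WienD_ne hm
    field_simp

theorem WienD_dzb (h : ℤ × ℤ → ℂ) :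
    (fun m : ℤ × ℤ => Real.pi * I * ((m.1 : ℂ) + m.2 * I) * Cop h m) =
      fun m => if m = 0 then 0 else h m := by
  funext m
  have hpi : (Real.pi : ℂ) * I ≠ 0 :=
    mul_ne_zero (Complex.ofReal_ne_zero.2 Real.pi_ne_zero) Complex.I_ne_zero
  unfold Cop
  by_cases hm : m = 0
  · rw [if_pos hm, if_pos hm, mul_zero]
  · rw [if_neg hm, if_neg hm]
    exact mul_div_cancel₀ _ (mul_ne_zero hpi (WienD_ne hm))

theorem WienD_summable {a : ℤ × ℤ → ℂ} (ha : InW 0 a) (z : ℂ) :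
    Summable fun m => a m * ee m z := by
  refine Summable.of_norm ?_
  have h1 : (fun m => ‖a m * ee m z‖) = fun m => wt m ^ 0 * ‖a m‖ := by
    funext m
    rw [norm_mul, norm_ee, mul_one, pow_zero, one_mul]
  rw [h1]
  exact ha

theorem WienD_syn {h : ℤ × ℤ → ℂ} (hh : InW 0 h) (z : ℂ) :
    syn h z = h 0 + syn (fun m => if m = 0 then 0 else h m) z := by
  unfold syn
  rw [(WienD_summable hh z).tsum_eq_add_tsum_ite 0, WienD_ee_zero, mul_one]
  congr 1
  refine tsum_congr fun m => ?_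
  change (if m = 0 then 0 else h m * ee m z) = (if m = 0 then 0 else h m) * ee m z
  by_cases hm : m = 0
  · rw [if_pos hm, if_pos hm, zero_mul]
  · rw [if_neg hm, if_neg hm]

/-- Proof. `h` from `wien_fixed` with `s = 2`, `g z = z + h 0 * conj z + syn (Cop h) z`. `Cop h` is in
`InW 3`, so `g` is `C³`. `dz_syn`: `∂_z̄ syn (Cop h) = syn h - h 0`, `∂_z syn (Cop h) = syn (Bop h)`. So
`dzb g = syn h = syn B + syn B * syn (Bop h) = syn B * dz g` (`syn_add`, `syn_cnv`), and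
`‖dz g - 1‖, ‖dzb g‖ ≤ nrm 0 h ≤ 2 nrm 2 B ≤ 1 / 20`. -/
theorem wien_coord {B : ℤ × ℤ → ℂ} (hB : InW 2 B) (hsmall : nrm 2 B ≤ 1 / 40) :
    ∃ g : ℂ → ℂ, ContDiff ℝ 3 g ∧ (∀ z, ‖dz g z - 1‖ ≤ 1 / 10 ∧ ‖dzb g z‖ ≤ 1 / 10) ∧
      ∀ z, dzb g z = syn B z * dz g z := by
  obtain ⟨h, hh, hle, heq⟩ := wien_fixed hB (hsmall.trans (by norm_num))
  have hle' : nrm 2 h ≤ 1 / 20 := by linarith
  have hh0 := hh.mono (Nat.zero_le 2)
  have hB0 := hB.mono (Nat.zero_le 2)
  have hb0 := hh0.1.bop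
  have hcop3 : InW 3 (Cop h) := hh.cop
  have hcop1 := hcop3.mono (show 1 ≤ 3 by norm_num)
  have hsm : ContDiff ℝ 3 (syn (Cop h)) := by
    have h1 := contDiff_syn hcop3
    exact_mod_cast h1
  -- the derivatives of the three parts
  have hder : ∀ z, dz (fun w => w + h 0 * (starRingEnd ℂ) w + syn (Cop h) w) z =
        1 + syn (Bop h) z ∧
      dzb (fun w => w + h 0 * (starRingEnd ℂ) w + syn (Cop h) w) z = syn h z := by
    intro z
    have d1 : DifferentiableAt ℝ (fun w : ℂ => w) z := differentiableAt_id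
    have d2 : DifferentiableAt ℝ (fun w : ℂ => (starRingEnd ℂ) w) z := conjCLE.differentiableAt
    have d0 : DifferentiableAt ℝ (fun _ : ℂ => h 0) z := differentiableAt_const _
    have d3 : DifferentiableAt ℝ (fun w : ℂ => h 0 * (starRingEnd ℂ) w) z := d0.mul d2
    have d4 : DifferentiableAt ℝ (fun w : ℂ => w + h 0 * (starRingEnd ℂ) w) z := d1.add d3
    have d5 : DifferentiableAt ℝ (syn (Cop h)) z :=
      (hsm.differentiable (by norm_num)) z
    have e1 := dz_add d4 d5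
    have e2 := dz_add d1 d3
    have e3 := dz_mul d0 d2
    have e4 := dz_conj (f := fun w : ℂ => w) (z := z) d1
    have e5 := dz_id z
    have e6 := dz_const (h 0) z
    have e7 := dz_syn hcop1.1 z
    rw [WienD_dz, WienD_dzb] at e7
    rw [e5.1, e5.2, map_zero, map_one] at e4
    rw [e6.1, e6.2, e4.1, e4.2] at e3
    rw [e5.1, e5.2, e3.1, e3.2] at e2
    rw [e2.1, e2.2, e7.1, e7.2] at e1
    refine ⟨e1.1.trans ?_, e1.2.trans ?_⟩
    · ring
    · rw [WienD_syn hh0.1 z]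
      ring
  refine ⟨fun w => w + h 0 * (starRingEnd ℂ) w + syn (Cop h) w, ?_, fun z => ⟨?_, ?_⟩, fun z => ?_⟩
  · have c1 : ContDiff ℝ 3 (fun w : ℂ => (starRingEnd ℂ) w) := conjCLE.contDiff
    exact (contDiff_id.add (contDiff_const.mul c1)).add hsm
  · rw [(hder z).1, add_sub_cancel_left]
    have h1 := norm_syn_le hb0.1 z
    linarith [hb0.2, hh0.2]
  · rw [(hder z).2]
    have h1 := norm_syn_le hh0.1 z
    linarith [hh0.2]
  · rw [(hder z).1, (hder z).2]
    have h1 : h = fun m => B m + cnv B (Bop h) m := funext heq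
    have h2 := hB0.1.cnv hb0.1
    calc syn h z = syn (fun m => B m + cnv B (Bop h) m) z := by rw [← h1]
      _ = syn B z + syn (cnv B (Bop h)) z := syn_add hB0.1 h2.1 z
      _ = syn B z + syn B z * syn (Bop h) z := by rw [syn_cnv hB0.1 hb0.1]
      _ = syn B z * (1 + syn (Bop h) z) := by ring

end Pool.Agent.BB4B37
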