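import Pool.Agent.W_bb4b37_h24.Cutoff
import Pool.Agent.W_bb4b37_h24.FourC
import Pool.Agent.W_bb4b37_h24.WienD

/-! # Local quasiconformal coordinates -/

set_option autoImplicit false

namespace Pool.Agent.BB4B37

open Complex Filter Topology Set MeasureTheory

theorem coord_exists : ∃ κ₀ : ℝ, 0 < κ₀ ∧ ∀ b : ℂ → ℂ, ContDiffOn ℝ 6 b (Metric.ball 0 1) →
    (∀ z ∈ Metric.ball (0 : ℂ) 1, ∀ j : ℕ, j ≤ 6 → ‖iteratedFDeriv ℝ j b z‖ ≤ κ₀) →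
    ∃ g : ℂ → ℂ, ContDiff ℝ 3 g ∧ (∀ z, ‖dz g z - 1‖ ≤ 1 / 10 ∧ ‖dzb g z‖ ≤ 1 / 10) ∧
      ∀ z ∈ Metric.ball (0 : ℂ) (1 / 4), dzb g z = b z * dz g z := by
  obtain ⟨C₁, h₁, hcut⟩ := cutoff_periodic
  obtain ⟨C₂, h₂, hfou⟩ := fourier_smooth
  refine ⟨1 / (40 * C₁ * C₂), by positivity, fun b hb hbound => ?_⟩
  obtain ⟨B, hB, hper, hBb, heq⟩ := hcut b _ hb hbound
  obtain ⟨a, ha, hn, hsyn⟩ := hfou B _ hB hper hBb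
  have hn' : nrm 2 a ≤ 1 / 40 := hn.trans (le_of_eq (by field_simp))
  obtain ⟨g, hg, h10, hbel⟩ := wien_coord ha hn'
  refine ⟨g, hg, h10, fun z hz => ?_⟩
  rw [hbel z, hsyn z, heq z hz]

end Pool.Agent.BB4B37
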