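import Pool.Agent.W_bb4b37_h24.Wirt

/-! # Cut off and periodise -/

set_option autoImplicit false

namespace Pool.Agent.BB4B37

open Complex Filter Topology Set MeasureTheory

/-- the bump -/
noncomputable def Cutoff_eta : ContDiffBump (0 : ℂ) := ⟨1 / 4, 3 / 8, by norm_num, by norm_num⟩

/-- derivatives of the bump are bounded -/
theorem Cutoff_eta_bound : ∃ M : ℝ, 0 < M ∧ ∀ z : ℂ, ∀ j : ℕ, j ≤ 6 →
    ‖iteratedFDeriv ℝ j Cutoff_eta z‖ ≤ M := by
  have h1 : ∀ j : ℕ, ∃ C : ℝ, ∀ z : ℂ, ‖iteratedFDeriv ℝ j Cutoff_eta z‖ ≤ C := by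
    intro j
    have hc : Continuous (iteratedFDeriv ℝ j Cutoff_eta) :=
      (Cutoff_eta.contDiff (n := (j : ℕ∞))).continuous_iteratedFDeriv le_rfl
    exact hc.bounded_above_of_compact_support (Cutoff_eta.hasCompactSupport.iteratedFDeriv j)
  choose C hC using h1
  refine ⟨∑ j ∈ Finset.range 7, |C j| + 1, by positivity, fun z j hj => ?_⟩
  have h2 : |C j| ≤ ∑ j ∈ Finset.range 7, |C j| :=
    Finset.single_le_sum (f := fun j => |C j|) (fun _ _ => abs_nonneg _)
      (Finset.mem_range.2 (by omega))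
  linarith [hC j z, le_abs_self (C j)]

theorem Cutoff_round {x : ℝ} {n : ℤ} (h : |x - n| < 1 / 2) : round x = n := by
  have h1 : |x - round x| ≤ 1 / 2 := abs_sub_round x
  have h2 : |((round x - n : ℤ) : ℝ)| < 1 := by
    push_cast
    calc |(round x : ℝ) - n| = |(x - n) - (x - round x)| := by ring_nf
      _ ≤ |x - n| + |x - round x| := abs_sub _ _
      _ < 1 := by linarith
  have h3 : |round x - n| < 1 := by
    rw [← Int.cast_abs] at h2
    exact_mod_cast h2
  have h4 := Int.abs_lt_one_iff.1 h3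
  omega

/-- the nearest Gaussian integer -/
noncomputable def Cutoff_rd (z : ℂ) : ℂ := (round z.re : ℝ) + (round z.im : ℝ) * I

theorem Cutoff_sub_re (z : ℂ) : (z - Cutoff_rd z).re = z.re - round z.re := by
  simp [Cutoff_rd]

theorem Cutoff_sub_im (z : ℂ) : (z - Cutoff_rd z).im = z.im - round z.im := by
  simp [Cutoff_rd]

/-- the function is locally zero or a translate -/
theorem Cutoff_local (b₁ : ℂ → ℂ) (hb : ∀ z : ℂ, 3 / 8 ≤ ‖z‖ → b₁ z = 0) (z₀ : ℂ) :
    (fun z => b₁ (z - Cutoff_rd z)) =ᶠ[𝓝 z₀] (fun _ => 0) ∨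
      ∃ m : ℂ, (fun z => b₁ (z - Cutoff_rd z)) =ᶠ[𝓝 z₀] (fun z => b₁ (z - m)) := by
  by_cases h : ‖z₀ - Cutoff_rd z₀‖ < 1 / 2
  · right
    refine ⟨Cutoff_rd z₀, ?_⟩
    have hre : |z₀.re - round z₀.re| < 1 / 2 := by
      rw [← Cutoff_sub_re]
      exact (abs_re_le_norm _).trans_lt h
    have him : |z₀.im - round z₀.im| < 1 / 2 := by
      rw [← Cutoff_sub_im]
      exact (abs_im_le_norm _).trans_lt h
    have e1 : ∀ᶠ z : ℂ in 𝓝 z₀, |z.re - ((round z₀.re : ℤ) : ℝ)| < 1 / 2 := by
      have hc : Continuous (fun z : ℂ => |z.re - ((round z₀.re : ℤ) : ℝ)|) := by fun_prop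
      exact hc.continuousAt.eventually_lt continuousAt_const hre
    have e2 : ∀ᶠ z : ℂ in 𝓝 z₀, |z.im - ((round z₀.im : ℤ) : ℝ)| < 1 / 2 := by
      have hc : Continuous (fun z : ℂ => |z.im - ((round z₀.im : ℤ) : ℝ)|) := by fun_prop
      exact hc.continuousAt.eventually_lt continuousAt_const him
    filter_upwards [e1, e2] with z h1 h2
    have h3 : Cutoff_rd z = Cutoff_rd z₀ := by
      unfold Cutoff_rd
      rw [Cutoff_round h1, Cutoff_round h2]
    rw [h3]
  · left
    have e1 : ∀ᶠ z in 𝓝 z₀, ‖z - z₀‖ < 1 / 8 := by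
      have hc : Continuous (fun z : ℂ => ‖z - z₀‖) := by fun_prop
      exact hc.continuousAt.eventually_lt continuousAt_const (by simp)
    filter_upwards [e1] with z hz
    apply hb
    have h1 : ‖z₀ - Cutoff_rd z₀‖ ≤ ‖z₀ - Cutoff_rd z‖ := by
      rw [← sq_le_sq₀ (norm_nonneg _) (norm_nonneg _), ← normSq_eq_norm_sq, ← normSq_eq_norm_sq,
        normSq_apply, normSq_apply]
      have r1 : (z₀ - Cutoff_rd z).re = z₀.re - round z.re := by simp [Cutoff_rd]
      have r2 : (z₀ - Cutoff_rd z).im = z₀.im - round z.im := by simp [Cutoff_rd]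
      rw [Cutoff_sub_re, Cutoff_sub_im, r1, r2]
      have s1 := sq_le_sq.2 (round_le z₀.re (round z.re))
      have s2 := sq_le_sq.2 (round_le z₀.im (round z.im))
      nlinarith
    have h2 : ‖z₀ - Cutoff_rd z‖ ≤ ‖z - Cutoff_rd z‖ + ‖z - z₀‖ := by
      have : z₀ - Cutoff_rd z = (z - Cutoff_rd z) - (z - z₀) := by ring
      rw [this]
      exact norm_sub_le _ _
    push Not at h
    linarith

/-- Proof. Fix a smooth bump `η : ℂ → ℝ` (`ContDiffBump (0 : ℂ)` with radii `1/4`, `3/8`). `b₁ = η b` on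
`ball 0 1`, `0` outside, is `C⁶`, supported in `closedBall 0 (3/8)`, with `‖D^j b₁‖ ≤ C κ`
(`norm_iteratedFDerivWithin_mul_le` or `_smul_le`; the derivatives of `η` are bounded). Then
`B z = b₁ (z - (round z.re + round z.im * I))`: near every point `B` is either `0` or a translate of `b₁`
by a constant Gaussian integer (`closedBall 0 (3/8)` and its translates are disjoint). -/
theorem cutoff_periodic : ∃ C : ℝ, 0 < C ∧ ∀ (b : ℂ → ℂ) (κ : ℝ),
    ContDiffOn ℝ 6 b (Metric.ball 0 1) →
    (∀ z ∈ Metric.ball (0 : ℂ) 1, ∀ j : ℕ, j ≤ 6 → ‖iteratedFDeriv ℝ j b z‖ ≤ κ) →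
    ∃ B : ℂ → ℂ, ContDiff ℝ 6 B ∧ (∀ z, B (z + 1) = B z ∧ B (z + I) = B z) ∧
      (∀ z, ∀ j : ℕ, j ≤ 6 → ‖iteratedFDeriv ℝ j B z‖ ≤ C * κ) ∧
      ∀ z ∈ Metric.ball (0 : ℂ) (1 / 4), B z = b z := by
  obtain ⟨M, hM0, hM⟩ := Cutoff_eta_bound
  refine ⟨64 * M, by positivity, ?_⟩
  intro b κ hb hκ
  have hκ0 : 0 ≤ κ := (norm_nonneg _).trans (hκ 0 (by simp) 0 (by norm_num))
  set b₁ : ℂ → ℂ := fun z => Cutoff_eta z • b z with hb₁
  have hzero : ∀ z : ℂ, 3 / 8 ≤ ‖z‖ → b₁ z = 0 := by
    intro z hz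
    have h1 : Cutoff_eta z = 0 := by
      apply Cutoff_eta.zero_of_le_dist
      rw [dist_zero_right]
      exact hz
    rw [hb₁]
    simp only [h1, zero_smul]
  have hopen : IsOpen (Metric.ball (0 : ℂ) 1) := Metric.isOpen_ball
  have hev : ∀ z : ℂ, z ∉ Metric.ball (0 : ℂ) 1 → b₁ =ᶠ[𝓝 z] fun _ => 0 := by
    intro z hz
    have h1 : (3 / 8 : ℝ) < ‖z‖ := by
      rw [Metric.mem_ball, dist_zero_right] at hz
      push Not at hz
      linarith
    have h2 : ∀ᶠ w in 𝓝 z, 3 / 8 < ‖w‖ :=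
      continuousAt_const.eventually_lt continuous_norm.continuousAt h1
    filter_upwards [h2] with w hw
    exact hzero w hw.le
  have hb₁on : ContDiffOn ℝ 6 b₁ (Metric.ball 0 1) :=
    (Cutoff_eta.contDiff (n := 6)).contDiffOn.smul hb
  have hb₁smooth : ContDiff ℝ 6 b₁ := by
    rw [contDiff_iff_contDiffAt]
    intro z
    by_cases hz : z ∈ Metric.ball (0 : ℂ) 1
    · exact hb₁on.contDiffAt (hopen.mem_nhds hz)
    · exact contDiffAt_const.congr_of_eventuallyEq (hev z hz)
  have hb₁bound : ∀ z : ℂ, ∀ j : ℕ, j ≤ 6 → ‖iteratedFDeriv ℝ j b₁ z‖ ≤ 64 * M * κ := by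
    intro z j hj
    by_cases hz : z ∈ Metric.ball (0 : ℂ) 1
    · have h1 := norm_iteratedFDerivWithin_smul_le (𝕜 := ℝ) (s := Metric.ball (0 : ℂ) 1)
        (f := Cutoff_eta) (g := b) (N := 6) (Cutoff_eta.contDiff (n := 6)).contDiffOn hb
        hopen.uniqueDiffOn hz (n := j) (by exact_mod_cast hj)
      rw [iteratedFDerivWithin_of_isOpen j hopen hz] at h1
      refine h1.trans ?_
      calc ∑ i ∈ Finset.range (j + 1), (j.choose i : ℝ) *
            ‖iteratedFDerivWithin ℝ i Cutoff_eta (Metric.ball 0 1) z‖ *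
            ‖iteratedFDerivWithin ℝ (j - i) b (Metric.ball 0 1) z‖
          ≤ ∑ i ∈ Finset.range (j + 1), (j.choose i : ℝ) * M * κ := by
            apply Finset.sum_le_sum
            intro i hi
            have hi' : i ≤ j := Nat.lt_succ_iff.1 (Finset.mem_range.1 hi)
            rw [iteratedFDerivWithin_of_isOpen i hopen hz,
              iteratedFDerivWithin_of_isOpen (j - i) hopen hz]
            exact mul_le_mul (mul_le_mul_of_nonneg_left (hM z i (by omega)) (by positivity))
              (hκ z hz (j - i) (by omega)) (norm_nonneg _) (by positivity)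
        _ = (2 : ℝ) ^ j * M * κ := by
            rw [← Finset.sum_mul, ← Finset.sum_mul]
            have := Nat.sum_range_choose j
            have h2 : ∑ i ∈ Finset.range (j + 1), (j.choose i : ℝ) = 2 ^ j := by
              exact_mod_cast this
            rw [h2]
        _ ≤ 64 * M * κ := by
            have h3 : (2 : ℝ) ^ j ≤ 64 := by
              calc (2 : ℝ) ^ j ≤ 2 ^ 6 := pow_le_pow_right₀ (by norm_num) hj
                _ = 64 := by norm_num
            exact mul_le_mul_of_nonneg_right (mul_le_mul_of_nonneg_right h3 hM0.le) hκ0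
    · rw [((hev z hz).iteratedFDeriv ℝ j).eq_of_nhds]
      have h1 : iteratedFDeriv ℝ j (fun _ : ℂ => (0 : ℂ)) z = 0 := by
        have := iteratedFDeriv_fun_zero (𝕜 := ℝ) (E := ℂ) (F := ℂ) (n := j)
        exact congrFun this z
      rw [h1, norm_zero]
      positivity
  refine ⟨fun z => b₁ (z - Cutoff_rd z), ?_, ?_, ?_, ?_⟩
  · rw [contDiff_iff_contDiffAt]
    intro z
    rcases Cutoff_local b₁ hzero z with h | ⟨m, h⟩
    · exact contDiffAt_const.congr_of_eventuallyEq h
    · refine ContDiffAt.congr_of_eventuallyEq ?_ h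
      exact (hb₁smooth.comp (contDiff_id.sub contDiff_const)).contDiffAt
  · intro z
    constructor
    · have h1 : z + 1 - Cutoff_rd (z + 1) = z - Cutoff_rd z := by
        unfold Cutoff_rd
        simp only [add_re, one_re, add_im, one_im, add_zero, round_add_one]
        push_cast
        ring
      simp only [h1]
    · have h1 : z + I - Cutoff_rd (z + I) = z - Cutoff_rd z := by
        unfold Cutoff_rd
        simp only [add_re, I_re, add_im, I_im, add_zero, round_add_one]
        push_cast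
        ring
      simp only [h1]
  · intro z j hj
    rcases Cutoff_local b₁ hzero z with h | ⟨m, h⟩
    · rw [(h.iteratedFDeriv ℝ j).eq_of_nhds]
      have h1 : iteratedFDeriv ℝ j (fun _ : ℂ => (0 : ℂ)) z = 0 := by
        have := iteratedFDeriv_fun_zero (𝕜 := ℝ) (E := ℂ) (F := ℂ) (n := j)
        exact congrFun this z
      rw [h1, norm_zero]
      positivity
    · rw [(h.iteratedFDeriv ℝ j).eq_of_nhds, iteratedFDeriv_comp_sub]
      exact hb₁bound _ j hj
  · intro z hz
    rw [Metric.mem_ball, dist_zero_right] at hz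
    have h1 : round z.re = 0 := by
      apply Cutoff_round
      rw [Int.cast_zero, sub_zero]
      linarith [abs_re_le_norm z]
    have h2 : round z.im = 0 := by
      apply Cutoff_round
      rw [Int.cast_zero, sub_zero]
      linarith [abs_im_le_norm z]
    have h3 : Cutoff_rd z = 0 := by
      unfold Cutoff_rd
      rw [h1, h2]
      simp
    have h4 : Cutoff_eta z = 1 := by
      apply Cutoff_eta.one_of_mem_closedBall
      rw [Metric.mem_closedBall, dist_zero_right]
      exact hz.le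
    simp only [h3, sub_zero, hb₁, h4, one_smul]

end Pool.Agent.BB4B37
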