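import Pool.Agent.W_bb4b37_h24.AreaB

/-! # The `∂̄` derivatives in the coordinate tend to `0` in `L¹` -/

set_option autoImplicit false

namespace Pool.Agent.BB4B37

open Complex Filter Topology Set MeasureTheory

theorem DbarL_cont {f : ℂ → ℂ} (hc : ContDiff ℝ 1 f) : Continuous (dz f) ∧ Continuous (dzb f) := by
  have hcf : Continuous (fderiv ℝ f) := hc.continuous_fderiv one_ne_zero
  have hpx : Continuous (px f) := hcf.clm_apply continuous_const
  have hpy : Continuous (py f) := hcf.clm_apply continuous_const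
  constructor
  · unfold dz
    fun_prop
  · unfold dzb
    fun_prop

/-- the pointwise inequality -/
theorem DbarL_pt {k : ℝ} (hk : k ≤ 1 / 2) {b : ℂ → ℂ} (hb : ∀ z, ‖b z‖ ≤ k) {f : ℂ → ℂ}
    (hf : IsDf k f) {g G : ℂ → ℂ} (hg : ContDiff ℝ 3 g) (hG : ContDiff ℝ 3 G)
    (h10 : ∀ z, ‖dz g z - 1‖ ≤ 1 / 10 ∧ ‖dzb g z‖ ≤ 1 / 10)
    (hGg : ∀ z, G (g z) = z) {z : ℂ} (hgb : dzb g z = b z * dz g z) :
    |(fderiv ℝ g z).det| * ‖dzb (fun y => f (G y)) (g z)‖ ≤
      4 * (‖bel f z - b z‖ * ‖dz f z‖) := by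
  have hfd : Differentiable ℝ f := (hf.smooth 1).differentiable one_ne_zero
  have hgd : Differentiable ℝ g := hg.differentiable (by norm_num)
  have hGd : Differentiable ℝ G := hG.differentiable (by norm_num)
  have hHd : Differentiable ℝ (fun y => f (G y)) := hfd.comp hGd
  have hcomp : (fun w => (fun y => f (G y)) (g w)) = f := by
    funext w
    simp only [hGg]
  have hch := dz_comp (f := g) (g := fun y => f (G y)) (z := z) (hgd z) (hHd (g z))
  rw [hcomp] at hch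
  obtain ⟨c1, c2⟩ := hch
  set Hz := dz (fun y => f (G y)) (g z)
  set Hb := dzb (fun y => f (G y)) (g z)
  have e1 : dzb f z - b z * dz f z =
      Hb * (starRingEnd ℂ) (dz g z) * (1 - b z * (starRingEnd ℂ) (b z)) := by
    rw [c1, c2, hgb, map_mul]
    ring
  have e2 : dzb f z - b z * dz f z = (bel f z - b z) * dz f z := by
    unfold bel
    rw [sub_mul, div_mul_cancel₀ _ (hf.nd z)]
  have hbz : ‖b z‖ ≤ 1 / 2 := (hb z).trans hk
  have n1 : 3 / 4 ≤ ‖1 - b z * (starRingEnd ℂ) (b z)‖ := by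
    have h1 : ‖(1 : ℂ)‖ - ‖b z * (starRingEnd ℂ) (b z)‖ ≤ ‖1 - b z * (starRingEnd ℂ) (b z)‖ :=
      norm_sub_norm_le _ _
    rw [norm_one, norm_mul, RCLike.norm_conj] at h1
    nlinarith [norm_nonneg (b z)]
  have n2 : 9 / 10 ≤ ‖dz g z‖ := by
    have h1 : ‖(1 : ℂ)‖ ≤ ‖dz g z‖ + ‖dz g z - 1‖ := by
      have : (1 : ℂ) = dz g z - (dz g z - 1) := by ring
      conv_lhs => rw [this]
      exact norm_sub_le _ _
    rw [norm_one] at h1
    linarith [(h10 z).1]
  have n3 : ‖dz g z‖ ≤ 11 / 10 := by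
    have h1 : ‖dz g z‖ ≤ ‖dz g z - 1‖ + ‖(1 : ℂ)‖ := by
      have : dz g z = (dz g z - 1) + 1 := by ring
      conv_lhs => rw [this]
      exact norm_add_le _ _
    rw [norm_one] at h1
    linarith [(h10 z).1]
  have n4 : |(fderiv ℝ g z).det| ≤ 2 := by
    rw [det_fderiv_eq, abs_le]
    have h2 := (h10 z).2
    constructor <;> nlinarith [norm_nonneg (dzb g z), norm_nonneg (dz g z)]
  have n5 : ‖Hb‖ * ‖dz g z‖ * ‖1 - b z * (starRingEnd ℂ) (b z)‖ =
      ‖bel f z - b z‖ * ‖dz f z‖ := by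
    rw [← norm_mul (bel f z - b z), ← e2, e1, norm_mul, norm_mul, RCLike.norm_conj]
  have n6 : ‖Hb‖ * (9 / 10) * (3 / 4) ≤ ‖bel f z - b z‖ * ‖dz f z‖ := by
    rw [← n5]
    exact mul_le_mul (mul_le_mul_of_nonneg_left n2 (norm_nonneg _)) n1 (by norm_num)
      (by positivity)
  have n7 : |(fderiv ℝ g z).det| * ‖Hb‖ ≤ 2 * ‖Hb‖ :=
    mul_le_mul_of_nonneg_right n4 (norm_nonneg _)
  nlinarith [norm_nonneg Hb]

/-- Proof. Write `H = f n ∘ G`, so `f n = H ∘ g`. Chain rule (`dz_comp`): for `z ∈ V`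
`∂_z̄ (f n) - b ∂_z (f n) = H_ȳ(g z) conj (g_z) (1 - ‖b‖²)` (as `g_z̄ = b g_z`), so
`‖dzb H (g z)‖ ≤ 2 ‖∂_z̄ f n - b ∂_z f n‖ = 2 ‖bel (f n) - b‖ ‖dz (f n)‖`. Change of variables `x = g z`
(`|det Dg| ≤ 2`; `K = g '' K'`, `K' = G '' K ⊆ V` compact):
`∫_K ‖dzb H‖ ≤ 4 ∫_{K'} ‖bel (f n) - b‖ ‖dz (f n)‖ ≤ 4 (∫_{K'} ‖bel (f n) - b‖²)^{1/2} (∫_{K'} ‖dz (f n)‖²)^{1/2}`,
the first factor tends to `0` (`K'` is in a ball; the integrand is bounded and measurable), the second is
bounded by `area_bound`: `f n '' K'` stays in a fixed ball because `f n → u` uniformly, and `f n` is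
bounded on `K'`, uniformly in `n` for large `n`. -/
theorem dbar_L1 {k : ℝ} (hk : k ≤ 1 / 2) {b u : ℂ → ℂ} (hbm : Measurable b)
    (hb : ∀ z, ‖b z‖ ≤ k) {f : ℕ → ℂ → ℂ} (hf : ∀ n, IsDf k (f n))
    (hu : TendstoUniformly f u atTop)
    (hL2 : ∀ R : ℝ, Tendsto (fun n => ∫ z in Metric.ball (0 : ℂ) R, ‖bel (f n) z - b z‖ ^ 2) atTop
      (𝓝 0))
    {g G : ℂ → ℂ} (hg : ContDiff ℝ 3 g) (hG : ContDiff ℝ 3 G)
    (h10 : ∀ z, ‖dz g z - 1‖ ≤ 1 / 10 ∧ ‖dzb g z‖ ≤ 1 / 10)
    (hGg : ∀ z, G (g z) = z) (hgG : ∀ z, g (G z) = z) {V : Set ℂ} (hV : IsOpen V)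
    (hgb : ∀ z ∈ V, dzb g z = b z * dz g z) :
    ∀ K ⊆ g '' V, IsCompact K →
      Tendsto (fun n => ∫ x in K, ‖dzb (fun y => f n (G y)) x‖) atTop (𝓝 0) := by
  intro K hKV hK
  have hgd : Differentiable ℝ g := hg.differentiable (by norm_num)
  have hgc : Continuous g := hg.continuous
  have hGc : Continuous G := hG.continuous
  set K' := G '' K with hK'
  have hK'c : IsCompact K' := hK.image hGc
  have hgK' : g '' K' = K := by
    rw [hK', ← image_comp]
    ext x
    constructor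
    · rintro ⟨y, hy, rfl⟩
      simpa only [Function.comp_apply, hgG] using hy
    · intro hx
      exact ⟨x, hx, hgG x⟩
  have hK'V : K' ⊆ V := by
    rintro _ ⟨x, hx, rfl⟩
    obtain ⟨z, hz, rfl⟩ := hKV hx
    rw [hGg]
    exact hz
  have hginj : Function.Injective g := Function.LeftInverse.injective hGg
  -- change of variables
  have hchange : ∀ n, ∫ x in K, ‖dzb (fun y => f n (G y)) x‖ =
      ∫ z in K', |(fderiv ℝ g z).det| * ‖dzb (fun y => f n (G y)) (g z)‖ := by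
    intro n
    conv_lhs => rw [← hgK']
    have h := integral_image_eq_integral_abs_det_fderiv_smul volume hK'c.measurableSet
      (fun x _ => (hgd x).hasFDerivAt.hasFDerivWithinAt) hginj.injOn
      (fun x => ‖dzb (fun y => f n (G y)) x‖)
    simpa only [smul_eq_mul] using h
  have hHc : ∀ n, Continuous (dzb (fun y => f n (G y))) := fun n =>
    (DbarL_cont (((hf n).smooth 1).comp (hG.of_le (by norm_num)))).2
  have hfc : ∀ n, Continuous (dz (f n)) ∧ Continuous (dzb (f n)) := fun n =>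
    DbarL_cont ((hf n).smooth 1)
  have hgdc : Continuous (dz g) ∧ Continuous (dzb g) := DbarL_cont (hg.of_le (by norm_num))
  -- integrability
  have hi1 : ∀ n, IntegrableOn
      (fun z => |(fderiv ℝ g z).det| * ‖dzb (fun y => f n (G y)) (g z)‖) K' := by
    intro n
    have hc : Continuous (fun z => |(fderiv ℝ g z).det| * ‖dzb (fun y => f n (G y)) (g z)‖) := by
      have e : (fun z => |(fderiv ℝ g z).det| * ‖dzb (fun y => f n (G y)) (g z)‖) =
          fun z => |‖dz g z‖ ^ 2 - ‖dzb g z‖ ^ 2| * ‖dzb (fun y => f n (G y)) (g z)‖ := by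
        funext z
        rw [det_fderiv_eq]
      rw [e]
      have := hgdc.1
      have := hgdc.2
      have h3 : Continuous (fun z => dzb (fun y => f n (G y)) (g z)) := (hHc n).comp hgc
      fun_prop
    exact hc.continuousOn.integrableOn_compact hK'c
  have hi2 : ∀ n, IntegrableOn (fun z => ‖dz (f n) z‖ ^ 2) K' := fun n =>
    ((hfc n).1.norm.pow 2).continuousOn.integrableOn_compact hK'c
  have hmeas : ∀ n, Measurable (fun z => ‖bel (f n) z - b z‖ ^ 2) := by
    intro n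
    have h1 : Measurable (bel (f n)) := by
      unfold bel
      exact (hfc n).2.measurable.div (hfc n).1.measurable
    exact ((h1.sub hbm).norm).pow_const 2
  have hle1 : ∀ n z, ‖bel (f n) z - b z‖ ^ 2 ≤ 1 := by
    intro n z
    have h1 : ‖bel (f n) z‖ ≤ 1 / 2 := by
      unfold bel
      rw [norm_div, div_le_iff₀ (norm_pos_iff.2 ((hf n).nd z))]
      exact ((hf n).bel z).trans (mul_le_mul_of_nonneg_right hk (norm_nonneg _))
    have h2 : ‖b z‖ ≤ 1 / 2 := (hb z).trans hk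
    have h3 : ‖bel (f n) z - b z‖ ≤ 1 := by
      have := norm_sub_le (bel (f n) z) (b z)
      linarith
    exact pow_le_one₀ (norm_nonneg _) h3
  have hi3 : ∀ n, ∀ s : Set ℂ, volume s < ⊤ →
      IntegrableOn (fun z => ‖bel (f n) z - b z‖ ^ 2) s := by
    intro n s hs
    refine IntegrableOn.of_bound hs (hmeas n).aestronglyMeasurable 1 ?_
    refine Filter.Eventually.of_forall fun z => ?_
    rw [Real.norm_of_nonneg (by positivity)]
    exact hle1 n z
  -- a ball containing `K'`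
  obtain ⟨R, hR⟩ := hK'c.isBounded.subset_ball (0 : ℂ)
  have hA : ∀ n, ∫ z in K', ‖bel (f n) z - b z‖ ^ 2 ≤
      ∫ z in Metric.ball (0 : ℂ) R, ‖bel (f n) z - b z‖ ^ 2 := by
    intro n
    refine setIntegral_mono_set (hi3 n _ measure_ball_lt_top) ?_ hR.eventuallyLE
    exact Filter.Eventually.of_forall fun z => by positivity
  -- the area
  have huc : Continuous u := hu.continuous (Filter.Frequently.of_forall
    fun n => ((hf n).smooth 1).continuous)
  obtain ⟨B, hB⟩ := hK'c.exists_bound_of_continuousOn huc.continuousOn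
  have hD : ∀ᶠ n in atTop, ∫ z in K', ‖dz (f n) z‖ ^ 2 ≤
      2 * (volume (Metric.closedBall (0 : ℂ) (B + 1))).toReal := by
    rw [Metric.tendstoUniformly_iff] at hu
    filter_upwards [hu 1 one_pos] with n hn
    refine (area_bound hk (hf n) hK'c).trans ?_
    refine mul_le_mul_of_nonneg_left ?_ (by norm_num)
    refine ENNReal.toReal_mono measure_closedBall_lt_top.ne (measure_mono ?_)
    rintro _ ⟨z, hz, rfl⟩
    rw [Metric.mem_closedBall, dist_zero_right]
    have h1 := hn z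
    rw [dist_eq_norm] at h1
    have h2 : ‖f n z‖ ≤ ‖u z‖ + ‖u z - f n z‖ := by
      have : f n z = u z - (u z - f n z) := by ring
      conv_lhs => rw [this]
      exact norm_sub_le _ _
    linarith [hB z hz]
  set M := 2 * (volume (Metric.closedBall (0 : ℂ) (B + 1))).toReal with hM
  have hM0 : 0 ≤ M := by positivity
  -- the bound
  have hbound : ∀ ε : ℝ, 0 < ε → ∀ n, ∫ x in K, ‖dzb (fun y => f n (G y)) x‖ ≤
      (2 / ε) * (∫ z in K', ‖bel (f n) z - b z‖ ^ 2) + (2 * ε) * ∫ z in K', ‖dz (f n) z‖ ^ 2 := by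
    intro ε hε n
    rw [hchange n, ← integral_const_mul, ← integral_const_mul,
      ← integral_add ((hi3 n _ hK'c.measure_lt_top).const_mul _) ((hi2 n).const_mul _)]
    refine setIntegral_mono_on (hi1 n)
      (((hi3 n _ hK'c.measure_lt_top).const_mul _).add ((hi2 n).const_mul _))
      hK'c.measurableSet fun z hz => ?_
    refine (DbarL_pt hk hb (hf n) hg hG h10 hGg (hgb z (hK'V hz))).trans ?_
    have h1 : 0 ≤ (‖bel (f n) z - b z‖ - ε * ‖dz (f n) z‖) ^ 2 := sq_nonneg _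
    have h2 : 4 * (‖bel (f n) z - b z‖ * ‖dz (f n) z‖) * ε ≤
        (2 / ε * ‖bel (f n) z - b z‖ ^ 2 + 2 * ε * ‖dz (f n) z‖ ^ 2) * ε := by
      have h3 : 2 / ε * ‖bel (f n) z - b z‖ ^ 2 * ε = 2 * ‖bel (f n) z - b z‖ ^ 2 := by
        field_simp
      nlinarith
    exact le_of_mul_le_mul_right h2 hε
  rw [Metric.tendsto_atTop]
  intro δ hδ
  set ε : ℝ := δ / (4 * (M + 1)) with hε
  have hε0 : 0 < ε := by positivity
  have h1 : Tendsto (fun n => (2 / ε) * ∫ z in Metric.ball (0 : ℂ) R, ‖bel (f n) z - b z‖ ^ 2)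
      atTop (𝓝 0) := by
    have := (hL2 R).const_mul (2 / ε)
    rwa [mul_zero] at this
  have h2 := (h1.eventually_lt_const (show (0 : ℝ) < δ / 2 by positivity)).and hD
  obtain ⟨N, hN⟩ := eventually_atTop.1 h2
  refine ⟨N, fun n hn => ?_⟩
  obtain ⟨h3, h4⟩ := hN n hn
  rw [dist_zero_right, Real.norm_of_nonneg (integral_nonneg fun x => norm_nonneg _)]
  refine (hbound ε hε0 n).trans_lt ?_
  have h5 : (2 / ε) * (∫ z in K', ‖bel (f n) z - b z‖ ^ 2) < δ / 2 :=
    (mul_le_mul_of_nonneg_left (hA n) (by positivity)).trans_lt h3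
  have h6 : (2 * ε) * (∫ z in K', ‖dz (f n) z‖ ^ 2) ≤ δ / 2 := by
    calc (2 * ε) * (∫ z in K', ‖dz (f n) z‖ ^ 2) ≤ (2 * ε) * M :=
          mul_le_mul_of_nonneg_left h4 (by positivity)
      _ ≤ (2 * ε) * (M + 1) := mul_le_mul_of_nonneg_left (by linarith) (by positivity)
      _ = δ / 2 := by
          rw [hε]
          field_simp
          norm_num
  linarith

end Pool.Agent.BB4B37
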