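import Pool.Agent.W_bb4b37_h24.WienDef
import Pool.Agent.W_bb4b37_h5.Statement

/-! # Fourier coefficients of periodic functions of the plane -/

set_option autoImplicit false

namespace Pool.Agent.BB4B37

open Complex Filter Topology Set MeasureTheory

/-- Fourier coefficients -/
noncomputable def coef (B : ℂ → ℂ) (m : ℤ × ℤ) : ℂ :=
  ∫ x in (0 : ℝ)..1, ∫ y in (0 : ℝ)..1, B (x + y * I) * ee (-m) (x + y * I)

/-- one-dimensional integration by parts against a character -/
theorem fa_ibp {g g' : ℝ → ℂ} (hg : ∀ x, HasDerivAt g (g' x) x) (hg' : Continuous g')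
    (h01 : g 1 = g 0) (n : ℤ) :
    ∫ x in (0 : ℝ)..1, g' x * Complex.exp (-(2 * Real.pi * I * n * x)) =
      2 * Real.pi * I * n * ∫ x in (0 : ℝ)..1, g x * Complex.exp (-(2 * Real.pi * I * n * x)) := by
  have hgc : Continuous g := continuous_iff_continuousAt.mpr fun x => (hg x).continuousAt
  have hv : ∀ x : ℝ, HasDerivAt (fun x : ℝ => Complex.exp (-(2 * Real.pi * I * n * x)))
      (Complex.exp (-(2 * Real.pi * I * n * x)) * (-(2 * Real.pi * I * n))) x := by
    intro x
    have h1 : HasDerivAt (fun x : ℝ => (x : ℂ)) 1 x := ofRealCLM.hasDerivAt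
    have h2 : HasDerivAt (fun x : ℝ => -(2 * Real.pi * I * n * (x : ℂ)))
        (-(2 * Real.pi * I * n)) x := by
      have h3 := h1.const_mul (-(2 * Real.pi * I * n))
      simpa only [neg_mul, mul_one] using h3
    exact h2.cexp
  have hvc : Continuous fun x : ℝ => Complex.exp (-(2 * Real.pi * I * n * x)) := by fun_prop
  have h := intervalIntegral.integral_deriv_mul_eq_sub (a := 0) (b := 1)
    (fun x _ => hg x) (fun x _ => hv x) (hg'.intervalIntegrable _ _)
    ((hvc.mul continuous_const).intervalIntegrable _ _)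
  have hv1 : Complex.exp (-(2 * Real.pi * I * n * ((1 : ℝ) : ℂ))) = 1 := by
    have : (-(2 * Real.pi * I * n * ((1 : ℝ) : ℂ)) : ℂ) = ((-n : ℤ) : ℂ) * (2 * Real.pi * I) := by
      push_cast; ring
    rw [this]
    exact Complex.exp_int_mul_two_pi_mul_I _
  have hv0 : Complex.exp (-(2 * Real.pi * I * n * ((0 : ℝ) : ℂ))) = 1 := by simp
  rw [hv1, hv0, h01, sub_self, intervalIntegral.integral_add] at h
  · have h3 : ∫ x in (0 : ℝ)..1, g x * (Complex.exp (-(2 * Real.pi * I * n * x)) *
        (-(2 * Real.pi * I * n))) =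
        -(2 * Real.pi * I * n * ∫ x in (0 : ℝ)..1, g x * Complex.exp (-(2 * Real.pi * I * n * x))) := by
      rw [← intervalIntegral.integral_const_mul, ← intervalIntegral.integral_neg]
      refine intervalIntegral.integral_congr fun x _ => ?_
      ring
    rw [h3] at h
    linear_combination h
  · exact (hg'.mul hvc).intervalIntegrable _ _
  · exact (hgc.mul (hvc.mul continuous_const)).intervalIntegrable _ _

theorem fa_ee_neg (m : ℤ × ℤ) (x y : ℝ) :
    ee (-m) (x + y * I) = Complex.exp (-(2 * Real.pi * I * m.1 * x)) *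
      Complex.exp (-(2 * Real.pi * I * m.2 * y)) := by
  rw [ee, ← Complex.exp_add]
  congr 1
  simp
  ring

theorem fa_cont (m : ℤ × ℤ) : Continuous fun z => ee m z := by
  unfold ee
  fun_prop

theorem fa_norm_ee (m : ℤ × ℤ) (z : ℂ) : ‖ee m z‖ = 1 := by
  have : (2 * Real.pi * I * (m.1 * z.re + m.2 * z.im) : ℂ) =
      ((2 * Real.pi * (m.1 * z.re + m.2 * z.im) : ℝ) : ℂ) * I := by
    push_cast; ring
  rw [ee, this, Complex.norm_exp_ofReal_mul_I]

theorem norm_coef_le {B : ℂ → ℂ} (hB : Continuous B) {K : ℝ} (hK : ∀ z, ‖B z‖ ≤ K) (m : ℤ × ℤ) :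
    ‖coef B m‖ ≤ K := by
  rw [coef]
  have h1 : ∀ x : ℝ, ‖∫ y in (0 : ℝ)..1, B (x + y * I) * ee (-m) (x + y * I)‖ ≤ K := by
    intro x
    have := intervalIntegral.norm_integral_le_of_norm_le_const (a := (0 : ℝ)) (b := 1) (C := K)
      (f := fun y : ℝ => B (x + y * I) * ee (-m) (x + y * I)) (fun y _ => by
        rw [norm_mul, fa_norm_ee, mul_one]; exact hK _)
    simpa using this
  have := intervalIntegral.norm_integral_le_of_norm_le_const (a := (0 : ℝ)) (b := 1) (C := K)
      (f := fun x : ℝ => ∫ y in (0 : ℝ)..1, B (x + y * I) * ee (-m) (x + y * I)) (fun x _ => h1 x)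
  simpa using this

/-- integration by parts in `y` -/
theorem coef_py {B : ℂ → ℂ} (hB : ContDiff ℝ 1 B)
    (hper : ∀ z, B (z + 1) = B z ∧ B (z + I) = B z) (m : ℤ × ℤ) :
    coef (py B) m = 2 * Real.pi * I * m.2 * coef B m := by
  rw [coef, coef, ← intervalIntegral.integral_const_mul]
  refine intervalIntegral.integral_congr fun x _ => ?_
  have hc : Continuous (py B) := by
    unfold py
    exact (hB.continuous_fderiv (by norm_num)).clm_apply continuous_const
  have h := fa_ibp (g := fun y : ℝ => B (x + y * I) * Complex.exp (-(2 * Real.pi * I * m.1 * x)))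
    (g' := fun y : ℝ => py B (x + y * I) * Complex.exp (-(2 * Real.pi * I * m.1 * x)))
    (fun y => by
      have h1 : HasDerivAt (fun y : ℝ => (x : ℂ) + y * I) I y := by
        have : HasDerivAt (fun y : ℝ => (y : ℂ)) 1 y := ofRealCLM.hasDerivAt
        simpa using (this.mul_const I).const_add (x : ℂ)
      have h2 : HasFDerivAt B (fderiv ℝ B (x + y * I)) (x + y * I) :=
        (hB.differentiable (by norm_num) _).hasFDerivAt
      exact (h2.comp_hasDerivAt y h1).mul_const _)
    (by fun_prop) (by
      have := (hper x).2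
      simp only [ofReal_one, ofReal_zero, one_mul, zero_mul, add_zero]
      rw [this]) m.2
  simp only [fa_ee_neg]
  simpa only [mul_assoc] using h

/-- integration by parts in `x` (after exchanging the order of integration) -/
theorem coef_px {B : ℂ → ℂ} (hB : ContDiff ℝ 1 B)
    (hper : ∀ z, B (z + 1) = B z ∧ B (z + I) = B z) (m : ℤ × ℤ) :
    coef (px B) m = 2 * Real.pi * I * m.1 * coef B m := by
  have hc : Continuous (px B) := by
    unfold px
    exact (hB.continuous_fderiv (by norm_num)).clm_apply continuous_const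
  have hBc := hB.continuous
  have hee := fa_cont (-m)
  have hsw : ∀ F : ℂ → ℂ, Continuous F →
      ∫ x in (0 : ℝ)..1, ∫ y in (0 : ℝ)..1, F (x + y * I) * ee (-m) (x + y * I) =
      ∫ y in (0 : ℝ)..1, ∫ x in (0 : ℝ)..1, F (x + y * I) * ee (-m) (x + y * I) := by
    intro F hF
    refine intervalIntegral_intervalIntegral_swap
      (F := fun x y : ℝ => F (x + y * I) * ee (-m) (x + y * I)) ?_
    have : Continuous (Function.uncurry fun x y : ℝ => F (x + y * I) * ee (-m) (x + y * I)) := by
      simp only [Function.uncurry_def]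
      fun_prop
    exact (this.continuousOn.integrableOn_compact (isCompact_uIcc.prod isCompact_uIcc)).mono_set
      (Set.prod_mono uIoc_subset_uIcc uIoc_subset_uIcc)
  rw [coef, coef, hsw _ hc, hsw _ hBc, ← intervalIntegral.integral_const_mul]
  refine intervalIntegral.integral_congr fun y _ => ?_
  have h := fa_ibp (g := fun x : ℝ => B (x + y * I) * Complex.exp (-(2 * Real.pi * I * m.2 * y)))
    (g' := fun x : ℝ => px B (x + y * I) * Complex.exp (-(2 * Real.pi * I * m.2 * y)))
    (fun x => by
      have h1 : HasDerivAt (fun x : ℝ => (x : ℂ) + y * I) 1 x := by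
        have : HasDerivAt (fun y : ℝ => (y : ℂ)) 1 x := ofRealCLM.hasDerivAt
        simpa using this.add_const ((y : ℂ) * I)
      have h2 : HasFDerivAt B (fderiv ℝ B (x + y * I)) (x + y * I) :=
        (hB.differentiable (by norm_num) _).hasFDerivAt
      exact (h2.comp_hasDerivAt x h1).mul_const _)
    (by fun_prop) (by
      have := (hper (y * I)).1
      simp only [ofReal_one, ofReal_zero, zero_add]
      rw [add_comm, this]) m.1
  simp only [fa_ee_neg]
  simp only [mul_assoc, mul_comm (Complex.exp (-(2 * (Real.pi * (I * ((m.2 : ℂ) * y))))))] at h ⊢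
  exact h

end Pool.Agent.BB4B37
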