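import Pool.Agent.W_bb4b37_h24.FourA

/-! # Fourier inversion -/

set_option autoImplicit false

namespace Pool.Agent.BB4B37

open Complex Filter Topology Set MeasureTheory

/-- one-dimensional Fourier inversion -/
theorem fb_inv_one {g : ℝ → ℂ} (hg : Continuous g) (hp : ∀ x, g (x + 1) = g x)
    (hs : Summable fun n : ℤ => ‖∫ x in (0 : ℝ)..1, g x * Complex.exp (-(2 * Real.pi * I * n * x))‖)
    (x : ℝ) :
    HasSum (fun n : ℤ => (∫ x in (0 : ℝ)..1, g x * Complex.exp (-(2 * Real.pi * I * n * x))) *
      Complex.exp (2 * Real.pi * I * n * x)) (g x) := by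
  have hper : Function.Periodic g 1 := hp
  have : Fact ((0 : ℝ) < 1) := ⟨one_pos⟩
  let G : C(AddCircle (1 : ℝ), ℂ) := ⟨hper.lift, continuous_coinduced_dom.mpr hg⟩
  have hG : ∀ t : ℝ, G (t : AddCircle (1 : ℝ)) = g t := fun t => hper.lift_coe t
  have hc : ∀ n : ℤ, fourierCoeff G n =
      ∫ x in (0 : ℝ)..1, g x * Complex.exp (-(2 * Real.pi * I * n * x)) := by
    intro n
    rw [fourierCoeff_eq_intervalIntegral G n 0]
    simp only [div_one, one_smul, zero_add]
    refine intervalIntegral.integral_congr fun t _ => ?_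
    show (fourier (-n)) (t : AddCircle (1 : ℝ)) • G (t : AddCircle (1 : ℝ)) = _
    rw [hG, fourier_coe_apply, smul_eq_mul, mul_comm]
    congr 2
    push_cast
    ring
  have hs' : Summable (fourierCoeff G) := by
    refine Summable.of_norm ?_
    simpa only [hc] using hs
  have h := has_pointwise_sum_fourier_series_of_summable hs' (x : AddCircle (1 : ℝ))
  rw [hG] at h
  refine h.congr_fun fun n => ?_
  rw [hc, fourier_coe_apply, smul_eq_mul]
  congr 2
  push_cast
  ring

theorem fb_ee_norm (m : ℤ × ℤ) (z : ℂ) : ‖ee m z‖ = 1 := by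
  have : (2 * Real.pi * I * (m.1 * z.re + m.2 * z.im) : ℂ) =
      ((2 * Real.pi * (m.1 * z.re + m.2 * z.im) : ℝ) : ℂ) * I := by
    push_cast; ring
  rw [ee, this, Complex.norm_exp_ofReal_mul_I]

theorem fb_ee_split (m : ℤ × ℤ) (x y : ℝ) :
    ee m (x + y * I) = Complex.exp (2 * Real.pi * I * m.1 * x) *
      Complex.exp (2 * Real.pi * I * m.2 * y) := by
  rw [ee, ← Complex.exp_add]
  congr 1
  simp
  ring

theorem fb_coef_iter (B : ℂ → ℂ) (m n : ℤ) :
    coef B (m, n) = ∫ x in (0 : ℝ)..1,
      (∫ y in (0 : ℝ)..1, B (x + y * I) * Complex.exp (-(2 * Real.pi * I * n * y))) *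
        Complex.exp (-(2 * Real.pi * I * m * x)) := by
  rw [coef]
  refine intervalIntegral.integral_congr fun x _ => ?_

  rw [← intervalIntegral.integral_mul_const]
  refine intervalIntegral.integral_congr fun y _ => ?_

  rw [fb_ee_split]
  have e1 : (2 * Real.pi * I * ((-(m, n) : ℤ × ℤ).1 : ℂ) * x) = -(2 * Real.pi * I * m * x) := by
    simp
  have e2 : (2 * Real.pi * I * ((-(m, n) : ℤ × ℤ).2 : ℂ) * y) = -(2 * Real.pi * I * n * y) := by
    simp
  rw [e1, e2]
  ring

/-- Fourier inversion for continuous periodic functions with summable coefficients: for instance from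
`UnitAddTorus.hasSum_mFourier_series_apply_of_summable` on `UnitAddTorus (Fin 2)` (descend `B` to the
torus; `UnitAddTorus.mFourierCoeff_eq_integral`), or from the one-dimensional
`has_pointwise_sum_fourier_series_of_summable` applied in `y` and then in `x`. -/
theorem coef_inversion {B : ℂ → ℂ} (hB : Continuous B)
    (hper : ∀ z, B (z + 1) = B z ∧ B (z + I) = B z) (hs : Summable fun m => ‖coef B m‖) (z : ℂ) :
    syn (coef B) z = B z := by
  set c : ℤ → ℝ → ℂ := fun n x =>
    ∫ y in (0 : ℝ)..1, B (x + y * I) * Complex.exp (-(2 * Real.pi * I * n * y)) with hcdef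
  have hcc : ∀ n, Continuous (c n) := by
    intro n
    refine intervalIntegral.continuous_parametric_intervalIntegral_of_continuous' ?_ 0 1
    simp only [Function.uncurry_def]
    fun_prop
  have hcp : ∀ n x, c n (x + 1) = c n x := by
    intro n x
    simp only [hcdef]
    refine intervalIntegral.integral_congr fun y _ => ?_

    have := (hper (x + y * I)).1
    rw [← this]
    congr 2
    push_cast
    ring
  have hsw : Summable fun p : ℤ × ℤ => ‖coef B (p.2, p.1)‖ :=
    (Equiv.prodComm ℤ ℤ).summable_iff.mpr hs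
  have hcx : ∀ (n : ℤ) (x : ℝ), HasSum (fun m : ℤ => coef B (m, n) * Complex.exp (2 * Real.pi * I * m * x))
      (c n x) := by
    intro n x
    have h1 := fb_inv_one (hcc n) (hcp n) (by
      have := hsw.prod_factor n
      simpa only [fb_coef_iter] using this) x
    simpa only [fb_coef_iter] using h1
  have hcn : ∀ (n : ℤ) (x : ℝ), ‖c n x‖ ≤ ∑' m : ℤ, ‖coef B (m, n)‖ := by
    intro n x
    have h1 := hcx n x
    rw [← h1.tsum_eq]
    have hn : ∀ m : ℤ, ‖coef B (m, n) * Complex.exp (2 * Real.pi * I * m * x)‖ =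
        ‖coef B (m, n)‖ := by
      intro m
      have : (2 * Real.pi * I * m * x : ℂ) = ((2 * Real.pi * m * x : ℝ) : ℂ) * I := by
        push_cast; ring
      rw [norm_mul, this, Complex.norm_exp_ofReal_mul_I, mul_one]
    have h2 : Summable fun m : ℤ => ‖coef B (m, n) * Complex.exp (2 * Real.pi * I * m * x)‖ := by
      simp only [hn]
      exact hsw.prod_factor n
    refine (norm_tsum_le_tsum_norm h2).trans (le_of_eq ?_)
    simp only [hn]
  obtain ⟨x, y, rfl⟩ : ∃ x y : ℝ, z = x + y * I := ⟨z.re, z.im, (re_add_im z).symm⟩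
  have hy : HasSum (fun n : ℤ => c n x * Complex.exp (2 * Real.pi * I * n * y)) (B (x + y * I)) := by
    refine fb_inv_one (g := fun y : ℝ => B (x + y * I)) (by fun_prop) ?_ ?_ y
    · intro y
      rw [← (hper (x + y * I)).2]
      congr 1
      push_cast
      ring
    · exact Summable.of_nonneg_of_le (fun _ => norm_nonneg _) (fun n => hcn n x) hsw.prod
  have hS : Summable fun p : ℤ × ℤ => coef B (p.2, p.1) * ee (p.2, p.1) (x + y * I) := by
    refine Summable.of_norm ?_
    simpa only [norm_mul, fb_ee_norm, mul_one] using hsw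
  have hsyn : HasSum (fun p : ℤ × ℤ => coef B (p.2, p.1) * ee (p.2, p.1) (x + y * I))
      (syn (coef B) (x + y * I)) := by
    have h3 := hS.hasSum
    have h4 : ∑' p : ℤ × ℤ, coef B (p.2, p.1) * ee (p.2, p.1) (x + y * I) =
        syn (coef B) (x + y * I) := by
      rw [syn]
      exact (Equiv.prodComm ℤ ℤ).tsum_eq fun m => coef B m * ee m (x + y * I)
    rwa [h4] at h3
  have hfin := hsyn.prod_fiberwise (g := fun n : ℤ => c n x * Complex.exp (2 * Real.pi * I * n * y))
    (by
      intro n
      have h5 := (hcx n x).mul_right (Complex.exp (2 * Real.pi * I * n * y))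
      refine h5.congr_fun fun m => ?_

      rw [fb_ee_split]
      ring)
  exact hfin.unique hy

end Pool.Agent.BB4B37
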