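import Pool.Agent.W_bb4b37_h24.Wirt

/-! # Injective holomorphic functions have nonzero derivative -/

set_option autoImplicit false

namespace Pool.Agent.BB4B37

open Complex Filter Topology Set MeasureTheory

/-- Proof. Suppose `deriv H p = 0`. `H` is analytic at `p` and not locally constant (injective), so
`H z - H p = (z - p)^m h z` near `p` with `h` analytic, `h p ≠ 0`
(`AnalyticAt.exists_eventuallyEq_pow_smul_nonzero_iff`), `m ≥ 2`. Let `q z = (z - p) (h z)^(1/m)`
(a branch near `p`: `h z / h p` is in the slit plane near `p`); `q p = 0`, `q' p ≠ 0`, so `q` maps every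
neighbourhood of `p` onto a neighbourhood of `0` (`HasStrictDerivAt`, open mapping
`HasStrictDerivAt.map_nhds_eq`). For small `t > 0` choose `z₁, z₂` near `p` with `q z₁ = t`,
`q z₂ = t e^{2 π i / m}`; then `H z₁ = H z₂`, `z₁ ≠ z₂`. -/
theorem deriv_ne_zero_of_injOn {U : Set ℂ} (hU : IsOpen U) {H : ℂ → ℂ}
    (hH : DifferentiableOn ℂ H U) (hinj : InjOn H U) {p : ℂ} (hp : p ∈ U) : deriv H p ≠ 0 := by
  intro hd0
  have hUn : U ∈ 𝓝 p := hU.mem_nhds hp
  have hHa : AnalyticAt ℂ H p := hH.analyticAt hUn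
  have hfa : AnalyticAt ℂ (fun z => H z - H p) p := hHa.sub analyticAt_const
  have hnc : ¬ ∀ᶠ z in 𝓝 p, H z - H p = 0 := by
    intro hev
    have h1 : ∀ᶠ z in 𝓝[≠] p, z ∈ U ∧ H z - H p = 0 ∧ z ≠ p := by
      have h2 : ∀ᶠ z in 𝓝[≠] p, z ∈ U ∧ H z - H p = 0 :=
        nhdsWithin_le_nhds ((eventually_mem_nhds_iff.2 hUn |>.mono fun z hz => mem_of_mem_nhds hz).and hev)
      filter_upwards [h2, self_mem_nhdsWithin] with z hz hz' using ⟨hz.1, hz.2, hz'⟩
    obtain ⟨z, hzU, hz0, hzp⟩ := h1.exists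
    exact hzp (hinj hzU hp (sub_eq_zero.1 hz0))
  obtain ⟨n, h, hha, hh0, hev⟩ := hfa.exists_eventuallyEq_pow_smul_nonzero_iff.2 hnc
  -- the order is at least two
  have hn0 : n ≠ 0 := by
    rintro rfl
    have h1 := hev.self_of_nhds
    simp only [sub_self, pow_zero, one_smul] at h1
    exact hh0 h1.symm
  have hn1 : n ≠ 1 := by
    rintro rfl
    have h1 : HasDerivAt (fun z => (z - p) ^ 1 • h z) (h p) p := by
      have h2 : HasDerivAt (fun z : ℂ => z - p) 1 p := (hasDerivAt_id p).sub_const p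
      have h3 := h2.mul hha.differentiableAt.hasDerivAt
      simp only [sub_self, zero_mul, add_zero, one_mul] at h3
      refine h3.congr_of_eventuallyEq ?_
      filter_upwards with z
      simp
    have h2 : HasDerivAt (fun z => H z - H p) (h p) p := h1.congr_of_eventuallyEq hev
    have h3 : HasDerivAt H (deriv H p) p := hHa.differentiableAt.hasDerivAt
    have h4 := h2.unique (h3.sub_const (H p))
    rw [hd0] at h4
    exact hh0 h4
  have hn2 : 1 < n := by omega
  -- the root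
  have hn' : (n : ℂ) ≠ 0 := by exact_mod_cast hn0
  set e : ℂ → ℂ := fun z => Complex.exp (Complex.log (h z / h p) / n) with he
  have hslit : h p / h p ∈ Complex.slitPlane := by
    rw [div_self hh0]
    exact Complex.one_mem_slitPlane
  have hea : AnalyticAt ℂ e p :=
    (((hha.div analyticAt_const hh0).clog hslit).div analyticAt_const hn').cexp
  have hep : e p = 1 := by
    simp only [he]
    rw [div_self hh0, Complex.log_one, zero_div, Complex.exp_zero]
  set q : ℂ → ℂ := fun z => (z - p) * e z with hq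
  have hqa : AnalyticAt ℂ q p := (analyticAt_id.sub analyticAt_const).mul hea
  have hqd : HasDerivAt q 1 p := by
    have h2 : HasDerivAt (fun z : ℂ => z - p) 1 p := (hasDerivAt_id p).sub_const p
    have h3 := h2.mul hea.differentiableAt.hasDerivAt
    simp only [sub_self, zero_mul, add_zero, one_mul, hep] at h3
    exact h3
  have hqs : HasStrictDerivAt q 1 p := by
    have h1 := hqa.hasStrictDerivAt
    rwa [hqd.deriv] at h1
  have hqp : q p = 0 := by simp [hq]
  have hqn : ∀ᶠ z in 𝓝 p, H z - H p = h p * q z ^ n := by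
    have h1 : ∀ᶠ z in 𝓝 p, h z ≠ 0 := hha.continuousAt.eventually_ne hh0
    filter_upwards [hev, h1] with z hz hz1
    rw [hz, hq]
    simp only [smul_eq_mul, mul_pow, he]
    rw [← Complex.exp_nat_mul, mul_div_cancel₀ _ hn', Complex.exp_log (div_ne_zero hz1 hh0)]
    field_simp
  -- a neighbourhood
  have hW : {z | z ∈ U ∧ H z - H p = h p * q z ^ n} ∈ 𝓝 p := by
    filter_upwards [hUn, hqn] with z h1 h2 using ⟨h1, h2⟩
  have himg : q '' {z | z ∈ U ∧ H z - H p = h p * q z ^ n} ∈ 𝓝 (0 : ℂ) := by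
    have h1 := hqs.map_nhds_eq one_ne_zero
    rw [hqp] at h1
    rw [← h1]
    exact Filter.image_mem_map hW
  obtain ⟨ε, hε, hball⟩ := Metric.mem_nhds_iff.1 himg
  have hprim := Complex.isPrimitiveRoot_exp n hn0
  set ζ : ℂ := Complex.exp (2 * Real.pi * I / n) with hζ
  have hζn : ‖ζ‖ = 1 := hprim.norm'_eq_one hn0
  have ht : ‖((ε / 2 : ℝ) : ℂ)‖ < ε := by
    rw [Complex.norm_real, Real.norm_of_nonneg (by positivity)]
    linarith
  obtain ⟨z₁, ⟨hz₁U, hz₁⟩, hq₁⟩ := hball (show ((ε / 2 : ℝ) : ℂ) ∈ Metric.ball (0 : ℂ) ε by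
    rw [Metric.mem_ball, dist_zero_right]; exact ht)
  obtain ⟨z₂, ⟨hz₂U, hz₂⟩, hq₂⟩ := hball (show ζ * ((ε / 2 : ℝ) : ℂ) ∈ Metric.ball (0 : ℂ) ε by
    rw [Metric.mem_ball, dist_zero_right, norm_mul, hζn, one_mul]; exact ht)
  have h1 : H z₁ = H z₂ := by
    have h2 : H z₁ - H p = H z₂ - H p := by
      rw [hz₁, hz₂, hq₁, hq₂, mul_pow, hprim.pow_eq_one, one_mul]
    exact sub_left_inj.1 h2
  have h2 : z₁ = z₂ := hinj hz₁U hz₂U h1
  rw [h2, hq₂] at hq₁
  have h3 : ((ε / 2 : ℝ) : ℂ) ≠ 0 := by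
    exact_mod_cast (by positivity : (0 : ℝ) < ε / 2).ne'
  have h4 : ζ = 1 := by
    have h5 : ζ * ((ε / 2 : ℝ) : ℂ) = 1 * ((ε / 2 : ℝ) : ℂ) := by rw [hq₁, one_mul]
    exact mul_right_cancel₀ h3 h5
  exact hprim.ne_one hn2 h4

end Pool.Agent.BB4B37
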