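import Pool.Agent.W_bb4b37_h24.Wirt

/-! # The inverse of a homeomorphism that is smooth and nondegenerate at a point -/

set_option autoImplicit false

namespace Pool.Agent.BB4B37

open Complex Filter Topology Set MeasureTheory

/-- Proof. `‖Du v‖ ≥ (‖u_z‖ - ‖u_z̄‖) ‖v‖` (`fderiv_eq_dz`), so `fderiv ℝ u z` is a continuous linear
equivalence of the real plane. `w` is a continuous inverse, so `HasFDerivAt.of_local_left_inverse` and
`OpenPartialHomeomorph.contDiffAt_symm` (or `HasStrictFDerivAt` / `ContDiffAt.to_localInverse`, whose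
local inverse agrees with `w` near `u z`) give the claims. If `Dw v = a v + b conj v` then `w_x = a =
conj u_z / J`, `w_x̄ = b = - u_z̄ / J`, `J = ‖u_z‖² - ‖u_z̄‖² > 0`. -/
theorem inv_smooth {u w : ℂ → ℂ} {z : ℂ} {n : ℕ} (hn : 1 ≤ n) (hwu : ∀ z, w (u z) = z)
    (huw : ∀ z, u (w z) = z) (hw : Continuous w) (hu : ContDiffAt ℝ n u z)
    (hJ : ‖dzb u z‖ < ‖dz u z‖) : ContDiffAt ℝ n w (u z) ∧
      (∀ v, fderiv ℝ u z (fderiv ℝ w (u z) v) = v) ∧
      (∀ v, fderiv ℝ w (u z) (fderiv ℝ u z v) = v) ∧ ‖dzb w (u z)‖ < ‖dz w (u z)‖ := by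
  set a := dz u z with ha
  set b := dzb u z with hb
  set J : ℝ := ‖a‖ ^ 2 - ‖b‖ ^ 2 with hJdef
  have hJpos : 0 < J := by
    have h0 := norm_nonneg b
    nlinarith
  have hJne : (J : ℂ) ≠ 0 := by exact_mod_cast hJpos.ne'
  have hJ1 : a * (starRingEnd ℂ) a - b * (starRingEnd ℂ) b = (J : ℂ) := by
    rw [mul_conj, mul_conj, normSq_eq_norm_sq, normSq_eq_norm_sq, hJdef]
    push_cast; ring
  have hn0 : ((n : ℕ∞) : WithTop ℕ∞) ≠ 0 := by
    intro h
    have h1 : (n : ℕ∞) = 0 := by exact_mod_cast h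
    have h2 : n = 0 := by exact_mod_cast h1
    omega
  have hu' : ContDiffAt ℝ ((n : ℕ∞) : WithTop ℕ∞) u z := hu
  have hd : DifferentiableAt ℝ u z := hu'.differentiableAt hn0
  -- the inverse matrix
  let M : ℂ →L[ℝ] ℂ := (ContinuousLinearMap.mul ℝ ℂ ((starRingEnd ℂ) a / J)) -
    (ContinuousLinearMap.mul ℝ ℂ (b / J)).comp conjCLE.toContinuousLinearMap
  have hM : ∀ v, M v = (starRingEnd ℂ) a / J * v + (-b / J) * (starRingEnd ℂ) v := by
    intro v
    show (starRingEnd ℂ) a / J * v - b / J * (starRingEnd ℂ) v = _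
    ring
  have hcJ : (starRingEnd ℂ) (J : ℂ) = (J : ℂ) := conj_ofReal J
  have hl : Function.LeftInverse M (fderiv ℝ u z) := by
    intro v
    rw [hM, fderiv_eq_dz, ← ha, ← hb]
    simp only [map_add, map_mul, conj_conj]
    field_simp
    linear_combination v * hJ1
  have hr : Function.RightInverse M (fderiv ℝ u z) := by
    intro v
    rw [hM, fderiv_eq_dz, ← ha, ← hb]
    simp only [map_add, map_mul, conj_conj, map_div₀, map_neg, hcJ]
    field_simp
    linear_combination v * hJ1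
  let e : ℂ ≃L[ℝ] ℂ := ContinuousLinearEquiv.equivOfInverse (fderiv ℝ u z) M hl hr
  have hf' : HasFDerivAt u (e : ℂ →L[ℝ] ℂ) z := by
    have : (e : ℂ →L[ℝ] ℂ) = fderiv ℝ u z := by ext v; rfl
    rw [this]; exact hd.hasFDerivAt
  -- the local inverse is `w`
  have hloc : w =ᶠ[𝓝 (u z)] (hu'.localInverse hf' hn0) := by
    have ht := (hu'.toOpenPartialHomeomorph u hf' hn0).open_target.mem_nhds
      (ContDiffAt.image_mem_toOpenPartialHomeomorph_target hu' hf' hn0)
    filter_upwards [ht] with y hy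
    have h1 : u ((hu'.toOpenPartialHomeomorph u hf' hn0).symm y) = y :=
      (hu'.toOpenPartialHomeomorph u hf' hn0).right_inv hy
    have h2 : hu'.localInverse hf' hn0 y = (hu'.toOpenPartialHomeomorph u hf' hn0).symm y := rfl
    rw [h2]
    conv_lhs => rw [← h1]
    exact hwu _
  have hwC : ContDiffAt ℝ ((n : ℕ∞) : WithTop ℕ∞) w (u z) :=
    (ContDiffAt.to_localInverse hu' hf' hn0).congr_of_eventuallyEq hloc
  have hwz : w (u z) = z := hwu z
  have hwd : HasFDerivAt w (e.symm : ℂ →L[ℝ] ℂ) (u z) := by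
    apply HasFDerivAt.of_local_left_inverse (f := u) (f' := e) (g := w) (a := u z)
    · exact hw.continuousAt
    · rw [hwz]; exact hf'
    · exact Filter.Eventually.of_forall huw
  have hwM : ∀ v, fderiv ℝ w (u z) v = M v := by
    intro v; rw [hwd.fderiv]; rfl
  refine ⟨hwC, ?_, ?_, ?_⟩
  · intro v; rw [hwM]; exact hr v
  · intro v; rw [hwM]; exact hl v
  · obtain ⟨h1, h2⟩ := dz_of_fderiv (f := w) (z := u z) (fun v => (hwM v).trans (hM v))
    rw [h1, h2, norm_div, norm_div, norm_neg, norm_conj]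
    have : (0 : ℝ) < ‖(J : ℂ)‖ := norm_pos_iff.mpr hJne
    exact div_lt_div_of_pos_right hJ this

end Pool.Agent.BB4B37
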