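import Pool.Agent.W_bb4b37_h24.Lap

/-! # Transport of the curvature to conformal coordinates -/

set_option autoImplicit false

namespace Pool.Agent.BB4B37

open Complex Filter Topology Set MeasureTheory

theorem tr_dz_contDiffAt {f : ℂ → ℂ} {z : ℂ} {m n : ℕ} (hf : ContDiffAt ℝ n f z) (hmn : m + 1 ≤ n) :
    ContDiffAt ℝ m (dz f) z ∧ ContDiffAt ℝ m (dzb f) z := by
  have h1 : ContDiffAt ℝ m (fderiv ℝ f) z := hf.fderiv_right (by exact_mod_cast hmn)
  have hx : ContDiffAt ℝ m (px f) z := h1.clm_apply contDiffAt_const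
  have hy : ContDiffAt ℝ m (py f) z := h1.clm_apply contDiffAt_const
  exact ⟨(hx.sub (contDiffAt_const.mul hy)).div_const 2, (hx.add (contDiffAt_const.mul hy)).div_const 2⟩

theorem tr_dz_diff {f : ℂ → ℂ} {z : ℂ} (hf : ContDiffAt ℝ 2 f z) :
    DifferentiableAt ℝ (dz f) z ∧ DifferentiableAt ℝ (dzb f) z := by
  have h := tr_dz_contDiffAt (m := 1) (n := 2) hf (by norm_num)
  exact ⟨h.1.differentiableAt (by norm_num), h.2.differentiableAt (by norm_num)⟩

theorem tr_dz_congr {f g : ℂ → ℂ} {z : ℂ} (h : f =ᶠ[𝓝 z] g) : dz f z = dz g z ∧ dzb f z = dzb g z := by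
  unfold dz dzb px py
  rw [h.fderiv_eq]
  exact ⟨rfl, rfl⟩

theorem tr_alg {a c l lz lzb P X : ℂ} (hl : l ≠ 0) (hac : ‖c‖ < ‖a‖)
    (hC : lz * c - lzb * a = I * (P * (l * c) - (starRingEnd ℂ) P * (l * a)))
    (hD : 2 * (X * a + (starRingEnd ℂ) X * (starRingEnd ℂ) c) * (l * (starRingEnd ℂ) l) =
      lz * (starRingEnd ℂ) l + l * (starRingEnd ℂ) lzb) :
    l * (2 * X * a) = lz - I * P * l ∧ l * (2 * X * c) = lzb - I * (starRingEnd ℂ) P * l := by
  have ha : a ≠ 0 := by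
    rintro rfl
    rw [norm_zero] at hac
    exact absurd (norm_nonneg c) (not_le.2 hac)
  have hl' : (starRingEnd ℂ) l ≠ 0 := (map_ne_zero _).2 hl
  obtain ⟨β, hβ⟩ : ∃ β, lz - I * P * l = β * (l * a) := ⟨(lz - I * P * l) / (l * a), by field_simp⟩
  have hβ' : lzb - I * (starRingEnd ℂ) P * l = β * (l * c) := by
    apply mul_right_cancel₀ ha
    linear_combination c * hβ - hC
  have e1 : lz = β * (l * a) + I * P * l := by linear_combination hβ
  have e2 : (starRingEnd ℂ) lzb = (starRingEnd ℂ) β * ((starRingEnd ℂ) l * (starRingEnd ℂ) c) -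
      I * P * (starRingEnd ℂ) l := by
    have h3 := congrArg (starRingEnd ℂ) hβ'
    simp only [map_sub, map_mul, conj_I, conj_conj] at h3
    linear_combination h3
  have e3 : (2 * X - β) * a + (starRingEnd ℂ) (2 * X - β) * (starRingEnd ℂ) c = 0 := by
    apply mul_right_cancel₀ (mul_ne_zero hl hl')
    have h2 : (starRingEnd ℂ) (2 : ℂ) = 2 := map_ofNat _ 2
    rw [map_sub, map_mul, h2, zero_mul]
    linear_combination hD + (starRingEnd ℂ) l * e1 + l * e2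
  have e4 : 2 * X - β = 0 := by
    by_contra hg
    have h5 : ‖(2 * X - β) * a‖ = ‖(starRingEnd ℂ) (2 * X - β) * (starRingEnd ℂ) c‖ := by
      rw [eq_neg_of_add_eq_zero_left e3, norm_neg]
    rw [norm_mul, norm_mul, norm_conj, norm_conj] at h5
    exact absurd (mul_left_cancel₀ (norm_ne_zero_iff.2 hg) h5) hac.ne'
  have e5 : 2 * X = β := by linear_combination e4
  rw [e5]
  exact ⟨by linear_combination -hβ, by linear_combination -hβ'⟩

/-- The metric `|λ|² |du|²` with connection form `ω = p dz + conj p dz̄` (for the coframe `λ du`) of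
curvature `k` is `e^{2χ} |dx|²` in the coordinate `x = u z`, and `Δ χ = - k e^{2χ}`.

Proof. All statements hold for `z` near `z₀`. As `u_z̄z = u_zz̄` (`dz_dzb_comm`), (h1) says
`λ_z u_z̄ - λ_z̄ u_z = i λ (p u_z̄ - conj p u_z)`. Put `α = λ_z / λ - i p`, `α' = λ_z̄ / λ - i conj p`: then
`α u_z̄ = α' u_z`. Put `B = α / u_z` (`u_z ≠ 0`), a `C¹` function near `z₀`; `α = B u_z`, `α' = B u_z̄`.
(1) `χ ∘ u = log ‖λ‖`, so `(χ ∘ u)_z = (λ_z / λ + conj (λ_z̄ / λ)) / 2 = (B u_z + conj B conj u_z̄) / 2`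
(the terms with `p` cancel), and `(χ ∘ u)_z = χ_x(u) u_z + conj (χ_x(u)) conj (u_z̄)` by the chain rule.
With `G = χ_x ∘ u - B / 2`: `G u_z + conj G conj (u_z̄) = 0`, and `‖u_z̄‖ < ‖u_z‖` gives `G = 0`:
`B = 2 χ_x ∘ u` near `z₀` (`χ_x = dz (cx χ)`).
(2) `dzb (B u_z) - dz (B u_z̄) = [dzb (λ_z / λ) - dz (λ_z̄ / λ)] - i (p_z̄ - (conj p)_z)`, the bracket is `0`
(mixed derivatives of `λ`), so `B_z̄ u_z - B_z u_z̄ = i ((conj p)_z - p_z̄) = i k (i/2) |λ|² (|u_z|² - |u_z̄|²)`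
at `z₀` by (h2). By (1) and the chain rule the left side is `2 χ_xx̄(u) (|u_z|² - |u_z̄|²)`. So
`4 χ_xx̄ (u z₀) = - k |λ z₀|²` (`lap_eq`). -/
theorem transport {u lam p : ℂ → ℂ} {χ : ℂ → ℝ} {z₀ : ℂ} {k : ℝ} (hu : ContDiffAt ℝ 2 u z₀)
    (hlam : ContDiffAt ℝ 2 lam z₀) (hp : ContDiffAt ℝ 1 p z₀) (hχ : ContDiffAt ℝ 2 χ (u z₀))
    (hlam0 : lam z₀ ≠ 0) (hJ : ‖dzb u z₀‖ < ‖dz u z₀‖)
    (h1 : ∀ᶠ z in 𝓝 z₀, dz (fun w => lam w * dzb u w) z - dzb (fun w => lam w * dz u w) z =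
      I * (p z * (lam z * dzb u z) - (starRingEnd ℂ) (p z) * (lam z * dz u z)))
    (h2 : dz (fun w => (starRingEnd ℂ) (p w)) z₀ - dzb p z₀ =
      (k : ℂ) * (I / 2) * (((‖lam z₀ * dz u z₀‖ ^ 2 - ‖lam z₀ * dzb u z₀‖ ^ 2 : ℝ)) : ℂ))
    (hχu : ∀ᶠ z in 𝓝 z₀, Real.exp (χ (u z)) = ‖lam z‖) :
    lap χ (u z₀) = -k * Real.exp (2 * χ (u z₀)) := by
  -- the pointwise identities near `z₀`
  have hC : ∀ᶠ z in 𝓝 z₀, dz lam z * dzb u z - dzb lam z * dz u z =
      I * (p z * (lam z * dzb u z) - (starRingEnd ℂ) (p z) * (lam z * dz u z)) := by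
    filter_upwards [h1, hu.eventually (by simp), hlam.eventually (by simp)] with z hz1 hz2 hz3
    have hdl : DifferentiableAt ℝ lam z := hz3.differentiableAt (by norm_num)
    have hdu := tr_dz_diff hz2
    rw [(dz_mul hdl hdu.2).1, (dz_mul hdl hdu.1).2, dz_dzb_comm hz2] at hz1
    linear_combination hz1
  have hχe : ∀ᶠ z in 𝓝 z₀, ContDiffAt ℝ 2 χ (u z) :=
    hu.continuousAt.eventually (hχ.eventually (by simp))
  have hχ2 : ∀ᶠ z in 𝓝 z₀, Complex.exp (2 * cx χ (u z)) = lam z * (starRingEnd ℂ) (lam z) := by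
    filter_upwards [hχu] with z hz
    rw [mul_conj, normSq_eq_norm_sq, ← hz, ← Real.exp_nat_mul]
    unfold cx
    push_cast
    rfl
  have hE : ∀ᶠ z in 𝓝 z₀, (lam z * (2 * dz (cx χ) (u z) * dz u z) = dz lam z - I * p z * lam z) ∧
      (lam z * (2 * dz (cx χ) (u z) * dzb u z) = dzb lam z - I * (starRingEnd ℂ) (p z) * lam z) := by
    have hJe : ∀ᶠ z in 𝓝 z₀, ‖dzb u z‖ < ‖dz u z‖ := by
      have h3 := tr_dz_diff hu
      exact h3.2.continuousAt.norm.eventually_lt h3.1.continuousAt.norm hJ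
    filter_upwards [hC, hχe, hχ2.eventually_nhds, hu.eventually (by simp), hlam.eventually (by simp), hJe,
      hlam.continuousAt.eventually_ne hlam0] with z g1 g2 g3 g4 g5 g6 g7
    have hdl : DifferentiableAt ℝ lam z := g5.differentiableAt (by norm_num)
    have hdu : DifferentiableAt ℝ u z := g4.differentiableAt (by norm_num)
    have hdχ : DifferentiableAt ℝ χ (u z) := g2.differentiableAt (by norm_num)
    have hdc : DifferentiableAt ℝ (cx χ) (u z) := ofRealCLM.differentiableAt.comp _ hdχ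
    have hexp : ∀ w : ℂ, HasDerivAt (fun w : ℂ => Complex.exp (2 * w)) (2 * Complex.exp (2 * w)) w := by
      intro w
      have h4 := ((hasDerivAt_id w).const_mul 2).cexp
      simpa [mul_comm] using h4
    refine tr_alg g7 g6 g1 ?_
    have k1 : dz (fun w => Complex.exp (2 * cx χ (u w))) z = dz (fun w => lam w * (starRingEnd ℂ) (lam w)) z :=
      (tr_dz_congr g3).1
    have hdcl : DifferentiableAt ℝ (fun w => (starRingEnd ℂ) (lam w)) z := conjCLE.differentiableAt.comp z hdl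
    have hdcu : DifferentiableAt ℝ (fun w => cx χ (u w)) z := hdc.comp z hdu
    rw [(dz_comp (g := fun w => Complex.exp (2 * w)) hdcu ((hexp _).differentiableAt.restrictScalars ℝ)).1,
      (dz_of_hasDerivAt (hexp _)).1, (dz_of_hasDerivAt (hexp _)).2, zero_mul, add_zero,
      (dz_comp hdu hdc).1, dzb_cx hdχ, g3.self_of_nhds, (dz_mul hdl hdcl).1,
      (dz_conj hdl).1] at k1
    linear_combination k1
  -- derivatives at `z₀`
  have hdl : DifferentiableAt ℝ lam z₀ := hlam.differentiableAt (by norm_num)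
  have hdu : DifferentiableAt ℝ u z₀ := hu.differentiableAt (by norm_num)
  have hdp : DifferentiableAt ℝ p z₀ := hp.differentiableAt (by norm_num)
  have hdcp : DifferentiableAt ℝ (fun w => (starRingEnd ℂ) (p w)) z₀ := conjCLE.differentiableAt.comp z₀ hdp
  have hcχ : ContDiffAt ℝ 2 (cx χ) (u z₀) := ofRealCLM.contDiff.contDiffAt.comp _ hχ
  have hY := (tr_dz_diff hcχ).1
  have hdu2 := tr_dz_diff hu
  have hdl2 := tr_dz_diff hlam
  have hYu : DifferentiableAt ℝ (fun z => dz (cx χ) (u z)) z₀ := hY.comp z₀ hdu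
  have hb : DifferentiableAt ℝ (fun z => 2 * dz (cx χ) (u z)) z₀ := (differentiableAt_const _).mul hYu
  have hIp : DifferentiableAt ℝ (fun z => I * p z) z₀ := (differentiableAt_const _).mul hdp
  have hIcp : DifferentiableAt ℝ (fun z => I * (starRingEnd ℂ) (p z)) z₀ := (differentiableAt_const _).mul hdcp
  have hbu1 : DifferentiableAt ℝ (fun z => 2 * dz (cx χ) (u z) * dz u z) z₀ := hb.mul hdu2.1
  have hbu2 : DifferentiableAt ℝ (fun z => 2 * dz (cx χ) (u z) * dzb u z) z₀ := hb.mul hdu2.2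
  have hIpl : DifferentiableAt ℝ (fun z => I * p z * lam z) z₀ := hIp.mul hdl
  have hIcpl : DifferentiableAt ℝ (fun z => I * (starRingEnd ℂ) (p z) * lam z) z₀ := hIcp.mul hdl
  have k1 : dzb (fun z => lam z * (2 * dz (cx χ) (u z) * dz u z)) z₀ = dzb (fun z => dz lam z - I * p z * lam z) z₀ :=
    (tr_dz_congr (hE.mono fun z hz => hz.1)).2
  have k2 : dz (fun z => lam z * (2 * dz (cx χ) (u z) * dzb u z)) z₀ =
      dz (fun z => dzb lam z - I * (starRingEnd ℂ) (p z) * lam z) z₀ :=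
    (tr_dz_congr (hE.mono fun z hz => hz.2)).1
  rw [(dz_mul hdl hbu1).2, (dz_mul hb hdu2.1).2, (dz_mul (differentiableAt_const _) hYu).2,
    (dz_const _ _).2, (dz_comp hdu hY).2, (dz_sub hdl2.1 hIpl).2, (dz_mul hIp hdl).2,
    (dz_mul (differentiableAt_const _) hdp).2, (dz_const _ _).2] at k1
  rw [(dz_mul hdl hbu2).1, (dz_mul hb hdu2.2).1, (dz_mul (differentiableAt_const _) hYu).1,
    (dz_const _ _).1, (dz_comp hdu hY).1, (dz_sub hdl2.2 hIcpl).1, (dz_mul hIcp hdl).1,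
    (dz_mul (differentiableAt_const _) hdcp).1, (dz_const _ _).1, dz_dzb_comm hlam, dz_dzb_comm hu] at k2
  have hC0 := hC.self_of_nhds
  obtain ⟨e1, e2⟩ := hE.self_of_nhds
  have hlap := (lap_eq hχ).1
  set Yx := dz (dz (cx χ)) (u z₀)
  set Yb := dzb (dz (cx χ)) (u z₀)
  set a := dz u z₀
  set c := dzb u z₀
  set l := lam z₀
  set pb := dzb p z₀
  set qz := dz (fun w => (starRingEnd ℂ) (p w)) z₀
  have h3 : l * (2 * Yb * (a * (starRingEnd ℂ) a - c * (starRingEnd ℂ) c)) = l * (I * (qz - pb)) := by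
    linear_combination k1 - k2 + 2 * dz (cx χ) (u z₀) * hC0 + I * p z₀ * e2 - I * (starRingEnd ℂ) (p z₀) * e1
  have h4 := mul_left_cancel₀ hlam0 h3
  have ea : a * (starRingEnd ℂ) a = ((‖a‖ ^ 2 : ℝ) : ℂ) := by
    rw [mul_conj, normSq_eq_norm_sq]
  have ec : c * (starRingEnd ℂ) c = ((‖c‖ ^ 2 : ℝ) : ℂ) := by
    rw [mul_conj, normSq_eq_norm_sq]
  have hY4 : Yb = ((lap χ (u z₀) / 4 : ℝ) : ℂ) := by
    push_cast
    rw [hlap]
    ring
  have hII : I * I = -1 := I_mul_I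
  rw [ea, ec, hY4, h2] at h4
  have h5 : ((2 * (lap χ (u z₀) / 4) * (‖a‖ ^ 2 - ‖c‖ ^ 2) : ℝ) : ℂ) =
      ((-(k / 2) * (‖l * a‖ ^ 2 - ‖l * c‖ ^ 2) : ℝ) : ℂ) := by
    push_cast
    push_cast at h4
    linear_combination h4 + (k : ℂ) / 2 * ((‖l * a‖ : ℂ) ^ 2 - (‖l * c‖ : ℂ) ^ 2) * hII
  have h6 := ofReal_injective h5
  rw [norm_mul, norm_mul] at h6
  have hJ2 : 0 < ‖a‖ ^ 2 - ‖c‖ ^ 2 := by
    have := norm_nonneg c
    nlinarith
  have h7 : lap χ (u z₀) = -k * ‖l‖ ^ 2 := by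
    apply mul_right_cancel₀ hJ2.ne'
    linear_combination 2 * h6
  rw [h7, ← hχu.self_of_nhds, ← Real.exp_nat_mul]
  norm_num

end Pool.Agent.BB4B37
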