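import Pool.Agent.W_bb4b37_h24.Codazzi
import Pool.Agent.W_bb4b37_h24.Transport
import Pool.Agent.W_bb4b37_h24.InvSm

/-! # The conformal factor of the third fundamental form in the uniformising coordinate -/

set_option autoImplicit false

namespace Pool.Agent.BB4B37

open Complex Filter Topology Set MeasureTheory

/-- `e^{2 χ(u z)} |u_z|² = (1 - 2 s)⁻¹ e^{2 φ} (1 - s L)²` -/
noncomputable def chiF (s : ℝ) (φ : ℂ → ℝ) (u w : ℂ → ℂ) (x : ℂ) : ℝ :=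
  φ (w x) + Real.log (1 - s * Lc φ (w x)) - Real.log (1 - 2 * s) / 2 - Real.log ‖dz u (w x)‖

theorem isoChi_fderiv_smooth {F : Type*} [NormedAddCommGroup F] [NormedSpace ℝ F] {f : ℂ → F} {z : ℂ}
    {n m : WithTop ℕ∞} (hf : ContDiffAt ℝ n f z) (hmn : m + 1 ≤ n) (v : ℂ) :
    ContDiffAt ℝ m (fun w => fderiv ℝ f w v) z := by
  have h1 : ContDiffAt ℝ m (fderiv ℝ f) z := hf.fderiv_right hmn
  exact h1.clm_apply contDiffAt_const

theorem isoChi_dz_smooth {f : ℂ → ℂ} {z : ℂ} {n m : WithTop ℕ∞} (hf : ContDiffAt ℝ n f z)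
    (hmn : m + 1 ≤ n) : ContDiffAt ℝ m (dz f) z := by
  have h1 := isoChi_fderiv_smooth hf hmn 1
  have h2 := isoChi_fderiv_smooth hf hmn I
  exact (h1.sub (contDiffAt_const.mul h2)).div_const 2

theorem isoChi_cx_smooth {φ : ℂ → ℝ} {z : ℂ} {n : WithTop ℕ∞} (hf : ContDiffAt ℝ n φ z) :
    ContDiffAt ℝ n (cx φ) z :=
  ofRealCLM.contDiff.contDiffAt.comp z hf

theorem isoChi_lap_smooth {φ : ℂ → ℝ} {z : ℂ} {n m : WithTop ℕ∞} (hf : ContDiffAt ℝ n φ z)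
    (hmn : m + 1 + 1 ≤ n) : ContDiffAt ℝ m (lap φ) z := by
  have h1 := isoChi_fderiv_smooth hf hmn 1
  have h2 := isoChi_fderiv_smooth hf hmn I
  have h3 := isoChi_fderiv_smooth h1 le_rfl 1
  have h4 := isoChi_fderiv_smooth h2 le_rfl I
  exact h3.add h4

theorem isoChi_Lc_smooth {φ : ℂ → ℝ} {z : ℂ} {n m : WithTop ℕ∞} (hf : ContDiffAt ℝ n φ z)
    (hmn : m + 1 + 1 ≤ n) : ContDiffAt ℝ m (Lc φ) z := by
  have h0 : ContDiffAt ℝ m φ z := hf.of_le ((le_self_add.trans le_self_add).trans hmn)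
  exact (contDiffAt_const.mul h0).exp.mul (isoChi_lap_smooth hf hmn)

theorem isoChi_Qc_smooth {φ : ℂ → ℝ} {z : ℂ} {n m : WithTop ℕ∞} (hf : ContDiffAt ℝ n φ z)
    (hmn : m + 1 + 1 ≤ n) : ContDiffAt ℝ m (Qc φ) z := by
  have h0 : ContDiffAt ℝ m φ z := hf.of_le ((le_self_add.trans le_self_add).trans hmn)
  have h1 : ContDiffAt ℝ (m + 1) (dz (cx φ)) z := isoChi_dz_smooth (isoChi_cx_smooth hf) hmn
  have h2 : ContDiffAt ℝ m (dz (dz (cx φ))) z := isoChi_dz_smooth h1 le_rfl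
  have h3 : ContDiffAt ℝ m (dz (cx φ)) z := h1.of_le le_self_add
  exact (contDiffAt_const.mul (ofRealCLM.contDiff.contDiffAt.comp z (contDiffAt_const.mul h0).exp)).mul
    (h2.sub (h3.pow 2))

theorem isoChi_exp_two (x : ℝ) : Real.exp (2 * x) = Real.exp x ^ 2 := by
  rw [two_mul, Real.exp_add, sq]

theorem isoChi_dz_congr {f g : ℂ → ℂ} {z : ℂ} (h : f =ᶠ[𝓝 z] g) : dz f z = dz g z ∧ dzb f z = dzb g z := by
  simp only [dz, dzb, px, py, h.fderiv_eq, and_self]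

theorem isoChi_dz_cmul {f : ℂ → ℂ} {z : ℂ} (c : ℂ) (hf : DifferentiableAt ℝ f z) :
    dz (fun w => c * f w) z = c * dz f z ∧ dzb (fun w => c * f w) z = c * dzb f z := by
  have h := dz_mul (differentiableAt_const (𝕜 := ℝ) (x := z) c) hf
  have h2 := dz_const c z
  rw [h2.1, h2.2] at h
  simpa only [zero_mul, zero_add] using h

/-- Proof. `w` is `C³` at `u z` (`inv_smooth`), `φ` is `C⁸`, `Lc φ` is `C⁶`, `dz u` is `C²` and `≠ 0`, and
`1 - s L ≥ 1/2`: so `chiF` is `C²` at `u z`. Laplacian: `transport` with `k = -1`,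
`lam z = e^{φ z} (1 - s L z) / (sqrt (1 - 2 s) dz u z)`, `p z = I * dz (cx φ) z`. Here
`lam * dz u = e^φ (1 - s L) / sqrt (1 - 2 s)` and `lam * dzb u = lam * bet * dz u = - s e^φ conj Q /
sqrt (1 - 2 s)` near `z`, so (h1) is `codazzi` with `σ = - s` divided by `sqrt (1 - 2 s)`. (h2):
`connection_curv` gives `- (i/2) lap φ`, `lap φ = e^{2φ} L` (definition of `Lc`), and
`(1 - s L)² - s² |Q|² = 1 - 2 s L + s² (L² - |Q|²) = (1 - 2 s) L` by `Sol.eq`. (hχu): `w (u z) = z`. -/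
theorem chi_props {s M : ℝ} (hs : 0 < s) (hs' : s ≤ 1 / 4) {E' : Set ℂ} (hE' : IsClosed E')
    {φ : ℂ → ℝ} (hφ : Sol 8 s M E' φ) (hL : ∀ z ∉ E', |s * Lc φ z| ≤ 1 / 2) {u w : ℂ → ℂ}
    (hwu : ∀ z, w (u z) = z) (huw : ∀ z, u (w z) = z) (hw : Continuous w)
    (hu : ∀ z ∉ E', ContDiffAt ℝ 3 u z ∧ dzb u z = bet s φ z * dz u z ∧ ‖dzb u z‖ < ‖dz u z‖) :
    ∀ z ∉ E', ContDiffAt ℝ 2 (chiF s φ u w) (u z) ∧
      lap (chiF s φ u w) (u z) = Real.exp (2 * chiF s φ u w (u z)) := by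
  intro z hz
  have hopen : IsOpen E'ᶜ := hE'.isOpen_compl
  have hφ8 : ∀ y ∉ E', ContDiffAt ℝ 8 φ y := fun y hy => hφ.smooth.contDiffAt (hopen.mem_nhds hy)
  have hnear : ∀ y ∉ E', ∀ᶠ x in 𝓝 y, x ∉ E' := fun y hy => hopen.mem_nhds hy
  have hdz0 : ∀ y ∉ E', dz u y ≠ 0 := by
    intro y hy h0
    have := (hu y hy).2.2
    rw [h0, norm_zero] at this
    exact absurd this (not_lt.2 (norm_nonneg _))
  have hpos : ∀ y ∉ E', 0 < 1 - s * Lc φ y := by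
    intro y hy
    have := (abs_le.1 (hL y hy)).2
    linarith
  have h12 : 0 < 1 - 2 * s := by linarith
  have hsq : 0 < Real.sqrt (1 - 2 * s) := Real.sqrt_pos.2 h12
  have hsqc : ((Real.sqrt (1 - 2 * s) : ℝ) : ℂ) ≠ 0 := by exact_mod_cast hsq.ne'
  obtain ⟨hu3, hbet, hJ⟩ := hu z hz
  have hinv := inv_smooth (n := 3) (by norm_num) hwu huw hw (by exact_mod_cast hu3) hJ
  have hw2 : ContDiffAt ℝ 2 w (u z) := hinv.1.of_le (by norm_num)
  have hwz : w (u z) = z := hwu z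
  have hL2 : ContDiffAt ℝ 2 (Lc φ) z := isoChi_Lc_smooth (hφ8 z hz) (by norm_num)
  have hdu2 : ContDiffAt ℝ 2 (dz u) z := isoChi_dz_smooth hu3 (by norm_num)
  have hφ2 : ContDiffAt ℝ 2 φ z := (hφ8 z hz).of_le (by norm_num)
  have hχ : ContDiffAt ℝ 2 (chiF s φ u w) (u z) := by
    have h1 : ContDiffAt ℝ 2 (fun y => φ y + Real.log (1 - s * Lc φ y) - Real.log (1 - 2 * s) / 2 -
        Real.log ‖dz u y‖) z := by
      refine ((hφ2.add ((contDiffAt_const.sub (contDiffAt_const.mul hL2)).log (hpos z hz).ne')).sub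
        contDiffAt_const).sub ((hdu2.norm ℝ (hdz0 z hz)).log (norm_ne_zero_iff.2 (hdz0 z hz)))
    rw [← hwz] at h1
    exact h1.comp (u z) hw2
  refine ⟨hχ, ?_⟩
  set lam : ℂ → ℂ := fun y => ((Real.exp (φ y) : ℝ) : ℂ) * (1 - (s : ℂ) * (Lc φ y : ℂ)) /
    (((Real.sqrt (1 - 2 * s) : ℝ) : ℂ) * dz u y) with hlamdef
  have hcne : ∀ y ∉ E', (1 - (s : ℂ) * (Lc φ y : ℂ)) ≠ 0 := by
    intro y hy
    have := (hpos y hy).ne'
    intro h
    apply this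
    have h3 : ((1 - s * Lc φ y : ℝ) : ℂ) = 0 := by push_cast; exact h
    exact_mod_cast h3
  have hlam_dz : ∀ y ∉ E', lam y * dz u y = (((Real.sqrt (1 - 2 * s) : ℝ) : ℂ))⁻¹ *
      (((Real.exp (φ y) : ℝ) : ℂ) * (1 + ((-s : ℝ) : ℂ) * (Lc φ y : ℂ))) := by
    intro y hy
    have h0 := hdz0 y hy
    simp only [hlamdef]
    push_cast
    field_simp
    try ring
  have hlam_dzb : ∀ y ∉ E', lam y * dzb u y = (((Real.sqrt (1 - 2 * s) : ℝ) : ℂ))⁻¹ *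
      (((Real.exp (φ y) : ℝ) : ℂ) * (((-s : ℝ) : ℂ) * (starRingEnd ℂ) (Qc φ y))) := by
    intro y hy
    have h0 := hdz0 y hy
    have h1 := hcne y hy
    rw [(hu y hy).2.1]
    simp only [hlamdef, bet]
    push_cast
    field_simp
    try ring
  have hres := transport (u := u) (lam := lam) (p := fun y => I * dz (cx φ) y) (χ := chiF s φ u w)
    (z₀ := z) (k := -1) (hu3.of_le (by norm_num)) ?_ ?_ hχ ?_ hJ ?_ ?_ ?_
  · rw [hres]; ring_nf
  · -- hlam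
    have hexp : ContDiffAt ℝ 2 (fun y => ((Real.exp (φ y) : ℝ) : ℂ)) z :=
      ofRealCLM.contDiff.contDiffAt.comp z hφ2.exp
    have hLc : ContDiffAt ℝ 2 (fun y => ((Lc φ y : ℝ) : ℂ)) z :=
      ofRealCLM.contDiff.contDiffAt.comp z hL2
    have hnum : ContDiffAt ℝ 2 (fun y => ((Real.exp (φ y) : ℝ) : ℂ) * (1 - (s : ℂ) * (Lc φ y : ℂ))) z :=
      hexp.mul (contDiffAt_const.sub (contDiffAt_const.mul hLc))
    have hden : ContDiffAt ℝ 2 (fun y => ((Real.sqrt (1 - 2 * s) : ℝ) : ℂ) * dz u y) z :=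
      contDiffAt_const.mul hdu2
    have h9 := hnum.mul (hden.inv (mul_ne_zero hsqc (hdz0 z hz)))
    simp only [hlamdef, div_eq_mul_inv]
    exact h9
  · -- hp
    exact contDiffAt_const.mul (isoChi_dz_smooth (isoChi_cx_smooth (hφ8 z hz)) (by norm_num))
  · -- hlam0
    simp only [hlamdef]
    refine div_ne_zero (mul_ne_zero ?_ (hcne z hz)) (mul_ne_zero hsqc (hdz0 z hz))
    exact_mod_cast (Real.exp_pos _).ne'
  · -- h1
    filter_upwards [hnear z hz] with y hy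
    have hφ3 : ContDiffAt ℝ 3 φ y := (hφ8 y hy).of_le (by norm_num)
    have hcod := codazzi hφ3 (-s)
    have hQ1 : ContDiffAt ℝ 1 (Qc φ) y := isoChi_Qc_smooth (hφ8 y hy) (by norm_num)
    have hL1 : ContDiffAt ℝ 1 (Lc φ) y := isoChi_Lc_smooth (hφ8 y hy) (by norm_num)
    have hexp : DifferentiableAt ℝ (fun y => ((Real.exp (φ y) : ℝ) : ℂ)) y :=
      ofRealCLM.differentiableAt.comp y (hφ3.differentiableAt (by norm_num)).exp
    have hQd : DifferentiableAt ℝ (fun y => (starRingEnd ℂ) (Qc φ y)) y :=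
      conjCLE.toContinuousLinearMap.differentiableAt.comp y (hQ1.differentiableAt (by norm_num))
    have hLd : DifferentiableAt ℝ (fun y => ((Lc φ y : ℝ) : ℂ)) y :=
      ofRealCLM.differentiableAt.comp y (hL1.differentiableAt (by norm_num))
    have hA : (fun x => lam x * dzb u x) =ᶠ[𝓝 y] fun x => (((Real.sqrt (1 - 2 * s) : ℝ) : ℂ))⁻¹ *
      (((Real.exp (φ x) : ℝ) : ℂ) * (((-s : ℝ) : ℂ) * (starRingEnd ℂ) (Qc φ x))) := by
      filter_upwards [hnear y hy] with x hx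
      exact hlam_dzb x hx
    have hB : (fun x => lam x * dz u x) =ᶠ[𝓝 y] fun x => (((Real.sqrt (1 - 2 * s) : ℝ) : ℂ))⁻¹ *
      (((Real.exp (φ x) : ℝ) : ℂ) * (1 + ((-s : ℝ) : ℂ) * (Lc φ x : ℂ))) := by
      filter_upwards [hnear y hy] with x hx
      exact hlam_dz x hx
    have hdA : DifferentiableAt ℝ (fun x => ((Real.exp (φ x) : ℝ) : ℂ) *
        (((-s : ℝ) : ℂ) * (starRingEnd ℂ) (Qc φ x))) y :=
      hexp.mul ((differentiableAt_const _).mul hQd)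
    have hdB : DifferentiableAt ℝ (fun x => ((Real.exp (φ x) : ℝ) : ℂ) *
        (1 + ((-s : ℝ) : ℂ) * (Lc φ x : ℂ))) y :=
      hexp.mul ((differentiableAt_const _).add ((differentiableAt_const _).mul hLd))
    rw [(isoChi_dz_congr hA).1, (isoChi_dz_congr hB).2, hlam_dz y hy, hlam_dzb y hy,
      (isoChi_dz_cmul _ hdA).1, (isoChi_dz_cmul _ hdB).2, ← mul_sub, hcod]
    ring
  · -- h2
    rw [connection_curv hφ2, hlam_dz z hz, hlam_dzb z hz]
    have heq := hφ.eq z hz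
    have hlap : lap φ z = Real.exp (2 * φ z) * Lc φ z := by
      rw [Lc, ← mul_assoc, ← Real.exp_add]
      simp
    have hn1 : ‖(((Real.sqrt (1 - 2 * s) : ℝ) : ℂ))⁻¹ *
      (((Real.exp (φ z) : ℝ) : ℂ) * (1 + ((-s : ℝ) : ℂ) * (Lc φ z : ℂ)))‖ ^ 2 =
        Real.exp (2 * φ z) * (1 - s * Lc φ z) ^ 2 / (1 - 2 * s) := by
      have : (((Real.sqrt (1 - 2 * s) : ℝ) : ℂ))⁻¹ *
        (((Real.exp (φ z) : ℝ) : ℂ) * (1 + ((-s : ℝ) : ℂ) * (Lc φ z : ℂ))) =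
        (((Real.sqrt (1 - 2 * s))⁻¹ * (Real.exp (φ z) * (1 - s * Lc φ z)) : ℝ) : ℂ) := by
        push_cast; ring
      rw [this, norm_real, Real.norm_eq_abs, sq_abs, mul_pow, mul_pow, inv_pow, Real.sq_sqrt h12.le,
        isoChi_exp_two]
      ring
    have hn2 : ‖(((Real.sqrt (1 - 2 * s) : ℝ) : ℂ))⁻¹ *
      (((Real.exp (φ z) : ℝ) : ℂ) * (((-s : ℝ) : ℂ) * (starRingEnd ℂ) (Qc φ z)))‖ ^ 2 =
        Real.exp (2 * φ z) * (s ^ 2 * ‖Qc φ z‖ ^ 2) / (1 - 2 * s) := by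
      rw [norm_mul, norm_mul, norm_mul, norm_inv, norm_real, norm_real, norm_real, RCLike.norm_conj,
        mul_pow, mul_pow, mul_pow, inv_pow, Real.norm_eq_abs, Real.norm_eq_abs, Real.norm_eq_abs,
        sq_abs, sq_abs, sq_abs, Real.sq_sqrt h12.le, isoChi_exp_two]
      ring
    rw [hn1, hn2, hlap]
    have hkey : Real.exp (2 * φ z) * (1 - s * Lc φ z) ^ 2 / (1 - 2 * s) -
        Real.exp (2 * φ z) * (s ^ 2 * ‖Qc φ z‖ ^ 2) / (1 - 2 * s) = Real.exp (2 * φ z) * Lc φ z := by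
      rw [← sub_div, ← mul_sub, div_eq_iff h12.ne']
      have : (1 - s * Lc φ z) ^ 2 - s ^ 2 * ‖Qc φ z‖ ^ 2 = Lc φ z * (1 - 2 * s) := by
        nlinarith [heq]
      rw [this]; ring
    rw [hkey]
    push_cast
    ring
  · -- hχu
    filter_upwards [hnear z hz] with y hy
    have hn : 0 < ‖dz u y‖ := norm_pos_iff.2 (hdz0 y hy)
    rw [chiF, hwu y]
    have hl : ‖lam y‖ = Real.exp (φ y) * (1 - s * Lc φ y) / (Real.sqrt (1 - 2 * s) * ‖dz u y‖) := by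
      have h3 : lam y = ((Real.exp (φ y) * (1 - s * Lc φ y) : ℝ) : ℂ) /
        (((Real.sqrt (1 - 2 * s) : ℝ) : ℂ) * dz u y) := by
        simp only [hlamdef]; push_cast; ring
      rw [h3, norm_div, norm_mul, norm_real, norm_real, Real.norm_eq_abs, Real.norm_eq_abs,
        abs_of_pos hsq, abs_of_pos (mul_pos (Real.exp_pos _) (hpos y hy))]
    rw [hl, Real.exp_sub, Real.exp_sub, Real.exp_add, Real.exp_log (hpos y hy), Real.exp_log hn]
    have h4 : Real.exp (Real.log (1 - 2 * s) / 2) = Real.sqrt (1 - 2 * s) := by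
      rw [← Real.log_sqrt h12.le, Real.exp_log hsq]
    rw [h4, div_div]

/-- Proof. `v' = fderiv w z v`, `fderiv u ζ v' = v` with `ζ = w z`, so `v = u_z (v' + bet conj v')`
(`fderiv_eq_dz`), and `(1 - s L) v' - s conj Q conj v' = (1 - s L) (v' + bet conj v')`. -/
theorem chi_metric {s : ℝ} (hs : 0 < s) (hs' : s ≤ 1 / 4) {φ : ℂ → ℝ} {u w : ℂ → ℂ} {z : ℂ}
    (hL : |s * Lc φ (w z)| ≤ 1 / 2) (huw : u (w z) = z)
    (hdw : ∀ v, fderiv ℝ u (w z) (fderiv ℝ w z v) = v)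
    (hb : dzb u (w z) = bet s φ (w z) * dz u (w z)) (h0 : dz u (w z) ≠ 0) (v : ℂ) :
    Real.exp (2 * φ (w z)) / (4 * s) *
      ‖(1 - (s : ℂ) * (Lc φ (w z) : ℂ)) * fderiv ℝ w z v -
        (s : ℂ) * (starRingEnd ℂ) (Qc φ (w z)) * (starRingEnd ℂ) (fderiv ℝ w z v)‖ ^ 2 =
    (1 - 2 * s) / (4 * s) * Real.exp (2 * chiF s φ u w z) * ‖v‖ ^ 2 := by
  have h12 : 0 < 1 - 2 * s := by linarith
  have hsq : 0 < Real.sqrt (1 - 2 * s) := Real.sqrt_pos.2 h12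
  have hn : 0 < ‖dz u (w z)‖ := norm_pos_iff.2 h0
  have hpos : 0 < 1 - s * Lc φ (w z) := by
    have := (abs_le.1 hL).2
    linarith
  have hcne : (1 - (s : ℂ) * (Lc φ (w z) : ℂ)) ≠ 0 := by
    intro h
    apply hpos.ne'
    have h3 : ((1 - s * Lc φ (w z) : ℝ) : ℂ) = 0 := by push_cast; exact h
    exact_mod_cast h3
  set v' := fderiv ℝ w z v with hv'
  have h1 : dz u (w z) * (v' + bet s φ (w z) * (starRingEnd ℂ) v') = v := by
    have := hdw v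
    rw [← hv', fderiv_eq_dz, hb] at this
    rw [← this]; ring
  have h2 : (1 - (s : ℂ) * (Lc φ (w z) : ℂ)) * v' -
        (s : ℂ) * (starRingEnd ℂ) (Qc φ (w z)) * (starRingEnd ℂ) v' =
      (1 - (s : ℂ) * (Lc φ (w z) : ℂ)) * (v' + bet s φ (w z) * (starRingEnd ℂ) v') := by
    rw [bet]
    field_simp
    ring
  have h3 : ‖v' + bet s φ (w z) * (starRingEnd ℂ) v'‖ = ‖v‖ / ‖dz u (w z)‖ := by
    rw [eq_div_iff hn.ne', mul_comm, ← norm_mul, h1]
  have h4 : ‖(1 - (s : ℂ) * (Lc φ (w z) : ℂ))‖ = 1 - s * Lc φ (w z) := by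
    have : (1 - (s : ℂ) * (Lc φ (w z) : ℂ)) = ((1 - s * Lc φ (w z) : ℝ) : ℂ) := by push_cast; ring
    rw [this, norm_real, Real.norm_eq_abs, abs_of_pos hpos]
  have h5 : Real.exp (2 * chiF s φ u w z) = Real.exp (2 * φ (w z)) * (1 - s * Lc φ (w z)) ^ 2 /
      ((1 - 2 * s) * ‖dz u (w z)‖ ^ 2) := by
    have h6 : Real.exp (chiF s φ u w z) = Real.exp (φ (w z)) * (1 - s * Lc φ (w z)) /
        (Real.sqrt (1 - 2 * s) * ‖dz u (w z)‖) := by
      rw [chiF, Real.exp_sub, Real.exp_sub, Real.exp_add, Real.exp_log hpos, Real.exp_log hn]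
      have h4 : Real.exp (Real.log (1 - 2 * s) / 2) = Real.sqrt (1 - 2 * s) := by
        rw [← Real.log_sqrt h12.le, Real.exp_log hsq]
      rw [h4, div_div]
    rw [isoChi_exp_two, h6, isoChi_exp_two, div_pow, mul_pow, mul_pow, Real.sq_sqrt h12.le]
  rw [h2, norm_mul, h3, h4, h5]
  field_simp

end Pool.Agent.BB4B37
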