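import Pool.Agent.W_bb4b37_h24.RegTop
import Pool.Agent.W_bb4b37_h24.ClsC
import Pool.Agent.W_bb4b37_h24.Ahlfors

/-! # Regularity of the uniformising map on the domain side -/

set_option autoImplicit false

namespace Pool.Agent.BB4B37

open Complex Filter Topology Set MeasureTheory

/-- Proof. Let `k₀, κ₀, ρ` be from `RegLocal` and `C₁, s₀` from `Sol.cls_bet 6 M`; `k₂ := min k₀ (1/2)` if
needed (`IsSol k₂ b u` implies `IsSol k₀ b u` for `k₂ ≤ k₀`, clear from `IsDf`), `s₅ := min s₀ (1/4) ...`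
with `C₁ s₅ ≤ κ₀` and `C₁ s₅ ≤ 1/2`. For `z₀ ∉ E'`, `d = infDist z₀ E' > 0`, `r = d / 2`: for `z` in
`ball z₀ r` we have `infDist z E' ≥ d - r = r`, `b = bet s φ` near `z`, and
`‖D^j b z‖ ≤ C₁ s (infDist z E')^{-j} ≤ κ₀ r^{-j}`. Apply `RegLocal`. `‖dzb u‖ = ‖bet‖ ‖dz u‖ < ‖dz u‖`.
Last part: `f` maps `ball 0 (ρ r)` into `u '' ball z₀ r ⊆ Ω`, so `schwarz_ahlfors` gives
`e^{χ (u z₀)} ‖f' 0‖ ≤ 2 / (ρ r)`, hence `e^{χ (u z₀)} ‖dz u z₀‖ ≤ 4 / (ρ r) = 8 / (ρ d) ≤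
(8 / ρ) e^M e^{φ z₀}` (`Sol.size`). -/
theorem iso_reg (hR : RegLocal) (M : ℝ) : ∃ s₅ k₂ C : ℝ, 0 < s₅ ∧ 0 < k₂ ∧ s₅ ≤ 1 / 4 ∧ 0 < C ∧
    ∀ E' : Set ℂ, IsClosed E' → E'.Nonempty → ∀ s : ℝ, 0 < s → s ≤ s₅ →
    ∀ (b u : ℂ → ℂ) (φ : ℂ → ℝ), Measurable b → (∀ z, ‖b z‖ ≤ k₂) → IsSol k₂ b u →
    Function.Injective u → Sol 8 s M E' φ → (∀ z ∉ E', b z = bet s φ z) →
      (∀ z ∉ E', |s * Lc φ z| ≤ 1 / 2) ∧
      (∀ z ∉ E', ContDiffAt ℝ 3 u z ∧ dzb u z = bet s φ z * dz u z ∧ ‖dzb u z‖ < ‖dz u z‖) ∧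
      (∀ Ω : Set ℂ, IsOpen Ω → (∀ z ∉ E', u z ∈ Ω) → ∀ χ : ℂ → ℝ, ContDiffOn ℝ 2 χ Ω →
        (∀ z ∈ Ω, Real.exp (2 * χ z) ≤ lap χ z) →
        ∀ z ∉ E', Real.exp (χ (u z)) * ‖dz u z‖ ≤ C * Real.exp (φ z)) := by
  obtain ⟨k₀, κ₀, ρ, hk₀, hκ₀, hρ, hρ1, hreg⟩ := hR
  obtain ⟨C₁, s₀, hC₁, hs₀, hcls⟩ := Sol.cls_bet 6 M
  refine ⟨min s₀ (min (1 / 4) (min (κ₀ / C₁) (1 / (2 * C₁)))), k₀, 8 / ρ * Real.exp M,
    by positivity, hk₀, (min_le_right _ _).trans (min_le_left _ _), by positivity, ?_⟩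
  intro E' hE hne s hs hs5 b u φ hb hbk hsol hinj hφ hbet
  have hs1 : s ≤ s₀ := hs5.trans (min_le_left _ _)
  have hs2 : s ≤ κ₀ / C₁ :=
    hs5.trans ((min_le_right _ _).trans ((min_le_right _ _).trans (min_le_left _ _)))
  have hs3 : s ≤ 1 / (2 * C₁) :=
    hs5.trans ((min_le_right _ _).trans ((min_le_right _ _).trans (min_le_right _ _)))
  have hCκ : C₁ * s ≤ κ₀ := by
    calc C₁ * s ≤ C₁ * (κ₀ / C₁) := mul_le_mul_of_nonneg_left hs2 hC₁.le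
      _ = κ₀ := by field_simp
  have hChalf : C₁ * s ≤ 1 / 2 := by
    calc C₁ * s ≤ C₁ * (1 / (2 * C₁)) := mul_le_mul_of_nonneg_left hs3 hC₁.le
      _ = 1 / 2 := by field_simp
  obtain ⟨hc, hL⟩ := hcls s E' hE hne hs.le hs1 φ hφ
  -- the local statement
  have hloc : ∀ z₀ ∉ E', 0 < Metric.infDist z₀ E' ∧
      ContDiffOn ℝ 3 u (Metric.ball z₀ (ρ * (Metric.infDist z₀ E' / 2))) ∧
      (∀ z ∈ Metric.ball z₀ (ρ * (Metric.infDist z₀ E' / 2)), dzb u z = b z * dz u z ∧ dz u z ≠ 0) ∧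
      (∀ z ∈ Metric.ball z₀ (Metric.infDist z₀ E' / 2), z ∉ E') ∧
      ∃ f : ℂ → ℂ, DifferentiableOn ℂ f (Metric.ball 0 (ρ * (Metric.infDist z₀ E' / 2))) ∧
      MapsTo f (Metric.ball 0 (ρ * (Metric.infDist z₀ E' / 2)))
        (u '' Metric.ball z₀ (Metric.infDist z₀ E' / 2)) ∧ f 0 = u z₀ ∧
      ‖dz u z₀‖ ≤ 2 * ‖deriv f 0‖ := by
    intro z₀ hz₀
    have hd : 0 < Metric.infDist z₀ E' := (hE.notMem_iff_infDist_pos hne).1 hz₀
    set r := Metric.infDist z₀ E' / 2 with hr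
    have hr0 : 0 < r := by positivity
    have hball : ∀ z ∈ Metric.ball z₀ r, r ≤ Metric.infDist z E' := by
      intro z hz
      have h1 := Metric.infDist_le_infDist_add_dist (s := E') (x := z₀) (y := z)
      rw [Metric.mem_ball, dist_comm] at hz
      linarith
    have hout : ∀ z ∈ Metric.ball z₀ r, z ∉ E' := by
      intro z hz
      rw [hE.notMem_iff_infDist_pos hne]
      exact hr0.trans_le (hball z hz)
    have hbs : ContDiffOn ℝ 6 b (Metric.ball z₀ r) := by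
      have h1 : ContDiffOn ℝ 6 (bet s φ) (Metric.ball z₀ r) := by
        have := hc.smooth.mono (fun z hz => hout z hz)
        exact_mod_cast this
      exact h1.congr fun z hz => hbet z (hout z hz)
    have hbb : ∀ z ∈ Metric.ball z₀ r, ∀ j : ℕ, j ≤ 6 →
        ‖iteratedFDeriv ℝ j b z‖ * r ^ j ≤ κ₀ := by
      intro z hz j hj
      have hzE := hout z hz
      have h1 : b =ᶠ[𝓝 z] bet s φ := by
        filter_upwards [hE.isOpen_compl.mem_nhds hzE] with w hw using hbet w hw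
      rw [(h1.iteratedFDeriv ℝ j).eq_of_nhds]
      have h2 := hc.bound z hzE j hj
      have h3 : Metric.infDist z E' ^ ((0 : ℤ) - (j : ℤ)) = (Metric.infDist z E' ^ j)⁻¹ := by
        rw [zero_sub, zpow_neg, zpow_natCast]
      rw [h3] at h2
      have h4 : 0 < Metric.infDist z E' := hr0.trans_le (hball z hz)
      have h5 : (Metric.infDist z E' ^ j)⁻¹ * r ^ j ≤ 1 := by
        rw [inv_mul_le_iff₀ (by positivity), mul_one]
        exact pow_le_pow_left₀ hr0.le (hball z hz) j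
      calc ‖iteratedFDeriv ℝ j (bet s φ) z‖ * r ^ j
          ≤ C₁ * s * (Metric.infDist z E' ^ j)⁻¹ * r ^ j :=
            mul_le_mul_of_nonneg_right h2 (by positivity)
        _ = C₁ * s * ((Metric.infDist z E' ^ j)⁻¹ * r ^ j) := by ring
        _ ≤ C₁ * s * 1 := mul_le_mul_of_nonneg_left h5 (by positivity)
        _ ≤ κ₀ := by linarith
    obtain ⟨g1, g2, g3⟩ := hreg b u z₀ r hb hbk hsol hinj hr0 hbs hbb
    exact ⟨hd, g1, g2, hout, g3⟩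
  refine ⟨hL, fun z hz => ?_, fun Ω hΩ huΩ χ hχ hlap z hz => ?_⟩
  · obtain ⟨hd, g1, g2, _, _⟩ := hloc z hz
    have hzb : z ∈ Metric.ball z (ρ * (Metric.infDist z E' / 2)) :=
      Metric.mem_ball_self (by positivity)
    obtain ⟨g3, g4⟩ := g2 z hzb
    rw [hbet z hz] at g3
    refine ⟨g1.contDiffAt (Metric.isOpen_ball.mem_nhds hzb), g3, ?_⟩
    rw [g3, norm_mul]
    have h5 := hc.bound z hz 0 (Nat.zero_le 6)
    rw [norm_iteratedFDeriv_zero] at h5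
    simp only [Nat.cast_zero, sub_zero, zpow_zero, mul_one] at h5
    have h6 : 0 < ‖dz u z‖ := norm_pos_iff.2 g4
    nlinarith
  · obtain ⟨hd, _, _, hout, f, f1, f2, f3, f4⟩ := hloc z hz
    have hR0 : 0 < ρ * (Metric.infDist z E' / 2) := by positivity
    have h1 := schwarz_ahlfors hΩ hχ hlap hR0 f1 (fun x hx => by
      obtain ⟨y, hy, hyx⟩ := f2 hx
      rw [← hyx]
      exact huΩ y (hout y hy))
    rw [f3] at h1
    have h2 : (Metric.infDist z E')⁻¹ ≤ Real.exp M * Real.exp (φ z) := by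
      rw [← Real.exp_add]
      have h3 := (abs_le.1 (hφ.size z hz)).1
      rw [← Real.exp_log (inv_pos.2 hd), Real.log_inv]
      apply Real.exp_le_exp.2
      linarith
    have h4 : (0 : ℝ) < Real.exp (χ (u z)) := Real.exp_pos _
    calc Real.exp (χ (u z)) * ‖dz u z‖ ≤ Real.exp (χ (u z)) * (2 * ‖deriv f 0‖) :=
          mul_le_mul_of_nonneg_left f4 h4.le
      _ = 2 * (Real.exp (χ (u z)) * ‖deriv f 0‖) := by ring
      _ ≤ 2 * (2 / (ρ * (Metric.infDist z E' / 2))) := by linarith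
      _ = 8 / ρ * (Metric.infDist z E')⁻¹ := by
          field_simp
          norm_num
      _ ≤ 8 / ρ * (Real.exp M * Real.exp (φ z)) := mul_le_mul_of_nonneg_left h2 (by positivity)
      _ = 8 / ρ * Real.exp M * Real.exp (φ z) := by ring

end Pool.Agent.BB4B37
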