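import Pool.Agent.W_bb4b37_h24.Wirt

/-! # Existence of the maximum of the penalised function -/

set_option autoImplicit false

namespace Pool.Agent.BB4B37

open Complex Filter Topology Set MeasureTheory

/-- Proof. `F y = w y - δ φ₀ y - δ' log (2 + ‖y‖²) ≤ C + δ M + δ log (infDist y E) - δ' log (2 + ‖y‖²)`
for `y ∉ E`. Fix `y₀ ∉ E`. The set `K = {y | y ∉ E, F y₀ ≤ F y}` is contained in
`{y | η ≤ infDist y E, ‖y‖ ≤ R}` for suitable `η, R > 0` (use `log (infDist y E) ≤ 0`), a compact subset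
of `Eᶜ`; `F` is continuous there, so it has a maximum on this compact set (which contains `y₀`). -/
theorem exists_max_pen {E : Set ℂ} (hE : IsClosed E) (hne : E.Nonempty)
    (hd : ∀ z, Metric.infDist z E ≤ 1) {φ₀ w : ℂ → ℝ} {M C : ℝ} (hφc : ContinuousOn φ₀ Eᶜ)
    (hφ : ∀ z ∉ E, |φ₀ z + Real.log (Metric.infDist z E)| ≤ M) (hwc : ContinuousOn w Eᶜ)
    (hw : ∀ z ∉ E, w z ≤ C) {δ δ' : ℝ} (hδ : 0 < δ) (hδ' : 0 < δ') (hnon : Eᶜ.Nonempty) :
    ∃ z ∉ E, ∀ y ∉ E, w y - δ * φ₀ y - δ' * Real.log (2 + ‖y‖ ^ 2) ≤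
      w z - δ * φ₀ z - δ' * Real.log (2 + ‖z‖ ^ 2) := by
  obtain ⟨F, hF⟩ : ∃ F : ℂ → ℝ, F = fun y => w y - δ * φ₀ y - δ' * Real.log (2 + ‖y‖ ^ 2) :=
    ⟨_, rfl⟩
  have hFa : ∀ y, w y - δ * φ₀ y - δ' * Real.log (2 + ‖y‖ ^ 2) = F y := fun y => by rw [hF]
  simp only [hFa]
  have hpos : ∀ y ∉ E, 0 < Metric.infDist y E := fun y hy =>
    (hE.notMem_iff_infDist_pos hne).1 hy
  have hlog2 : ∀ y : ℂ, 0 ≤ Real.log (2 + ‖y‖ ^ 2) := fun y =>
    Real.log_nonneg (by nlinarith [sq_nonneg ‖y‖])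
  have hbound : ∀ y ∉ E, F y ≤ C + δ * M + δ * Real.log (Metric.infDist y E)
      - δ' * Real.log (2 + ‖y‖ ^ 2) := by
    intro y hy
    have h1 := (abs_le.1 (hφ y hy)).1
    have h2 := hw y hy
    have h3 : δ * (-M) ≤ δ * (φ₀ y + Real.log (Metric.infDist y E)) :=
      mul_le_mul_of_nonneg_left h1 hδ.le
    rw [hF]
    simp only
    linarith
  obtain ⟨y₀, hy₀⟩ := hnon
  have hy₀' : y₀ ∉ E := hy₀
  obtain ⟨η, hη⟩ : ∃ η : ℝ, η = Real.exp ((F y₀ - C - δ * M) / δ) := ⟨_, rfl⟩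
  obtain ⟨R, hR⟩ : ∃ R : ℝ, R = Real.exp ((C + δ * M - F y₀) / δ') := ⟨_, rfl⟩
  obtain ⟨S, hS⟩ : ∃ S : Set ℂ, S = {y | η ≤ Metric.infDist y E} ∩ Metric.closedBall 0 R :=
    ⟨_, rfl⟩
  have hSE : S ⊆ Eᶜ := by
    intro y hy
    rw [hS] at hy
    have h1 : 0 < Metric.infDist y E := lt_of_lt_of_le (by rw [hη]; exact Real.exp_pos _) hy.1
    exact (hE.notMem_iff_infDist_pos hne).2 h1
  have hScomp : IsCompact S := by
    rw [hS]
    refine (isCompact_closedBall (0 : ℂ) R).inter_left ?_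
    exact isClosed_le continuous_const (Metric.continuous_infDist_pt E)
  have hKS : ∀ y ∉ E, F y₀ ≤ F y → y ∈ S := by
    intro y hy hFy
    have h1 := hFy.trans (hbound y hy)
    have hl1 : Real.log (Metric.infDist y E) ≤ 0 :=
      Real.log_nonpos (hpos y hy).le (hd y)
    have hl2 := hlog2 y
    have hm1 : 0 ≤ δ' * Real.log (2 + ‖y‖ ^ 2) := mul_nonneg hδ'.le hl2
    have hm2 : δ * Real.log (Metric.infDist y E) ≤ 0 :=
      mul_nonpos_of_nonneg_of_nonpos hδ.le hl1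
    rw [hS]
    constructor
    · show η ≤ Metric.infDist y E
      rw [hη, ← Real.le_log_iff_exp_le (hpos y hy), div_le_iff₀ hδ]
      linarith
    · rw [Metric.mem_closedBall, dist_zero_right]
      have h2 : 2 + ‖y‖ ^ 2 ≤ R := by
        rw [hR, ← Real.log_le_iff_le_exp (by positivity), le_div_iff₀ hδ']
        linarith
      nlinarith [sq_nonneg (‖y‖ - 1)]
  have hSne : S.Nonempty := ⟨y₀, hKS y₀ hy₀' le_rfl⟩
  have hcont : ContinuousOn F S := by
    rw [hF]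
    refine ContinuousOn.sub (ContinuousOn.sub (hwc.mono hSE)
      (continuousOn_const.mul (hφc.mono hSE))) ?_
    refine Continuous.continuousOn ?_
    refine continuous_const.mul (Continuous.log (by fun_prop) ?_)
    intro y
    positivity
  obtain ⟨z, hzS, hz⟩ := hScomp.exists_isMaxOn hSne hcont
  refine ⟨z, hSE hzS, fun y hy => ?_⟩
  rcases le_or_gt (F y₀) (F y) with h | h
  · exact hz (hKS y hy h)
  · exact h.le.trans (hz (hKS y₀ hy₀' le_rfl))

end Pool.Agent.BB4B37
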