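import Pool.Agent.W_bb4b37_h5.Defs
import Pool.Agent.W_bb4b37_h24.PenMax
import Pool.Agent.W_bb4b37_h24.Lap

/-! # Uniqueness for the Liouville equation -/

set_option autoImplicit false

namespace Pool.Agent.BB4B37

open Complex Filter Topology Set MeasureTheory

/-- Proof. Let `w = χ₁ - χ₂ ≤ 2 C`. For `δ, δ' > 0` let `z` be a maximum point of
`w - δ φ₀ - δ' log (2 + ‖·‖²)` (`exists_max_pen`). The Laplacian is `≤ 0` there
(`lap_nonpos_of_isLocalMax`), so `e^{2 χ₁} - e^{2 χ₂} ≤ δ e^{2 φ₀} + 2 δ'` at `z`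
(`Sol.eq` with `s = 0` gives `lap φ₀ = e^{2 φ₀}`; `lap_log_two_add`). Divide by `e^{2 χ₂} ≥ e^{-2C}
e^{2 φ₀}` and use `e^{-2 φ₀} ≤ e^{2 M} (infDist z E)² ≤ e^{2M}`: `e^{2 w z} ≤ 1 + e^{2C} (δ + 2 δ' e^{2M})`,
so `w z ≤ e^{2C} (δ + 2 δ' e^{2M})`. For any `y ∉ E`: `w y ≤ w z + δ (φ₀ y - φ₀ z) + δ' log (2 + ‖y‖²)` and
`φ₀ z ≥ - M`. Let `δ, δ' → 0`. -/
theorem liouville_le {E : Set ℂ} (hE : IsClosed E) (hne : E.Nonempty)
    (hd : ∀ z, Metric.infDist z E ≤ 1) {M : ℝ} {φ₀ : ℂ → ℝ} (hφ : Sol 2 0 M E φ₀)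
    {χ₁ χ₂ : ℂ → ℝ} (h1 : ContDiffOn ℝ 2 χ₁ Eᶜ) (h2 : ContDiffOn ℝ 2 χ₂ Eᶜ)
    (e1 : ∀ z ∉ E, lap χ₁ z = Real.exp (2 * χ₁ z)) (e2 : ∀ z ∉ E, lap χ₂ z = Real.exp (2 * χ₂ z))
    {C : ℝ} (b1 : ∀ z ∉ E, |χ₁ z - φ₀ z| ≤ C) (b2 : ∀ z ∉ E, |χ₂ z - φ₀ z| ≤ C) :
    ∀ z ∉ E, χ₁ z ≤ χ₂ z := by
  intro y hy
  have hopen : IsOpen Eᶜ := hE.isOpen_compl
  have hφs : ContDiffOn ℝ 2 φ₀ Eᶜ := hφ.smooth
  have hat : ∀ {f : ℂ → ℝ}, ContDiffOn ℝ 2 f Eᶜ → ∀ z ∉ E, ContDiffAt ℝ 2 f z :=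
    fun hf z hz => hf.contDiffAt (hopen.mem_nhds hz)
  have hlapφ : ∀ z ∉ E, lap φ₀ z = Real.exp (2 * φ₀ z) := by
    intro z hz
    have h := hφ.eq z hz
    rw [zero_pow two_ne_zero, zero_mul, add_zero] at h
    unfold Lc at h
    have h3 : Real.exp (2 * φ₀ z) * (Real.exp (-2 * φ₀ z) * lap φ₀ z) = Real.exp (2 * φ₀ z) := by
      rw [h, mul_one]
    rw [← mul_assoc, ← Real.exp_add] at h3
    have h4 : 2 * φ₀ z + -2 * φ₀ z = 0 := by ring
    rw [h4, Real.exp_zero, one_mul] at h3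
    exact h3
  have hφlow : ∀ z ∉ E, -M ≤ φ₀ z := by
    intro z hz
    have h := (abs_le.1 (hφ.size z hz)).1
    have h4 : Real.log (Metric.infDist z E) ≤ 0 :=
      Real.log_nonpos Metric.infDist_nonneg (hd z)
    linarith
  -- the bound for one parameter
  have hmain : ∀ t : ℝ, 0 < t → χ₁ y - χ₂ y ≤
      t * (Real.exp (2 * C) * (1 + 2 * Real.exp (2 * M)) / 2 + (φ₀ y + M) +
        Real.log (2 + ‖y‖ ^ 2)) := by
    intro t ht
    obtain ⟨z, hz, hmax⟩ := exists_max_pen (w := fun x => χ₁ x - χ₂ x) (C := 2 * C) hE hne hd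
      hφs.continuousOn hφ.size (h1.continuousOn.sub h2.continuousOn) (by
        intro x hx
        have a1 := (abs_le.1 (b1 x hx)).2
        have a2 := (abs_le.1 (b2 x hx)).1
        show χ₁ x - χ₂ x ≤ 2 * C
        linarith) ht ht ⟨y, hy⟩
    have hc1 := hat h1 z hz
    have hc2 := hat h2 z hz
    have hc0 := hat hφs z hz
    have hcl := (lap_log_two_add z).1
    -- the Laplacian at the maximum
    have hlm : IsLocalMax (fun x => χ₁ x - χ₂ x - t * φ₀ x - t * Real.log (2 + ‖x‖ ^ 2)) z := by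
      filter_upwards [hopen.mem_nhds hz] with x hx
      exact hmax x hx
    have hcd1 : ContDiffAt ℝ 2 (fun x => χ₁ x - χ₂ x) z := hc1.sub hc2
    have hcd2 : ContDiffAt ℝ 2 (fun x => t * φ₀ x) z := contDiffAt_const.mul hc0
    have hcd3 : ContDiffAt ℝ 2 (fun x => χ₁ x - χ₂ x - t * φ₀ x) z := hcd1.sub hcd2
    have hcd4 : ContDiffAt ℝ 2 (fun x : ℂ => t * Real.log (2 + ‖x‖ ^ 2)) z :=
      contDiffAt_const.mul hcl
    have hlap := lap_nonpos_of_isLocalMax (hcd3.sub hcd4) hlm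
    rw [lap_sub hcd3 hcd4, lap_sub hcd1 hcd2, lap_sub hc1 hc2, lap_const_mul t hc0,
      lap_const_mul t hcl, e1 z hz, e2 z hz, hlapφ z hz] at hlap
    have hl2 : t * lap (fun w : ℂ => Real.log (2 + ‖w‖ ^ 2)) z ≤ t * 2 :=
      mul_le_mul_of_nonneg_left (lap_log_two_add z).2 ht.le
    have hineq : Real.exp (2 * χ₁ z) - Real.exp (2 * χ₂ z) ≤ t * Real.exp (2 * φ₀ z) + t * 2 := by
      linarith
    -- division by `exp (2 χ₂)`
    set ww : ℝ := χ₁ z - χ₂ z with hww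
    have hw2 : 2 * ww ≤ t * (Real.exp (2 * C) * (1 + 2 * Real.exp (2 * M))) := by
      have k1 : 2 * ww + 1 ≤ Real.exp (2 * ww) := Real.add_one_le_exp _
      have k2 : Real.exp (2 * ww) = Real.exp (2 * χ₁ z) * Real.exp (-(2 * χ₂ z)) := by
        rw [← Real.exp_add]
        congr 1
        rw [hww]
        ring
      have k3 : Real.exp (2 * χ₂ z) * Real.exp (-(2 * χ₂ z)) = 1 := by
        rw [← Real.exp_add, add_neg_cancel, Real.exp_zero]
      have k4 : 0 ≤ Real.exp (-(2 * χ₂ z)) := (Real.exp_pos _).le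
      have k5 : Real.exp (2 * ww) - 1 ≤ (t * Real.exp (2 * φ₀ z) + t * 2) *
          Real.exp (-(2 * χ₂ z)) := by
        have := mul_le_mul_of_nonneg_right hineq k4
        rw [sub_mul, k3, ← k2] at this
        exact this
      have k6 : Real.exp (-(2 * χ₂ z)) ≤ Real.exp (2 * C) * Real.exp (-(2 * φ₀ z)) := by
        rw [← Real.exp_add]
        apply Real.exp_le_exp.2
        have a2 := (abs_le.1 (b2 z hz)).1
        linarith
      have k7 : Real.exp (2 * φ₀ z) * Real.exp (-(2 * φ₀ z)) = 1 := by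
        rw [← Real.exp_add, add_neg_cancel, Real.exp_zero]
      have k8 : Real.exp (-(2 * φ₀ z)) ≤ Real.exp (2 * M) := by
        apply Real.exp_le_exp.2
        have := hφlow z hz
        linarith
      have k9 : 0 ≤ t * Real.exp (2 * φ₀ z) + t * 2 := by positivity
      have k10 : (t * Real.exp (2 * φ₀ z) + t * 2) * Real.exp (-(2 * χ₂ z)) ≤
          (t * Real.exp (2 * φ₀ z) + t * 2) * (Real.exp (2 * C) * Real.exp (-(2 * φ₀ z))) :=
        mul_le_mul_of_nonneg_left k6 k9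
      have k11 : (t * Real.exp (2 * φ₀ z) + t * 2) * (Real.exp (2 * C) * Real.exp (-(2 * φ₀ z))) =
          t * (Real.exp (2 * C) * (1 + 2 * Real.exp (-(2 * φ₀ z)))) := by
        have : (t * Real.exp (2 * φ₀ z) + t * 2) * (Real.exp (2 * C) * Real.exp (-(2 * φ₀ z))) =
            t * (Real.exp (2 * C) * ((Real.exp (2 * φ₀ z) * Real.exp (-(2 * φ₀ z))) +
              2 * Real.exp (-(2 * φ₀ z)))) := by ring
        rw [this, k7]
      have k12 : t * (Real.exp (2 * C) * (1 + 2 * Real.exp (-(2 * φ₀ z)))) ≤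
          t * (Real.exp (2 * C) * (1 + 2 * Real.exp (2 * M))) := by
        have hC0 : 0 ≤ Real.exp (2 * C) := (Real.exp_pos _).le
        apply mul_le_mul_of_nonneg_left _ ht.le
        apply mul_le_mul_of_nonneg_left _ hC0
        linarith
      linarith
    have hy1 := hmax y hy
    have hz1 := hφlow z hz
    have hlogz : 0 ≤ Real.log (2 + ‖z‖ ^ 2) := by
      apply Real.log_nonneg
      have : 0 ≤ ‖z‖ ^ 2 := by positivity
      linarith
    have a1 : 0 ≤ t * Real.log (2 + ‖z‖ ^ 2) := mul_nonneg ht.le hlogz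
    have a2 : t * (-M) ≤ t * φ₀ z := mul_le_mul_of_nonneg_left hz1 ht.le
    have a3 : t * (Real.exp (2 * C) * (1 + 2 * Real.exp (2 * M)) / 2 + (φ₀ y + M) +
        Real.log (2 + ‖y‖ ^ 2)) = t * (Real.exp (2 * C) * (1 + 2 * Real.exp (2 * M))) / 2 +
        t * φ₀ y + t * M + t * Real.log (2 + ‖y‖ ^ 2) := by ring
    rw [a3]
    linarith
  -- let the parameter tend to zero
  set K : ℝ := Real.exp (2 * C) * (1 + 2 * Real.exp (2 * M)) / 2 + (φ₀ y + M) +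
    Real.log (2 + ‖y‖ ^ 2) with hK
  by_contra hcon
  push Not at hcon
  have hpos : 0 < χ₁ y - χ₂ y := by linarith
  have hK1 : 0 < 2 * (|K| + 1) := by positivity
  have h := hmain ((χ₁ y - χ₂ y) / (2 * (|K| + 1))) (div_pos hpos hK1)
  have h5 : (χ₁ y - χ₂ y) / (2 * (|K| + 1)) * K ≤ (χ₁ y - χ₂ y) / (2 * (|K| + 1)) * (|K| + 1) := by
    apply mul_le_mul_of_nonneg_left _ (div_pos hpos hK1).le
    linarith [le_abs_self K]
  have h6 : (χ₁ y - χ₂ y) / (2 * (|K| + 1)) * (|K| + 1) = (χ₁ y - χ₂ y) / 2 := by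
    field_simp
  linarith

end Pool.Agent.BB4B37
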