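import Pool.Agent.W_bb4b37_h24.IsoReg
import Pool.Agent.W_bb4b37_h24.IsoChi
import Pool.Agent.W_bb4b37_h24.Liou

/-! # Module ISO -/

set_option autoImplicit false

namespace Pool.Agent.BB4B37

open Complex Filter Topology Set MeasureTheory

private theorem Sol.mono8 {s M : ℝ} {E : Set ℂ} {φ : ℂ → ℝ} (h : Sol 8 s M E φ) : Sol 2 s M E φ where
  smooth := h.smooth.of_le (by exact_mod_cast (by norm_num : (2 : ℕ) ≤ 8))
  size := h.size
  bound z hz j hj hj2 := h.bound z hz j hj (by omega)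
  eq := h.eq

/-- Proof. `E' = w '' E`, closed, nonempty; `u z ∉ E` for `z ∉ E'`, `w x ∉ E'` for `x ∉ E`. `s₅, k₂` from
`iso_reg`. `χ = chiF s φ u w` is `C²` on `Eᶜ` with `lap χ = e^{2χ}` (`chi_props` at `z = w x`). Bounds:
`ahlfors_upper` on `Ω = Eᶜ` with `R = infDist x E`: `e^{χ x} ≤ 2 / d ≤ 2 e^M e^{φ₀ x}`; `iso_reg`
(last part with `χ := φ₀`, `Sol.eq` for `s = 0` gives `lap φ₀ = e^{2φ₀}`): `e^{φ₀ (u z)} ‖dz u z‖ ≤ C e^{φ z}`,
so `e^{χ (u z)} = e^{φ z} (1 - s L) / (sqrt (1 - 2 s) ‖dz u z‖) ≥ e^{φ₀ (u z)} / (2 C)`. `liouville_le`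
twice: `χ = φ₀` on `Eᶜ`. Then `inv_smooth` and `chi_metric`. -/
theorem iso_main' (hR : RegLocal) (M c : ℝ) (hc : 0 < c) : ∃ s₅ k₂ : ℝ, 0 < s₅ ∧ 0 < k₂ ∧
    s₅ ≤ 1 / 4 ∧
    ∀ E : Set ℂ, Adm c E → ∀ φ₀ : ℂ → ℝ, Sol 8 0 M E φ₀ → ∀ s : ℝ, 0 < s → s ≤ s₅ →
    ∀ (b u w : ℂ → ℂ) (φ : ℂ → ℝ), Measurable b → (∀ z, ‖b z‖ ≤ k₂) → IsSol k₂ b u →
    (∀ z, w (u z) = z) → (∀ z, u (w z) = z) → Continuous u → Continuous w →
    Adm c (w '' E) → Sol 8 s M (w '' E) φ → (∀ z ∉ w '' E, b z = bet s φ z) →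
      ContDiffOn ℝ 3 w Eᶜ ∧
      ∀ z ∉ E, ‖dzb w z‖ < ‖dz w z‖ ∧ ∀ v : ℂ,
        Real.exp (2 * φ (w z)) / (4 * s) *
          ‖(1 - (s : ℂ) * (Lc φ (w z) : ℂ)) * fderiv ℝ w z v -
            (s : ℂ) * (starRingEnd ℂ) (Qc φ (w z)) * (starRingEnd ℂ) (fderiv ℝ w z v)‖ ^ 2 =
        (1 - 2 * s) / (4 * s) * Real.exp (2 * φ₀ z) * ‖v‖ ^ 2 := by
  obtain ⟨s₅, k₂, C, hs₅, hk₂, hs₅4, hC, hmain⟩ := iso_reg hR M
  refine ⟨s₅, k₂, hs₅, hk₂, hs₅4, ?_⟩
  intro E hE φ₀ hφ₀ s hs hss b u w φ hbm hbk hsol hwu huw hcu hcw hE' hφ hbet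
  have hs4 : s ≤ 1 / 4 := hss.trans hs₅4
  have huinj : Function.Injective u := Function.LeftInverse.injective (g := w) hwu
  obtain ⟨hL, hreg, hlast⟩ := hmain (w '' E) hE'.closed hE'.nonempty s hs hss b u φ hbm hbk hsol
    huinj hφ hbet
  have hout : ∀ z ∉ w '' E, u z ∈ Eᶜ := fun z hz hu => hz ⟨u z, hu, hwu z⟩
  have hin : ∀ x ∉ E, w x ∉ w '' E := by
    rintro x hx ⟨e, he, hex⟩
    have h1 : u (w e) = u (w x) := by rw [hex]
    rw [huw, huw] at h1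
    exact hx (h1 ▸ he)
  have hopen : IsOpen Eᶜ := hE.closed.isOpen_compl
  -- the conformal factor
  have hchi := chi_props hs hs4 hE'.closed hφ hL hwu huw hcw hreg
  have hχ : ∀ x ∉ E, ContDiffAt ℝ 2 (chiF s φ u w) x ∧
      lap (chiF s φ u w) x = Real.exp (2 * chiF s φ u w x) := by
    intro x hx
    have h := hchi (w x) (hin x hx)
    rw [huw] at h
    exact h
  have hχs : ContDiffOn ℝ 2 (chiF s φ u w) Eᶜ := fun x hx => (hχ x hx).1.contDiffWithinAt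
  have hφ2 : Sol 2 0 M E φ₀ := Sol.mono8 hφ₀
  have hφs : ContDiffOn ℝ 2 φ₀ Eᶜ := hφ2.smooth
  have hlapφ : ∀ z ∉ E, lap φ₀ z = Real.exp (2 * φ₀ z) := by
    intro z hz
    have h := hφ2.eq z hz
    rw [zero_pow two_ne_zero, zero_mul, add_zero] at h
    unfold Lc at h
    have h3 : Real.exp (2 * φ₀ z) * (Real.exp (-2 * φ₀ z) * lap φ₀ z) = Real.exp (2 * φ₀ z) := by
      rw [h, mul_one]
    rw [← mul_assoc, ← Real.exp_add] at h3
    have h4 : 2 * φ₀ z + -2 * φ₀ z = 0 := by ring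
    rw [h4, Real.exp_zero, one_mul] at h3
    exact h3
  have hRpos : ∀ x ∉ E, 0 < Metric.infDist x E := fun x hx =>
    (hE.closed.notMem_iff_infDist_pos hE.nonempty).1 hx
  set B : ℝ := Real.log 2 + |M| + |Real.log C| with hB
  have hlog2 : 0 ≤ Real.log 2 := Real.log_nonneg (by norm_num)
  have hB0 : 0 ≤ B := by positivity
  have hbd : ∀ x ∉ E, |chiF s φ u w x - φ₀ x| ≤ B := by
    intro x hx
    have hx' := hin x hx
    have hRx := hRpos x hx
    have hsz := abs_le.1 (hφ₀.size x hx)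
    rw [abs_le]
    constructor
    · -- lower bound
      have h1 := hlast Eᶜ hopen hout φ₀ hφs (fun z hz => (hlapφ z hz).ge) (w x) hx'
      rw [huw] at h1
      obtain ⟨_, _, hr3⟩ := hreg (w x) hx'
      have hd0 : 0 < ‖dz u (w x)‖ := lt_of_le_of_lt (norm_nonneg _) hr3
      have h2 : φ₀ x + Real.log ‖dz u (w x)‖ ≤ Real.log C + φ (w x) := by
        have h3 := Real.log_le_log (mul_pos (Real.exp_pos _) hd0) h1
        rw [Real.log_mul (Real.exp_ne_zero _) hd0.ne', Real.log_exp,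
          Real.log_mul hC.ne' (Real.exp_ne_zero _), Real.log_exp] at h3
        exact h3
      have hL' := abs_le.1 (hL (w x) hx')
      have h4 : -Real.log 2 ≤ Real.log (1 - s * Lc φ (w x)) := by
        rw [← Real.log_inv]
        apply Real.log_le_log (by norm_num)
        linarith [hL'.2]
      have h5 : Real.log (1 - 2 * s) ≤ 0 := Real.log_nonpos (by linarith) (by linarith)
      have h6 : Real.log C ≤ |Real.log C| := le_abs_self _
      have h7 : 0 ≤ |M| := abs_nonneg M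
      unfold chiF
      rw [hB]
      linarith
    · -- upper bound
      have hball : Metric.ball x (Metric.infDist x E) ⊆ Eᶜ := by
        intro y hy hyE
        have h1 : Metric.infDist x E ≤ dist x y := Metric.infDist_le_dist_of_mem hyE
        rw [Metric.mem_ball, dist_comm] at hy
        linarith
      have h1 := ahlfors_upper hopen hχs (fun z hz => (hχ z hz).2.ge) hRx hball
      have h2 := Real.log_le_log (Real.exp_pos _) h1
      rw [Real.log_exp, Real.log_div two_ne_zero hRx.ne'] at h2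
      have h3 : M ≤ |M| := le_abs_self M
      have h4 : 0 ≤ |Real.log C| := abs_nonneg _
      rw [hB]
      linarith [hsz.1]
  have hbd0 : ∀ x ∉ E, |φ₀ x - φ₀ x| ≤ B := by
    intro x _
    rw [sub_self, abs_zero]
    exact hB0
  have heq : ∀ x ∉ E, chiF s φ u w x = φ₀ x := by
    intro x hx
    apply le_antisymm
    · exact liouville_le hE.closed hE.nonempty hE.near hφ2 hχs hφs (fun z hz => (hχ z hz).2) hlapφ
        hbd hbd0 x hx
    · exact liouville_le hE.closed hE.nonempty hE.near hφ2 hφs hχs hlapφ (fun z hz => (hχ z hz).2)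
        hbd0 hbd x hx
  have hinv : ∀ z ∉ E, ContDiffAt ℝ 3 w z ∧ (∀ v, fderiv ℝ u (w z) (fderiv ℝ w z v) = v) ∧
      ‖dzb w z‖ < ‖dz w z‖ := by
    intro z hz
    obtain ⟨hr1, _, hr3⟩ := hreg (w z) (hin z hz)
    have hr1' : ContDiffAt ℝ (3 : ℕ) u (w z) := by exact_mod_cast hr1
    obtain ⟨i1, i2, _, i4⟩ := inv_smooth (n := 3) (by norm_num) hwu huw hcw hr1' hr3
    rw [huw] at i1 i2 i4
    exact ⟨by exact_mod_cast i1, i2, i4⟩
  refine ⟨fun z hz => (hinv z hz).1.contDiffWithinAt, fun z hz => ?_⟩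
  obtain ⟨_, i2, i4⟩ := hinv z hz
  refine ⟨i4, fun v => ?_⟩
  have hz' := hin z hz
  obtain ⟨_, hr2, hr3⟩ := hreg (w z) hz'
  have hd0 : dz u (w z) ≠ 0 := by
    intro h0
    rw [h0, norm_zero] at hr3
    exact absurd hr3 (not_lt.2 (norm_nonneg _))
  have h := chi_metric hs hs4 (hL (w z) hz') (huw z) i2 hr2 hd0 v
  rw [heq z hz] at h
  exact h

end Pool.Agent.BB4B37
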