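import Pool.Agent.W_bb4b37_h24.Lap

/-! # Laplacians of composites with holomorphic functions -/

set_option autoImplicit false

namespace Pool.Agent.BB4B37

open Complex Filter Topology Set MeasureTheory

theorem LapHol_dz_congr {f g : ℂ → ℂ} {z : ℂ} (h : f =ᶠ[𝓝 z] g) :
    dz f z = dz g z ∧ dzb f z = dzb g z := by
  have h1 := h.fderiv_eq (𝕜 := ℝ)
  simp only [dz, dzb, px, py, h1]
  exact ⟨trivial, trivial⟩

/-- the Wirtinger derivatives of a function of class `C²` are differentiable -/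
theorem LapHol_differentiableAt_dz {f : ℂ → ℂ} {z : ℂ} (hf : ContDiffAt ℝ 2 f z) :
    DifferentiableAt ℝ (dz f) z ∧ DifferentiableAt ℝ (dzb f) z := by
  have h0 : DifferentiableAt ℝ (fderiv ℝ f) z :=
    (hf.fderiv_right (m := 1) (by norm_num)).differentiableAt (by norm_num)
  have h1 : DifferentiableAt ℝ (px f) z := h0.clm_apply (differentiableAt_const _)
  have h2 : DifferentiableAt ℝ (py f) z := h0.clm_apply (differentiableAt_const _)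
  have h3 : DifferentiableAt ℝ (fun w => I * py f w) z := h2.const_mul I
  constructor
  · have h4 : DifferentiableAt ℝ (fun w => (px f w - I * py f w)) z := h1.sub h3
    have h5 : DifferentiableAt ℝ (fun w => (px f w - I * py f w) * (2 : ℂ)⁻¹) z :=
      h4.mul_const (2 : ℂ)⁻¹
    exact h5
  · have h4 : DifferentiableAt ℝ (fun w => (px f w + I * py f w)) z := h1.add h3
    have h5 : DifferentiableAt ℝ (fun w => (px f w + I * py f w) * (2 : ℂ)⁻¹) z :=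
      h4.mul_const (2 : ℂ)⁻¹
    exact h5

theorem LapHol_cx {χ : ℂ → ℝ} {z : ℂ} {n : WithTop ℕ∞} (hχ : ContDiffAt ℝ n χ z) :
    ContDiffAt ℝ n (cx χ) z :=
  ofRealCLM.contDiff.contDiffAt.comp z hχ

/-- `Δ (χ ∘ f) = |f'|² (Δ χ) ∘ f` for `f` holomorphic. Proof: near `z` the function `f` is
holomorphic, `dz (cx (χ ∘ f)) = (dz (cx χ) ∘ f) * f'` (chain rule `dz_comp`, `dzb f = 0`), then
`dzb` of this is `(dzb (dz (cx χ)) ∘ f) * conj f' * f'` as `f'` is holomorphic. -/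
theorem lap_comp_holo {χ : ℂ → ℝ} {f : ℂ → ℂ} {z : ℂ} (hχ : ContDiffAt ℝ 2 χ (f z))
    (hf : AnalyticAt ℂ f z) : ContDiffAt ℝ 2 (fun w => χ (f w)) z ∧
      lap (fun w => χ (f w)) z = ‖deriv f z‖ ^ 2 * lap χ (f z) := by
  have hfR : ContDiffAt ℝ 2 f z := (hf.contDiffAt (n := 2)).restrict_scalars ℝ
  have hC : ContDiffAt ℝ 2 (fun w => χ (f w)) z := hχ.comp z hfR
  refine ⟨hC, ?_⟩
  have hev1 : ∀ᶠ w in 𝓝 z, AnalyticAt ℂ f w := hf.eventually_analyticAt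
  have hev2 : ∀ᶠ w in 𝓝 z, DifferentiableAt ℝ χ (f w) := by
    have h1 : ∀ᶠ p in 𝓝 (f z), DifferentiableAt ℝ χ p :=
      (hχ.eventually (by simp)).mono fun p hp => hp.differentiableAt (by norm_num)
    exact hf.continuousAt.eventually h1
  have hfirst : dz (cx fun w => χ (f w)) =ᶠ[𝓝 z] fun w => dz (cx χ) (f w) * deriv f w := by
    filter_upwards [hev1, hev2] with w hw1 hw2
    have h1 := dz_of_hasDerivAt hw1.differentiableAt.hasDerivAt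
    have h2 : DifferentiableAt ℝ f w := hw1.differentiableAt.restrictScalars ℝ
    have h3 : DifferentiableAt ℝ (cx χ) (f w) := ofRealCLM.differentiableAt.comp _ hw2
    have h4 := (dz_comp h2 h3).1
    rw [h1.1, h1.2, map_zero, mul_zero, add_zero] at h4
    exact h4
  have hg : DifferentiableAt ℝ (dz (cx χ)) (f z) := (LapHol_differentiableAt_dz (LapHol_cx hχ)).1
  have hfd : DifferentiableAt ℝ f z := hf.differentiableAt.restrictScalars ℝ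
  have hd : DifferentiableAt ℝ (deriv f) z := hf.deriv.differentiableAt.restrictScalars ℝ
  have h5 := dz_of_hasDerivAt hf.differentiableAt.hasDerivAt
  have h6 := dz_of_hasDerivAt hf.deriv.differentiableAt.hasDerivAt
  have h7 : DifferentiableAt ℝ (fun w => dz (cx χ) (f w)) z := hg.comp z hfd
  have h8 := (dz_mul h7 hd).2
  have h9 := (dz_comp hfd hg).2
  rw [h5.1, h5.2, mul_zero, zero_add] at h9
  rw [h9, h6.2, mul_zero, add_zero] at h8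
  have h10 := (lap_eq hC).1
  rw [(LapHol_dz_congr hfirst).2, h8] at h10
  have h11 := (lap_eq hχ).1
  have h12 : ((lap (fun w => χ (f w)) z : ℝ) : ℂ) =
      ((‖deriv f z‖ ^ 2 * lap χ (f z) : ℝ) : ℂ) := by
    rw [h10, Complex.ofReal_mul, h11]
    have h13 : ((‖deriv f z‖ ^ 2 : ℝ) : ℂ) = deriv f z * (starRingEnd ℂ) (deriv f z) := by
      rw [Complex.mul_conj, Complex.normSq_eq_norm_sq]
    rw [h13]
    ring
  exact_mod_cast h12

/-- Wirtinger derivatives of a function of `‖w‖²` -/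
theorem LapHol_radial {h : ℝ → ℝ} {h' : ℝ} {w : ℂ} (hh : HasDerivAt h h' (‖w‖ ^ 2)) :
    dz (cx fun w => h (‖w‖ ^ 2)) w = h' * (starRingEnd ℂ) w ∧
      dzb (cx fun w => h (‖w‖ ^ 2)) w = h' * w := by
  have h1 : HasFDerivAt (fun w : ℂ => ‖w‖ ^ 2) _ w := (hasFDerivAt_id w).norm_sq
  have h2 : HasFDerivAt (fun w : ℂ => h (‖w‖ ^ 2)) _ w := hh.comp_hasFDerivAt w h1
  have h3 : HasFDerivAt (cx fun w => h (‖w‖ ^ 2)) _ w := ofRealCLM.hasFDerivAt.comp w h2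
  refine dz_of_hasFDerivAt h3 fun v => ?_
  apply Complex.ext
  · simp [Complex.inner]
    ring
  · simp [Complex.inner]
    ring

theorem LapHol_log_norm {p : ℂ} (hp : p ≠ 0) :
    ContDiffAt ℝ 2 (fun w : ℂ => Real.log ‖w‖) p ∧ lap (fun w : ℂ => Real.log ‖w‖) p = 0 := by
  have hC : ContDiffAt ℝ 2 (fun w : ℂ => Real.log ‖w‖) p :=
    (Real.contDiffAt_log.2 (norm_ne_zero_iff.2 hp)).comp p (contDiffAt_norm ℝ hp)
  refine ⟨hC, ?_⟩
  have hne : ∀ᶠ w in 𝓝 p, w ≠ (0 : ℂ) := isOpen_ne.mem_nhds hp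
  have heq : (fun w : ℂ => Real.log ‖w‖) = fun w : ℂ => (fun t : ℝ => 1 / 2 * Real.log t) (‖w‖ ^ 2) := by
    funext w
    change Real.log ‖w‖ = 1 / 2 * Real.log (‖w‖ ^ 2)
    rw [Real.log_pow]
    push_cast
    ring
  have hfirst : dz (cx fun w : ℂ => Real.log ‖w‖) =ᶠ[𝓝 p] fun w => (2 * w)⁻¹ := by
    filter_upwards [hne] with w hw
    have hw2 : ‖w‖ ^ 2 ≠ 0 := pow_ne_zero 2 (norm_ne_zero_iff.2 hw)
    have h1 : HasDerivAt (fun t : ℝ => 1 / 2 * Real.log t) (1 / 2 * (‖w‖ ^ 2)⁻¹) (‖w‖ ^ 2) :=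
      (Real.hasDerivAt_log hw2).const_mul _
    have h2 := (LapHol_radial h1).1
    rw [heq]
    refine h2.trans ?_
    have h3 : ((‖w‖ ^ 2 : ℝ) : ℂ) = w * (starRingEnd ℂ) w := by
      rw [Complex.mul_conj, Complex.normSq_eq_norm_sq]
    have h4 : (starRingEnd ℂ) w ≠ 0 := (map_ne_zero _).2 hw
    rw [Complex.ofReal_mul, Complex.ofReal_inv, h3]
    push_cast
    field_simp
  have h5 := (lap_eq hC).1
  have h6 : HasDerivAt (fun w : ℂ => (2 * w)⁻¹) (-(2 * 1) / (2 * p) ^ 2) p :=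
    ((hasDerivAt_id p).const_mul 2).inv (mul_ne_zero two_ne_zero hp)
  rw [(LapHol_dz_congr hfirst).2, (dz_of_hasDerivAt h6).2, mul_zero] at h5
  exact_mod_cast h5

/-- `log |f|` is harmonic where `f ≠ 0`: `dz (cx (log ‖f‖)) = f' / (2 f)` near `z`. -/
theorem lap_log_norm {f : ℂ → ℂ} {z : ℂ} (hf : AnalyticAt ℂ f z) (h0 : f z ≠ 0) :
    ContDiffAt ℝ 2 (fun w => Real.log ‖f w‖) z ∧ lap (fun w => Real.log ‖f w‖) z = 0 := by
  have h1 := LapHol_log_norm h0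
  have h2 := lap_comp_holo h1.1 hf
  refine ⟨h2.1, ?_⟩
  rw [h1.2, mul_zero] at h2
  exact h2.2

/-- `Δ log (ρ² - |z|²) = -4 ρ² / (ρ² - |z|²)²` -/
theorem lap_log_disk {ρ : ℝ} {z : ℂ} (h : ‖z‖ < ρ) :
    ContDiffAt ℝ 2 (fun w : ℂ => Real.log (ρ ^ 2 - ‖w‖ ^ 2)) z ∧
    lap (fun w => Real.log (ρ ^ 2 - ‖w‖ ^ 2)) z = -(4 * ρ ^ 2) / (ρ ^ 2 - ‖z‖ ^ 2) ^ 2 := by
  have hpos : ∀ w : ℂ, ‖w‖ < ρ → 0 < ρ ^ 2 - ‖w‖ ^ 2 := by
    intro w hw
    exact sub_pos.2 (pow_lt_pow_left₀ hw (norm_nonneg _) two_ne_zero)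
  have hC : ContDiffAt ℝ 2 (fun w : ℂ => Real.log (ρ ^ 2 - ‖w‖ ^ 2)) z := by
    have h1 : ContDiffAt ℝ 2 (fun w : ℂ => ρ ^ 2 - ‖w‖ ^ 2) z :=
      contDiffAt_const.sub (contDiff_norm_sq ℝ).contDiffAt
    exact (Real.contDiffAt_log.2 (hpos z h).ne').comp z h1
  refine ⟨hC, ?_⟩
  have hev : ∀ᶠ w in 𝓝 z, ‖w‖ < ρ := (isOpen_lt continuous_norm continuous_const).mem_nhds h
  have hfirst : dz (cx fun w : ℂ => Real.log (ρ ^ 2 - ‖w‖ ^ 2)) =ᶠ[𝓝 z]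
      fun w => (cx fun w : ℂ => (fun t : ℝ => -(ρ ^ 2 - t)⁻¹) (‖w‖ ^ 2)) w *
        (starRingEnd ℂ) w := by
    filter_upwards [hev] with w hw
    have h1 : HasDerivAt (fun t : ℝ => Real.log (ρ ^ 2 - t)) (-(ρ ^ 2 - ‖w‖ ^ 2)⁻¹) (‖w‖ ^ 2) := by
      have h2 : HasDerivAt (fun t : ℝ => ρ ^ 2 - t) (-1) (‖w‖ ^ 2) :=
        (hasDerivAt_id _).const_sub (ρ ^ 2)
      have h3 := h2.log (hpos w hw).ne'
      have h4 : -1 / (ρ ^ 2 - ‖w‖ ^ 2) = -(ρ ^ 2 - ‖w‖ ^ 2)⁻¹ := by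
        rw [div_eq_mul_inv, neg_one_mul]
      rw [h4] at h3
      exact h3
    exact (LapHol_radial (h := fun t : ℝ => Real.log (ρ ^ 2 - t)) h1).1
  have hp := hpos z h
  have hk : HasDerivAt (fun t : ℝ => -(ρ ^ 2 - t)⁻¹) (-((ρ ^ 2 - ‖z‖ ^ 2) ^ 2)⁻¹) (‖z‖ ^ 2) := by
    have h2 : HasDerivAt (fun t : ℝ => ρ ^ 2 - t) (-1) (‖z‖ ^ 2) :=
      (hasDerivAt_id _).const_sub (ρ ^ 2)
    have h3 := (h2.inv hp.ne').neg
    have h4 : -(-(-1) / (ρ ^ 2 - ‖z‖ ^ 2) ^ 2) = -((ρ ^ 2 - ‖z‖ ^ 2) ^ 2)⁻¹ := by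
      rw [neg_neg, one_div]
    rw [h4] at h3
    exact h3
  have hrad := (LapHol_radial hk).2
  have hd1 : DifferentiableAt ℝ (cx fun w : ℂ => (fun t : ℝ => -(ρ ^ 2 - t)⁻¹) (‖w‖ ^ 2)) z := by
    have h1 : DifferentiableAt ℝ (fun w : ℂ => ‖w‖ ^ 2) z :=
      ((contDiff_norm_sq ℝ).contDiffAt (n := 1)).differentiableAt (by norm_num)
    have h2 : DifferentiableAt ℝ (fun w : ℂ => (fun t : ℝ => -(ρ ^ 2 - t)⁻¹) (‖w‖ ^ 2)) z :=
      DifferentiableAt.comp (g := fun t : ℝ => -(ρ ^ 2 - t)⁻¹) z hk.differentiableAt h1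
    exact ofRealCLM.differentiableAt.comp z h2
  have hd2 : DifferentiableAt ℝ (fun w : ℂ => (starRingEnd ℂ) w) z :=
    conjCLE.differentiableAt
  have h8 := (dz_mul hd1 hd2).2
  have h9 : dzb (fun w : ℂ => (starRingEnd ℂ) w) z = 1 := by
    have h10 := (dz_conj (f := fun w : ℂ => w) (z := z) differentiableAt_id).2
    rw [h10, (dz_id z).1, map_one]
  rw [hrad, h9, mul_one] at h8
  have h10 := (lap_eq hC).1
  rw [(LapHol_dz_congr hfirst).2, h8] at h10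
  have h11 : ((lap (fun w => Real.log (ρ ^ 2 - ‖w‖ ^ 2)) z : ℝ) : ℂ) =
      ((-(4 * ρ ^ 2) / (ρ ^ 2 - ‖z‖ ^ 2) ^ 2 : ℝ) : ℂ) := by
    rw [h10]
    have h12 : z * (starRingEnd ℂ) z = ((‖z‖ ^ 2 : ℝ) : ℂ) := by
      rw [Complex.mul_conj, Complex.normSq_eq_norm_sq]
    have h13 : (cx fun w : ℂ => (fun t : ℝ => -(ρ ^ 2 - t)⁻¹) (‖w‖ ^ 2)) z =
        ((-(ρ ^ 2 - ‖z‖ ^ 2)⁻¹ : ℝ) : ℂ) := rfl
    rw [h13, mul_assoc, h12, ← Complex.ofReal_mul, ← Complex.ofReal_add]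
    have h14 : (4 : ℂ) = ((4 : ℝ) : ℂ) := by norm_num
    rw [h14, ← Complex.ofReal_mul]
    congr 1
    have h15 := hp.ne'
    field_simp
    ring
  exact_mod_cast h11

end Pool.Agent.BB4B37
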