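import Pool.Agent.W_bb4b37_h24.Wirt

/-! # A curve that is short for the metric `|dz| / dist(z, E)` stays near its starting point -/

set_option autoImplicit false

namespace Pool.Agent.BB4B37

open Complex Filter Topology Set MeasureTheory

/-- Proof. Let `D t = infDist (γ t) E > 0` (closedness of `E`, `γ t ∉ E`), continuous. Let `S` be the
maximum of `‖γ t - γ a‖` on the compact interval `[a, b]`, attained at `t₁`. `D t ≤ D a + ‖γ t - γ a‖ ≤
D a + S` on `[a, b]`. Hence `S = ‖γ t₁ - γ a‖ = ‖∫_a^{t₁} γ'‖ ≤ ∫_a^{t₁} ‖γ'‖ ≤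
(D a + S) ∫_a^b ‖γ'‖ / D ≤ ε (D a + S)`, so `S ≤ ε D a / (1 - ε) ≤ 2 ε D a`. -/
theorem stay_near {E : Set ℂ} (hE : IsClosed E) (hne : E.Nonempty) (γ : ℝ → ℂ)
    (hγ : ContDiff ℝ 1 γ) {a b : ℝ} (hab : a ≤ b) (hmem : ∀ t ∈ Icc a b, γ t ∉ E) {ε : ℝ}
    (hε0 : 0 ≤ ε) (hε : ε ≤ 1 / 4)
    (hlen : ∫ t in a..b, ‖deriv γ t‖ / Metric.infDist (γ t) E ≤ ε) :
    ∀ t ∈ Icc a b, ‖γ t - γ a‖ ≤ 2 * ε * Metric.infDist (γ a) E := by
  have hγc : Continuous γ := hγ.continuous
  have hdc : Continuous (deriv γ) := hγ.continuous_deriv le_rfl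
  have hDc : Continuous fun t => Metric.infDist (γ t) E :=
    (Metric.continuous_infDist_pt E).comp hγc
  have hDpos : ∀ t ∈ Icc a b, 0 < Metric.infDist (γ t) E := fun t ht =>
    (hE.notMem_iff_infDist_pos hne).1 (hmem t ht)
  have hfc : ContinuousOn (fun t => ‖deriv γ t‖ / Metric.infDist (γ t) E) (Icc a b) :=
    hdc.norm.continuousOn.div hDc.continuousOn fun t ht => (hDpos t ht).ne'
  obtain ⟨t₁, ht₁, hmax⟩ := (isCompact_Icc (a := a) (b := b)).exists_isMaxOn
    (nonempty_Icc.2 hab) ((hγc.sub continuous_const).norm.continuousOn (s := Icc a b)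
      (f := fun t => ‖γ t - γ a‖))
  set S : ℝ := ‖γ t₁ - γ a‖ with hS
  have hS0 : 0 ≤ S := norm_nonneg _
  have hDle : ∀ t ∈ Icc a b, Metric.infDist (γ t) E ≤ Metric.infDist (γ a) E + S := by
    intro t ht
    have h1 : Metric.infDist (γ t) E ≤ Metric.infDist (γ a) E + dist (γ t) (γ a) :=
      Metric.infDist_le_infDist_add_dist
    have h2 : ‖γ t - γ a‖ ≤ S := hmax ht
    rw [dist_eq_norm] at h1
    linarith
  have hD0 : 0 ≤ Metric.infDist (γ a) E := Metric.infDist_nonneg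
  have h1 : S ≤ ∫ t in a..t₁, ‖deriv γ t‖ := by
    have h2 : ∫ t in a..t₁, deriv γ t = γ t₁ - γ a :=
      intervalIntegral.integral_deriv_eq_sub
        (fun x _ => (hγ.differentiable (by norm_num)) x) (hdc.intervalIntegrable _ _)
    rw [hS, ← h2]
    exact intervalIntegral.norm_integral_le_integral_norm ht₁.1
  have hint : IntervalIntegrable (fun t => ‖deriv γ t‖ / Metric.infDist (γ t) E) volume a b := by
    apply ContinuousOn.intervalIntegrable
    rwa [uIcc_of_le hab]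
  have hint1 : IntervalIntegrable (fun t => ‖deriv γ t‖ / Metric.infDist (γ t) E) volume a t₁ := by
    apply ContinuousOn.intervalIntegrable
    rw [uIcc_of_le ht₁.1]
    exact hfc.mono (Icc_subset_Icc_right ht₁.2)
  have h3 : ∫ t in a..t₁, ‖deriv γ t‖ ≤
      ∫ t in a..t₁, (Metric.infDist (γ a) E + S) * (‖deriv γ t‖ / Metric.infDist (γ t) E) := by
    apply intervalIntegral.integral_mono_on ht₁.1 (hdc.norm.intervalIntegrable _ _)
      (hint1.const_mul _)
    intro t ht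
    have ht' : t ∈ Icc a b := ⟨ht.1, ht.2.trans ht₁.2⟩
    have hp := hDpos t ht'
    have hl := hDle t ht'
    rw [← mul_div_assoc, le_div_iff₀ hp]
    nlinarith [norm_nonneg (deriv γ t)]
  have h4 : ∫ t in a..t₁, ‖deriv γ t‖ / Metric.infDist (γ t) E ≤
      ∫ t in a..b, ‖deriv γ t‖ / Metric.infDist (γ t) E := by
    apply intervalIntegral.integral_mono_interval le_rfl ht₁.1 ht₁.2 _ hint
    filter_upwards [ae_restrict_mem measurableSet_Ioc] with t ht
    exact div_nonneg (norm_nonneg _) Metric.infDist_nonneg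
  rw [intervalIntegral.integral_const_mul] at h3
  have h5 : S ≤ (Metric.infDist (γ a) E + S) * ε :=
    h1.trans (h3.trans (mul_le_mul_of_nonneg_left (h4.trans hlen) (by positivity)))
  intro t ht
  have h6 : ‖γ t - γ a‖ ≤ S := hmax ht
  nlinarith [mul_nonneg hε0 hD0]

end Pool.Agent.BB4B37
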