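import Pool.Agent.W_bb4b37_h24.LoopA

/-! # Completeness -/

set_option autoImplicit false

namespace Pool.Agent.BB4B37

open Complex Filter Topology Set MeasureTheory

/-- Proof. `F T = ∫_0^T e^χ ‖γ'‖` is monotone for `T ≥ 0` and bounded by `B`, so it converges; hence for
every `ε > 0` there is `T₀ ≥ 0` with `∫_{T₀}^T e^χ ‖γ'‖ ≤ c ε` for all `T ≥ T₀`, so
`∫_{T₀}^T ‖γ'‖ / D ≤ ε` where `D t = infDist (γ t) E ≤ 1`. By `stay_near` (for `ε ≤ 1/4`)
`‖γ t - γ T₀‖ ≤ 2 ε D T₀ ≤ 2 ε` for all `t ≥ T₀`. So `γ` is Cauchy at `∞`, converges to some `p`; with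
`ε = 1/4`: `‖p - γ T₀‖ ≤ D T₀ / 2 < D T₀`, so `p ∉ E`. (The function `e^χ ‖γ'‖` is continuous because
`χ` is continuous on the open set `Eᶜ`.) -/
theorem complete_of_bound {E : Set ℂ} (hE : IsClosed E) (hne : E.Nonempty)
    (hd : ∀ z, Metric.infDist z E ≤ 1) (χ : ℂ → ℝ) (hχc : ContinuousOn χ Eᶜ) {c : ℝ} (hc : 0 < c)
    (hχ : ∀ z ∉ E, c / Metric.infDist z E ≤ Real.exp (χ z)) (γ : ℝ → ℂ) (hγ : ContDiff ℝ 1 γ)
    (hmem : ∀ t, γ t ∈ Eᶜ)
    (hB : ∃ B : ℝ, ∀ T : ℝ, ∫ t in (0 : ℝ)..T, Real.exp (χ (γ t)) * ‖deriv γ t‖ ≤ B) :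
    ∃ p ∈ Eᶜ, Tendsto γ atTop (𝓝 p) := by
  have hγc : Continuous γ := hγ.continuous
  have hdc : Continuous (deriv γ) := hγ.continuous_deriv le_rfl
  have hDc : Continuous fun t => Metric.infDist (γ t) E :=
    (Metric.continuous_infDist_pt E).comp hγc
  have hDpos : ∀ t, 0 < Metric.infDist (γ t) E := fun t =>
    (hE.notMem_iff_infDist_pos hne).1 (hmem t)
  have hχγ : Continuous fun t => χ (γ t) := hχc.comp_continuous hγc hmem
  have hgc : Continuous fun t => Real.exp (χ (γ t)) * ‖deriv γ t‖ :=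
    (Real.continuous_exp.comp hχγ).mul hdc.norm
  have hfc : Continuous fun t => ‖deriv γ t‖ / Metric.infDist (γ t) E :=
    hdc.norm.div hDc fun t => (hDpos t).ne'
  have hg0 : ∀ t, 0 ≤ Real.exp (χ (γ t)) * ‖deriv γ t‖ := fun t => by positivity
  obtain ⟨B, hB⟩ := hB
  set F : ℝ → ℝ := fun T => ∫ t in (0 : ℝ)..T, Real.exp (χ (γ t)) * ‖deriv γ t‖ with hF
  have hFsub : ∀ T₀ T, F T - F T₀ = ∫ t in T₀..T, Real.exp (χ (γ t)) * ‖deriv γ t‖ := fun T₀ T =>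
    intervalIntegral.integral_interval_sub_left (hgc.intervalIntegrable _ _)
      (hgc.intervalIntegrable _ _)
  have hbdd : BddAbove (range F) := ⟨B, by rintro _ ⟨T, rfl⟩; exact hB T⟩
  have key : ∀ ε : ℝ, 0 < ε → ε ≤ 1 / 4 → ∃ T₀ : ℝ, ∀ T ≥ T₀,
      ‖γ T - γ T₀‖ ≤ 2 * ε * Metric.infDist (γ T₀) E := by
    intro ε hε0 hε
    obtain ⟨_, ⟨T₀, rfl⟩, hT₀⟩ := exists_lt_of_lt_csSup (range_nonempty F)
      (show sSup (range F) - c * ε < sSup (range F) by linarith [mul_pos hc hε0])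
    refine ⟨T₀, fun T hT => ?_⟩
    have h1 : F T ≤ sSup (range F) := le_csSup hbdd ⟨T, rfl⟩
    have h2 : ∫ t in T₀..T, Real.exp (χ (γ t)) * ‖deriv γ t‖ ≤ c * ε := by
      rw [← hFsub]
      linarith
    have h3 : ∫ t in T₀..T, c * (‖deriv γ t‖ / Metric.infDist (γ t) E) ≤
        ∫ t in T₀..T, Real.exp (χ (γ t)) * ‖deriv γ t‖ := by
      apply intervalIntegral.integral_mono_on hT
        ((continuous_const.mul hfc).intervalIntegrable _ _) (hgc.intervalIntegrable _ _)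
      intro t _
      have h4 := mul_le_mul_of_nonneg_right (hχ (γ t) (hmem t)) (norm_nonneg (deriv γ t))
      calc c * (‖deriv γ t‖ / Metric.infDist (γ t) E) =
            c / Metric.infDist (γ t) E * ‖deriv γ t‖ := by ring
        _ ≤ _ := h4
    rw [intervalIntegral.integral_const_mul] at h3
    have h5 : ∫ t in T₀..T, ‖deriv γ t‖ / Metric.infDist (γ t) E ≤ ε :=
      le_of_mul_le_mul_left (h3.trans h2) hc
    exact stay_near hE hne γ hγ hT (fun t _ => hmem t) hε0.le hε h5 T ⟨hT, le_rfl⟩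
  have hcau : CauchySeq γ := by
    rw [Metric.cauchySeq_iff']
    intro δ hδ
    obtain ⟨T₀, hT₀⟩ := key (min (1 / 4) (δ / 4)) (by positivity) (min_le_left _ _)
    refine ⟨T₀, fun T hT => ?_⟩
    rw [dist_eq_norm]
    have h1 := hT₀ T hT
    have h2 := hd (γ T₀)
    have h3 : min (1 / 4) (δ / 4) ≤ δ / 4 := min_le_right _ _
    have h4 : 0 < min (1 / 4) (δ / 4) := by positivity
    nlinarith [Metric.infDist_nonneg (x := γ T₀) (s := E)]
  obtain ⟨p, hp⟩ := cauchySeq_tendsto_of_complete hcau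
  refine ⟨p, fun hpE => ?_, hp⟩
  obtain ⟨T₀, hT₀⟩ := key (1 / 4) (by norm_num) le_rfl
  have h1 : ‖p - γ T₀‖ ≤ 2 * (1 / 4) * Metric.infDist (γ T₀) E := by
    refine le_of_tendsto (hp.sub_const _).norm ?_
    filter_upwards [eventually_ge_atTop T₀] with T hT using hT₀ T hT
  have h2 : Metric.infDist (γ T₀) E ≤ dist (γ T₀) p := Metric.infDist_le_dist_of_mem hpE
  rw [dist_comm, dist_eq_norm] at h2
  have h3 := hDpos T₀
  linarith

end Pool.Agent.BB4B37
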