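import Pool.Agent.W_bb4b37_h24.LoopA

/-! # Short loops are contained in a small disk -/

set_option autoImplicit false

namespace Pool.Agent.BB4B37

open Complex Filter Topology Set MeasureTheory

/-- Proof. `∫_0^T ‖γ'‖ / D ≤ (1/c) ∫_0^T e^χ ‖γ'‖ ≤ ℓ / c ≤ ε`; apply `stay_near` on `[0, T]`, and
periodicity for the other `t` (`Function.Periodic`, `toIcoMod` or `Int.fract (t / T)`). -/
theorem loop_in_disk {E : Set ℂ} (hE : IsClosed E) (hne : E.Nonempty) (χ : ℂ → ℝ)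
    (hχc : ContinuousOn χ Eᶜ) {c : ℝ} (hc : 0 < c)
    (hχ : ∀ z ∉ E, c / Metric.infDist z E ≤ Real.exp (χ z)) {ℓ ε : ℝ} (hε0 : 0 < ε)
    (hε : ε ≤ 1 / 4) (hℓ : ℓ ≤ ε * c) (γ : ℝ → ℂ) (T : ℝ) (hγ : ContDiff ℝ 1 γ) (hT : 0 < T)
    (hper : ∀ t, γ (t + T) = γ t) (hmem : ∀ t, γ t ∈ Eᶜ)
    (hlen : ∫ t in (0 : ℝ)..T, Real.exp (χ (γ t)) * ‖deriv γ t‖ ≤ ℓ) :
    ∀ t, ‖γ t - γ 0‖ ≤ 2 * ε * Metric.infDist (γ 0) E := by
  have hγc : Continuous γ := hγ.continuous
  have hdc : Continuous (deriv γ) := hγ.continuous_deriv le_rfl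
  have hχγ : Continuous fun t => χ (γ t) := by
    rw [continuous_iff_continuousAt]
    intro t
    exact ((hχc.continuousAt (hE.isOpen_compl.mem_nhds (hmem t)))).comp hγc.continuousAt
  have hDc : Continuous fun t => Metric.infDist (γ t) E :=
    (Metric.continuous_infDist_pt E).comp hγc
  have hDpos : ∀ t, 0 < Metric.infDist (γ t) E := fun t =>
    (hE.notMem_iff_infDist_pos hne).1 (hmem t)
  have hf1 : Continuous fun t => ‖deriv γ t‖ / Metric.infDist (γ t) E :=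
    hdc.norm.div hDc fun t => (hDpos t).ne'
  have hf2 : Continuous fun t => Real.exp (χ (γ t)) * ‖deriv γ t‖ :=
    (Real.continuous_exp.comp hχγ).mul hdc.norm
  have h1 : ∫ t in (0 : ℝ)..T, ‖deriv γ t‖ / Metric.infDist (γ t) E ≤ ε := by
    have h2 : ∫ t in (0 : ℝ)..T, ‖deriv γ t‖ / Metric.infDist (γ t) E ≤
        ∫ t in (0 : ℝ)..T, (1 / c) * (Real.exp (χ (γ t)) * ‖deriv γ t‖) := by
      apply intervalIntegral.integral_mono_on hT.le (hf1.intervalIntegrable _ _)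
        ((hf2.intervalIntegrable _ _).const_mul _)
      intro t _
      have h3 := hχ (γ t) (hmem t)
      have hp := hDpos t
      rw [div_le_iff₀ hp] at h3
      rw [div_le_iff₀ hp]
      have h4 : 0 ≤ ‖deriv γ t‖ := norm_nonneg _
      calc ‖deriv γ t‖ = (1 / c) * (c * ‖deriv γ t‖) := by field_simp
        _ ≤ (1 / c) * ((Real.exp (χ (γ t)) * Metric.infDist (γ t) E) * ‖deriv γ t‖) := by
            refine mul_le_mul_of_nonneg_left (mul_le_mul_of_nonneg_right h3 h4) (by positivity)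
        _ = _ := by ring
    rw [intervalIntegral.integral_const_mul] at h2
    refine h2.trans ?_
    have h5 : (1 / c) * ∫ t in (0 : ℝ)..T, Real.exp (χ (γ t)) * ‖deriv γ t‖ ≤ (1 / c) * (ε * c) :=
      mul_le_mul_of_nonneg_left (hlen.trans hℓ) (by positivity)
    refine h5.trans (le_of_eq ?_)
    field_simp
  have h2 := stay_near hE hne γ hγ hT.le (fun t _ => hmem t) hε0.le hε h1
  intro t
  have hp : Function.Periodic γ T := hper
  obtain ⟨y, hy, hty⟩ := hp.exists_mem_Ico₀ hT t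
  rw [hty]
  exact h2 y ⟨hy.1, hy.2.le⟩

end Pool.Agent.BB4B37
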