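import Pool.Agent.W_bb4b37_h24.Wirt

/-! # No closed geodesic in a small disk -/

set_option autoImplicit false

namespace Pool.Agent.BB4B37

open Complex Filter Topology Set MeasureTheory

/-- Proof. `h t = ‖γ t - z₀‖² = re² + im²` has `h' = 2 Re (conj (γ - z₀) γ')` and
`h'' = 2 ‖γ'‖² + 2 Re (conj (γ - z₀) γ'') = 2 ‖γ'‖² - 4 Re (conj (γ - z₀) χ_z γ'²)
≥ 2 ‖γ'‖² (1 - 2 ‖γ - z₀‖ ‖χ_z‖) > 0`. So `h'` is strictly increasing (`strictMono_of_deriv_pos`),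
but `h' T = h' 0` by periodicity: contradiction. -/
theorem no_short_geodesic (χ : ℂ → ℝ) (z₀ : ℂ) (γ : ℝ → ℂ) (T : ℝ) (hγ : ContDiff ℝ 2 γ)
    (hT : 0 < T) (hper : ∀ t, γ (t + T) = γ t) (hne : ∀ t, deriv γ t ≠ 0)
    (hsmall : ∀ t, ‖γ t - z₀‖ * ‖dz (cx χ) (γ t)‖ < 1 / 2)
    (hgeo : ∀ t, deriv (deriv γ) t + 2 * dz (cx χ) (γ t) * (deriv γ t) ^ 2 = 0) : False := by
  have hd1 : Differentiable ℝ γ := hγ.differentiable (by norm_num)
  have hd2 : Differentiable ℝ (deriv γ) := hγ.differentiable_deriv_two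
  have hg : ∀ t, HasDerivAt (fun t => inner ℝ (γ t - z₀) (deriv γ t))
      (inner ℝ (γ t - z₀) (deriv (deriv γ) t) + inner ℝ (deriv γ t) (deriv γ t)) t := by
    intro t
    exact HasDerivAt.inner ℝ ((hd1 t).hasDerivAt.sub_const z₀) (hd2 t).hasDerivAt
  have hpos : ∀ t, 0 < deriv (fun t => inner ℝ (γ t - z₀) (deriv γ t)) t := by
    intro t
    rw [(hg t).deriv]
    have h1 : 0 < ‖deriv γ t‖ := norm_pos_iff.2 (hne t)
    have h2 : deriv (deriv γ) t = -(2 * dz (cx χ) (γ t) * (deriv γ t) ^ 2) :=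
      eq_neg_of_add_eq_zero_left (hgeo t)
    have h3 : ‖deriv (deriv γ) t‖ = 2 * ‖dz (cx χ) (γ t)‖ * ‖deriv γ t‖ ^ 2 := by
      rw [h2, norm_neg, norm_mul, norm_mul, norm_pow, Complex.norm_ofNat]
    have h4 : -(‖γ t - z₀‖ * ‖deriv (deriv γ) t‖) ≤ inner ℝ (γ t - z₀) (deriv (deriv γ) t) :=
      (abs_le.1 (abs_real_inner_le_norm (γ t - z₀) (deriv (deriv γ) t))).1
    have h5 : (inner ℝ (deriv γ t) (deriv γ t) : ℝ) = ‖deriv γ t‖ ^ 2 :=
      real_inner_self_eq_norm_sq _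
    rw [h3] at h4
    have h6 := hsmall t
    have h7 : 0 < ‖deriv γ t‖ ^ 2 := by positivity
    have h8 : ‖γ t - z₀‖ * (2 * ‖dz (cx χ) (γ t)‖ * ‖deriv γ t‖ ^ 2)
        = 2 * (‖γ t - z₀‖ * ‖dz (cx χ) (γ t)‖) * ‖deriv γ t‖ ^ 2 := by ring
    rw [h8] at h4
    rw [h5]
    nlinarith [mul_lt_mul_of_pos_right h6 h7]
  have hmono := strictMono_of_deriv_pos hpos
  have h9 : deriv γ T = deriv γ 0 := by
    have h10 : (fun t => γ (t + T)) = γ := funext hper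
    have h11 := congrArg (fun f => deriv f 0) h10
    simp only [deriv_comp_add_const, zero_add] at h11
    exact h11
  have h12 : γ T = γ 0 := by
    have := hper 0
    rwa [zero_add] at this
  have h13 := hmono hT
  simp only [h9, h12] at h13
  exact lt_irrefl _ h13

end Pool.Agent.BB4B37
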