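import Pool.Agent.W_bb4b37_h5.Defs
import Pool.Agent.W_bb4b37_h24.LoopB
import Pool.Agent.W_bb4b37_h24.LoopC
import Pool.Agent.W_bb4b37_h24.LoopD

/-! # Completeness and long loops (assembly) -/

set_option autoImplicit false

namespace Pool.Agent.BB4B37

open Complex Filter Topology Set MeasureTheory

theorem loops_px_add_const (φ : ℂ → ℝ) (κ : ℝ) : px (fun z => φ z + κ) = px φ := by
  funext z
  rw [px, px, fderiv_add_const]

theorem loops_py_add_const (φ : ℂ → ℝ) (κ : ℝ) : py (fun z => φ z + κ) = py φ := by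
  funext z
  rw [py, py, fderiv_add_const]

theorem loops_lap_add_const (φ : ℂ → ℝ) (κ : ℝ) (z : ℂ) : lap (fun z => φ z + κ) z = lap φ z := by
  rw [lap, lap, loops_px_add_const, loops_py_add_const]

theorem loops_dz_add_const (φ : ℂ → ℝ) (κ : ℝ) (z : ℂ) :
    dz (cx (fun z => φ z + κ)) z = dz (cx φ) z := by
  have h : cx (fun z => φ z + κ) = fun z => cx φ z + (κ : ℂ) := by
    funext w
    simp [cx]
  rw [h, dz, dz, px, py, px, py, fderiv_add_const]

theorem loops_norm_dz_le {φ : ℂ → ℝ} {z : ℂ} (hφ : DifferentiableAt ℝ φ z) :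
    ‖dz (cx φ) z‖ ≤ ‖fderiv ℝ φ z‖ := by
  have h : HasFDerivAt (cx φ) (ofRealCLM.comp (fderiv ℝ φ z)) z :=
    ofRealCLM.hasFDerivAt.comp z hφ.hasFDerivAt
  have h1 : ∀ v : ℂ, ‖fderiv ℝ (cx φ) z v‖ ≤ ‖fderiv ℝ φ z‖ * ‖v‖ := by
    intro v
    have e : fderiv ℝ (cx φ) z v = ((fderiv ℝ φ z v : ℝ) : ℂ) := by rw [h.fderiv]; rfl
    rw [e, Complex.norm_real]
    exact (fderiv ℝ φ z).le_opNorm v
  have h2 : ‖px (cx φ) z‖ ≤ ‖fderiv ℝ φ z‖ := by
    have := h1 1
    rwa [norm_one, mul_one] at this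
  have h3 : ‖py (cx φ) z‖ ≤ ‖fderiv ℝ φ z‖ := by
    have := h1 I
    rwa [norm_I, mul_one] at this
  rw [dz, norm_div, Complex.norm_ofNat, div_le_iff₀ (by norm_num)]
  calc ‖px (cx φ) z - I * py (cx φ) z‖ ≤ ‖px (cx φ) z‖ + ‖I * py (cx φ) z‖ := norm_sub_le _ _
    _ = ‖px (cx φ) z‖ + ‖py (cx φ) z‖ := by rw [norm_mul, norm_I, one_mul]
    _ ≤ ‖fderiv ℝ φ z‖ * 2 := by linarith

/-- Proof. `ε := min (1/4) (1 / (16 (|M| + 1)))`. For `s > 0` let `κ = log ((1 - 2 s) / (4 s)) / 2`, so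
`e^κ = sqrt ((1 - 2 s) / (4 s)) ≥ sqrt (1 / (8 s))` for `s ≤ 1/4`. By `Sol.size` `e^{φ₀} ≥ e^{-M} / d`, so
`c / d ≤ e^{φ₀ + κ}` with `c = e^{κ - M}`, and `2 π ≤ ε c` for `s ≤ s₆` small.
`CompleteCurv`: openness, connectedness, smoothness clear; `lap (φ₀ + κ) = lap φ₀ = e^{2 φ₀} =
(4 s / (1 - 2 s)) e^{2 (φ₀ + κ)}` from `Sol.eq` (with `s = 0`: `Lc φ₀ z = 1`); completeness is
`complete_of_bound`. `LoopsLonger`, second part: `loop_in_disk` with `p = γ 0`, `r = infDist (γ 0) E`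
(`2 ε < 1`). First part: if the length were `≤ 2 π`, `loop_in_disk` gives `‖γ t - γ 0‖ ≤ 2 ε D(γ 0)`, so
`D (γ t) ≥ D (γ 0) (1 - 2 ε) ≥ D (γ 0) / 2`; `‖dz (cx φ₀) z‖ ≤ ‖fderiv φ₀ z‖ ≤ M / D z` (bound for
`j = 1`; `norm_iteratedFDeriv_one`), hence `‖γ t - γ 0‖ ‖dz (cx χ) (γ t)‖ ≤ 4 ε M < 1 / 2`; apply
`no_short_geodesic`. (`dz (cx (φ₀ + κ)) = dz (cx φ₀)`.) -/
theorem complete_loops' (M : ℝ) : ∃ s₆ : ℝ, 0 < s₆ ∧ s₆ ≤ 1 / 4 ∧ ∀ E : Set ℂ, IsClosed E →
    E.Nonempty → (∀ z, Metric.infDist z E ≤ 1) → IsConnected Eᶜ → ∀ φ₀ : ℂ → ℝ,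
    Sol 4 0 M E φ₀ → ∀ s : ℝ, 0 < s → s ≤ s₆ →
      CompleteCurv (-(4 * s) / (1 - 2 * s)) Eᶜ
        (fun z => φ₀ z + Real.log ((1 - 2 * s) / (4 * s)) / 2) ∧
      LoopsLonger (2 * Real.pi) Eᶜ (fun z => φ₀ z + Real.log ((1 - 2 * s) / (4 * s)) / 2) := by
  obtain ⟨ε, hεdef⟩ : ∃ ε : ℝ, ε = min (1 / 4) (1 / (16 * (|M| + 1))) := ⟨_, rfl⟩
  have hM1 : 0 < 16 * (|M| + 1) := by positivity
  have hε0 : 0 < ε := by
    rw [hεdef]
    exact lt_min (by norm_num) (by positivity)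
  have hε4 : ε ≤ 1 / 4 := by rw [hεdef]; exact min_le_left _ _
  have hεM : ε * (16 * (|M| + 1)) ≤ 1 := by
    have : ε ≤ 1 / (16 * (|M| + 1)) := by rw [hεdef]; exact min_le_right _ _
    rwa [le_div_iff₀ hM1] at this
  obtain ⟨Q, hQdef⟩ : ∃ Q : ℝ, Q = 2 * Real.pi * Real.exp M / ε := ⟨_, rfl⟩
  have hQ : 0 < Q := by
    rw [hQdef]
    have := Real.pi_pos
    positivity
  refine ⟨min (1 / 4) (1 / (8 * Q ^ 2)), lt_min (by norm_num) (by positivity), min_le_left _ _, ?_⟩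
  intro E hE hne hd hconn φ₀ hsol s hs hs6
  have hs4 : s ≤ 1 / 4 := hs6.trans (min_le_left _ _)
  have hs8 : s * (8 * Q ^ 2) ≤ 1 := by
    have : s ≤ 1 / (8 * Q ^ 2) := hs6.trans (min_le_right _ _)
    rwa [le_div_iff₀ (by positivity)] at this
  obtain ⟨x, hxdef⟩ : ∃ x : ℝ, x = (1 - 2 * s) / (4 * s) := ⟨_, rfl⟩
  rw [← hxdef]
  have hx : 0 < x := by
    rw [hxdef]
    apply div_pos <;> linarith
  have hxQ : Q ^ 2 ≤ x := by
    rw [hxdef, le_div_iff₀ (by linarith)]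
    linarith
  obtain ⟨κ, hκdef⟩ : ∃ κ : ℝ, κ = Real.log x / 2 := ⟨_, rfl⟩
  rw [← hκdef]
  have hκ2 : Real.exp (2 * κ) = x := by
    rw [hκdef, show 2 * (Real.log x / 2) = Real.log x by ring, Real.exp_log hx]
  have hQκ : Q ≤ Real.exp κ := by
    rw [← Real.log_le_iff_le_exp hQ]
    have h1 : Real.log (Q ^ 2) ≤ Real.log x := Real.log_le_log (by positivity) hxQ
    rw [Real.log_pow] at h1
    push_cast at h1
    rw [hκdef]
    linarith
  obtain ⟨c, hcdef⟩ : ∃ c : ℝ, c = Real.exp (κ - M) := ⟨_, rfl⟩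
  have hc : 0 < c := by rw [hcdef]; exact Real.exp_pos _
  have hcℓ : 2 * Real.pi ≤ ε * c := by
    rw [hcdef, Real.exp_sub]
    have h1 : 2 * Real.pi * Real.exp M = ε * Q := by
      rw [hQdef]
      field_simp
    have h2 : ε * Q ≤ ε * Real.exp κ := mul_le_mul_of_nonneg_left hQκ hε0.le
    rw [← mul_div_assoc, le_div_iff₀ (Real.exp_pos M)]
    linarith
  have hDpos : ∀ z ∉ E, 0 < Metric.infDist z E := fun z hz =>
    (hE.notMem_iff_infDist_pos hne).1 hz
  have hχ : ∀ z ∉ E, c / Metric.infDist z E ≤ Real.exp (φ₀ z + κ) := by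
    intro z hz
    have hD := hDpos z hz
    have h1 := (abs_le.1 (hsol.size z hz)).1
    have h2 : c / Metric.infDist z E = Real.exp (κ - M - Real.log (Metric.infDist z E)) := by
      rw [Real.exp_sub, Real.exp_log hD, hcdef]
    rw [h2]
    apply Real.exp_le_exp.2
    linarith
  have hsm : ContDiffOn ℝ 4 φ₀ Eᶜ := by
    have := hsol.smooth
    exact_mod_cast this
  have hsm' : ContDiffOn ℝ 4 (fun z => φ₀ z + κ) Eᶜ := hsm.add contDiffOn_const
  have hχc : ContinuousOn (fun z => φ₀ z + κ) Eᶜ := hsm'.continuousOn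
  have hdiff : ∀ z ∉ E, DifferentiableAt ℝ φ₀ z := by
    intro z hz
    exact (hsm.differentiableOn (by norm_num)).differentiableAt (hE.isOpen_compl.mem_nhds hz)
  constructor
  · refine ⟨hE.isOpen_compl, hconn, hsm', ?_, ?_⟩
    · intro z hz
      rw [loops_lap_add_const]
      have h1 := hsol.eq z hz
      rw [Lc] at h1
      have h2 : Real.exp (-2 * φ₀ z) * lap φ₀ z = 1 := by rw [h1]; ring
      have h3 : lap φ₀ z = Real.exp (2 * φ₀ z) := by
        have h4 : Real.exp (2 * φ₀ z) * Real.exp (-2 * φ₀ z) = 1 := by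
          rw [← Real.exp_add]
          simp
        calc lap φ₀ z = (Real.exp (2 * φ₀ z) * Real.exp (-2 * φ₀ z)) * lap φ₀ z := by
              rw [h4, one_mul]
          _ = Real.exp (2 * φ₀ z) * (Real.exp (-2 * φ₀ z) * lap φ₀ z) := by ring
          _ = Real.exp (2 * φ₀ z) := by rw [h2, mul_one]
      rw [h3, mul_add, Real.exp_add, hκ2, hxdef]
      have h5 : (1 - 2 * s) ≠ 0 := by linarith
      have h6 : s ≠ 0 := hs.ne'
      field_simp
    · intro γ hγ hmem hB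
      exact complete_of_bound hE hne hd (fun z => φ₀ z + κ) hχc hc hχ γ hγ hmem hB
  · constructor
    · intro γ T hγ hT hper hmem hne' hgeo
      by_contra hcon
      have hlen := not_lt.1 hcon
      have hdisk := loop_in_disk hE hne (fun z => φ₀ z + κ) hχc hc hχ hε0 hε4 hcℓ γ T
        (hγ.of_le (by norm_num)) hT hper hmem hlen
      refine no_short_geodesic (fun z => φ₀ z + κ) (γ 0) γ T hγ hT hper hne' ?_ hgeo
      intro t
      rw [loops_dz_add_const]
      have hD0 := hDpos (γ 0) (hmem 0)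
      have hDt := hDpos (γ t) (hmem t)
      have h1 : ‖dz (cx φ₀) (γ t)‖ * Metric.infDist (γ t) E ≤ M := by
        have h2 := hsol.bound (γ t) (hmem t) 1 le_rfl (by norm_num)
        rw [norm_iteratedFDeriv_one, pow_one] at h2
        exact (mul_le_mul_of_nonneg_right (loops_norm_dz_le (hdiff _ (hmem t))) hDt.le).trans h2
      have h3 : Metric.infDist (γ 0) E ≤ Metric.infDist (γ t) E + ‖γ t - γ 0‖ := by
        have := Metric.infDist_le_infDist_add_dist (s := E) (x := γ 0) (y := γ t)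
        rwa [dist_comm, dist_eq_norm] at this
      have h4 := hdisk t
      have h5 : Metric.infDist (γ 0) E ≤ 2 * Metric.infDist (γ t) E := by
        have : 2 * ε * Metric.infDist (γ 0) E ≤ 1 / 2 * Metric.infDist (γ 0) E :=
          mul_le_mul_of_nonneg_right (by linarith) hD0.le
        linarith
      have hn : 0 ≤ ‖dz (cx φ₀) (γ t)‖ := norm_nonneg _
      have h6 : ‖γ t - γ 0‖ ≤ 4 * ε * Metric.infDist (γ t) E := by
        have : 2 * ε * Metric.infDist (γ 0) E ≤ 2 * ε * (2 * Metric.infDist (γ t) E) :=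
          mul_le_mul_of_nonneg_left h5 (by linarith)
        linarith
      calc ‖γ t - γ 0‖ * ‖dz (cx φ₀) (γ t)‖
          ≤ 4 * ε * Metric.infDist (γ t) E * ‖dz (cx φ₀) (γ t)‖ :=
            mul_le_mul_of_nonneg_right h6 hn
        _ = 4 * ε * (‖dz (cx φ₀) (γ t)‖ * Metric.infDist (γ t) E) := by ring
        _ ≤ 4 * ε * M := mul_le_mul_of_nonneg_left h1 (by linarith)
        _ ≤ 4 * ε * |M| := mul_le_mul_of_nonneg_left (le_abs_self M) (by linarith)
        _ < 1 / 2 := by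
          have : 16 * (ε * |M|) + 16 * ε ≤ 1 := by linarith
          linarith
    · intro γ T hγ hT hper hmem hlen
      have hdisk := loop_in_disk hE hne (fun z => φ₀ z + κ) hχc hc hχ hε0 hε4 hcℓ γ T
        hγ hT hper hmem hlen
      have hD0 := hDpos (γ 0) (hmem 0)
      refine ⟨γ 0, Metric.infDist (γ 0) E, ?_, fun t => ?_⟩
      · intro y hy hyE
        have h1 := Metric.infDist_le_dist_of_mem (x := γ 0) hyE
        rw [Metric.mem_ball, dist_comm] at hy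
        linarith
      · rw [Metric.mem_ball, dist_eq_norm]
        have h1 := hdisk t
        have : 2 * ε * Metric.infDist (γ 0) E ≤ 1 / 2 * Metric.infDist (γ 0) E :=
          mul_le_mul_of_nonneg_right (by linarith) hD0.le
        linarith

end Pool.Agent.BB4B37
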