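import Pool.Agent.W_bb4b37_h24.Wirt

/-! # A version of Weyl's lemma -/

set_option autoImplicit false

namespace Pool.Agent.BB4B37

open Complex Filter Topology Set MeasureTheory
open scoped Interval

/-- an iterated interval integral is bounded by the integral of the norm over the rectangle -/
theorem Weyl_norm_int (g : ℂ → ℂ) (a b c d : ℝ)
    (hg : IntegrableOn g ([[a, b]] ×ℂ [[c, d]])) :
    ‖∫ x : ℝ in a..b, ∫ y : ℝ in c..d, g (x + y * I)‖ ≤
      ∫ z in ([[a, b]] ×ℂ [[c, d]]), ‖g z‖ := by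
  have hpre : (measurableEquivRealProd.symm ⁻¹' (uIoc a b ×ℂ uIoc c d)) = uIoc a b ×ˢ uIoc c d := by
    ext p
    simp [mem_reProdIm]
  have hmp := Complex.volume_preserving_equiv_real_prod.symm
  have hsub : (uIoc a b ×ℂ uIoc c d) ⊆ ([[a, b]] ×ℂ [[c, d]]) := by
    intro z hz
    rw [mem_reProdIm] at hz ⊢
    exact ⟨uIoc_subset_uIcc hz.1, uIoc_subset_uIcc hz.2⟩
  have hg1 : IntegrableOn g (uIoc a b ×ℂ uIoc c d) := hg.mono_set hsub
  have hg2 : IntegrableOn (fun p : ℝ × ℝ => g (p.1 + p.2 * I)) (uIoc a b ×ˢ uIoc c d)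
      (volume.prod volume) := by
    have := (hmp.integrableOn_comp_preimage (MeasurableEquiv.measurableEmbedding _)).2 hg1
    rw [hpre, Measure.volume_eq_prod] at this
    convert this using 1
    funext p
    simp only [Function.comp, measurableEquivRealProd_symm_apply]
    congr 1
    exact (mk_eq_add_mul_I p.1 p.2).symm
  have hval : ∫ z in (uIoc a b ×ℂ uIoc c d), ‖g z‖ =
      ∫ x in uIoc a b, ∫ y in uIoc c d, ‖g (x + y * I)‖ := by
    have e1 := setIntegral_prod (fun p : ℝ × ℝ => ‖g (p.1 + p.2 * I)‖) hg2.norm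
    have e2 := hmp.setIntegral_preimage_emb (MeasurableEquiv.measurableEmbedding _)
      (fun z => ‖g z‖) (uIoc a b ×ℂ uIoc c d)
    rw [hpre] at e2
    rw [← e2, ← e1]
    congr 1
    funext p
    simp only [measurableEquivRealProd_symm_apply]
    congr 2
    exact mk_eq_add_mul_I p.1 p.2
  have hg3 : Integrable (fun p : ℝ × ℝ => ‖g (p.1 + p.2 * I)‖)
      ((volume.restrict (uIoc a b)).prod (volume.restrict (uIoc c d))) := by
    rw [Measure.prod_restrict]
    exact hg2.norm
  calc ‖∫ x : ℝ in a..b, ∫ y : ℝ in c..d, g (x + y * I)‖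
      ≤ ∫ x in uIoc a b, ‖∫ y : ℝ in c..d, g (x + y * I)‖ :=
        intervalIntegral.norm_integral_le_integral_norm_uIoc
    _ ≤ ∫ x in uIoc a b, ∫ y in uIoc c d, ‖g (x + y * I)‖ := by
        refine integral_mono_of_nonneg (Eventually.of_forall fun x => norm_nonneg _)
          hg3.integral_prod_left (Eventually.of_forall fun x => ?_)
        exact intervalIntegral.norm_integral_le_integral_norm_uIoc
    _ = ∫ z in (uIoc a b ×ℂ uIoc c d), ‖g z‖ := hval.symm
    _ ≤ ∫ z in ([[a, b]] ×ℂ [[c, d]]), ‖g z‖ :=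
        setIntegral_mono_set hg.norm (Eventually.of_forall fun z => norm_nonneg _)
          (LE.le.eventuallyLE hsub)

/-- Proof. `H` is continuous (locally uniform limit). For every rectangle contained in `U`
(`[[z.re, w.re]] ×ℂ [[z.im, w.im]] ⊆ U`, compact) the boundary integral of `Hn n` is
`∫∫ (i ∂_x - ∂_y) Hn = 2 i ∫∫ dzb (Hn n)` (`Complex.integral_boundary_rect_of_hasFDerivAt_real_off_countable`
with `s = ∅`), which tends to `0`; it also tends to the boundary integral of `H` (uniform convergence on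
the rectangle). So `H` is conservative on `U`: `Complex.IsConservativeOn`, and Morera's theorem
`Complex.isConservativeOn_and_continuousOn_iff_isDifferentiableOn`. -/
theorem weyl_limit {U : Set ℂ} (hU : IsOpen U) {H : ℂ → ℂ} {Hn : ℕ → ℂ → ℂ}
    (hC : ∀ n, ContDiffOn ℝ 1 (Hn n) U)
    (hlim : ∀ K ⊆ U, IsCompact K → TendstoUniformlyOn Hn H atTop K)
    (hdb : ∀ K ⊆ U, IsCompact K → Tendsto (fun n => ∫ z in K, ‖dzb (Hn n) z‖) atTop (𝓝 0)) :
    DifferentiableOn ℂ H U := by
  rw [← isConservativeOn_and_continuousOn_iff_isDifferentiableOn hU]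
  constructor
  swap
  · have h1 : TendstoLocallyUniformlyOn Hn H atTop U :=
      (tendstoLocallyUniformlyOn_iff_forall_isCompact hU).2 hlim
    exact h1.continuousOn (Frequently.of_forall fun n => (hC n).continuousOn)
  intro z w hR
  rw [← add_eq_zero_iff_eq_neg, wedgeIntegral_add_wedgeIntegral_eq]
  set R : Set ℂ := [[z.re, w.re]] ×ℂ [[z.im, w.im]] with hRdef
  have hRU : R ⊆ U := hR
  have hRc : IsCompact R := isCompact_uIcc.reProdIm isCompact_uIcc
  have hu := hlim R hRU hRc
  -- the four edges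
  have hre : ∀ c ∈ [[z.im, w.im]], Tendsto (fun n => ∫ x : ℝ in z.re..w.re, Hn n (x + c * I))
      atTop (𝓝 (∫ x : ℝ in z.re..w.re, H (x + c * I))) := by
    intro c hc
    have hm : MapsTo (fun x : ℝ => (x : ℂ) + c * I) [[z.re, w.re]] R := by
      intro x hx
      rw [hRdef, mem_reProdIm]
      simpa using ⟨hx, hc⟩
    refine TendstoUniformlyOn.tendsto_intervalIntegral_of_continuousOn
      (F := fun n (x : ℝ) => Hn n (x + c * I)) (Eventually.of_forall fun n => ?_) ?_
    · exact ((hC n).continuousOn.mono hRU).comp (by fun_prop) hm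
    · exact (hu.comp (fun x : ℝ => (x : ℂ) + c * I)).mono hm
  have him : ∀ c ∈ [[z.re, w.re]], Tendsto (fun n => ∫ y : ℝ in z.im..w.im, Hn n (c + y * I))
      atTop (𝓝 (∫ y : ℝ in z.im..w.im, H (c + y * I))) := by
    intro c hc
    have hm : MapsTo (fun y : ℝ => (c : ℂ) + y * I) [[z.im, w.im]] R := by
      intro y hy
      rw [hRdef, mem_reProdIm]
      simpa using ⟨hc, hy⟩
    refine TendstoUniformlyOn.tendsto_intervalIntegral_of_continuousOn
      (F := fun n (y : ℝ) => Hn n (c + y * I)) (Eventually.of_forall fun n => ?_) ?_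
    · exact ((hC n).continuousOn.mono hRU).comp (by fun_prop) hm
    · exact (hu.comp (fun y : ℝ => (c : ℂ) + y * I)).mono hm
  have hlimB := (((hre z.im left_mem_uIcc).sub (hre w.im right_mem_uIcc)).add
    ((him w.re right_mem_uIcc).const_smul I)).sub ((him z.re left_mem_uIcc).const_smul I)
  refine tendsto_nhds_unique hlimB ?_
  rw [tendsto_zero_iff_norm_tendsto_zero]
  have hd0 := (hdb R hRU hRc).const_mul 2
  rw [mul_zero] at hd0
  refine squeeze_zero (fun n => norm_nonneg _) (fun n => ?_) hd0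
  have hcf : ContinuousOn (fun x => fderiv ℝ (Hn n) x) U :=
    (hC n).continuousOn_fderiv_of_isOpen hU le_rfl
  have hci : ContinuousOn (fun x => I • fderiv ℝ (Hn n) x 1 - fderiv ℝ (Hn n) x I) R := by
    have hcf' := hcf.mono hRU
    exact ((hcf'.clm_apply continuousOn_const).const_smul I).sub
      (hcf'.clm_apply continuousOn_const)
  have hInt : IntegrableOn (fun x => I • fderiv ℝ (Hn n) x 1 - fderiv ℝ (Hn n) x I) R :=
    hci.integrableOn_compact hRc
  have hdiff : ∀ x ∈ U, HasFDerivAt (Hn n) (fderiv ℝ (Hn n) x) x := fun x hx =>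
    (((hC n).differentiableOn (by norm_num)).differentiableAt (hU.mem_nhds hx)).hasFDerivAt
  have hkey := integral_boundary_rect_of_continuousOn_of_hasFDerivAt_real (Hn n)
    (fderiv ℝ (Hn n)) z w ((hC n).continuousOn.mono hRU) (fun x hx => hdiff x (hRU ?_)) hInt
  swap
  · rw [mem_reProdIm] at hx
    rw [hRdef, mem_reProdIm]
    exact ⟨Ioo_subset_Icc_self hx.1, Ioo_subset_Icc_self hx.2⟩
  rw [hkey]
  refine (Weyl_norm_int _ z.re w.re z.im w.im hInt).trans (le_of_eq ?_)
  rw [← integral_const_mul]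
  congr 1
  funext x
  have : I • fderiv ℝ (Hn n) x 1 - fderiv ℝ (Hn n) x I = 2 * I * dzb (Hn n) x := by
    rw [dzb, px, py, smul_eq_mul]
    linear_combination (-(fderiv ℝ (Hn n) x I)) * I_sq
  rw [this, norm_mul, norm_mul, norm_I]
  norm_num

end Pool.Agent.BB4B37
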