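import Pool.Agent.W_bb4b37_h24.CoordTop
import Pool.Agent.W_bb4b37_h24.CoordInv
import Pool.Agent.W_bb4b37_h24.Weyl
import Pool.Agent.W_bb4b37_h24.InjDeriv
import Pool.Agent.W_bb4b37_h24.DbarL

/-! # Regularity at unit scale -/

set_option autoImplicit false

namespace Pool.Agent.BB4B37

open Complex Filter Topology Set MeasureTheory

/-- Proof. `ρ = 1/8`, `k₀ = 1/2`, `κ₀` and `g` from `coord_exists`, `G` from `coord_inv`, `V = ball 0 (1/4)`,
`U = g '' V = G ⁻¹' V` open. `H = u ∘ G`; `Hn n = f n ∘ G` with `f n` from `IsSol`: `dbar_L1` and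
`weyl_limit` give that `H` is holomorphic on `U`; it is injective, so `H' ≠ 0` on `U`
(`deriv_ne_zero_of_injOn`). `u = H ∘ g` on `V`: `C³`, `dz u = H'(g) dz g`, `dzb u = H'(g) dzb g`
(`dz_comp`, `dz_of_hasDerivAt`), `dz g ≠ 0`. `ball (g 0) (1/5) ⊆ U`: if `‖y - g 0‖ < 1/5`, `x = G y`, then
`(4/5) ‖x‖ ≤ ‖g x - g 0‖ < 1/5`. `f y = H (g 0 + y)`, `deriv f 0 = H' (g 0)`,
`‖dz u 0‖ = ‖H' (g 0)‖ ‖dz g 0‖ ≤ (11/10) ‖deriv f 0‖`. -/
theorem reg_unit : ∃ k₀ κ₀ ρ : ℝ, 0 < k₀ ∧ 0 < κ₀ ∧ 0 < ρ ∧ ρ < 1 ∧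
    ∀ (b u : ℂ → ℂ), Measurable b → (∀ z, ‖b z‖ ≤ k₀) → IsSol k₀ b u →
    Function.Injective u → ContDiffOn ℝ 6 b (Metric.ball 0 1) →
    (∀ z ∈ Metric.ball (0 : ℂ) 1, ∀ j : ℕ, j ≤ 6 → ‖iteratedFDeriv ℝ j b z‖ ≤ κ₀) →
    ContDiffOn ℝ 3 u (Metric.ball 0 ρ) ∧
    (∀ z ∈ Metric.ball (0 : ℂ) ρ, dzb u z = b z * dz u z ∧ dz u z ≠ 0) ∧
    ∃ f : ℂ → ℂ, DifferentiableOn ℂ f (Metric.ball 0 ρ) ∧
      MapsTo f (Metric.ball 0 ρ) (u '' Metric.ball 0 1) ∧ f 0 = u 0 ∧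
      ‖dz u 0‖ ≤ 2 * ‖deriv f 0‖ := by
  obtain ⟨κ₀, hκ, hcoord⟩ := coord_exists
  refine ⟨1 / 2, κ₀, 1 / 8, by norm_num, hκ, by norm_num, by norm_num, ?_⟩
  intro b u hbm hb hsol hinj hbC hbκ
  obtain ⟨g, hg, h10, hgb⟩ := hcoord b hbC hbκ
  obtain ⟨hlip, G, hG, hGg, hgG⟩ := coord_inv hg h10
  obtain ⟨f, hf, hu, hL2⟩ := hsol
  have hVo : IsOpen (Metric.ball (0 : ℂ) (1 / 4)) := Metric.isOpen_ball
  have hUeq : g '' Metric.ball (0 : ℂ) (1 / 4) = G ⁻¹' Metric.ball (0 : ℂ) (1 / 4) := by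
    ext y
    constructor
    · rintro ⟨x, hx, rfl⟩
      rw [mem_preimage, hGg]; exact hx
    · intro hy
      exact ⟨G y, hy, hgG y⟩
  have hUo : IsOpen (g '' Metric.ball (0 : ℂ) (1 / 4)) := by
    rw [hUeq]; exact hVo.preimage hG.continuous
  have hHd : DifferentiableOn ℂ (fun y => u (G y)) (g '' Metric.ball (0 : ℂ) (1 / 4)) := by
    refine weyl_limit hUo (Hn := fun n y => f n (G y)) (fun n => ?_) (fun K _ _ => ?_) ?_
    · exact (((hf n).smooth 1).comp (hG.of_le (by norm_num))).contDiffOn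
    · exact (hu.comp G).tendstoUniformlyOn
    · exact dbar_L1 le_rfl hbm hb hf hu hL2 hg hG h10 hGg hgG hVo hgb
  have hHi : InjOn (fun y => u (G y)) (g '' Metric.ball (0 : ℂ) (1 / 4)) := by
    intro x _ y _ hxy
    have : G x = G y := hinj hxy
    rw [← hgG x, ← hgG y, this]
  have hH0 : ∀ p ∈ g '' Metric.ball (0 : ℂ) (1 / 4), deriv (fun y => u (G y)) p ≠ 0 := fun p hp =>
    deriv_ne_zero_of_injOn hUo hHd hHi hp
  have hueq : u = fun z => (fun y => u (G y)) (g z) := by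
    funext z
    show u z = u (G (g z))
    rw [hGg]
  have hmem : ∀ y : ℂ, ‖y - g 0‖ < 1 / 5 → G y ∈ Metric.ball (0 : ℂ) (1 / 4) := by
    intro y hy
    have h := hlip (G y) 0
    rw [hgG, sub_zero] at h
    have h1 : ‖G y‖ ≤ ‖y - g 0‖ + ‖y - g 0 - G y‖ := by
      have : G y = (y - g 0) - (y - g 0 - G y) := by ring
      conv_lhs => rw [this]
      exact norm_sub_le _ _
    rw [mem_ball_zero_iff]
    linarith
  have hdz : ∀ z ∈ Metric.ball (0 : ℂ) (1 / 4),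
      dz u z = deriv (fun y => u (G y)) (g z) * dz g z ∧
      dzb u z = deriv (fun y => u (G y)) (g z) * dzb g z := by
    intro z hz
    have hgz : g z ∈ g '' Metric.ball (0 : ℂ) (1 / 4) := mem_image_of_mem g hz
    have hHz : DifferentiableAt ℂ (fun y => u (G y)) (g z) := hHd.differentiableAt (hUo.mem_nhds hgz)
    have hc := dz_comp (f := g) (g := fun y => u (G y)) (z := z)
      ((hg.differentiable (by norm_num)) z) (hHz.restrictScalars ℝ)
    have hd := dz_of_hasDerivAt hHz.hasDerivAt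
    rw [← hueq, hd.1, hd.2] at hc
    simpa using hc
  have hgne : ∀ z, dz g z ≠ 0 := by
    intro z hz
    have := (h10 z).1
    rw [hz] at this
    norm_num at this
  have hsub : Metric.ball (0 : ℂ) (1 / 8) ⊆ Metric.ball (0 : ℂ) (1 / 4) :=
    Metric.ball_subset_ball (by norm_num)
  refine ⟨?_, ?_, fun y => u (G (g 0 + y)), ?_, ?_, ?_, ?_⟩
  · intro z hz
    have hgz : g z ∈ g '' Metric.ball (0 : ℂ) (1 / 4) := mem_image_of_mem g (hsub hz)
    have h1 : ContDiffAt ℂ 3 (fun y => u (G y)) (g z) :=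
      (hHd.contDiffOn hUo).contDiffAt (hUo.mem_nhds hgz)
    have h2 : ContDiffAt ℝ 3 (fun z => (fun y => u (G y)) (g z)) z :=
      (h1.restrict_scalars ℝ).comp z hg.contDiffAt
    rw [← hueq] at h2
    exact h2.contDiffWithinAt
  · intro z hz
    obtain ⟨h1, h2⟩ := hdz z (hsub hz)
    refine ⟨?_, ?_⟩
    · rw [h1, h2, hgb z (hsub hz)]; ring
    · rw [h1]
      exact mul_ne_zero (hH0 _ (mem_image_of_mem g (hsub hz))) (hgne z)
  · intro y hy
    have hy' : ‖g 0 + y - g 0‖ < 1 / 5 := by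
      rw [add_sub_cancel_left]
      rw [mem_ball_zero_iff] at hy
      linarith
    have h1 : g 0 + y ∈ g '' Metric.ball (0 : ℂ) (1 / 4) := by
      rw [hUeq]; exact hmem _ hy'
    have h2 : DifferentiableAt ℂ (fun y => u (G y)) (g 0 + y) := hHd.differentiableAt (hUo.mem_nhds h1)
    have h3 : DifferentiableAt ℂ (fun y => g 0 + y) y := (differentiableAt_id).const_add _
    exact (h2.comp y h3).differentiableWithinAt
  · intro y hy
    have hy' : ‖g 0 + y - g 0‖ < 1 / 5 := by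
      rw [add_sub_cancel_left]
      rw [mem_ball_zero_iff] at hy
      linarith
    exact ⟨G (g 0 + y), Metric.ball_subset_ball (by norm_num) (hmem _ hy'), rfl⟩
  · show u (G (g 0 + 0)) = u 0
    rw [add_zero, hGg]
  · have h0 : (0 : ℂ) ∈ Metric.ball (0 : ℂ) (1 / 4) := Metric.mem_ball_self (by norm_num)
    have h1 : deriv (fun y => u (G (g 0 + y))) 0 = deriv (fun y => u (G y)) (g 0) := by
      rw [deriv_comp_const_add (f := fun y => u (G y)), add_zero]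
    rw [h1, (hdz 0 h0).1, norm_mul]
    have h2 : ‖dz g 0‖ ≤ 2 := by
      have h3 : ‖dz g 0‖ ≤ ‖dz g 0 - 1‖ + ‖(1 : ℂ)‖ := by
        simpa using norm_add_le (dz g 0 - 1) 1
      have := (h10 0).1
      rw [norm_one] at h3
      linarith
    nlinarith [norm_nonneg (deriv (fun y => u (G y)) (g 0))]

end Pool.Agent.BB4B37
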