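import Pool.Agent.W_bb4b37_h24.RegTop
import Pool.Agent.W_bb4b37_h24.RegUnit

/-! # Rescaling: from the unit disk to all disks -/

set_option autoImplicit false

namespace Pool.Agent.BB4B37

open Complex Filter Topology Set MeasureTheory

/-- multiplication by a nonzero real number as a continuous linear equivalence -/
noncomputable def rscE (r : ℝ) (hr : r ≠ 0) : ℂ ≃L[ℝ] ℂ :=
  ContinuousLinearEquiv.equivOfInverse (r • ContinuousLinearMap.id ℝ ℂ)
    (r⁻¹ • ContinuousLinearMap.id ℝ ℂ) (fun x => by simp [hr])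
    (fun x => by simp [hr])

theorem rscE_apply (r : ℝ) (hr : r ≠ 0) (x : ℂ) : rscE r hr x = (r : ℂ) * x := by
  show r • x = _
  exact real_smul

theorem rsc_fderiv {F : Type*} [NormedAddCommGroup F] [NormedSpace ℝ F] (f : ℂ → F) (z₀ ζ v : ℂ)
    {r : ℝ} (hr : r ≠ 0) :
    fderiv ℝ (fun ζ => f (z₀ + r * ζ)) ζ v = fderiv ℝ f (z₀ + r * ζ) ((r : ℂ) * v) := by
  have h1 : (fun ζ : ℂ => f (z₀ + r * ζ)) = (fun x => f (z₀ + x)) ∘ (rscE r hr) := by
    funext x; simp [rscE_apply]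
  rw [h1, ContinuousLinearEquiv.comp_right_fderiv, fderiv_comp_add_left, rscE_apply]
  show fderiv ℝ f (z₀ + r * ζ) (rscE r hr v) = _
  rw [rscE_apply]

theorem rsc_px {f : ℂ → ℂ} (z₀ ζ : ℂ) {r : ℝ} (hr : r ≠ 0) :
    px (fun ζ => f (z₀ + r * ζ)) ζ = r * px f (z₀ + r * ζ) := by
  rw [px, rsc_fderiv f z₀ ζ 1 hr, px]
  have : (r : ℂ) * 1 = r • (1 : ℂ) := real_smul.symm
  rw [this, map_smul, real_smul]

theorem rsc_py {f : ℂ → ℂ} (z₀ ζ : ℂ) {r : ℝ} (hr : r ≠ 0) :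
    py (fun ζ => f (z₀ + r * ζ)) ζ = r * py f (z₀ + r * ζ) := by
  rw [py, rsc_fderiv f z₀ ζ I hr, py]
  have : (r : ℂ) * I = r • I := real_smul.symm
  rw [this, map_smul, real_smul]

theorem rsc_dz {f : ℂ → ℂ} (z₀ ζ : ℂ) {r : ℝ} (hr : r ≠ 0) :
    dz (fun ζ => f (z₀ + r * ζ)) ζ = r * dz f (z₀ + r * ζ) := by
  rw [dz, rsc_px z₀ ζ hr, rsc_py z₀ ζ hr, dz]; ring

theorem rsc_dzb {f : ℂ → ℂ} (z₀ ζ : ℂ) {r : ℝ} (hr : r ≠ 0) :
    dzb (fun ζ => f (z₀ + r * ζ)) ζ = r * dzb f (z₀ + r * ζ) := by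
  rw [dzb, rsc_px z₀ ζ hr, rsc_py z₀ ζ hr, dzb]; ring

theorem rsc_bel {f : ℂ → ℂ} (z₀ ζ : ℂ) {r : ℝ} (hr : r ≠ 0) :
    bel (fun ζ => f (z₀ + r * ζ)) ζ = bel f (z₀ + r * ζ) := by
  rw [bel, rsc_dz z₀ ζ hr, rsc_dzb z₀ ζ hr, bel]
  have hr' : (r : ℂ) ≠ 0 := ofReal_ne_zero.mpr hr
  rw [mul_div_mul_left _ _ hr']

theorem rsc_affine_smooth (z₀ : ℂ) (r : ℝ) (n : WithTop ℕ∞) :
    ContDiff ℝ n (fun ζ : ℂ => z₀ + r * ζ) :=
  contDiff_const.add (contDiff_const.mul contDiff_id)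

theorem rsc_bij (z₀ : ℂ) {r : ℝ} (hr : r ≠ 0) : Function.Bijective (fun ζ : ℂ => z₀ + r * ζ) := by
  have hr' : (r : ℂ) ≠ 0 := ofReal_ne_zero.mpr hr
  constructor
  · intro x y h
    have h1 : (r : ℂ) * x = r * y := add_left_cancel h
    exact mul_left_cancel₀ hr' h1
  · intro y
    refine ⟨(y - z₀) / r, ?_⟩
    show z₀ + r * ((y - z₀) / r) = y
    field_simp
    ring

theorem rsc_mem_ball (z₀ ζ : ℂ) {r : ℝ} (hr : 0 < r) (R : ℝ) :
    z₀ + r * ζ ∈ Metric.ball z₀ (R * r) ↔ ζ ∈ Metric.ball (0 : ℂ) R := by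
  rw [mem_ball_iff_norm, mem_ball_zero_iff, add_sub_cancel_left, norm_mul, norm_real,
    Real.norm_eq_abs, abs_of_pos hr, mul_comm]
  exact mul_lt_mul_iff_left₀ hr

theorem rsc_IsDf {k : ℝ} {f : ℂ → ℂ} (h : IsDf k f) (z₀ : ℂ) {r : ℝ} (hr : 0 < r) :
    IsDf k (fun ζ => f (z₀ + r * ζ)) where
  smooth n := (h.smooth n).comp (rsc_affine_smooth z₀ r n)
  bij := h.bij.comp (rsc_bij z₀ hr.ne')
  bel z := by
    rw [rsc_dz z₀ z hr.ne', rsc_dzb z₀ z hr.ne', norm_mul, norm_mul]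
    have h1 := h.bel (z₀ + r * z)
    have h2 : ‖(r : ℂ)‖ * ‖dzb f (z₀ + r * z)‖ ≤ ‖(r : ℂ)‖ * (k * ‖dz f (z₀ + r * z)‖) :=
      mul_le_mul_of_nonneg_left h1 (norm_nonneg _)
    calc ‖(r : ℂ)‖ * ‖dzb f (z₀ + r * z)‖ ≤ ‖(r : ℂ)‖ * (k * ‖dz f (z₀ + r * z)‖) := h2
      _ = k * (‖(r : ℂ)‖ * ‖dz f (z₀ + r * z)‖) := by ring
  nd z := by
    rw [rsc_dz z₀ z hr.ne']
    exact mul_ne_zero (ofReal_ne_zero.mpr hr.ne') (h.nd _)

theorem rsc_cont_px {f : ℂ → ℂ} (h : ∀ n : ℕ, ContDiff ℝ n f) : Continuous (px f) := by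
  have h1 : Continuous (fderiv ℝ f) := (h 1).continuous_fderiv (by norm_num)
  exact h1.clm_apply continuous_const

theorem rsc_cont_py {f : ℂ → ℂ} (h : ∀ n : ℕ, ContDiff ℝ n f) : Continuous (py f) := by
  have h1 : Continuous (fderiv ℝ f) := (h 1).continuous_fderiv (by norm_num)
  exact h1.clm_apply continuous_const

theorem rsc_cont_bel {k : ℝ} {f : ℂ → ℂ} (h : IsDf k f) : Continuous (bel f) := by
  have h1 : Continuous (dz f) :=
    ((rsc_cont_px h.smooth).sub (continuous_const.mul (rsc_cont_py h.smooth))).div_const 2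
  have h2 : Continuous (dzb f) :=
    ((rsc_cont_px h.smooth).add (continuous_const.mul (rsc_cont_py h.smooth))).div_const 2
  exact h2.div h1 h.nd

theorem rsc_bel_le {k : ℝ} {f : ℂ → ℂ} (h : IsDf k f) (z : ℂ) : ‖bel f z‖ ≤ k := by
  rw [bel, norm_div, div_le_iff₀ (norm_pos_iff.mpr (h.nd z))]
  exact h.bel z

theorem rsc_integrableOn {k : ℝ} {f b : ℂ → ℂ} (hbm : Measurable b) (hb : ∀ z, ‖b z‖ ≤ k)
    (h : IsDf k f) (c : ℂ) (R : ℝ) :
    IntegrableOn (fun z => ‖bel f z - b z‖ ^ 2) (Metric.ball c R) := by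
  have hm : Measurable (fun z => ‖bel f z - b z‖ ^ 2) :=
    (((rsc_cont_bel h).measurable.sub hbm).norm).pow_const 2
  have hk : 0 ≤ k := (norm_nonneg _).trans (hb 0)
  have hfin : volume (Metric.ball c R) ≠ ⊤ := measure_ball_lt_top.ne
  refine Measure.integrableOn_of_bounded (M := (2 * k) ^ 2) hfin hm.aestronglyMeasurable ?_
  filter_upwards with z
  rw [norm_pow, norm_norm]
  apply pow_le_pow_left₀ (norm_nonneg _)
  calc ‖bel f z - b z‖ ≤ ‖bel f z‖ + ‖b z‖ := norm_sub_le _ _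
    _ ≤ 2 * k := by linarith [rsc_bel_le h z, hb z]

theorem rsc_integral (F : ℂ → ℝ) (z₀ : ℂ) {r : ℝ} (hr : 0 < r) (R : ℝ) :
    ∫ ζ in Metric.ball (0 : ℂ) R, F (z₀ + r * ζ) = (r ^ 2)⁻¹ * ∫ z in Metric.ball z₀ (R * r), F z := by
  rw [← integral_indicator measurableSet_ball, ← integral_indicator measurableSet_ball]
  have h1 : (Metric.ball (0 : ℂ) R).indicator (fun ζ => F (z₀ + r * ζ)) =
      fun ζ => (fun x => (Metric.ball z₀ (R * r)).indicator F (z₀ + x)) (r • ζ) := by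
    funext ζ
    show _ = (Metric.ball z₀ (R * r)).indicator F (z₀ + r • ζ)
    rw [real_smul]
    by_cases hζ : ζ ∈ Metric.ball (0 : ℂ) R
    · rw [indicator_of_mem hζ, indicator_of_mem ((rsc_mem_ball z₀ ζ hr R).mpr hζ)]
    · rw [indicator_of_notMem hζ,
        indicator_of_notMem (fun h => hζ ((rsc_mem_ball z₀ ζ hr R).mp h))]
  rw [h1, Measure.integral_comp_smul, integral_add_left_eq_self, finrank_real_complex,
    abs_of_nonneg (by positivity), smul_eq_mul]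

/-- Proof. Change of variables in the integrals over balls (`∫_{ball 0 R} F (z₀ + r ζ) dζ =
r^{-2} ∫_{ball z₀ (r R)} F`, and `ball z₀ (r R) ⊆ ball 0 (‖z₀‖ + r R)`), `dz (f (z₀ + r ·)) = r (dz f)(z₀ + r ·)`,
the same for `dzb`, so `bel` is composed with `ζ ↦ z₀ + r ζ`. -/
theorem IsSol.rescale {k : ℝ} {b u : ℂ → ℂ} (hbm : Measurable b) (hb : ∀ z, ‖b z‖ ≤ k)
    (h : IsSol k b u) (z₀ : ℂ) {r : ℝ} (hr : 0 < r) :
    IsSol k (fun ζ => b (z₀ + r * ζ)) (fun ζ => u (z₀ + r * ζ)) := by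
  obtain ⟨f, hf, hlim, hL⟩ := h
  refine ⟨fun n ζ => f n (z₀ + r * ζ), fun n => rsc_IsDf (hf n) z₀ hr, ?_, ?_⟩
  · exact hlim.comp (fun ζ => z₀ + r * ζ)
  · intro R
    have hR := hL (‖z₀‖ + |R| * r)
    have hR' := hR.const_mul ((r ^ 2)⁻¹)
    rw [mul_zero] at hR'
    refine squeeze_zero (fun n => integral_nonneg fun z => sq_nonneg _) (fun n => ?_) hR'
    have h1 : (∫ z in Metric.ball (0 : ℂ) R, ‖bel (fun ζ => f n (z₀ + r * ζ)) z -
        b (z₀ + r * z)‖ ^ 2) = ∫ z in Metric.ball (0 : ℂ) R,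
          (fun x => ‖bel (f n) x - b x‖ ^ 2) (z₀ + r * z) := by
      apply integral_congr_ae
      filter_upwards with z
      rw [rsc_bel z₀ z hr.ne']
    rw [h1, rsc_integral (fun x => ‖bel (f n) x - b x‖ ^ 2) z₀ hr R]
    apply mul_le_mul_of_nonneg_left _ (by positivity)
    apply setIntegral_mono_set (rsc_integrableOn hbm hb (hf n) 0 (‖z₀‖ + |R| * r))
    · filter_upwards with z using sq_nonneg _
    · apply Filter.Eventually.of_forall
      intro z hz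
      have hz' : z ∈ Metric.ball z₀ (R * r) := hz
      rw [mem_ball_iff_norm] at hz'
      show z ∈ Metric.ball (0 : ℂ) (‖z₀‖ + |R| * r)
      rw [mem_ball_zero_iff]
      have h2 : ‖z‖ ≤ ‖z₀‖ + ‖z - z₀‖ := by
        have := norm_add_le z₀ (z - z₀)
        rwa [add_sub_cancel] at this
      have h3 : R * r ≤ |R| * r := mul_le_mul_of_nonneg_right (le_abs_self R) hr.le
      linarith

/-- Proof. Apply `reg_unit` to `b~ ζ = b (z₀ + r ζ)`, `u~ ζ = u (z₀ + r ζ)`;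
`‖iteratedFDeriv ℝ j b~ ζ‖ = r^j ‖iteratedFDeriv ℝ j b (z₀ + r ζ)‖`. Then `u z = u~ ((z - z₀) / r)` and
`f z = f~ (z / r)`. -/
theorem reg_local' : RegLocal := by
  obtain ⟨k₀, κ₀, ρ, hk, hκ, hρ, hρ1, H⟩ := reg_unit
  refine ⟨k₀, κ₀, ρ, hk, hκ, hρ, hρ1, ?_⟩
  intro b u z₀ r hbm hb hsol hinj hr hbs hbd
  have hr0 : r ≠ 0 := hr.ne'
  have hrc : (r : ℂ) ≠ 0 := ofReal_ne_zero.mpr hr0
  have hmaps : MapsTo (fun ζ : ℂ => z₀ + r * ζ) (Metric.ball 0 1) (Metric.ball z₀ r) := by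
    intro ζ hζ
    have := (rsc_mem_ball z₀ ζ hr 1).mpr hζ
    rwa [one_mul] at this
  have hinv : ∀ z : ℂ, z₀ + r * ((z - z₀) / r) = z := by
    intro z; field_simp; ring
  have hmapsi : ∀ z ∈ Metric.ball z₀ (ρ * r), (z - z₀) / r ∈ Metric.ball (0 : ℂ) ρ := by
    intro z hz
    apply (rsc_mem_ball z₀ _ hr ρ).mp
    rwa [hinv]
  obtain ⟨h1, h2, f, hfd, hfm, hf0, hfn⟩ := H (fun ζ => b (z₀ + r * ζ)) (fun ζ => u (z₀ + r * ζ))
    (hbm.comp (rsc_affine_smooth z₀ r 0).continuous.measurable) (fun z => hb _)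
    (hsol.rescale hbm hb z₀ hr) (hinj.comp (rsc_bij z₀ hr0).1)
    (hbs.comp (rsc_affine_smooth z₀ r 6).contDiffOn hmaps) (by
      intro ζ hζ j hj
      have h3 := hbd _ (hmaps hζ) j hj
      have h4 : (fun ζ : ℂ => b (z₀ + r * ζ)) = (fun x => b (z₀ + x)) ∘ (rscE r hr0) := by
        funext x; simp [rscE_apply]
      have h5 := (rscE r hr0).iteratedFDerivWithin_comp_right (fun x => b (z₀ + x))
        (uniqueDiffOn_univ) (x := ζ) (mem_univ _) j
      rw [preimage_univ, iteratedFDerivWithin_univ, iteratedFDerivWithin_univ] at h5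
      rw [h4, h5]
      refine (ContinuousMultilinearMap.norm_compContinuousLinearMap_le _ _).trans ?_
      have h6 : ‖((rscE r hr0 : ℂ ≃L[ℝ] ℂ) : ℂ →L[ℝ] ℂ)‖ ≤ r := by
        apply ContinuousLinearMap.opNorm_le_bound _ hr.le
        intro x
        show ‖rscE r hr0 x‖ ≤ r * ‖x‖
        rw [rscE_apply, norm_mul, norm_real, Real.norm_eq_abs, abs_of_pos hr]
      rw [iteratedFDeriv_comp_add_left, rscE_apply]
      refine le_trans ?_ h3
      apply mul_le_mul_of_nonneg_left _ (norm_nonneg _)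
      rw [Finset.prod_const, Finset.card_univ, Fintype.card_fin]
      exact pow_le_pow_left₀ (norm_nonneg _) h6 j)
  have hu : u = fun z => (fun ζ => u (z₀ + r * ζ)) ((z - z₀) / r) := by
    funext z
    show u z = u (z₀ + r * ((z - z₀) / r))
    rw [hinv]
  refine ⟨?_, ?_, fun z => f (z / r), ?_, ?_, ?_, ?_⟩
  · rw [hu]
    apply h1.comp (t := Metric.ball 0 ρ)
    · exact ((contDiff_id.sub contDiff_const).div_const _).contDiffOn
    · exact fun z hz => hmapsi z hz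
  · intro z hz
    obtain ⟨h3, h4⟩ := h2 _ (hmapsi z hz)
    rw [rsc_dz z₀ _ hr0] at h3 h4
    rw [rsc_dzb z₀ _ hr0] at h3
    simp only [hinv] at h3 h4
    constructor
    · apply mul_left_cancel₀ hrc
      rw [h3]; ring
    · exact right_ne_zero_of_mul h4
  · apply hfd.comp (differentiable_id.div_const _).differentiableOn
    intro z hz
    have := hmapsi (z₀ + z) (by
      rw [mem_ball_iff_norm, add_sub_cancel_left]; rwa [mem_ball_zero_iff] at hz)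
    rwa [add_sub_cancel_left] at this
  · intro z hz
    have := hmapsi (z₀ + z) (by
      rw [mem_ball_iff_norm, add_sub_cancel_left]; rwa [mem_ball_zero_iff] at hz)
    rw [add_sub_cancel_left] at this
    obtain ⟨ζ, hζ, hζe⟩ := hfm this
    exact ⟨z₀ + r * ζ, hmaps hζ, hζe⟩
  · show f (0 / r) = u z₀
    rw [zero_div, hf0]
    show u (z₀ + r * 0) = u z₀
    rw [mul_zero, add_zero]
  · rw [rsc_dz z₀ _ hr0] at hfn
    have h3 : deriv (fun z : ℂ => f (z / r)) 0 = deriv f 0 / r := by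
      have hd : HasDerivAt f (deriv f 0) ((0 : ℂ) / r) := by
        rw [zero_div]
        exact (hfd.differentiableAt (Metric.ball_mem_nhds 0 hρ)).hasDerivAt
      have h5 : HasDerivAt (fun z : ℂ => z / r) (1 / r) 0 := (hasDerivAt_id _).div_const _
      have h6 := (HasDerivAt.comp (0 : ℂ) hd h5).deriv
      have h7 : (f ∘ fun z : ℂ => z / r) = fun z : ℂ => f (z / r) := rfl
      rw [h7] at h6
      rw [h6]; ring
    rw [h3, norm_div]
    have h8 : z₀ + r * (0 : ℂ) = z₀ := by rw [mul_zero, add_zero]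
    rw [h8, norm_mul] at hfn
    have h9 : 0 < ‖(r : ℂ)‖ := norm_pos_iff.mpr hrc
    rw [← mul_div_assoc, le_div_iff₀ h9, mul_comm]
    exact hfn

end Pool.Agent.BB4B37
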