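import Pool.Agent.W_bb4b37_h24.FourB

/-! # The weighted Wiener algebra: convolution -/

set_option autoImplicit false

namespace Pool.Agent.BB4B37

open Complex Filter Topology Set MeasureTheory

theorem one_le_wt (m : ℤ × ℤ) : 1 ≤ wt m := by
  unfold wt
  have h1 := abs_nonneg (m.1 : ℝ)
  have h2 := abs_nonneg (m.2 : ℝ)
  linarith

theorem wt_add_le (m n : ℤ × ℤ) : wt (m + n) ≤ wt m * wt n := by
  unfold wt
  have h1 := abs_nonneg (m.1 : ℝ)
  have h2 := abs_nonneg (m.2 : ℝ)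
  have h3 := abs_nonneg (n.1 : ℝ)
  have h4 := abs_nonneg (n.2 : ℝ)
  have h5 : |((m + n).1 : ℝ)| ≤ |(m.1 : ℝ)| + |(n.1 : ℝ)| := by
    rw [Prod.fst_add, Int.cast_add]; exact abs_add_le _ _
  have h6 : |((m + n).2 : ℝ)| ≤ |(m.2 : ℝ)| + |(n.2 : ℝ)| := by
    rw [Prod.snd_add, Int.cast_add]; exact abs_add_le _ _
  nlinarith [mul_nonneg h1 h3, mul_nonneg h1 h4, mul_nonneg h2 h3, mul_nonneg h2 h4]

theorem InW.mono {s t : ℕ} (hst : s ≤ t) {a : ℤ × ℤ → ℂ} (h : InW t a) :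
    InW s a ∧ nrm s a ≤ nrm t a := by
  have hle : ∀ m, wt m ^ s * ‖a m‖ ≤ wt m ^ t * ‖a m‖ := fun m =>
    mul_le_mul_of_nonneg_right (pow_le_pow_right₀ (one_le_wt m) hst) (norm_nonneg _)
  have h0 : ∀ m, 0 ≤ wt m ^ s * ‖a m‖ := fun m =>
    mul_nonneg (pow_nonneg (zero_le_one.trans (one_le_wt m)) _) (norm_nonneg _)
  have h1 : InW s a := Summable.of_nonneg_of_le h0 hle h
  exact ⟨h1, Summable.tsum_le_tsum hle h1 h⟩

theorem InW.add {s : ℕ} {a b : ℤ × ℤ → ℂ} (ha : InW s a) (hb : InW s b) :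
    InW s (fun m => a m + b m) ∧ nrm s (fun m => a m + b m) ≤ nrm s a + nrm s b := by
  have hw : ∀ m, 0 ≤ wt m ^ s := fun m => pow_nonneg (zero_le_one.trans (one_le_wt m)) _
  have hle : ∀ m, wt m ^ s * ‖a m + b m‖ ≤ wt m ^ s * ‖a m‖ + wt m ^ s * ‖b m‖ := fun m => by
    rw [← mul_add]
    exact mul_le_mul_of_nonneg_left (norm_add_le _ _) (hw m)
  have h0 : ∀ m, 0 ≤ wt m ^ s * ‖a m + b m‖ := fun m => mul_nonneg (hw m) (norm_nonneg _)
  have hs : Summable fun m => wt m ^ s * ‖a m‖ + wt m ^ s * ‖b m‖ := Summable.add ha hb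
  have h1 : InW s (fun m => a m + b m) := Summable.of_nonneg_of_le h0 hle hs
  refine ⟨h1, ?_⟩
  have h2 := Summable.tsum_le_tsum hle h1 hs
  rw [Summable.tsum_add ha hb] at h2
  exact h2

/-- the change of variables `(m, k) ↦ (k, m - k)` -/
def wienA_equiv : (ℤ × ℤ) × (ℤ × ℤ) ≃ (ℤ × ℤ) × (ℤ × ℤ) where
  toFun p := (p.2, p.1 - p.2)
  invFun q := (q.1 + q.2, q.1)
  left_inv p := by simp
  right_inv q := by simp

theorem wienA_conv_real {f g : ℤ × ℤ → ℝ} (hf : Summable f) (hg : Summable g) (hf0 : ∀ m, 0 ≤ f m)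
    (hg0 : ∀ m, 0 ≤ g m) : Summable (fun p : (ℤ × ℤ) × (ℤ × ℤ) => f p.2 * g (p.1 - p.2)) ∧
    ∑' m, ∑' k, f k * g (m - k) = (∑' k, f k) * ∑' k, g k := by
  have h1 : Summable (fun p : (ℤ × ℤ) × (ℤ × ℤ) => f p.1 * g p.2) :=
    Summable.mul_of_nonneg hf hg hf0 hg0
  have h2 : Summable (fun p : (ℤ × ℤ) × (ℤ × ℤ) => f p.2 * g (p.1 - p.2)) :=
    wienA_equiv.summable_iff.2 h1
  refine ⟨h2, ?_⟩
  rw [Summable.tsum_mul_tsum hf hg h1, ← h2.tsum_prod]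
  exact wienA_equiv.tsum_eq (fun p : (ℤ × ℤ) × (ℤ × ℤ) => f p.1 * g p.2)

theorem wienA_conv_complex {f g : ℤ × ℤ → ℂ} (hf : Summable fun m => ‖f m‖)
    (hg : Summable fun m => ‖g m‖) :
    Summable (fun p : (ℤ × ℤ) × (ℤ × ℤ) => f p.2 * g (p.1 - p.2)) ∧
    ∑' m, ∑' k, f k * g (m - k) = (∑' k, f k) * ∑' k, g k := by
  have h1 : Summable (fun p : (ℤ × ℤ) × (ℤ × ℤ) => f p.1 * g p.2) :=
    summable_mul_of_summable_norm hf hg
  have h2 : Summable (fun p : (ℤ × ℤ) × (ℤ × ℤ) => f p.2 * g (p.1 - p.2)) :=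
    wienA_equiv.summable_iff.2 h1
  refine ⟨h2, ?_⟩
  rw [Summable.tsum_mul_tsum hf.of_norm hg.of_norm h1, ← h2.tsum_prod]
  exact wienA_equiv.tsum_eq (fun p : (ℤ × ℤ) × (ℤ × ℤ) => f p.1 * g p.2)

/-- Proof. `wt m ^ s ‖(a * b) m‖ ≤ ∑ k, (wt k ^ s ‖a k‖) (wt (m - k) ^ s ‖b (m - k)‖)`, sum over `m`:
a double sum over `(k, l) = (k, m - k)` of a product of two summable families
(`Summable.mul_of_nonneg`, `Equiv.summable_iff`, `tsum_prod`, `Summable.tsum_mul_tsum`). -/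
theorem InW.cnv {s : ℕ} {a b : ℤ × ℤ → ℂ} (ha : InW s a) (hb : InW s b) :
    InW s (cnv a b) ∧ nrm s (cnv a b) ≤ nrm s a * nrm s b := by
  have hw : ∀ m, 0 ≤ wt m ^ s := fun m => pow_nonneg (zero_le_one.trans (one_le_wt m)) _
  have hw1 : ∀ m, 1 ≤ wt m ^ s := fun m => one_le_pow₀ (one_le_wt m)
  have ha0 : ∀ m, 0 ≤ wt m ^ s * ‖a m‖ := fun m => mul_nonneg (hw m) (norm_nonneg _)
  have hb0 : ∀ m, 0 ≤ wt m ^ s * ‖b m‖ := fun m => mul_nonneg (hw m) (norm_nonneg _)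
  obtain ⟨h1, h2⟩ := wienA_conv_real ha hb ha0 hb0
  have hG : ∀ m k, wt m ^ s * (‖a k‖ * ‖b (m - k)‖) ≤
      (wt k ^ s * ‖a k‖) * (wt (m - k) ^ s * ‖b (m - k)‖) := by
    intro m k
    have h3 : wt m ^ s ≤ wt k ^ s * wt (m - k) ^ s := by
      rw [← mul_pow]
      refine pow_le_pow_left₀ (zero_le_one.trans (one_le_wt m)) ?_ s
      have := wt_add_le k (m - k)
      rwa [add_sub_cancel] at this
    have h4 : 0 ≤ ‖a k‖ * ‖b (m - k)‖ := mul_nonneg (norm_nonneg _) (norm_nonneg _)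
    calc wt m ^ s * (‖a k‖ * ‖b (m - k)‖) ≤ (wt k ^ s * wt (m - k) ^ s) * (‖a k‖ * ‖b (m - k)‖) :=
          mul_le_mul_of_nonneg_right h3 h4
      _ = _ := by ring
  have hGs : ∀ m, Summable fun k => (wt k ^ s * ‖a k‖) * (wt (m - k) ^ s * ‖b (m - k)‖) :=
    fun m => h1.prod_factor m
  have hks : ∀ m, Summable fun k => wt m ^ s * (‖a k‖ * ‖b (m - k)‖) := fun m =>
    Summable.of_nonneg_of_le (fun k => mul_nonneg (hw m) (mul_nonneg (norm_nonneg _) (norm_nonneg _)))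
      (hG m) (hGs m)
  have hks' : ∀ m, Summable fun k => ‖a k * b (m - k)‖ := fun m => by
    refine Summable.of_nonneg_of_le (fun k => norm_nonneg _) (fun k => ?_) (hks m)
    rw [norm_mul]
    exact le_mul_of_one_le_left (mul_nonneg (norm_nonneg _) (norm_nonneg _)) (hw1 m)
  have hle : ∀ m, wt m ^ s * ‖BB4B37.cnv a b m‖ ≤
      ∑' k, (wt k ^ s * ‖a k‖) * (wt (m - k) ^ s * ‖b (m - k)‖) := by
    intro m
    calc wt m ^ s * ‖BB4B37.cnv a b m‖ ≤ wt m ^ s * ∑' k, ‖a k * b (m - k)‖ :=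
          mul_le_mul_of_nonneg_left (norm_tsum_le_tsum_norm (hks' m)) (hw m)
      _ = ∑' k, wt m ^ s * (‖a k‖ * ‖b (m - k)‖) := by
          rw [← tsum_mul_left]; simp only [norm_mul]
      _ ≤ _ := Summable.tsum_le_tsum (hG m) (hks m) (hGs m)
  have hS : Summable fun m => ∑' k, (wt k ^ s * ‖a k‖) * (wt (m - k) ^ s * ‖b (m - k)‖) := h1.prod
  have hc : InW s (BB4B37.cnv a b) :=
    Summable.of_nonneg_of_le (fun m => mul_nonneg (hw m) (norm_nonneg _)) hle hS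
  refine ⟨hc, ?_⟩
  have h5 := Summable.tsum_le_tsum hle hc hS
  rw [h2] at h5
  exact h5

theorem ee_add (m n : ℤ × ℤ) (z : ℂ) : ee (m + n) z = ee m z * ee n z := by
  rw [ee, ee, ee, ← Complex.exp_add]
  congr 1
  push_cast [Prod.fst_add, Prod.snd_add]
  ring

theorem norm_ee (m : ℤ × ℤ) (z : ℂ) : ‖ee m z‖ = 1 := by
  have h : (2 * Real.pi * I * (m.1 * z.re + m.2 * z.im) : ℂ) =
      ((2 * Real.pi * (m.1 * z.re + m.2 * z.im) : ℝ) : ℂ) * I := by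
    push_cast; ring
  rw [ee, h, Complex.norm_exp_ofReal_mul_I]

theorem wienA_summable {a : ℤ × ℤ → ℂ} (ha : InW 0 a) (z : ℂ) :
    Summable (fun m => ‖a m * ee m z‖) := by
  have h : (fun m => ‖a m * ee m z‖) = fun m => wt m ^ 0 * ‖a m‖ := by
    funext m; rw [norm_mul, norm_ee, mul_one, pow_zero, one_mul]
  rw [h]; exact ha

theorem norm_syn_le {a : ℤ × ℤ → ℂ} (ha : InW 0 a) (z : ℂ) : ‖syn a z‖ ≤ nrm 0 a := by
  refine (norm_tsum_le_tsum_norm (wienA_summable ha z)).trans (le_of_eq ?_)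
  simp only [nrm, norm_mul, norm_ee, mul_one, pow_zero, one_mul]

theorem syn_add {a b : ℤ × ℤ → ℂ} (ha : InW 0 a) (hb : InW 0 b) (z : ℂ) :
    syn (fun m => a m + b m) z = syn a z + syn b z := by
  rw [syn, syn, syn, ← Summable.tsum_add (wienA_summable ha z).of_norm (wienA_summable hb z).of_norm]
  simp only [add_mul]

/-- the same change of variables as in `InW.cnv` -/
theorem syn_cnv {a b : ℤ × ℤ → ℂ} (ha : InW 0 a) (hb : InW 0 b) (z : ℂ) :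
    syn (cnv a b) z = syn a z * syn b z := by
  have h := (wienA_conv_complex (wienA_summable ha z) (wienA_summable hb z)).2
  rw [syn, syn, syn, ← h]
  refine tsum_congr fun m => ?_
  rw [cnv, ← tsum_mul_right]
  refine tsum_congr fun k => ?_
  have h2 : ee m z = ee k z * ee (m - k) z := by rw [← ee_add, add_sub_cancel]
  rw [h2]; ring

end Pool.Agent.BB4B37
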