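import Pool.Agent.W_bb4b37_h24.FourB
import Pool.Agent.W_bb4b37_h24.Wirt

/-! # The weighted Wiener algebra: smoothness of the synthesis -/

set_option autoImplicit false

namespace Pool.Agent.BB4B37

open Complex Filter Topology Set MeasureTheory

theorem wienB_one_le_wt (m : ℤ × ℤ) : 1 ≤ wt m := by
  unfold wt
  have h1 := abs_nonneg (m.1 : ℝ)
  have h2 := abs_nonneg (m.2 : ℝ)
  linarith

theorem wienB_norm_ee (m : ℤ × ℤ) (z : ℂ) : ‖ee m z‖ = 1 := by
  have h : (2 * Real.pi * I * (m.1 * z.re + m.2 * z.im) : ℂ) =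
      ((2 * Real.pi * (m.1 * z.re + m.2 * z.im) : ℝ) : ℂ) * I := by
    push_cast; ring
  rw [ee, h, Complex.norm_exp_ofReal_mul_I]

/-- the phase -/
noncomputable def wienB_th (m : ℤ × ℤ) : ℂ →L[ℝ] ℝ :=
  (2 * Real.pi) • ((m.1 : ℝ) • reCLM + (m.2 : ℝ) • imCLM)

theorem wienB_th_apply (m : ℤ × ℤ) (z : ℂ) :
    wienB_th m z = 2 * Real.pi * (m.1 * z.re + m.2 * z.im) := by
  simp [wienB_th]
  ring

theorem wienB_th_norm (m : ℤ × ℤ) : ‖wienB_th m‖ ≤ 2 * Real.pi * wt m := by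
  refine ContinuousLinearMap.opNorm_le_bound _ ?_ fun z => ?_
  · have := wienB_one_le_wt m
    have := Real.pi_pos
    positivity
  · rw [wienB_th_apply, norm_mul, Real.norm_eq_abs, Real.norm_eq_abs, abs_of_pos Real.two_pi_pos,
      mul_assoc (2 * Real.pi) (wt m)]
    refine mul_le_mul_of_nonneg_left ?_ Real.two_pi_pos.le
    refine (abs_add_le _ _).trans ?_
    rw [abs_mul, abs_mul, wt]
    have h1 := abs_re_le_norm z
    have h2 := abs_im_le_norm z
    have h3 := abs_nonneg (m.1 : ℝ)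
    have h4 := abs_nonneg (m.2 : ℝ)
    have h5 := mul_le_mul_of_nonneg_left h1 h3
    have h6 := mul_le_mul_of_nonneg_left h2 h4
    have h7 := norm_nonneg z
    nlinarith

/-- the circle map -/
noncomputable def wienB_g (t : ℝ) : ℂ := Complex.exp (I * t)

theorem wienB_g_smooth {n : WithTop ℕ∞} : ContDiff ℝ n wienB_g := by
  unfold wienB_g
  exact (contDiff_const.mul ofRealCLM.contDiff).cexp

theorem wienB_g_hasDeriv (t : ℝ) : HasDerivAt wienB_g (I * wienB_g t) t := by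
  unfold wienB_g
  have h1 : HasDerivAt (fun x : ℝ => I * (x : ℂ)) I t := by
    simpa using (ofRealCLM.hasDerivAt (x := t)).const_mul I
  simpa [mul_comm] using h1.cexp

theorem wienB_g_iter (n : ℕ) : iteratedDeriv n wienB_g = fun t => I ^ n * wienB_g t := by
  induction n with
  | zero => funext t; simp
  | succ n ih =>
    rw [iteratedDeriv_succ, ih]
    funext t
    rw [((wienB_g_hasDeriv t).const_mul (I ^ n)).deriv, pow_succ]
    ring

theorem wienB_ee_eq (m : ℤ × ℤ) : ee m = wienB_g ∘ wienB_th m := by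
  funext z
  rw [Function.comp_apply, wienB_th_apply, ee, wienB_g]
  congr 1
  push_cast
  ring

theorem wienB_norm_iter (m : ℤ × ℤ) (j : ℕ) (z : ℂ) :
    ‖iteratedFDeriv ℝ j (ee m) z‖ ≤ (2 * Real.pi * wt m) ^ j := by
  rw [wienB_ee_eq, (wienB_th m).iteratedFDeriv_comp_right (wienB_g_smooth (n := (j : ℕ∞))) z le_rfl]
  refine (ContinuousMultilinearMap.norm_compContinuousLinearMap_le _ _).trans ?_
  have h1 : ‖iteratedFDeriv ℝ j wienB_g (wienB_th m z)‖ = 1 := by
    rw [norm_iteratedFDeriv_eq_norm_iteratedDeriv, wienB_g_iter]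
    simp only [norm_mul, norm_pow, norm_I, one_pow, one_mul]
    rw [wienB_g, mul_comm, Complex.norm_exp_ofReal_mul_I]
  rw [h1, one_mul, Finset.prod_const, Finset.card_univ, Fintype.card_fin]
  exact pow_le_pow_left₀ (norm_nonneg _) (wienB_th_norm m) j

/-- `contDiff_tsum`: `‖iteratedFDeriv ℝ j (ee m) z‖ ≤ (2 π (|m₁| + |m₂|))^j ≤ (2 π)^j wt m ^ s` for
`j ≤ s` (`ee m = exp ∘` a real linear map: by induction on `j`, `fderiv (ee m) z = ee m z • L_m` with
`‖L_m‖ ≤ 2 π (|m₁| + |m₂|)`, or `norm_iteratedFDeriv_comp_le`). -/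
theorem contDiff_syn {s : ℕ} {a : ℤ × ℤ → ℂ} (ha : InW s a) : ContDiff ℝ s (syn a) := by
  have hee : ∀ m, ContDiff ℝ ((s : ℕ∞) : WithTop ℕ∞) (ee m) := fun m => by
    rw [wienB_ee_eq]; exact wienB_g_smooth.comp (wienB_th m).contDiff
  have h := contDiff_tsum (𝕜 := ℝ) (N := (s : ℕ∞)) (f := fun m z => a m * ee m z)
    (v := fun k m => (2 * Real.pi) ^ k * (wt m ^ s * ‖a m‖)) (fun m => contDiff_const.mul (hee m))
    (fun k hk => (show Summable (fun m => wt m ^ s * ‖a m‖) from ha).mul_left _) ?_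
  · exact h
  · intro k m z hk
    have hks : k ≤ s := by exact_mod_cast hk
    have h1 : iteratedFDeriv ℝ k (fun z => a m * ee m z) z = a m • iteratedFDeriv ℝ k (ee m) z := by
      have h2 : ContDiffAt ℝ k (ee m) z := ((hee m).of_le (by exact_mod_cast hk)).contDiffAt
      exact iteratedFDeriv_const_smul_apply (a := a m) h2
    rw [h1, norm_smul]
    have h3 := wienB_norm_iter m k z
    calc ‖a m‖ * ‖iteratedFDeriv ℝ k (ee m) z‖ ≤ ‖a m‖ * (2 * Real.pi * wt m) ^ k :=
          mul_le_mul_of_nonneg_left h3 (norm_nonneg _)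
      _ = (2 * Real.pi) ^ k * (wt m ^ k * ‖a m‖) := by rw [mul_pow]; ring
      _ ≤ _ := by
          refine mul_le_mul_of_nonneg_left ?_ (pow_nonneg Real.two_pi_pos.le _)
          exact mul_le_mul_of_nonneg_right (pow_le_pow_right₀ (wienB_one_le_wt m) hks) (norm_nonneg _)

/-- derivative of the terms -/
noncomputable def wienB_D (a : ℤ × ℤ → ℂ) (m : ℤ × ℤ) (z : ℂ) : ℂ →L[ℝ] ℂ :=
  (I * (a m * ee m z)) • (ofRealCLM.comp (wienB_th m))

theorem wienB_hasFDerivAt (a : ℤ × ℤ → ℂ) (m : ℤ × ℤ) (z : ℂ) :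
    HasFDerivAt (fun z => a m * ee m z) (wienB_D a m z) z := by
  have h1 := ((wienB_g_hasDeriv (wienB_th m z)).hasFDerivAt.comp z (wienB_th m).hasFDerivAt).const_mul (a m)
  have h2 : (fun z => a m * ee m z) = fun z => a m * (wienB_g ∘ wienB_th m) z := by
    rw [wienB_ee_eq]
  rw [h2]
  refine h1.congr_fderiv (ContinuousLinearMap.ext fun v => ?_)
  have h3 : ee m z = wienB_g (wienB_th m z) := by rw [wienB_ee_eq]; rfl
  show a m * ((wienB_th m v : ℝ) • (I * wienB_g (wienB_th m z))) = I * (a m * ee m z) * ((wienB_th m v : ℝ) : ℂ)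
  rw [h3, real_smul]
  ring

/-- `hasFDerivAt_tsum` (or `fderiv_tsum`): termwise derivatives;
`∂_z ee m = π i (m₁ - i m₂) ee m`, `∂_z̄ ee m = π i (m₁ + i m₂) ee m`. -/
theorem dz_syn {a : ℤ × ℤ → ℂ} (ha : InW 1 a) (z : ℂ) :
    dz (syn a) z = syn (fun m => Real.pi * I * ((m.1 : ℂ) - m.2 * I) * a m) z ∧
    dzb (syn a) z = syn (fun m => Real.pi * I * ((m.1 : ℂ) + m.2 * I) * a m) z := by
  have ha1 : Summable fun m => 2 * Real.pi * (wt m ^ 1 * ‖a m‖) :=
    (show Summable (fun m => wt m ^ 1 * ‖a m‖) from ha).mul_left _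
  have ha0 : Summable fun m => ‖a m‖ := by
    refine Summable.of_nonneg_of_le (fun m => norm_nonneg _) (fun m => ?_)
      (show Summable (fun m => wt m ^ 1 * ‖a m‖) from ha)
    rw [pow_one]
    exact le_mul_of_one_le_left (norm_nonneg _) (wienB_one_le_wt m)
  have hD : ∀ m x, ‖wienB_D a m x‖ ≤ 2 * Real.pi * (wt m ^ 1 * ‖a m‖) := by
    intro m x
    rw [wienB_D, norm_smul, norm_mul, norm_mul, norm_I, wienB_norm_ee, one_mul, mul_one]
    have h1 : ‖ofRealCLM.comp (wienB_th m)‖ ≤ 2 * Real.pi * wt m := by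
      refine (ContinuousLinearMap.opNorm_comp_le _ _).trans ?_
      rw [ofRealCLM_norm, one_mul]
      exact wienB_th_norm m
    calc ‖a m‖ * ‖ofRealCLM.comp (wienB_th m)‖ ≤ ‖a m‖ * (2 * Real.pi * wt m) :=
          mul_le_mul_of_nonneg_left h1 (norm_nonneg _)
      _ = _ := by ring
  have hsum0 : Summable fun m => a m * ee m z := by
    refine Summable.of_norm ?_
    simpa only [norm_mul, wienB_norm_ee, mul_one] using ha0
  have hF := hasFDerivAt_tsum ha1 (fun m x => wienB_hasFDerivAt a m x) hD hsum0 z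
  have hDs : Summable fun m => wienB_D a m z :=
    Summable.of_norm (Summable.of_nonneg_of_le (fun m => norm_nonneg _) (fun m => hD m z) ha1)
  have hwt : ∀ m : ℤ × ℤ, ‖(m.1 : ℂ) - m.2 * I‖ ≤ wt m ∧ ‖(m.1 : ℂ) + m.2 * I‖ ≤ wt m := by
    intro m
    have h1 : ‖(m.1 : ℂ)‖ = |(m.1 : ℝ)| := by
      rw [← ofReal_intCast, norm_real, Real.norm_eq_abs]
    have h2 : ‖(m.2 : ℂ) * I‖ = |(m.2 : ℝ)| := by
      rw [norm_mul, norm_I, mul_one, ← ofReal_intCast, norm_real, Real.norm_eq_abs]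
    constructor
    · refine (norm_sub_le _ _).trans ?_
      rw [h1, h2, wt]; linarith
    · refine (norm_add_le _ _).trans ?_
      rw [h1, h2, wt]; linarith
  have hbd : ∀ (c : ℤ × ℤ → ℂ), (∀ m, ‖c m‖ ≤ wt m) →
      Summable fun m => Real.pi * I * c m * a m * ee m z := by
    intro c hc
    refine Summable.of_norm (Summable.of_nonneg_of_le (fun m => norm_nonneg _) (fun m => ?_) ha1)
    rw [norm_mul, norm_mul, norm_mul, norm_mul, norm_I, wienB_norm_ee, mul_one, mul_one, norm_real,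
      Real.norm_eq_abs, abs_of_pos Real.pi_pos, pow_one]
    have h1 := hc m
    have h2 := Real.pi_pos
    have h3 := norm_nonneg (a m)
    have h4 : ‖c m‖ * ‖a m‖ ≤ wt m * ‖a m‖ := mul_le_mul_of_nonneg_right h1 h3
    have h5 : 0 ≤ wt m * ‖a m‖ := mul_nonneg (zero_le_one.trans (wienB_one_le_wt m)) h3
    have h6 := mul_le_mul_of_nonneg_left h4 h2.le
    have h7 := mul_nonneg h2.le h5
    calc Real.pi * ‖c m‖ * ‖a m‖ = Real.pi * (‖c m‖ * ‖a m‖) := by ring
      _ ≤ Real.pi * (wt m * ‖a m‖) := h6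
      _ ≤ 2 * Real.pi * (wt m * ‖a m‖) := by linarith
  have hA := hbd (fun m => (m.1 : ℂ) - m.2 * I) (fun m => (hwt m).1)
  have hB := hbd (fun m => (m.1 : ℂ) + m.2 * I) (fun m => (hwt m).2)
  refine dz_of_hasFDerivAt hF fun v => ?_
  have hv : (∑' m, wienB_D a m z) v = ∑' m, wienB_D a m z v :=
    (ContinuousLinearMap.apply ℝ ℂ v).map_tsum hDs
  rw [hv, syn, syn, ← tsum_mul_right, ← tsum_mul_right,
    ← Summable.tsum_add (hA.mul_right v) (hB.mul_right _)]
  refine tsum_congr fun m => ?_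
  have h1 : (wienB_D a m z) v = I * (a m * ee m z) * ((2 * Real.pi * (m.1 * v.re + m.2 * v.im) : ℝ) : ℂ) := by
    rw [← wienB_th_apply]; rfl
  rw [h1]
  have h2 : v = v.re + v.im * I := (re_add_im v).symm
  have h3 : (starRingEnd ℂ) v = v.re - v.im * I := by
    apply Complex.ext <;> simp
  rw [h3]
  conv_rhs => rw [h2]
  simp only [add_re, ofReal_re, mul_re, ofReal_im, I_re, I_im, add_im, mul_im, mul_zero, mul_one,
    zero_mul, sub_zero, zero_add, add_zero]
  push_cast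
  linear_combination (2 * I * a m * ee m z * Real.pi * m.2 * v.im) * I_sq

end Pool.Agent.BB4B37
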