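import Mathlib

/-! # The weighted Wiener algebra on the torus `ℝ²/ℤ²`: definitions -/

set_option autoImplicit false

namespace Pool.Agent.BB4B37

open Complex Filter Topology Set MeasureTheory

/-- the weight -/
noncomputable def wt (m : ℤ × ℤ) : ℝ := 1 + |(m.1 : ℝ)| + |(m.2 : ℝ)|

/-- weighted summability -/
def InW (s : ℕ) (a : ℤ × ℤ → ℂ) : Prop := Summable fun m => wt m ^ s * ‖a m‖

/-- the weighted norm -/
noncomputable def nrm (s : ℕ) (a : ℤ × ℤ → ℂ) : ℝ := ∑' m, wt m ^ s * ‖a m‖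

/-- the characters -/
noncomputable def ee (m : ℤ × ℤ) (z : ℂ) : ℂ :=
  Complex.exp (2 * Real.pi * I * (m.1 * z.re + m.2 * z.im))

/-- Fourier synthesis -/
noncomputable def syn (a : ℤ × ℤ → ℂ) (z : ℂ) : ℂ := ∑' m, a m * ee m z

/-- convolution -/
noncomputable def cnv (a b : ℤ × ℤ → ℂ) (m : ℤ × ℤ) : ℂ := ∑' k, a k * b (m - k)

/-- the Beurling multiplier `∂_z̄ v ↦ ∂_z v` -/
noncomputable def Bop (h : ℤ × ℤ → ℂ) (m : ℤ × ℤ) : ℂ :=
  if m = 0 then 0 else ((m.1 : ℂ) - m.2 * I) / ((m.1 : ℂ) + m.2 * I) * h m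

/-- the multiplier `∂_z̄ v ↦ v` -/
noncomputable def Cop (h : ℤ × ℤ → ℂ) (m : ℤ × ℤ) : ℂ :=
  if m = 0 then 0 else h m / (Real.pi * I * ((m.1 : ℂ) + m.2 * I))

end Pool.Agent.BB4B37
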